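import Pool.Agent.H442R2.TSM.Defs

/-!
TSM project, task TB: Poisson summation for test functions.
-/

namespace Pool.Agent.H442R2.TSM

open MeasureTheory FourierTransform Filter

namespace TaskB

/-- the scaled function has compact support -/
lemma comp_supp (f : ℝ → ℂ) (hf : Tst f) (l : ℝ) (hl : 0 < l) :
    HasCompactSupport (fun y => f (l * y)) := by
  apply HasCompactSupport.of_support_subset_isCompact (K := Set.Icc (1 / l) (4 / l)) isCompact_Icc
  intro y hy
  have h1 : l * y ∈ Set.Icc (1 : ℝ) 4 := by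
    by_contra h
    exact hy (hf.supp _ h)
  exact ⟨by rw [div_le_iff₀ hl]; linarith [h1.1], by rw [le_div_iff₀ hl]; linarith [h1.2]⟩

lemma smooth (f : ℝ → ℂ) (hf : Tst f) (l : ℝ) :
    ContDiff ℝ ((⊤ : ℕ∞) : WithTop ℕ∞) (fun y => f (l * y)) :=
  hf.smooth.comp (contDiff_const.mul contDiff_id)

/-- the Schwartz function `y ↦ f (l y)` -/
noncomputable def sch (f : ℝ → ℂ) (hf : Tst f) (l : ℝ) (hl : 0 < l) : SchwartzMap ℝ ℂ :=
  (comp_supp f hf l hl).toSchwartzMap (smooth f hf l)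

lemma sch_apply (f : ℝ → ℂ) (hf : Tst f) (l : ℝ) (hl : 0 < l) (y : ℝ) :
    sch f hf l hl y = f (l * y) := rfl

lemma fourier_sch (f : ℝ → ℂ) (_hf : Tst f) (l : ℝ) (hl : 0 < l) (w : ℝ) :
    (𝓕 (fun y => f (l * y)) : ℝ → ℂ) w = ((1 / l : ℝ) : ℂ) * Fh f (w / l) := by
  rw [Real.fourier_real_eq_integral_exp_smul]
  unfold Fh
  have h1 : ∀ v : ℝ, Complex.exp (((-2 * Real.pi * v * w : ℝ) : ℂ) * Complex.I) • f (l * v) =
      (fun u : ℝ => f u * KF.e (-(w / l * u))) (l * v) := by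
    intro v
    simp only [smul_eq_mul]
    rw [mul_comm]
    congr 1
    unfold KF.e
    congr 1
    have : w / l * (l * v) = w * v := by field_simp
    rw [this]
    push_cast
    ring
  simp_rw [h1]
  rw [Measure.integral_comp_mul_left (fun u : ℝ => f u * KF.e (-(w / l * u))) l,
    abs_of_pos (inv_pos.2 hl), one_div, Complex.real_smul]

lemma char_eq (j : ℤ) (x : ℝ) : fourier j (x : UnitAddCircle) = KF.e ((j : ℝ) * x) := by
  rw [fourier_coe_apply]
  unfold KF.e
  congr 1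
  push_cast
  ring

end TaskB

open TaskB in
theorem pois (f : ℝ → ℂ) (hf : Tst f) (l : ℝ) (hl : 0 < l) (x : ℝ) :
    Summable (fun j : ℤ => Fh f ((j : ℝ) / l) * KF.e ((j : ℝ) * x)) ∧
    ∑' n : ℤ, f (l * ((n : ℝ) + x)) =
      ((1 / l : ℝ) : ℂ) * ∑' j : ℤ, Fh f ((j : ℝ) / l) * KF.e ((j : ℝ) * x) := by
  have hlC : ((1 / l : ℝ) : ℂ) ≠ 0 := by
    rw [Complex.ofReal_ne_zero]
    positivity
  have hF : ∀ w : ℝ, (𝓕 (sch f hf l hl)) w = ((1 / l : ℝ) : ℂ) * Fh f (w / l) := by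
    intro w
    rw [← fourier_sch f hf l hl w]
    rfl
  constructor
  · have h1 : Summable (fun j : ℤ => (𝓕 (sch f hf l hl)) (j : ℝ)) :=
      summable_of_isBigO (Real.summable_abs_int_rpow one_lt_two)
        (((𝓕 (sch f hf l hl)).isBigO_cocompact_rpow (-2)).comp_tendsto Int.tendsto_coe_cofinite)
    have h2 : Summable (fun j : ℤ => Fh f ((j : ℝ) / l)) := by
      have h3 := h1.mul_left (((1 / l : ℝ) : ℂ)⁻¹)
      refine h3.congr (fun j => ?_)
      rw [hF, inv_mul_cancel_left₀ hlC]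
    refine Summable.of_norm ?_
    refine h2.norm.congr (fun j => ?_)
    rw [norm_mul, KF.norm_e, mul_one]
  · have h1 := SchwartzMap.tsum_eq_tsum_fourier (sch f hf l hl) x
    have h2 : ∑' n : ℤ, f (l * ((n : ℝ) + x)) = ∑' n : ℤ, (sch f hf l hl) (x + n) := by
      congr 1
      ext n
      rw [sch_apply, add_comm]
    rw [h2, h1, ← tsum_mul_left]
    congr 1
    ext n
    rw [hF, char_eq, mul_assoc]

end Pool.Agent.H442R2.TSM
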