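import Pool.Agent.H442R2.TSM.Osc
import Pool.Agent.H442R2.TSM.Poi
import Pool.Agent.H307R2.LU

/-!
TSM project, task TC: smooth approximation of zeta on the critical line.
-/

namespace Pool.Agent.H442R2.TSM

open Finset MeasureTheory

namespace TaskC

/-- the point `1/2 + it` -/
noncomputable def sp (t : ℝ) : ℂ := 1 / 2 + (t : ℂ) * Complex.I

lemma sp_re (t : ℝ) : (sp t).re = 1 / 2 := by simp [sp]

lemma sp_im (t : ℝ) : (sp t).im = t := by simp [sp]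

/-- the smooth partial sum -/
noncomputable def Sm (t Y : ℝ) : ℂ :=
  ∑ n ∈ Icc 1 ⌊2 * Y⌋₊, ((Cu ((n : ℝ) / Y) : ℝ) : ℂ) * (n : ℂ) ^ (-sp t)

lemma Sm_ext {t Y : ℝ} (hY : 0 < Y) {K : ℕ} (hK : ⌊2 * Y⌋₊ ≤ K) :
    Sm t Y = ∑ n ∈ Icc 1 K, ((Cu ((n : ℝ) / Y) : ℝ) : ℂ) * (n : ℂ) ^ (-sp t) := by
  unfold Sm
  apply Finset.sum_subset
  · exact Finset.Icc_subset_Icc_right hK
  · intro n hn hn'
    rw [Finset.mem_Icc] at hn hn'
    have h1 : ⌊2 * Y⌋₊ < n := by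
      by_contra h
      exact hn' ⟨hn.1, not_lt.mp h⟩
    have h2 : 2 * Y < n := Nat.lt_of_floor_lt h1
    have h3 : (2 : ℝ) ≤ (n : ℝ) / Y := by rw [le_div_iff₀ hY]; exact h2.le
    rw [cu_facts.2.2.2 _ h3]
    simp

lemma Sm_diff {t Y : ℝ} (hY : 0 < Y) : Sm t (2 * Y) - Sm t Y =
    ∑ n ∈ Icc 1 ⌊4 * Y⌋₊, ((Bu ((n : ℝ) / Y) : ℝ) : ℂ) * (n : ℂ) ^ (-sp t) := by
  have e : ⌊2 * (2 * Y)⌋₊ = ⌊4 * Y⌋₊ := by congr 1; ring
  rw [Sm_ext (t := t) (by positivity : 0 < 2 * Y) (K := ⌊4 * Y⌋₊) e.le,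
    Sm_ext (t := t) hY (K := ⌊4 * Y⌋₊) (Nat.floor_le_floor (by linarith)),
    ← Finset.sum_sub_distrib]
  refine Finset.sum_congr rfl fun n _ => ?_
  have : (n : ℝ) / (2 * Y) = (n : ℝ) / Y / 2 := by field_simp
  rw [this, ← sub_mul, Bu]
  push_cast
  ring

/-- the bump times the oscillating factor -/
noncomputable def ff (t u : ℝ) : ℂ :=
  ((u ^ (-(1 / 2) : ℝ) * Bu u : ℝ) : ℂ) * EE t 0 0 u

lemma ff_pos {t u : ℝ} (hu : 0 < u) : ff t u = ((Bu u : ℝ) : ℂ) * (u : ℂ) ^ (-sp t) := by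
  unfold ff EE
  have hu' : (u : ℂ) ≠ 0 := by exact_mod_cast hu.ne'
  have h1 : (u : ℂ) ^ (-sp t) = ((u ^ (-(1 / 2) : ℝ) : ℝ) : ℂ) *
      Complex.exp (-((t * Real.log u : ℝ) : ℂ) * Complex.I) := by
    rw [Complex.ofReal_cpow hu.le, Complex.cpow_def_of_ne_zero hu',
      Complex.cpow_def_of_ne_zero hu', ← Complex.exp_add]
    congr 1
    rw [← Complex.ofReal_log hu.le]
    unfold sp
    push_cast
    ring
  rw [h1]
  have h2 : -((t * Real.log u + 0 / u : ℝ) : ℂ) * Complex.I - ((0 / u ^ 2 : ℝ) : ℂ) =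
      -((t * Real.log u : ℝ) : ℂ) * Complex.I := by
    push_cast
    simp
  rw [h2]
  push_cast
  ring

lemma ff_zero {t u : ℝ} (hu : u ≤ 1 ∨ 4 ≤ u) : ff t u = 0 := by
  have h : Bu u = 0 := by
    rcases hu with h | h
    · exact bu_facts.2.2.1 u h
    · exact bu_facts.2.2.2.1 u h
  unfold ff
  rw [h]
  simp

lemma tst_ff (t : ℝ) : Tst (ff t) := osc_tst _ tst_half t 0 0

/-- Poisson summation for a dyadic block -/
lemma Sm_pois {t Y : ℝ} (hY : 0 < Y) : Sm t (2 * Y) - Sm t Y =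
    (Y : ℂ) ^ (-sp t) * ((Y : ℂ) * ∑' j : ℤ, Fh (ff t) ((j : ℝ) / (1 / Y)) *
      KF.e ((j : ℝ) * 0)) := by
  have h1 := (pois (ff t) (tst_ff t) (1 / Y) (by positivity) 0).2
  have h2 : ∑' n : ℤ, ff t (1 / Y * ((n : ℝ) + 0)) =
      ∑ n ∈ Icc 1 ⌊4 * Y⌋₊, ff t ((n : ℝ) / Y) := by
    rw [tsum_eq_sum (s := (Icc 1 ⌊4 * Y⌋₊).map Nat.castEmbedding)]
    · rw [Finset.sum_map]
      refine Finset.sum_congr rfl fun n _ => ?_
      congr 1
      simp
      ring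
    · intro n hn
      apply ff_zero
      by_cases h0 : n ≤ 0
      · left
        have : (n : ℝ) ≤ 0 := by exact_mod_cast h0
        have h3 : 1 / Y * ((n : ℝ) + 0) ≤ 0 := by
          rw [add_zero]
          exact mul_nonpos_of_nonneg_of_nonpos (by positivity) this
        linarith
      · right
        push Not at h0
        obtain ⟨m, rfl⟩ := Int.eq_ofNat_of_zero_le h0.le
        have hm : ¬ (1 ≤ m ∧ m ≤ ⌊4 * Y⌋₊) := by
          intro h
          apply hn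
          rw [Finset.mem_map]
          exact ⟨m, Finset.mem_Icc.mpr h, rfl⟩
        have hm1 : 1 ≤ m := by exact_mod_cast h0
        have hm2 : ⌊4 * Y⌋₊ < m := by
          by_contra h
          exact hm ⟨hm1, not_lt.mp h⟩
        have hm3 : 4 * Y < m := Nat.lt_of_floor_lt hm2
        rw [add_zero]
        have : ((m : ℤ) : ℝ) = (m : ℝ) := by simp
        show 4 ≤ 1 / Y * (((m : ℕ) : ℤ) : ℝ)
        rw [this, one_div, inv_mul_eq_div, le_div_iff₀ hY]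
        exact hm3.le
  rw [h2] at h1
  have h4 : ((1 / (1 / Y) : ℝ) : ℂ) = (Y : ℂ) := by rw [one_div_one_div]
  rw [h4] at h1
  rw [← h1, Sm_diff hY, Finset.mul_sum]
  refine Finset.sum_congr rfl fun n hn => ?_
  rw [Finset.mem_Icc] at hn
  have hn0 : (0 : ℝ) < n := by exact_mod_cast hn.1
  rw [ff_pos (by positivity)]
  have h5 : (n : ℂ) ^ (-sp t) = (Y : ℂ) ^ (-sp t) * (((n : ℝ) / Y : ℝ) : ℂ) ^ (-sp t) := by
    have hYc : (Y : ℂ) ≠ 0 := by exact_mod_cast hY.ne'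
    rw [← Complex.mul_cpow_ofReal_nonneg hY.le (by positivity)]
    congr 1
    push_cast
    field_simp
  rw [h5]
  ring

/-- the difference of two consecutive dyadic smooth sums -/
lemma Sm_step : ∃ C : ℝ, 0 < C ∧ ∀ t : ℝ, 1 ≤ t → ∀ Y : ℝ, 1 ≤ Y →
    ‖Sm t (2 * Y) - Sm t Y‖ ≤ C * Y * (1 / t ^ 10 + ((1 + t) / Y) ^ 10) := by
  obtain ⟨C₁, hC₁, h1⟩ := osc_zero _ tst_half 10
  obtain ⟨C₂, hC₂, h2⟩ := osc_fourier _ tst_half 10
  have hs : Summable (fun j : ℤ => 1 / (j : ℝ) ^ 10) :=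
    Real.summable_one_div_int_pow.mpr (by norm_num)
  set K0 : ℝ := ∑' j : ℤ, 1 / (j : ℝ) ^ 10 with hK0
  have hK0n : 0 ≤ K0 := tsum_nonneg fun j => by positivity
  refine ⟨C₁ + C₂ * K0 + 1, by positivity, ?_⟩
  intro t ht Y hY
  have hY0 : 0 < Y := by linarith
  rw [Sm_pois hY0, norm_mul, norm_mul, Complex.norm_cpow_eq_rpow_re_of_pos hY0]
  have hre : (-sp t).re = -(1 / 2) := by rw [Complex.neg_re, sp_re]
  rw [hre]
  have hr : Y ^ (-(1 / 2) : ℝ) ≤ 1 := Real.rpow_le_one_of_one_le_of_nonpos hY (by norm_num)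
  have hr0 : 0 ≤ Y ^ (-(1 / 2) : ℝ) := (Real.rpow_pos_of_pos hY0 _).le
  have hYn : ‖(Y : ℂ)‖ = Y := by rw [Complex.norm_real, Real.norm_of_nonneg hY0.le]
  rw [hYn]
  have hb : HasSum (fun j : ℤ => (if j = 0 then C₁ / t ^ 10 else 0) +
      C₂ * ((1 + t) / Y) ^ 10 * (1 / (j : ℝ) ^ 10))
      (C₁ / t ^ 10 + C₂ * ((1 + t) / Y) ^ 10 * K0) :=
    (hasSum_ite_eq (0 : ℤ) (C₁ / t ^ 10)).add (hs.hasSum.mul_left _)
  have h3 : ‖∑' j : ℤ, Fh (ff t) ((j : ℝ) / (1 / Y)) * KF.e ((j : ℝ) * 0)‖ ≤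
      C₁ / t ^ 10 + C₂ * ((1 + t) / Y) ^ 10 * K0 := by
    refine tsum_of_norm_bounded hb fun j => ?_
    rw [norm_mul, KF.norm_e, mul_one]
    by_cases hj : j = 0
    · subst hj
      have h4 := h1 t (by linarith)
      have h5 : Fh (ff t) (((0 : ℤ) : ℝ) / (1 / Y)) =
          ∫ u, ((u ^ (-(1 / 2) : ℝ) * Bu u : ℝ) : ℂ) * EE t 0 0 u := by
        unfold Fh
        congr 1
        funext u
        simp [KF.e_zero, ff]
      rw [h5]
      have h6 : |t| ^ 10 = t ^ 10 := by rw [abs_of_pos (by linarith)]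
      rw [h6] at h4
      simpa using h4
    · have hj' : (j : ℝ) ≠ 0 := by exact_mod_cast hj
      have h4 := h2 t 0 0 le_rfl ((j : ℝ) / (1 / Y)) (div_ne_zero hj' (by positivity))
      rw [if_neg hj, zero_add]
      refine h4.trans (le_of_eq ?_)
      have h7 : (1 + |t| + |(0 : ℝ)| + 0) / |(j : ℝ) / (1 / Y)| = (1 + t) / Y / |(j : ℝ)| := by
        rw [abs_zero, abs_div, abs_of_pos (by positivity : 0 < 1 / Y),
          abs_of_pos (by linarith : 0 < t)]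
        field_simp
        ring
      rw [h7, div_pow _ |(j : ℝ)|, mul_div_assoc']
      have h8 : |(j : ℝ)| ^ 10 = (j : ℝ) ^ 10 := by
        rw [← abs_pow, abs_of_nonneg (by positivity)]
      rw [h8]
      ring
  calc Y ^ (-(1 / 2) : ℝ) * (Y * ‖∑' j : ℤ, Fh (ff t) ((j : ℝ) / (1 / Y)) * KF.e ((j : ℝ) * 0)‖)
      ≤ 1 * (Y * (C₁ / t ^ 10 + C₂ * ((1 + t) / Y) ^ 10 * K0)) := by
        gcongr
    _ = Y * (C₁ * (1 / t ^ 10) + C₂ * K0 * ((1 + t) / Y) ^ 10) := by ring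
    _ ≤ Y * ((C₁ + C₂ * K0 + 1) * (1 / t ^ 10) + (C₁ + C₂ * K0 + 1) * ((1 + t) / Y) ^ 10) := by
        have ha : 0 ≤ C₂ * K0 := by positivity
        gcongr
        · linarith
        · linarith
    _ = _ := by ring

/-- telescoping from `Y` to a scale comparable to `T ^ 4` -/
lemma Sm_tel : ∃ C : ℝ, 0 < C ∧ ∀ T : ℝ, 1 ≤ T → ∀ t ∈ Set.Icc T (2 * T), ∀ Y : ℝ,
    T ^ (4 / 3 : ℝ) ≤ Y → Y ≤ 2 * T ^ 2 →
    ∃ Y' : ℝ, T ^ 4 ≤ Y' ∧ Y' ≤ 2 * T ^ 4 ∧ ‖Sm t Y' - Sm t Y‖ ≤ C / T := by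
  obtain ⟨C, hC, hstep⟩ := Sm_step
  refine ⟨C * (2 + 2 * 3 ^ 10), by positivity, ?_⟩
  intro T hT t ht Y hY1 hY2
  have hT0 : 0 < T := by linarith
  have hT43 : (1 : ℝ) ≤ T ^ (4 / 3 : ℝ) := Real.one_le_rpow hT (by norm_num)
  have hY : 1 ≤ Y := hT43.trans hY1
  have hY0 : 0 < Y := by linarith
  have hY3 : T ^ 4 ≤ Y ^ 3 := by
    have h1 : (T ^ (4 / 3 : ℝ)) ^ 3 = T ^ 4 := by
      rw [← Real.rpow_natCast, ← Real.rpow_mul hT0.le, ← Real.rpow_natCast T 4]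
      norm_num
    rw [← h1]
    exact pow_le_pow_left₀ (by positivity) hY1 3
  have hex : ∃ i : ℕ, T ^ 4 ≤ 2 ^ i * Y := by
    obtain ⟨i, hi⟩ := pow_unbounded_of_one_lt (T ^ 4) (one_lt_two)
    exact ⟨i, hi.le.trans (le_mul_of_one_le_right (by positivity) hY)⟩
  classical
  set I := Nat.find hex with hI
  have hI1 : T ^ 4 ≤ 2 ^ I * Y := Nat.find_spec hex
  have hlt : ∀ i < I, 2 ^ i * Y < T ^ 4 := fun i hi => not_le.mp (Nat.find_min hex hi)
  have hI2 : 2 ^ I * Y ≤ 2 * T ^ 4 := by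
    rcases Nat.eq_zero_or_pos I with h0 | h0
    · rw [h0, pow_zero, one_mul]
      refine hY2.trans ?_
      have : T ^ 2 ≤ T ^ 4 := pow_le_pow_right₀ hT (by norm_num)
      linarith
    · have h1 := hlt (I - 1) (by omega)
      have h2 : (2 : ℝ) ^ I = 2 * 2 ^ (I - 1) := by
        rw [← pow_succ']; congr 1; omega
      rw [h2]
      linarith
  refine ⟨2 ^ I * Y, hI1, hI2, ?_⟩
  have hIle : (I : ℝ) ≤ 2 * T ^ 4 := by
    have h1 : (I : ℝ) ≤ 2 ^ I := by exact_mod_cast (Nat.lt_two_pow_self (n := I)).le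
    have h2 : (2 : ℝ) ^ I ≤ 2 ^ I * Y := le_mul_of_one_le_right (by positivity) hY
    linarith
  have htel : Sm t (2 ^ I * Y) - Sm t Y =
      ∑ i ∈ range I, (Sm t (2 ^ (i + 1) * Y) - Sm t (2 ^ i * Y)) := by
    rw [Finset.sum_range_sub (fun i => Sm t (2 ^ i * Y))]
    simp
  rw [htel]
  have hb : ∀ i ∈ range I, ‖Sm t (2 ^ (i + 1) * Y) - Sm t (2 ^ i * Y)‖ ≤
      C * (1 / T ^ 6 + 3 ^ 10 / T ^ 2 * (1 / 2) ^ i) := by
    intro i hi
    have hi' := hlt i (Finset.mem_range.mp hi)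
    have h2i : (1 : ℝ) ≤ 2 ^ i := one_le_pow₀ (by norm_num)
    have h1 := hstep t (hT.trans ht.1) (2 ^ i * Y) (by nlinarith)
    have h2 : 2 ^ (i + 1) * Y = 2 * (2 ^ i * Y) := by rw [pow_succ]; ring
    rw [h2]
    refine h1.trans ?_
    rw [mul_assoc]
    refine mul_le_mul_of_nonneg_left ?_ hC.le
    rw [mul_add]
    have ht1 : 1 / t ^ 10 ≤ 1 / T ^ 10 :=
      one_div_le_one_div_of_le (by positivity) (pow_le_pow_left₀ hT0.le ht.1 10)
    refine add_le_add ?_ ?_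
    · calc 2 ^ i * Y * (1 / t ^ 10) ≤ T ^ 4 * (1 / T ^ 10) :=
            mul_le_mul hi'.le ht1 (by have := ht.1; positivity) (by positivity)
        _ = 1 / T ^ 6 := by field_simp
    · have h3 : (1 + t) ^ 10 ≤ (3 * T) ^ 10 := by
        have h4 := ht.1
        have h5 := ht.2
        exact pow_le_pow_left₀ (by linarith) (by linarith) 10
      have h4 : (2 : ℝ) ^ i * T ^ 12 ≤ (2 ^ i * Y) ^ 9 := by
        rw [mul_pow]
        refine mul_le_mul ?_ ?_ (by positivity) (by positivity)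
        · exact le_self_pow₀ h2i (by norm_num)
        · calc T ^ 12 = (T ^ 4) ^ 3 := by ring
            _ ≤ (Y ^ 3) ^ 3 := pow_le_pow_left₀ (by positivity) hY3 3
            _ = Y ^ 9 := by ring
      calc 2 ^ i * Y * ((1 + t) / (2 ^ i * Y)) ^ 10
          = (1 + t) ^ 10 / (2 ^ i * Y) ^ 9 := by
            rw [div_pow]
            field_simp
        _ ≤ (3 * T) ^ 10 / (2 ^ i * T ^ 12) := by gcongr
        _ = 3 ^ 10 / T ^ 2 * (1 / 2) ^ i := by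
            rw [mul_pow, one_div, inv_pow]
            field_simp
  refine (norm_sum_le _ _).trans ((Finset.sum_le_sum hb).trans ?_)
  rw [← Finset.mul_sum, Finset.sum_add_distrib, ← Finset.mul_sum, Finset.sum_const, card_range,
    nsmul_eq_mul, mul_div_assoc]
  refine mul_le_mul_of_nonneg_left ?_ hC.le
  have hg : ∑ i ∈ range I, (1 / 2 : ℝ) ^ i ≤ 2 := by
    have h1 := sum_geometric_two_le I
    simpa using h1
  have hTT : T ≤ T ^ 2 := by nlinarith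
  calc (I : ℝ) * (1 / T ^ 6) + 3 ^ 10 / T ^ 2 * ∑ i ∈ range I, (1 / 2 : ℝ) ^ i
      ≤ 2 * T ^ 4 * (1 / T ^ 6) + 3 ^ 10 / T ^ 2 * 2 := by gcongr
    _ = (2 + 2 * 3 ^ 10) / T ^ 2 := by field_simp
    _ ≤ (2 + 2 * 3 ^ 10) / T := by gcongr

/-! ### the limit -/

/-- the derivative of the cutoff -/
noncomputable def Cd (u : ℝ) : ℝ := deriv Cu u

lemma Cu_diff : Differentiable ℝ Cu := cu_facts.1.differentiable (by simp)

lemma Cd_cont : Continuous Cd := cu_facts.1.continuous_deriv (by simp)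

lemma Cd_smooth : ContDiff ℝ ((⊤ : ℕ∞) : WithTop ℕ∞) Cd :=
  (contDiff_infty_iff_deriv.mp cu_facts.1).2

lemma Cd_zero {u : ℝ} (hu : u ≤ 1 ∨ 2 ≤ u) : Cd u = 0 := by
  rcases hu with h | h
  · have h1 : IsLocalMax Cu u := by
      refine Filter.Eventually.of_forall fun x => ?_
      rw [cu_facts.2.2.1 u h]
      exact (cu_facts.2.1 x).2
    exact h1.deriv_eq_zero
  · have h1 : IsLocalMin Cu u := by
      refine Filter.Eventually.of_forall fun x => ?_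
      rw [cu_facts.2.2.2 u h]
      exact (cu_facts.2.1 x).1
    exact h1.deriv_eq_zero

lemma Cd_bdd : ∃ L : ℝ, 0 < L ∧ ∀ u, |Cd u| ≤ L := by
  have h1 : HasCompactSupport Cd := by
    refine HasCompactSupport.intro (isCompact_Icc (a := (1 : ℝ)) (b := 2)) fun u hu => ?_
    apply Cd_zero
    by_contra h
    push Not at h
    exact hu ⟨h.1.le, h.2.le⟩
  obtain ⟨L, hL⟩ := Cd_cont.bounded_above_of_compact_support h1
  refine ⟨max L 1, by positivity, fun u => ?_⟩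
  rw [← Real.norm_eq_abs]
  exact (hL u).trans (le_max_left _ _)

lemma tst_Cd : Tst (fun u => ((u ^ (1 / 2 : ℝ) * Cd u : ℝ) : ℂ)) := by
  constructor
  · refine Complex.ofRealCLM.contDiff.comp ?_
    rw [contDiff_iff_contDiffAt]
    intro u
    by_cases hu : u < 1
    · have h1 : (fun u : ℝ => u ^ (1 / 2 : ℝ) * Cd u) =ᶠ[nhds u] fun _ => (0 : ℝ) := by
        filter_upwards [Iio_mem_nhds hu] with x hx
        rw [Cd_zero (Or.inl (le_of_lt hx)), mul_zero]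
      exact contDiffAt_const.congr_of_eventuallyEq h1
    · push Not at hu
      exact (Real.contDiffAt_rpow_const_of_ne (by linarith)).mul Cd_smooth.contDiffAt
  · intro u hu
    have h : u ≤ 1 ∨ 2 ≤ u := by
      by_contra h
      push Not at h
      exact hu ⟨h.1.le, by linarith [h.2]⟩
    show ((u ^ (1 / 2 : ℝ) * Cd u : ℝ) : ℂ) = 0
    rw [Cd_zero h]
    simp

lemma sp_norm {t : ℝ} (ht : 1 ≤ t) : ‖sp t‖ ≤ 1 / 2 + t := by
  unfold sp
  refine (norm_add_le _ _).trans ?_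
  rw [norm_mul, Complex.norm_I, mul_one, Complex.norm_real, Real.norm_of_nonneg (by linarith)]
  norm_num

lemma sp_ne_one {t : ℝ} (ht : 1 ≤ t) : sp t ≠ 1 := by
  intro h
  have := congrArg Complex.im h
  rw [sp_im] at this
  simp at this
  linarith

lemma sp_ne_zero {t : ℝ} (ht : 1 ≤ t) : sp t ≠ 0 := by
  intro h
  have := congrArg Complex.im h
  rw [sp_im] at this
  simp at this
  linarith

lemma one_le_norm_sub {t : ℝ} (ht : 1 ≤ t) : 1 ≤ ‖1 - sp t‖ := by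
  have h1 := Complex.abs_im_le_norm (1 - sp t)
  have h2 : (1 - sp t).im = -t := by simp [sp]
  rw [h2, abs_neg, abs_of_pos (by linarith)] at h1
  linarith

/-- the partial sums -/
noncomputable def Dx (t x : ℝ) : ℂ := ∑ k ∈ Icc 0 ⌊x⌋₊, (k : ℂ) ^ (-sp t)

/-- the error of the sharp cutoff -/
noncomputable def Gx (t x : ℝ) : ℂ :=
  Dx t x - riemannZeta (sp t) - (x : ℂ) ^ (1 - sp t) / (1 - sp t)

lemma Gx_bd {t x : ℝ} (ht : 1 ≤ t) (hx : 1 ≤ x) :
    ‖Gx t x‖ ≤ 4 * t * (⌊x⌋₊ : ℝ) ^ (-(1 / 2) : ℝ) := by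
  set N := ⌊x⌋₊ with hN
  have hN1 : 1 ≤ N := Nat.one_le_floor_iff x |>.mpr hx
  have hN0 : (0 : ℝ) < N := by exact_mod_cast hN1
  have hNx : (N : ℝ) ≤ x := Nat.floor_le (by linarith)
  have hxN : x < N + 1 := Nat.lt_floor_add_one x
  have hz := Pool.Agent.H307R2.zeta_eq hN1 (s := sp t) (by rw [sp_re]; norm_num) (sp_ne_one ht)
  have hs1 : (1 : ℂ) - sp t ≠ 0 := sub_ne_zero.mpr (sp_ne_one ht).symm
  have hs1' : sp t - 1 ≠ 0 := sub_ne_zero.mpr (sp_ne_one ht)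
  have hD : Dx t x = ∑ n ∈ Finset.Icc 1 N, (n : ℂ) ^ (-sp t) := by
    unfold Dx
    rw [← hN]
    symm
    apply Finset.sum_subset (Finset.Icc_subset_Icc_left (by norm_num))
    intro k hk hk'
    rw [Finset.mem_Icc] at hk hk'
    have : k = 0 := by
      by_contra h
      exact hk' ⟨by omega, hk.2⟩
    rw [this, Nat.cast_zero, Complex.zero_cpow (neg_ne_zero.mpr (sp_ne_zero ht))]
  have hG : Gx t x = ((N : ℂ) ^ (1 - sp t) - (x : ℂ) ^ (1 - sp t)) / (1 - sp t) -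
      sp t * Pool.Agent.H307R2.TM N Pool.Agent.H307R2.Ez (sp t) := by
    unfold Gx
    rw [hD, hz]
    have : sp t - 1 = -(1 - sp t) := by ring
    rw [this]
    field_simp
    ring
  have hre : (1 - sp t).re = 1 / 2 := by rw [Complex.sub_re, sp_re]; norm_num
  have hdiff : ‖(x : ℂ) ^ (1 - sp t) - ((N : ℝ) : ℂ) ^ (1 - sp t)‖ ≤
      ‖1 - sp t‖ * (N : ℝ) ^ (-(1 / 2) : ℝ) * (x - N) := by
    refine norm_image_sub_le_of_norm_deriv_le_segment' (f := fun v : ℝ => (v : ℂ) ^ (1 - sp t))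
      (f' := fun v : ℝ => (1 - sp t) * (v : ℂ) ^ (1 - sp t - 1)) ?_ ?_ x ⟨hNx, le_rfl⟩
    · intro v hv
      have hv0 : v ≠ 0 := by have := hv.1; linarith
      have h1 := (hasDerivAt_ofReal_cpow_const' (x := v) (r := -sp t) hv0
        (by intro h; exact sp_ne_one ht (by linear_combination -h)))
      have h2 : HasDerivAt (fun v : ℝ => (v : ℂ) ^ (1 - sp t))
          ((1 - sp t) * (v : ℂ) ^ (1 - sp t - 1)) v := by
        have h3 := h1.const_mul (1 - sp t)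
        have h4 : (fun y : ℝ => (1 - sp t) * ((y : ℂ) ^ (-sp t + 1) / (-sp t + 1))) =
            fun v : ℝ => (v : ℂ) ^ (1 - sp t) := by
          funext y
          have : -sp t + 1 = 1 - sp t := by ring
          rw [this, mul_div_cancel₀ _ hs1]
        rw [h4] at h3
        have h5 : 1 - sp t - 1 = -sp t := by ring
        rw [h5]
        exact h3
      exact h2.hasDerivWithinAt
    · intro v hv
      have hv0 : 0 < v := lt_of_lt_of_le hN0 hv.1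
      rw [norm_mul, Complex.norm_cpow_eq_rpow_re_of_pos hv0]
      have h1 : (1 - sp t - 1).re = -(1 / 2) := by
        rw [Complex.sub_re, hre, Complex.one_re]; norm_num
      rw [h1]
      refine mul_le_mul_of_nonneg_left ?_ (norm_nonneg _)
      exact Real.rpow_le_rpow_of_nonpos hN0 hv.1 (by norm_num)
  have hTM := Pool.Agent.H307R2.TM_norm_le hN1 Pool.Agent.H307R2.Ez_norm_le (s := sp t)
    (by rw [sp_re]; norm_num)
  rw [sp_re] at hTM
  have hNn : 0 ≤ (N : ℝ) ^ (-(1 / 2) : ℝ) := (Real.rpow_pos_of_pos hN0 _).le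
  rw [hG]
  refine (norm_sub_le _ _).trans ?_
  rw [norm_div, norm_mul]
  have hpos : 0 < ‖1 - sp t‖ := norm_pos_iff.mpr hs1
  have h6 : ‖(N : ℂ) ^ (1 - sp t) - (x : ℂ) ^ (1 - sp t)‖ / ‖1 - sp t‖ ≤
      (N : ℝ) ^ (-(1 / 2) : ℝ) := by
    rw [div_le_iff₀ hpos, norm_sub_rev]
    refine (le_trans (le_of_eq ?_) hdiff).trans ?_
    · norm_cast
    · have : x - N ≤ 1 := by linarith
      have h7 : 0 ≤ ‖1 - sp t‖ * (N : ℝ) ^ (-(1 / 2) : ℝ) := by positivity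
      calc ‖1 - sp t‖ * (N : ℝ) ^ (-(1 / 2) : ℝ) * (x - N)
          ≤ ‖1 - sp t‖ * (N : ℝ) ^ (-(1 / 2) : ℝ) * 1 := mul_le_mul_of_nonneg_left this h7
        _ = _ := by ring
  have h8 : ‖sp t‖ * ‖Pool.Agent.H307R2.TM N Pool.Agent.H307R2.Ez (sp t)‖ ≤
      (1 / 2 + t) * (1 * ((N : ℝ) ^ (-(1 / 2) : ℝ) / (1 / 2))) :=
    mul_le_mul (sp_norm ht) hTM (norm_nonneg _) (by linarith)
  calc _ ≤ (N : ℝ) ^ (-(1 / 2) : ℝ) + (1 / 2 + t) * (1 * ((N : ℝ) ^ (-(1 / 2) : ℝ) / (1 / 2))) :=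
        add_le_add h6 h8
    _ = (2 + 2 * t) * (N : ℝ) ^ (-(1 / 2) : ℝ) := by ring
    _ ≤ 4 * t * (N : ℝ) ^ (-(1 / 2) : ℝ) := by
        refine mul_le_mul_of_nonneg_right ?_ hNn
        linarith

/-- the derivative of `x ↦ Cu (x / Y)` -/
noncomputable def gd (Y x : ℝ) : ℂ := ((Cd (x / Y) / Y : ℝ) : ℂ)

lemma gd_hasDeriv (Y x : ℝ) : HasDerivAt (fun x : ℝ => ((Cu (x / Y) : ℝ) : ℂ)) (gd Y x) x := by
  have h0 : HasDerivAt Cu (Cd (x / Y)) (x / Y) := (Cu_diff (x / Y)).hasDerivAt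
  have h1 : HasDerivAt (fun x : ℝ => Cu (x / Y)) (Cd (x / Y) * (1 / Y)) x :=
    HasDerivAt.comp (h₂ := Cu) (h := fun x : ℝ => x / Y) x h0 ((hasDerivAt_id x).div_const Y)
  have h2 := h1.ofReal_comp
  have h3 : ((Cd (x / Y) * (1 / Y) : ℝ) : ℂ) = gd Y x := by
    unfold gd; rw [mul_one_div]
  rw [← h3]
  exact h2

lemma gd_cont (Y : ℝ) : Continuous (gd Y) :=
  Complex.continuous_ofReal.comp ((Cd_cont.comp (continuous_id.div_const Y)).div_const Y)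

lemma Sm_abel {t Y : ℝ} (ht : 1 ≤ t) (hY : 1 ≤ Y) :
    Sm t Y = - ∫ x in (1 : ℝ)..(2 * Y), gd Y x * Dx t x := by
  have hY0 : 0 < Y := by linarith
  have hc : (fun k : ℕ => (k : ℂ) ^ (-sp t)) 0 = 0 := by
    show ((0 : ℕ) : ℂ) ^ (-sp t) = 0
    rw [Nat.cast_zero, Complex.zero_cpow (neg_ne_zero.mpr (sp_ne_zero ht))]
  have hd : deriv (fun x : ℝ => ((Cu (x / Y) : ℝ) : ℂ)) = gd Y := by
    funext x; exact (gd_hasDeriv Y x).deriv
  have h1 := sum_mul_eq_sub_integral_mul₀ (c := fun k : ℕ => (k : ℂ) ^ (-sp t))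
    (f := fun x : ℝ => ((Cu (x / Y) : ℝ) : ℂ)) hc (2 * Y)
    (fun x _ => (gd_hasDeriv Y x).differentiableAt) (by
      rw [hd]; exact (gd_cont Y).continuousOn.integrableOn_compact isCompact_Icc)
  have h2 : Cu (2 * Y / Y) = 0 := cu_facts.2.2.2 _ (by rw [le_div_iff₀ hY0])
  rw [h2, hd] at h1
  have h3 : ∑ k ∈ Icc 0 ⌊2 * Y⌋₊, ((Cu ((k : ℝ) / Y) : ℝ) : ℂ) * (k : ℂ) ^ (-sp t) = Sm t Y := by
    unfold Sm
    symm
    apply Finset.sum_subset (Finset.Icc_subset_Icc_left (by norm_num))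
    intro k hk hk'
    rw [Finset.mem_Icc] at hk hk'
    have : k = 0 := by
      by_contra h
      exact hk' ⟨by omega, hk.2⟩
    subst this
    rw [show ((0 : ℕ) : ℂ) ^ (-sp t) = 0 from hc, mul_zero]
  rw [← h3, h1, intervalIntegral.integral_of_le (by linarith)]
  simp [Dx]

lemma gd_int {Y : ℝ} (hY : 1 ≤ Y) : ∫ x in (1 : ℝ)..(2 * Y), gd Y x = -1 := by
  have hY0 : 0 < Y := by linarith
  rw [intervalIntegral.integral_eq_sub_of_hasDerivAt (fun x _ => gd_hasDeriv Y x)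
    ((gd_cont Y).intervalIntegrable _ _)]
  rw [cu_facts.2.2.2 (2 * Y / Y) (by rw [le_div_iff₀ hY0]),
    cu_facts.2.2.1 (1 / Y) (by rw [div_le_one hY0]; exact hY)]
  simp

/-- the oscillating main term -/
lemma gd_pow {t Y : ℝ} (hY : 1 ≤ Y) :
    ∫ x in (1 : ℝ)..(2 * Y), gd Y x * (x : ℂ) ^ (1 - sp t) =
      (Y : ℂ) ^ (1 - sp t) * ∫ u, ((u ^ (1 / 2 : ℝ) * Cd u : ℝ) : ℂ) * EE t 0 0 u := by
  have hY0 : 0 < Y := by linarith
  have hYc : (Y : ℂ) ≠ 0 := by exact_mod_cast hY0.ne'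
  have h1 : ∀ x : ℝ, gd Y x * (x : ℂ) ^ (1 - sp t) = (1 / Y * (Y : ℂ) ^ (1 - sp t)) *
      (fun u : ℝ => ((u ^ (1 / 2 : ℝ) * Cd u : ℝ) : ℂ) * EE t 0 0 u) (x / Y) := by
    intro x
    simp only
    by_cases hx : x ≤ 0
    · have h2 : Cd (x / Y) = 0 :=
        Cd_zero (Or.inl ((div_nonpos_of_nonpos_of_nonneg hx hY0.le).trans zero_le_one))
      unfold gd
      rw [h2]
      simp
    · push Not at hx
      have hu : 0 < x / Y := by positivity
      have hu' : ((x / Y : ℝ) : ℂ) ≠ 0 := by exact_mod_cast hu.ne'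
      have h3 : (x : ℂ) ^ (1 - sp t) = (Y : ℂ) ^ (1 - sp t) * ((x / Y : ℝ) : ℂ) ^ (1 - sp t) := by
        rw [← Complex.mul_cpow_ofReal_nonneg hY0.le hu.le]
        congr 1
        push_cast
        field_simp
      have h4 : ((x / Y : ℝ) : ℂ) ^ (1 - sp t) = (((x / Y) ^ (1 / 2 : ℝ) : ℝ) : ℂ) *
          EE t 0 0 (x / Y) := by
        unfold EE
        rw [Complex.ofReal_cpow hu.le, Complex.cpow_def_of_ne_zero hu',
          Complex.cpow_def_of_ne_zero hu', ← Complex.exp_add]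
        congr 1
        rw [← Complex.ofReal_log hu.le]
        unfold sp
        push_cast
        ring
      rw [h3, h4]
      unfold gd
      push_cast
      field_simp
  have h5 : ∫ x in (1 : ℝ)..(2 * Y), gd Y x * (x : ℂ) ^ (1 - sp t) =
      ∫ x : ℝ, gd Y x * (x : ℂ) ^ (1 - sp t) := by
    rw [intervalIntegral.integral_of_le (by linarith)]
    apply setIntegral_eq_integral_of_forall_compl_eq_zero
    intro x hx
    have h2 : Cd (x / Y) = 0 := by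
      apply Cd_zero
      by_contra h
      push Not at h
      apply hx
      have ha := h.1
      have hb := h.2
      rw [lt_div_iff₀ hY0, one_mul] at ha
      rw [div_lt_iff₀ hY0] at hb
      exact ⟨by linarith, hb.le⟩
    unfold gd
    rw [h2]
    simp
  rw [h5]
  simp_rw [h1]
  rw [integral_const_mul, Measure.integral_comp_div
    (fun u : ℝ => ((u ^ (1 / 2 : ℝ) * Cd u : ℝ) : ℂ) * EE t 0 0 u) Y, abs_of_pos hY0]
  rw [Complex.real_smul]
  field_simp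

lemma Sm_lim : ∃ C : ℝ, 0 < C ∧ ∀ T : ℝ, 1 ≤ T → ∀ t ∈ Set.Icc T (2 * T), ∀ Y : ℝ,
    T ^ 4 ≤ Y → Y ≤ 2 * T ^ 4 → ‖riemannZeta (sp t) - Sm t Y‖ ≤ C / T := by
  obtain ⟨C₁, hC₁, h1⟩ := osc_zero _ tst_Cd 10
  obtain ⟨L, hL, hL'⟩ := Cd_bdd
  refine ⟨2 * C₁ + 32 * L, by positivity, ?_⟩
  intro T hT t ht Y hY1 hY2
  have hT0 : 0 < T := by linarith
  have ht1 : 1 ≤ t := hT.trans ht.1
  have hT4 : (1 : ℝ) ≤ T ^ 4 := one_le_pow₀ hT
  have hY : 1 ≤ Y := hT4.trans hY1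
  have hY0 : 0 < Y := by linarith
  have hs1 : (1 : ℂ) - sp t ≠ 0 := sub_ne_zero.mpr (sp_ne_one ht1).symm
  -- bound of the error term
  have hG : ∀ x : ℝ, Y ≤ x → ‖Gx t x‖ ≤ 16 / T := by
    intro x hx
    refine (Gx_bd ht1 (hY.trans hx)).trans ?_
    have hN1 : 1 ≤ ⌊x⌋₊ := Nat.one_le_floor_iff x |>.mpr (hY.trans hx)
    have hN0 : (1 : ℝ) ≤ (⌊x⌋₊ : ℝ) := by exact_mod_cast hN1
    have hxN : x < (⌊x⌋₊ : ℝ) + 1 := Nat.lt_floor_add_one x
    have hN4 : T ^ 4 / 4 ≤ (⌊x⌋₊ : ℝ) := by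
      have : T ^ 4 ≤ x := hY1.trans hx
      linarith
    have h2 : (⌊x⌋₊ : ℝ) ^ (-(1 / 2) : ℝ) ≤ (T ^ 4 / 4) ^ (-(1 / 2) : ℝ) :=
      Real.rpow_le_rpow_of_nonpos (by positivity) hN4 (by norm_num)
    have h3 : (T ^ 4 / 4) ^ (-(1 / 2) : ℝ) = 2 / T ^ 2 := by
      have h4 : T ^ 4 / 4 = (T ^ 2 / 2) ^ (2 : ℝ) := by
        rw [Real.rpow_two]; ring
      rw [h4, ← Real.rpow_mul (by positivity)]
      norm_num
      rw [Real.rpow_neg_one]
      simp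
    rw [h3] at h2
    have h5 : t ≤ 2 * T := ht.2
    calc 4 * t * (⌊x⌋₊ : ℝ) ^ (-(1 / 2) : ℝ) ≤ 4 * (2 * T) * (2 / T ^ 2) := by gcongr
      _ = 16 / T := by field_simp; ring
  -- integrability
  have hi1 : IntervalIntegrable (fun x => gd Y x * Dx t x) volume 1 (2 * Y) := by
    rw [intervalIntegrable_iff_integrableOn_Icc_of_le (by linarith)]
    exact integrableOn_mul_sum_Icc (m := 0) (fun k : ℕ => (k : ℂ) ^ (-sp t)) zero_le_one
      ((gd_cont Y).continuousOn.integrableOn_compact isCompact_Icc)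
  have hi2 : IntervalIntegrable (fun x => gd Y x * riemannZeta (sp t)) volume 1 (2 * Y) :=
    ((gd_cont Y).mul continuous_const).intervalIntegrable _ _
  have hi3 : IntervalIntegrable (fun x : ℝ => gd Y x * ((x : ℂ) ^ (1 - sp t) / (1 - sp t)))
      volume 1 (2 * Y) := by
    apply ContinuousOn.intervalIntegrable
    intro x hx
    rw [Set.uIcc_of_le (by linarith)] at hx
    have hx0 : 0 < x := by have := hx.1; linarith
    refine ContinuousAt.continuousWithinAt ?_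
    exact (gd_cont Y).continuousAt.mul
      ((Complex.continuousAt_ofReal_cpow_const _ _ (Or.inr hx0.ne')).div_const _)
  have hi4 : IntervalIntegrable (fun x : ℝ => gd Y x * Gx t x) volume 1 (2 * Y) := by
    have h2 := (hi1.sub hi2).sub hi3
    refine h2.congr ?_
    intro x _
    simp only [Gx]
    ring
  have hsplit : ∫ x in (1 : ℝ)..(2 * Y), gd Y x * Dx t x =
      (∫ x in (1 : ℝ)..(2 * Y), gd Y x * riemannZeta (sp t)) +
      (∫ x in (1 : ℝ)..(2 * Y), gd Y x * ((x : ℂ) ^ (1 - sp t) / (1 - sp t))) +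
      ∫ x in (1 : ℝ)..(2 * Y), gd Y x * Gx t x := by
    rw [← intervalIntegral.integral_add hi2 hi3, ← intervalIntegral.integral_add (hi2.add hi3) hi4]
    apply intervalIntegral.integral_congr
    intro x _
    simp only [Gx]
    ring
  have hkey : riemannZeta (sp t) - Sm t Y =
      (∫ x in (1 : ℝ)..(2 * Y), gd Y x * ((x : ℂ) ^ (1 - sp t) / (1 - sp t))) +
      ∫ x in (1 : ℝ)..(2 * Y), gd Y x * Gx t x := by
    rw [Sm_abel ht1 hY, hsplit, intervalIntegral.integral_mul_const, gd_int hY]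
    ring
  have hA : ‖∫ x in (1 : ℝ)..(2 * Y), gd Y x * ((x : ℂ) ^ (1 - sp t) / (1 - sp t))‖ ≤
      2 * C₁ / T := by
    have h2 : (fun x : ℝ => gd Y x * ((x : ℂ) ^ (1 - sp t) / (1 - sp t))) =
        fun x : ℝ => (gd Y x * (x : ℂ) ^ (1 - sp t)) * (1 - sp t)⁻¹ := by
      funext x; rw [div_eq_mul_inv]; ring
    rw [h2, intervalIntegral.integral_mul_const, gd_pow hY, norm_mul, norm_mul, norm_inv,
      Complex.norm_cpow_eq_rpow_re_of_pos hY0]
    have hre : (1 - sp t).re = 1 / 2 := by rw [Complex.sub_re, sp_re]; norm_num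
    rw [hre]
    have h3 := h1 t (by linarith)
    have h6 : |t| ^ 10 = t ^ 10 := by rw [abs_of_pos (by linarith)]
    rw [h6] at h3
    have h4 : C₁ / t ^ 10 ≤ C₁ / T ^ 10 := by
      have := ht.1
      gcongr
    have h5 : ‖1 - sp t‖⁻¹ ≤ 1 := inv_le_one_of_one_le₀ (one_le_norm_sub ht1)
    have h7 : Y ^ (1 / 2 : ℝ) ≤ 2 * T ^ 2 := by
      rw [← Real.sqrt_eq_rpow, Real.sqrt_le_left (by positivity)]
      nlinarith
    calc Y ^ (1 / 2 : ℝ) * ‖∫ u, ((u ^ (1 / 2 : ℝ) * Cd u : ℝ) : ℂ) * EE t 0 0 u‖ *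
          ‖1 - sp t‖⁻¹ ≤ 2 * T ^ 2 * (C₁ / T ^ 10) * 1 := by
          gcongr
          exact h3.trans h4
      _ = 2 * C₁ / T ^ 8 := by field_simp
      _ ≤ 2 * C₁ / T := by
          have : T ≤ T ^ 8 := le_self_pow₀ hT (by norm_num)
          gcongr
  have hB : ‖∫ x in (1 : ℝ)..(2 * Y), gd Y x * Gx t x‖ ≤ 32 * L / T := by
    have h2 : ∀ x ∈ Set.uIoc (1 : ℝ) (2 * Y), ‖gd Y x * Gx t x‖ ≤ L / Y * (16 / T) := by
      intro x hx
      rw [norm_mul]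
      have hgb : ‖gd Y x‖ ≤ L / Y := by
        unfold gd
        rw [Complex.norm_real, Real.norm_eq_abs, abs_div, abs_of_pos hY0]
        gcongr
        exact hL' _
      by_cases hxY : x < Y
      · have h3 : gd Y x = 0 := by
          unfold gd
          rw [Cd_zero (Or.inl ((div_le_one hY0).mpr hxY.le))]
          simp
        rw [h3, norm_zero, zero_mul]
        positivity
      · push Not at hxY
        exact mul_le_mul hgb (hG x hxY) (norm_nonneg _) (by positivity)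
    refine (intervalIntegral.norm_integral_le_of_norm_le_const h2).trans ?_
    rw [abs_of_nonneg (by linarith)]
    calc L / Y * (16 / T) * (2 * Y - 1) ≤ L / Y * (16 / T) * (2 * Y) := by
          refine mul_le_mul_of_nonneg_left (by linarith) (by positivity)
      _ = 32 * L / T := by field_simp; ring
  rw [hkey]
  refine (norm_add_le _ _).trans ?_
  rw [add_div]
  exact add_le_add hA hB

end TaskC

theorem apx : ∃ C : ℝ, 0 < C ∧ ∀ T : ℝ, 1 ≤ T → ∀ t ∈ Set.Icc T (2 * T), ∀ Y : ℝ,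
    T ^ (4 / 3 : ℝ) ≤ Y → Y ≤ 2 * T ^ 2 →
    ‖riemannZeta (1 / 2 + (t : ℂ) * Complex.I) - ∑ n ∈ Icc 1 ⌊2 * Y⌋₊,
      ((Cu ((n : ℝ) / Y) : ℝ) : ℂ) * (n : ℂ) ^ (-(1 / 2 + (t : ℂ) * Complex.I))‖ ≤ C / T := by
  obtain ⟨C₁, hC₁, h1⟩ := TaskC.Sm_tel
  obtain ⟨C₂, hC₂, h2⟩ := TaskC.Sm_lim
  refine ⟨C₁ + C₂, by positivity, ?_⟩
  intro T hT t ht Y hY1 hY2
  obtain ⟨Y', ha, hb, hc⟩ := h1 T hT t ht Y hY1 hY2
  have hd := h2 T hT t ht Y' ha hb
  show ‖riemannZeta (TaskC.sp t) - TaskC.Sm t Y‖ ≤ (C₁ + C₂) / T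
  have he : riemannZeta (TaskC.sp t) - TaskC.Sm t Y =
      (TaskC.Sm t Y' - TaskC.Sm t Y) + (riemannZeta (TaskC.sp t) - TaskC.Sm t Y') := by ring
  rw [he, add_div]
  exact (norm_add_le _ _).trans (add_le_add hc hd)

end Pool.Agent.H442R2.TSM
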