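import Pool.Agent.H442R2.TSM.Defs

/-!
TSM project, task TD: the Gaussian mean square.
-/

namespace Pool.Agent.H442R2.TSM

open Finset MeasureTheory

namespace TaskTD

theorem wg_exp (t₀ D u t : ℝ) (hD : 0 < D) :
    (Wg t₀ D t : ℂ) * Complex.exp (-((t * u : ℝ) : ℂ) * Complex.I) =
      Complex.exp ((-(Real.pi : ℂ) / (D : ℂ) ^ 2) * (t : ℂ) ^ 2 +
        (2 * Real.pi * t₀ / (D : ℂ) ^ 2 - u * Complex.I) * t +
        (-(Real.pi : ℂ) * t₀ ^ 2 / (D : ℂ) ^ 2)) := by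
  have hD' : (D : ℂ) ≠ 0 := by exact_mod_cast hD.ne'
  unfold Wg
  rw [Complex.ofReal_exp, ← Complex.exp_add]
  congr 1
  push_cast
  field_simp
  ring

theorem b_re (D : ℝ) (hD : 0 < D) : (-(Real.pi : ℂ) / (D : ℂ) ^ 2).re < 0 := by
  have : (-(Real.pi : ℂ) / (D : ℂ) ^ 2) = ((-Real.pi / D ^ 2 : ℝ) : ℂ) := by push_cast; rfl
  rw [this, Complex.ofReal_re]
  have := Real.pi_pos
  exact div_neg_of_neg_of_pos (by linarith) (by positivity)

theorem integrable_wg (t₀ D u : ℝ) (hD : 0 < D) :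
    Integrable (fun t : ℝ => (Wg t₀ D t : ℂ) * Complex.exp (-((t * u : ℝ) : ℂ) * Complex.I)) := by
  simp_rw [fun t => wg_exp t₀ D u t hD]
  exact integrable_cexp_quadratic' (b_re D hD) _ _

theorem integral_wg (t₀ D u : ℝ) (hD : 0 < D) :
    ∫ t : ℝ, (Wg t₀ D t : ℂ) * Complex.exp (-((t * u : ℝ) : ℂ) * Complex.I) = Kh t₀ D u := by
  have hD' : (D : ℂ) ≠ 0 := by exact_mod_cast hD.ne'
  have hpi : (Real.pi : ℂ) ≠ 0 := by exact_mod_cast Real.pi_ne_zero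
  simp_rw [fun t => wg_exp t₀ D u t hD]
  rw [integral_cexp_quadratic (b_re D hD)]
  unfold Kh
  congr 1
  · have h1 : (Real.pi : ℂ) / -(-(Real.pi : ℂ) / (D : ℂ) ^ 2) = ((D ^ 2 : ℝ) : ℂ) := by
      push_cast
      field_simp
    rw [h1]
    have h2 : (1 / 2 : ℂ) = ((1 / 2 : ℝ) : ℂ) := by push_cast; rfl
    rw [h2, ← Complex.ofReal_cpow (by positivity), ← Real.sqrt_eq_rpow, Real.sqrt_sq hD.le]
  · congr 1
    push_cast
    field_simp
    ring_nf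
    rw [Complex.I_sq]
    ring

theorem conj_exp (x : ℝ) : (starRingEnd ℂ) (Complex.exp (-((x : ℝ) : ℂ) * Complex.I)) =
    Complex.exp (((x : ℝ) : ℂ) * Complex.I) := by
  rw [← Complex.exp_conj]
  congr 1
  simp

/-- expansion of the square -/
theorem expand (c : ℕ → ℂ) (K : ℕ) (t₀ D t : ℝ) :
    ((Wg t₀ D t * ‖Dp c K t‖ ^ 2 : ℝ) : ℂ) = ∑ q₁ ∈ Icc 1 K, ∑ q₂ ∈ Icc 1 K,
      c q₁ * (starRingEnd ℂ) (c q₂) * ((Wg t₀ D t : ℂ) *
        Complex.exp (-((t * (Real.log q₁ - Real.log q₂) : ℝ) : ℂ) * Complex.I)) := by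
  have h1 : ((‖Dp c K t‖ ^ 2 : ℝ) : ℂ) = Dp c K t * (starRingEnd ℂ) (Dp c K t) := by
    rw [Complex.mul_conj, Complex.normSq_eq_norm_sq]
  rw [Complex.ofReal_mul, h1, Dp, map_sum, Finset.sum_mul_sum, Finset.mul_sum]
  refine Finset.sum_congr rfl fun q₁ _ => ?_
  rw [Finset.mul_sum]
  refine Finset.sum_congr rfl fun q₂ _ => ?_
  rw [map_mul, conj_exp]
  have h2 : Complex.exp (-((t * (Real.log q₁ - Real.log q₂) : ℝ) : ℂ) * Complex.I) =
      Complex.exp (-((t * Real.log q₁ : ℝ) : ℂ) * Complex.I) *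
        Complex.exp (((t * Real.log q₂ : ℝ) : ℂ) * Complex.I) := by
    rw [← Complex.exp_add]
    congr 1
    push_cast
    ring
  rw [h2]
  ring

end TaskTD

open TaskTD

theorem kern (c : ℕ → ℂ) (K : ℕ) (t₀ D : ℝ) (hD : 0 < D) :
    Integrable (fun t => Wg t₀ D t * ‖Dp c K t‖ ^ 2) ∧
    ((∫ t, Wg t₀ D t * ‖Dp c K t‖ ^ 2 : ℝ) : ℂ) = ∑ q₁ ∈ Icc 1 K, ∑ q₂ ∈ Icc 1 K,
      c q₁ * (starRingEnd ℂ) (c q₂) * Kh t₀ D (Real.log q₁ - Real.log q₂) := by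
  have hI : ∀ q₁ q₂ : ℕ, Integrable (fun t : ℝ => c q₁ * (starRingEnd ℂ) (c q₂) *
      ((Wg t₀ D t : ℂ) *
        Complex.exp (-((t * (Real.log q₁ - Real.log q₂) : ℝ) : ℂ) * Complex.I))) :=
    fun q₁ q₂ => (integrable_wg t₀ D (Real.log q₁ - Real.log q₂) hD).const_mul _
  have hS : Integrable (fun t : ℝ => ((Wg t₀ D t * ‖Dp c K t‖ ^ 2 : ℝ) : ℂ)) := by
    simp_rw [expand]
    exact integrable_finset_sum _ fun q₁ _ => integrable_finset_sum _ fun q₂ _ => hI q₁ q₂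
  constructor
  · simpa only [RCLike.re_eq_complex_re, Complex.ofReal_re] using hS.re
  · rw [← integral_complex_ofReal]
    simp_rw [expand]
    rw [integral_finset_sum _ fun q₁ _ => integrable_finset_sum _ fun q₂ _ => hI q₁ q₂]
    refine Finset.sum_congr rfl fun q₁ _ => ?_
    rw [integral_finset_sum _ fun q₂ _ => hI q₁ q₂]
    refine Finset.sum_congr rfl fun q₂ _ => ?_
    rw [integral_const_mul, integral_wg t₀ D _ hD]

/-- `∫ Wg(t) |t| dt ≤ (|t₀| + D) D`, hence the Lipschitz bound for Kh -/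
theorem Kh_facts (t₀ D : ℝ) (hD : 0 < D) :
    (∀ u, ‖Kh t₀ D u‖ = D * Real.exp (-(D ^ 2 * u ^ 2 / (4 * Real.pi)))) ∧
    (∀ u v, ‖Kh t₀ D u - Kh t₀ D v‖ ≤ (|t₀| + D) * D * |u - v|) := by
  have hpi := Real.pi_pos
  have hnorm : ∀ u, ‖Kh t₀ D u‖ = D * Real.exp (-(D ^ 2 * u ^ 2 / (4 * Real.pi))) := by
    intro u
    unfold Kh
    rw [norm_mul, Complex.norm_real, Real.norm_of_nonneg hD.le, Complex.norm_exp]
    congr 2
    rw [Complex.sub_re, Complex.ofReal_re, neg_mul, Complex.neg_re, Complex.mul_re,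
      Complex.ofReal_re, Complex.ofReal_im, Complex.I_re, Complex.I_im]
    ring
  refine ⟨hnorm, ?_⟩
  have hder : ∀ u : ℝ, HasDerivAt (Kh t₀ D)
      (Kh t₀ D u * (-(t₀ : ℂ) * Complex.I - ((D ^ 2 * u / (2 * Real.pi) : ℝ) : ℂ))) u := by
    intro u
    have h1 : HasDerivAt (fun u : ℝ => ((t₀ * u : ℝ) : ℂ)) ((t₀ : ℝ) : ℂ) u := by
      have : HasDerivAt (fun u : ℝ => t₀ * u) t₀ u := by
        simpa using (hasDerivAt_id u).const_mul t₀
      exact this.ofReal_comp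
    have h2 : HasDerivAt (fun u : ℝ => ((D ^ 2 * u ^ 2 / (4 * Real.pi) : ℝ) : ℂ))
        ((D ^ 2 * u / (2 * Real.pi) : ℝ) : ℂ) u := by
      have : HasDerivAt (fun u : ℝ => D ^ 2 * u ^ 2 / (4 * Real.pi)) (D ^ 2 * u / (2 * Real.pi))
          u := by
        have h3 : HasDerivAt (fun u : ℝ => D ^ 2 * u ^ 2 / (4 * Real.pi))
            (D ^ 2 * (((2 : ℕ) : ℝ) * u ^ (2 - 1)) / (4 * Real.pi)) u :=
          (((hasDerivAt_pow 2 u).const_mul (D ^ 2)).div_const (4 * Real.pi))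
        have h5 : D ^ 2 * (((2 : ℕ) : ℝ) * u ^ (2 - 1)) / (4 * Real.pi) =
            D ^ 2 * u / (2 * Real.pi) := by
          have : (4 : ℝ) * Real.pi = 2 * (2 * Real.pi) := by ring
          rw [this]
          simp only [Nat.cast_ofNat, Nat.add_one_sub_one, pow_one]
          rw [mul_left_comm, mul_div_mul_left _ _ (two_ne_zero)]
        rw [← h5]
        exact h3
      exact this.ofReal_comp
    have h4 : HasDerivAt (fun u : ℝ => (D : ℂ) * Complex.exp (-((t₀ * u : ℝ) : ℂ) * Complex.I -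
        ((D ^ 2 * u ^ 2 / (4 * Real.pi) : ℝ) : ℂ)))
        ((D : ℂ) * (Complex.exp (-((t₀ * u : ℝ) : ℂ) * Complex.I -
        ((D ^ 2 * u ^ 2 / (4 * Real.pi) : ℝ) : ℂ)) * (-(t₀ : ℂ) * Complex.I -
          ((D ^ 2 * u / (2 * Real.pi) : ℝ) : ℂ)))) u :=
      ((h1.neg.mul_const Complex.I).sub h2).cexp.const_mul (D : ℂ)
    rw [← mul_assoc] at h4
    exact h4
  have hbound : ∀ u : ℝ, ‖Kh t₀ D u * (-(t₀ : ℂ) * Complex.I -
      ((D ^ 2 * u / (2 * Real.pi) : ℝ) : ℂ))‖ ≤ (|t₀| + D) * D := by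
    intro u
    rw [norm_mul, hnorm]
    have h1 : ‖-(t₀ : ℂ) * Complex.I - ((D ^ 2 * u / (2 * Real.pi) : ℝ) : ℂ)‖ ≤
        |t₀| + D * (D * |u| / (2 * Real.pi)) := by
      refine (norm_sub_le _ _).trans ?_
      rw [norm_mul, norm_neg, Complex.norm_real, Complex.norm_I, mul_one, Complex.norm_real,
        Real.norm_eq_abs, Real.norm_eq_abs]
      have : |D ^ 2 * u / (2 * Real.pi)| = D * (D * |u| / (2 * Real.pi)) := by
        rw [abs_div, abs_mul, abs_of_pos (by positivity : 0 < D ^ 2),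
          abs_of_pos (by positivity : 0 < 2 * Real.pi)]
        ring
      rw [this]
    set y := D * |u| with hy
    have hy0 : 0 ≤ y := by positivity
    have he : D ^ 2 * u ^ 2 / (4 * Real.pi) = y ^ 2 / (4 * Real.pi) := by
      rw [hy, mul_pow, sq_abs]
    rw [he]
    set E := Real.exp (-(y ^ 2 / (4 * Real.pi))) with hE
    have hE0 : 0 < E := Real.exp_pos _
    have hE1 : E ≤ 1 := by
      rw [hE, Real.exp_le_one_iff]
      have : 0 ≤ y ^ 2 / (4 * Real.pi) := by positivity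
      linarith
    have hE2 : E * (y / (2 * Real.pi)) ≤ 1 := by
      have h3 : y ^ 2 / (4 * Real.pi) + 1 ≤ Real.exp (y ^ 2 / (4 * Real.pi)) :=
        Real.add_one_le_exp _
      have h4 : y / (2 * Real.pi) ≤ Real.exp (y ^ 2 / (4 * Real.pi)) := by
        refine le_trans ?_ h3
        have h5 : y ^ 2 / (4 * Real.pi) + 1 - y / (2 * Real.pi) =
            (y ^ 2 + 4 * Real.pi - 2 * y) / (4 * Real.pi) := by
          field_simp
          ring
        have h6 : 0 ≤ (y ^ 2 + 4 * Real.pi - 2 * y) / (4 * Real.pi) := by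
          refine div_nonneg ?_ (by positivity)
          nlinarith [sq_nonneg (y - 1), Real.pi_gt_three]
        linarith
      have h7 : E * Real.exp (y ^ 2 / (4 * Real.pi)) = 1 := by
        rw [hE, ← Real.exp_add]; simp
      calc E * (y / (2 * Real.pi)) ≤ E * Real.exp (y ^ 2 / (4 * Real.pi)) :=
            mul_le_mul_of_nonneg_left h4 hE0.le
        _ = 1 := h7
    calc D * E * ‖-(t₀ : ℂ) * Complex.I - ((D ^ 2 * u / (2 * Real.pi) : ℝ) : ℂ)‖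
        ≤ D * E * (|t₀| + D * (y / (2 * Real.pi))) :=
          mul_le_mul_of_nonneg_left h1 (by positivity)
      _ = D * (E * |t₀|) + D * D * (E * (y / (2 * Real.pi))) := by ring
      _ ≤ D * (1 * |t₀|) + D * D * 1 := by
          refine add_le_add ?_ ?_
          · exact mul_le_mul_of_nonneg_left (mul_le_mul_of_nonneg_right hE1 (abs_nonneg _)) hD.le
          · exact mul_le_mul_of_nonneg_left hE2 (by positivity)
      _ = (|t₀| + D) * D := by ring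
  intro u v
  have := Convex.norm_image_sub_le_of_norm_hasDerivWithin_le (f := Kh t₀ D) (C := (|t₀| + D) * D)
    (s := Set.univ) (x := v) (y := u) (fun x _ => (hder x).hasDerivWithinAt)
    (fun x _ => hbound x) convex_univ (Set.mem_univ _) (Set.mem_univ _)
  rwa [Real.norm_eq_abs] at this

namespace TaskTD

/-- the geometric majorant -/
theorem gauss_le (K : ℕ) (hK : 1 ≤ K) (D : ℝ) (hD : 1 ≤ D) (q₁ q₂ : ℕ) (h1 : q₁ ∈ Icc 1 K)
    (h2 : q₂ ∈ Icc 1 K) (hle : q₂ ≤ q₁) :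
    Real.exp (-(D ^ 2 * (Real.log q₁ - Real.log q₂) ^ 2 / (4 * Real.pi))) ≤
      Real.exp 1 * Real.exp (-(D / (Real.sqrt Real.pi * K))) ^ (q₁ - q₂) := by
  rw [mem_Icc] at h1 h2
  have hK0 : (0 : ℝ) < K := by exact_mod_cast hK
  have hpi := Real.pi_pos
  have hsp : 0 < Real.sqrt Real.pi := Real.sqrt_pos.2 hpi
  have hq1 : (0 : ℝ) < q₁ := by exact_mod_cast h1.1
  have hq2 : (0 : ℝ) < q₂ := by exact_mod_cast h2.1
  have hlog : ((q₁ : ℝ) - q₂) / K ≤ Real.log q₁ - Real.log q₂ := by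
    rw [← Real.log_div hq1.ne' hq2.ne']
    have h3 : 1 - ((q₁ : ℝ) / q₂)⁻¹ ≤ Real.log ((q₁ : ℝ) / q₂) :=
      Real.one_sub_inv_le_log_of_pos (by positivity)
    have h4 : 1 - ((q₁ : ℝ) / q₂)⁻¹ = ((q₁ : ℝ) - q₂) / q₁ := by
      field_simp
    rw [h4] at h3
    refine le_trans ?_ h3
    have h5 : (0 : ℝ) ≤ (q₁ : ℝ) - q₂ := by
      have : (q₂ : ℝ) ≤ q₁ := by exact_mod_cast hle
      linarith
    have h6 : (q₁ : ℝ) ≤ K := by exact_mod_cast h1.2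
    exact div_le_div_of_nonneg_left h5 hq1 h6
  rw [← Real.exp_nat_mul, ← Real.exp_add]
  apply Real.exp_le_exp.2
  have hcast : ((q₁ - q₂ : ℕ) : ℝ) = (q₁ : ℝ) - q₂ := by push_cast [Nat.cast_sub hle]; ring
  rw [hcast]
  have h5 : (0 : ℝ) ≤ ((q₁ : ℝ) - q₂) / K := by
    have : (q₂ : ℝ) ≤ q₁ := by exact_mod_cast hle
    exact div_nonneg (by linarith) hK0.le
  set r := ((q₁ : ℝ) - q₂) / K with hr
  set l := Real.log q₁ - Real.log q₂ with hl
  have h7 : ((q₁ : ℝ) - q₂) * -(D / (Real.sqrt Real.pi * K)) = -(D * r / Real.sqrt Real.pi) := by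
    rw [hr]; field_simp
  rw [h7]
  have h8 : (D * r / (2 * Real.sqrt Real.pi)) ^ 2 ≤ D ^ 2 * l ^ 2 / (4 * Real.pi) := by
    have : (D * r / (2 * Real.sqrt Real.pi)) ^ 2 = D ^ 2 * r ^ 2 / (4 * Real.pi) := by
      rw [div_pow, mul_pow, mul_pow, Real.sq_sqrt hpi.le]; norm_num
    rw [this]
    have h9 : r ^ 2 ≤ l ^ 2 := pow_le_pow_left₀ h5 hlog 2
    gcongr
  have h10 : D * r / Real.sqrt Real.pi = 2 * (D * r / (2 * Real.sqrt Real.pi)) := by
    field_simp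
  rw [h10]
  nlinarith [sq_nonneg (D * r / (2 * Real.sqrt Real.pi) - 1)]

theorem geom_le (x : ℝ) (hx : 0 < x) (n : ℕ) :
    ∑ r ∈ range n, Real.exp (-x) ^ r ≤ 1 + 1 / x := by
  have h0 : 0 ≤ Real.exp (-x) := (Real.exp_pos _).le
  have h1 : Real.exp (-x) < 1 := by rw [Real.exp_lt_one_iff]; linarith
  have h2 : ∑ r ∈ range n, Real.exp (-x) ^ r ≤ (1 - Real.exp (-x))⁻¹ := by
    rw [← tsum_geometric_of_lt_one h0 h1]
    exact (summable_geometric_of_lt_one h0 h1).sum_le_tsum _ (fun i _ => pow_nonneg h0 i)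
  refine h2.trans ?_
  have h3 : 1 + x ≤ Real.exp x := by linarith [Real.add_one_le_exp x]
  have h4 : Real.exp (-x) ≤ 1 / (1 + x) := by
    rw [Real.exp_neg, ← one_div]
    exact one_div_le_one_div_of_le (by linarith) h3
  have h5 : x / (1 + x) ≤ 1 - Real.exp (-x) := by
    have : x / (1 + x) = 1 - 1 / (1 + x) := by field_simp; ring
    linarith
  have h6 : 0 < x / (1 + x) := by positivity
  calc (1 - Real.exp (-x))⁻¹ ≤ (x / (1 + x))⁻¹ := inv_anti₀ h6 h5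
    _ = 1 + 1 / x := by field_simp; ring

/-- row sums -/
theorem row (K : ℕ) (hK : 1 ≤ K) (D : ℝ) (hD : 1 ≤ D) (q₁ : ℕ) (h1 : q₁ ∈ Icc 1 K) :
    ∑ q₂ ∈ Icc 1 K, D * Real.exp (-(D ^ 2 * (Real.log q₁ - Real.log q₂) ^ 2 / (4 * Real.pi))) ≤
      20 * (D + K) := by
  have hK0 : (0 : ℝ) < K := by exact_mod_cast hK
  have hpi := Real.pi_pos
  have hsp : 0 < Real.sqrt Real.pi := Real.sqrt_pos.2 hpi
  set ρ := Real.exp (-(D / (Real.sqrt Real.pi * K))) with hρ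
  have hρ0 : 0 < ρ := Real.exp_pos _
  have hx : 0 < D / (Real.sqrt Real.pi * K) := by positivity
  have hb : ∀ q₂ ∈ Icc 1 K,
      Real.exp (-(D ^ 2 * (Real.log q₁ - Real.log q₂) ^ 2 / (4 * Real.pi))) ≤
      Real.exp 1 * (ρ ^ (q₁ - q₂) * (if q₂ ≤ q₁ then 1 else 0) +
        ρ ^ (q₂ - q₁) * (if q₁ < q₂ then 1 else 0)) := by
    intro q₂ h2
    rcases Nat.lt_or_ge q₁ q₂ with h3 | h3
    · rw [if_neg (not_le.2 h3), if_pos h3, mul_zero, zero_add, mul_one]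
      have := gauss_le K hK D hD q₂ q₁ h2 h1 h3.le
      rw [show (Real.log q₁ - Real.log q₂) ^ 2 = (Real.log q₂ - Real.log q₁) ^ 2 by ring]
      exact this
    · rw [if_pos h3, if_neg (not_lt.2 h3), mul_zero, add_zero, mul_one]
      exact gauss_le K hK D hD q₁ q₂ h1 h2 h3
  have hs1 : ∑ q₂ ∈ Icc 1 K, ρ ^ (q₁ - q₂) * (if q₂ ≤ q₁ then (1 : ℝ) else 0) ≤
      ∑ r ∈ range (K + 1), ρ ^ r := by
    have : ∑ q₂ ∈ Icc 1 K, ρ ^ (q₁ - q₂) * (if q₂ ≤ q₁ then (1 : ℝ) else 0) =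
        ∑ q₂ ∈ (Icc 1 K).filter (fun q₂ => q₂ ≤ q₁), ρ ^ (q₁ - q₂) := by
      rw [sum_filter]
      refine sum_congr rfl fun q₂ _ => ?_
      split_ifs <;> simp
    rw [this]
    have h3 : ∑ q₂ ∈ (Icc 1 K).filter (fun q₂ => q₂ ≤ q₁), ρ ^ (q₁ - q₂) =
        ∑ r ∈ ((Icc 1 K).filter (fun q₂ => q₂ ≤ q₁)).image (fun q₂ => q₁ - q₂), ρ ^ r := by
      rw [sum_image]
      intro a ha b hb hab
      have ha' := (mem_filter.1 ha).2
      have hb' := (mem_filter.1 hb).2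
      simp only at hab
      omega
    rw [h3]
    refine sum_le_sum_of_subset_of_nonneg ?_ (fun i _ _ => pow_nonneg hρ0.le i)
    intro r hr
    obtain ⟨q₂, hq, rfl⟩ := mem_image.1 hr
    rw [mem_Icc] at h1
    rw [mem_range]
    omega
  have hs2 : ∑ q₂ ∈ Icc 1 K, ρ ^ (q₂ - q₁) * (if q₁ < q₂ then (1 : ℝ) else 0) ≤
      ∑ r ∈ range (K + 1), ρ ^ r := by
    have : ∑ q₂ ∈ Icc 1 K, ρ ^ (q₂ - q₁) * (if q₁ < q₂ then (1 : ℝ) else 0) =
        ∑ q₂ ∈ (Icc 1 K).filter (fun q₂ => q₁ < q₂), ρ ^ (q₂ - q₁) := by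
      rw [sum_filter]
      refine sum_congr rfl fun q₂ _ => ?_
      split_ifs <;> simp
    rw [this]
    have h3 : ∑ q₂ ∈ (Icc 1 K).filter (fun q₂ => q₁ < q₂), ρ ^ (q₂ - q₁) =
        ∑ r ∈ ((Icc 1 K).filter (fun q₂ => q₁ < q₂)).image (fun q₂ => q₂ - q₁), ρ ^ r := by
      rw [sum_image]
      intro a ha b hb hab
      have ha' := (mem_filter.1 ha).2
      have hb' := (mem_filter.1 hb).2
      simp only at hab
      omega
    rw [h3]
    refine sum_le_sum_of_subset_of_nonneg ?_ (fun i _ _ => pow_nonneg hρ0.le i)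
    intro r hr
    obtain ⟨q₂, hq, rfl⟩ := mem_image.1 hr
    have := mem_Icc.1 (mem_filter.1 hq).1
    rw [mem_range]
    omega
  have hg := geom_le _ hx (K + 1)
  rw [← hρ] at hg
  have h4 : 1 + 1 / (D / (Real.sqrt Real.pi * K)) = 1 + Real.sqrt Real.pi * K / D := by
    rw [one_div_div]
  rw [h4] at hg
  have hsum : ∑ q₂ ∈ Icc 1 K,
      Real.exp (-(D ^ 2 * (Real.log q₁ - Real.log q₂) ^ 2 / (4 * Real.pi))) ≤
      Real.exp 1 * (2 * (1 + Real.sqrt Real.pi * K / D)) := by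
    refine (sum_le_sum hb).trans ?_
    rw [← mul_sum, sum_add_distrib]
    refine mul_le_mul_of_nonneg_left ?_ (Real.exp_pos _).le
    linarith
  rw [← mul_sum]
  have hD0 : 0 < D := by linarith
  calc D * ∑ q₂ ∈ Icc 1 K,
        Real.exp (-(D ^ 2 * (Real.log q₁ - Real.log q₂) ^ 2 / (4 * Real.pi)))
      ≤ D * (Real.exp 1 * (2 * (1 + Real.sqrt Real.pi * K / D))) :=
        mul_le_mul_of_nonneg_left hsum hD0.le
    _ = Real.exp 1 * 2 * (D + Real.sqrt Real.pi * K) := by field_simp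
    _ ≤ 3 * 2 * (D + 2 * K) := by
        have he : Real.exp 1 ≤ 3 := by
          have := Real.exp_one_lt_d9
          linarith
        have hs : Real.sqrt Real.pi ≤ 2 := by
          rw [Real.sqrt_le_left (by norm_num)]
          have := Real.pi_lt_four
          linarith
        have h5 : D + Real.sqrt Real.pi * K ≤ D + 2 * K := by
          have := mul_le_mul_of_nonneg_right hs hK0.le
          linarith
        exact mul_le_mul (by linarith) h5 (by positivity) (by norm_num)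
    _ ≤ 20 * (D + K) := by linarith

/-- Schur's test -/
theorem schur (s : Finset ℕ) (a : ℕ → ℝ) (w : ℕ → ℕ → ℝ) (B : ℝ)
    (hw : ∀ i j, 0 ≤ w i j) (hs : ∀ i j, w i j = w j i)
    (hB : ∀ i ∈ s, ∑ j ∈ s, w i j ≤ B) :
    ∑ i ∈ s, ∑ j ∈ s, a i * a j * w i j ≤ B * ∑ i ∈ s, a i ^ 2 := by
  have h1 : ∑ i ∈ s, ∑ j ∈ s, a i * a j * w i j ≤
      ∑ i ∈ s, ∑ j ∈ s, (a i ^ 2 / 2 * w i j + a j ^ 2 / 2 * w i j) := by
    refine sum_le_sum fun i _ => sum_le_sum fun j _ => ?_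
    have := mul_nonneg (hw i j) (sq_nonneg (a i - a j))
    nlinarith
  have h2 : ∑ i ∈ s, ∑ j ∈ s, (a i ^ 2 / 2 * w i j + a j ^ 2 / 2 * w i j) =
      ∑ i ∈ s, a i ^ 2 * ∑ j ∈ s, w i j := by
    simp_rw [sum_add_distrib]
    have h3 : ∑ i ∈ s, ∑ j ∈ s, a j ^ 2 / 2 * w i j = ∑ i ∈ s, ∑ j ∈ s, a i ^ 2 / 2 * w i j := by
      rw [sum_comm]
      refine sum_congr rfl fun i _ => sum_congr rfl fun j _ => ?_
      rw [hs j i]
    rw [h3, ← sum_add_distrib]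
    refine sum_congr rfl fun i _ => ?_
    rw [← mul_sum]
    ring
  rw [h2] at h1
  refine h1.trans ?_
  rw [mul_sum]
  refine sum_le_sum fun i hi => ?_
  rw [mul_comm B]
  exact mul_le_mul_of_nonneg_left (hB i hi) (sq_nonneg _)

end TaskTD

theorem short (c : ℕ → ℂ) (K : ℕ) (hK : 1 ≤ K) (t₀ D : ℝ) (hD : 1 ≤ D) :
    ∫ t, Wg t₀ D t * ‖Dp c K t‖ ^ 2 ≤ 20 * (D + K) * ∑ q ∈ Icc 1 K, ‖c q‖ ^ 2 := by
  have hD0 : 0 < D := by linarith
  have hk := (kern c K t₀ D hD0).2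
  have hle : ∫ t, Wg t₀ D t * ‖Dp c K t‖ ^ 2 ≤
      ‖((∫ t, Wg t₀ D t * ‖Dp c K t‖ ^ 2 : ℝ) : ℂ)‖ := by
    rw [Complex.norm_real]
    exact Real.le_norm_self _
  refine hle.trans ?_
  rw [hk]
  have h1 : ‖∑ q₁ ∈ Icc 1 K, ∑ q₂ ∈ Icc 1 K,
      c q₁ * (starRingEnd ℂ) (c q₂) * Kh t₀ D (Real.log q₁ - Real.log q₂)‖ ≤
      ∑ q₁ ∈ Icc 1 K, ∑ q₂ ∈ Icc 1 K, ‖c q₁‖ * ‖c q₂‖ *
        (D * Real.exp (-(D ^ 2 * (Real.log q₁ - Real.log q₂) ^ 2 / (4 * Real.pi)))) := by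
    refine (norm_sum_le _ _).trans (sum_le_sum fun q₁ _ => ?_)
    refine (norm_sum_le _ _).trans (sum_le_sum fun q₂ _ => ?_)
    rw [norm_mul, norm_mul, RCLike.norm_conj, (Kh_facts t₀ D hD0).1]
  refine h1.trans ?_
  refine schur (Icc 1 K) (fun q => ‖c q‖)
    (fun q₁ q₂ => D * Real.exp (-(D ^ 2 * (Real.log q₁ - Real.log q₂) ^ 2 / (4 * Real.pi))))
    (20 * (D + K)) (fun i j => by positivity) (fun i j => ?_) (fun i hi => row K hK D hD i hi)
  rw [show (Real.log i - Real.log j) ^ 2 = (Real.log j - Real.log i) ^ 2 by ring]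

end Pool.Agent.H442R2.TSM
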