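import Pool.Agent.H442R2.TSM.Osc
import Pool.Agent.H442R2.TSM.Kern
import Pool.Agent.H510R2.Div

set_option autoImplicit false

/-! TN: one dyadic block of the Dirichlet polynomial. -/

namespace Pool.Agent.H442R2.TSM

open Finset MeasureTheory

namespace TaskTN

/-- grouping the double sum -/
theorem regroup (a : ℕ → ℂ) (M K : ℕ) (F : ℕ → ℂ) :
    ∑ m ∈ Ioc M (2 * M), ∑ n ∈ Icc 1 (K / m), a m * F (m * n) =
      ∑ q ∈ Icc 1 K, bq a M q * F q := by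
  unfold bq
  simp_rw [Finset.sum_mul, Finset.sum_filter]
  rw [Finset.sum_comm]
  apply Finset.sum_congr rfl
  intro m hm
  have hm0 : 0 < m := by
    have := (Finset.mem_Ioc.1 hm).1
    omega
  rw [← Finset.sum_filter]
  symm
  apply Finset.sum_bij' (fun q _ => q / m) (fun n _ => m * n)
  · intro q hq
    rw [Finset.mem_filter, Finset.mem_Icc] at hq
    obtain ⟨⟨h1, h2⟩, k, rfl⟩ := hq
    rw [Finset.mem_Icc, Nat.mul_div_cancel_left _ hm0]
    constructor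
    · rcases Nat.eq_zero_or_pos k with h | h
      · subst h; omega
      · exact h
    · rw [Nat.le_div_iff_mul_le hm0, mul_comm]; exact h2
  · intro n hn
    rw [Finset.mem_Icc] at hn
    rw [Finset.mem_filter, Finset.mem_Icc]
    refine ⟨⟨Nat.mul_pos hm0 hn.1, ?_⟩, dvd_mul_right _ _⟩
    rw [Nat.le_div_iff_mul_le hm0, mul_comm] at hn
    exact hn.2
  · intro q hq
    rw [Finset.mem_filter] at hq
    exact Nat.mul_div_cancel' hq.2
  · intro n _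
    exact Nat.mul_div_cancel_left _ hm0
  · intro q hq
    rw [Finset.mem_filter] at hq
    rw [Nat.mul_div_cancel' hq.2]

theorem npow (t : ℝ) (q : ℕ) (hq : 1 ≤ q) :
    (q : ℂ) ^ (-(1 / 2 + (t : ℂ) * Complex.I)) =
      (((q : ℝ) ^ (-(1 / 2) : ℝ) : ℝ) : ℂ) *
        Complex.exp (-((t * Real.log q : ℝ) : ℂ) * Complex.I) := by
  have hq0 : (q : ℂ) ≠ 0 := by
    have : q ≠ 0 := by omega
    exact_mod_cast this
  have hq1 : (0 : ℝ) ≤ (q : ℝ) := by positivity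
  rw [Complex.ofReal_cpow hq1, Complex.ofReal_natCast, Complex.cpow_def_of_ne_zero hq0,
    Complex.cpow_def_of_ne_zero hq0, ← Complex.exp_add, ← Complex.natCast_log]
  congr 1
  push_cast
  ring

theorem npow_norm (t : ℝ) (q : ℕ) (hq : 1 ≤ q) :
    ‖(q : ℂ) ^ (-(1 / 2 + (t : ℂ) * Complex.I))‖ = (q : ℝ) ^ (-(1 / 2) : ℝ) := by
  rw [npow t q hq, norm_mul]
  have h1 : ‖Complex.exp (-((t * Real.log q : ℝ) : ℂ) * Complex.I)‖ = 1 := by
    rw [← Complex.ofReal_neg]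
    exact Complex.norm_exp_ofReal_mul_I _
  rw [h1, mul_one, Complex.norm_real, Real.norm_of_nonneg (by positivity)]

theorem npow_norm_le (t : ℝ) (q : ℕ) (hq : 1 ≤ q) :
    ‖(q : ℂ) ^ (-(1 / 2 + (t : ℂ) * Complex.I))‖ ≤ 1 := by
  rw [npow_norm t q hq]
  apply Real.rpow_le_one_of_one_le_of_nonpos
  · exact_mod_cast hq
  · norm_num

theorem telesc (T : ℝ) (q : ℝ) (I : ℕ) :
    Cu (q / (2 ^ I * T)) = Cu (q / T) + ∑ i ∈ range I, Bu (q / (2 ^ i * T)) := by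
  induction I with
  | zero => simp
  | succ n ih =>
    rw [Finset.sum_range_succ, ← add_assoc, ← ih]
    unfold Bu
    have : q / (2 ^ n * T) / 2 = q / (2 ^ (n + 1) * T) := by
      rw [pow_succ, div_div]; congr 1; ring
    rw [this]
    ring

/-- the decomposition -/
theorem decomp (a : ℕ → ℂ) (M : ℕ) (T t : ℝ) (hT : 0 < T) (I : ℕ) :
    ∑ m ∈ Ioc M (2 * M), a m * (m : ℂ) ^ (-(1 / 2 + (t : ℂ) * Complex.I)) *
      ∑ n ∈ Icc 1 ⌊2 * ((2 ^ I * T) / (m : ℝ))⌋₊, ((Cu ((n : ℝ) / ((2 ^ I * T) / (m : ℝ))) : ℝ) : ℂ) *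
        (n : ℂ) ^ (-(1 / 2 + (t : ℂ) * Complex.I)) =
    Dp (c0 a M T) ⌊2 * T⌋₊ t + ∑ i ∈ range I, Dp (cQ a M (2 ^ i * T)) ⌊4 * (2 ^ i * T)⌋₊ t := by
  set Z : ℝ := 2 ^ I * T with hZ
  have hZ0 : 0 < Z := by positivity
  have h1 : ∑ m ∈ Ioc M (2 * M), a m * (m : ℂ) ^ (-(1 / 2 + (t : ℂ) * Complex.I)) *
      ∑ n ∈ Icc 1 ⌊2 * (Z / (m : ℝ))⌋₊, ((Cu ((n : ℝ) / (Z / (m : ℝ))) : ℝ) : ℂ) *
        (n : ℂ) ^ (-(1 / 2 + (t : ℂ) * Complex.I)) =
      ∑ m ∈ Ioc M (2 * M), ∑ n ∈ Icc 1 (⌊2 * Z⌋₊ / m), a m *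
        (fun q : ℕ => ((Cu ((q : ℝ) / Z) : ℝ) : ℂ) *
          (q : ℂ) ^ (-(1 / 2 + (t : ℂ) * Complex.I))) (m * n) := by
    apply Finset.sum_congr rfl
    intro m hm
    have hm0 : 0 < m := by
      have := (Finset.mem_Ioc.1 hm).1
      omega
    have hmr : (0 : ℝ) < m := by exact_mod_cast hm0
    have e1 : ⌊2 * (Z / (m : ℝ))⌋₊ = ⌊2 * Z⌋₊ / m := by
      rw [← mul_div_assoc, Nat.floor_div_natCast]
    rw [e1, Finset.mul_sum]
    apply Finset.sum_congr rfl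
    intro n _
    have e2 : ((m * n : ℕ) : ℝ) / Z = (n : ℝ) / (Z / (m : ℝ)) := by
      push_cast
      field_simp
    have e3 : ((m * n : ℕ) : ℂ) ^ (-(1 / 2 + (t : ℂ) * Complex.I)) =
        (m : ℂ) ^ (-(1 / 2 + (t : ℂ) * Complex.I)) * (n : ℂ) ^ (-(1 / 2 + (t : ℂ) * Complex.I)) := by
      rw [Nat.cast_mul, Complex.natCast_mul_natCast_cpow]
    simp only [e2, e3]
    ring
  rw [h1, regroup a M ⌊2 * Z⌋₊ (fun q : ℕ => ((Cu ((q : ℝ) / Z) : ℝ) : ℂ) *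
          (q : ℂ) ^ (-(1 / 2 + (t : ℂ) * Complex.I)))]
  have hcu := cu_facts.2.2.2
  have hbu := bu_facts.2.2.2.1
  -- expand
  have h2 : ∀ q ∈ Icc 1 ⌊2 * Z⌋₊, bq a M q * (fun q : ℕ => ((Cu ((q : ℝ) / Z) : ℝ) : ℂ) *
      (q : ℂ) ^ (-(1 / 2 + (t : ℂ) * Complex.I))) q =
      c0 a M T q * Complex.exp (-((t * Real.log q : ℝ) : ℂ) * Complex.I) +
      ∑ i ∈ range I, cQ a M (2 ^ i * T) q *
        Complex.exp (-((t * Real.log q : ℝ) : ℂ) * Complex.I) := by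
    intro q hq
    have hq1 := (Finset.mem_Icc.1 hq).1
    simp only
    rw [npow t q hq1, hZ, telesc T (q : ℝ) I]
    unfold c0 cQ
    rw [Complex.ofReal_add, Complex.ofReal_sum, ← Finset.sum_mul]
    have : ∑ i ∈ range I, bq a M q *
        (((q : ℝ) ^ (-(1 / 2) : ℝ) * Bu ((q : ℝ) / (2 ^ i * T)) : ℝ) : ℂ) =
        bq a M q * (((q : ℝ) ^ (-(1 / 2) : ℝ) : ℝ) : ℂ) *
          ∑ i ∈ range I, ((Bu ((q : ℝ) / (2 ^ i * T)) : ℝ) : ℂ) := by
      rw [Finset.mul_sum]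
      apply Finset.sum_congr rfl
      intro i _
      rw [Complex.ofReal_mul]
      ring
    rw [this, Complex.ofReal_mul, Complex.ofReal_mul]
    ring
  rw [Finset.sum_congr rfl h2, Finset.sum_add_distrib, Finset.sum_comm]
  unfold Dp
  congr 1
  · symm
    apply Finset.sum_subset
    · apply Finset.Icc_subset_Icc_right
      apply Nat.floor_le_floor
      have : (1 : ℝ) ≤ 2 ^ I := one_le_pow₀ (by norm_num)
      rw [hZ]
      nlinarith
    · intro q _ hq2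
      have hq3 : 2 ≤ (q : ℝ) / T := by
        rw [le_div_iff₀ hT]
        rw [Finset.mem_Icc] at hq2
        by_contra hcon
        apply hq2
        have hq1 := (Finset.mem_Icc.1 (by assumption : q ∈ Icc 1 ⌊2 * Z⌋₊)).1
        exact ⟨hq1, Nat.le_floor (not_le.1 hcon).le⟩
      unfold c0
      rw [hcu _ hq3]
      simp
  · apply Finset.sum_congr rfl
    intro i hi
    have hi' := Finset.mem_range.1 hi
    have hQ : (0 : ℝ) < 2 ^ i * T := by positivity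
    symm
    apply Finset.sum_subset
    · apply Finset.Icc_subset_Icc_right
      apply Nat.floor_le_floor
      have : (2 : ℝ) * 2 ^ i ≤ 2 ^ I := by
        rw [← pow_succ']
        exact pow_le_pow_right₀ (by norm_num) hi'
      rw [hZ]
      nlinarith
    · intro q hq1 hq2
      have hq3 : 4 ≤ (q : ℝ) / (2 ^ i * T) := by
        rw [le_div_iff₀ hQ]
        rw [Finset.mem_Icc] at hq2
        by_contra hcon
        apply hq2
        exact ⟨(Finset.mem_Icc.1 hq1).1, Nat.le_floor (not_le.1 hcon).le⟩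
      unfold cQ
      rw [hbu _ hq3]
      simp

/-- pointwise approximation of the product -/
theorem approx (C : ℝ) (hC : 0 < C) (hap : ∀ T : ℝ, 1 ≤ T → ∀ t ∈ Set.Icc T (2 * T), ∀ Y : ℝ,
      T ^ (4 / 3 : ℝ) ≤ Y → Y ≤ 2 * T ^ 2 →
      ‖riemannZeta (1 / 2 + (t : ℂ) * Complex.I) - ∑ n ∈ Icc 1 ⌊2 * Y⌋₊,
        ((Cu ((n : ℝ) / Y) : ℝ) : ℂ) * (n : ℂ) ^ (-(1 / 2 + (t : ℂ) * Complex.I))‖ ≤ C / T)
    (T : ℝ) (hT : 1 ≤ T) (M : ℕ) (hMT : (M : ℝ) ≤ T) (hM : 2 * M * T ^ (4 / 3 : ℝ) ≤ T ^ 2)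
    (a : ℕ → ℂ) (ha : ∀ m, ‖a m‖ ≤ 1) (I : ℕ) (hI1 : T ≤ 2 ^ I) (hI2 : (2 : ℝ) ^ I ≤ 2 * T)
    (t : ℝ) (ht : t ∈ Set.Icc T (2 * T)) :
    ‖riemannZeta (1 / 2 + (t : ℂ) * Complex.I) *
      (∑ m ∈ Ioc M (2 * M), a m * (m : ℂ) ^ (-(1 / 2 + (t : ℂ) * Complex.I))) -
      (Dp (c0 a M T) ⌊2 * T⌋₊ t + ∑ i ∈ range I, Dp (cQ a M (2 ^ i * T)) ⌊4 * (2 ^ i * T)⌋₊ t)‖ ≤
      C := by
  have hT0 : 0 < T := by linarith
  rw [← decomp a M T t hT0 I, Finset.mul_sum, ← Finset.sum_sub_distrib]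
  have hterm : ∀ m ∈ Ioc M (2 * M), ‖riemannZeta (1 / 2 + (t : ℂ) * Complex.I) *
      (a m * (m : ℂ) ^ (-(1 / 2 + (t : ℂ) * Complex.I))) -
      a m * (m : ℂ) ^ (-(1 / 2 + (t : ℂ) * Complex.I)) *
      ∑ n ∈ Icc 1 ⌊2 * ((2 ^ I * T) / (m : ℝ))⌋₊, ((Cu ((n : ℝ) / ((2 ^ I * T) / (m : ℝ))) : ℝ) : ℂ) *
        (n : ℂ) ^ (-(1 / 2 + (t : ℂ) * Complex.I))‖ ≤ C / T := by
    intro m hm
    rw [Finset.mem_Ioc] at hm
    have hm0 : 1 ≤ m := by omega
    have hmr : (1 : ℝ) ≤ m := by exact_mod_cast hm0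
    have hm2 : (m : ℝ) ≤ 2 * M := by exact_mod_cast hm.2
    have hTT : T ^ 2 ≤ 2 ^ I * T := by
      rw [sq]
      exact mul_le_mul_of_nonneg_right hI1 hT0.le
    have hTT2 : 2 ^ I * T ≤ 2 * T ^ 2 := by
      have := mul_le_mul_of_nonneg_right hI2 hT0.le
      rw [sq]; linarith
    have hp : (0 : ℝ) ≤ T ^ (4 / 3 : ℝ) := by positivity
    have hY1 : T ^ (4 / 3 : ℝ) ≤ (2 ^ I * T) / (m : ℝ) := by
      rw [le_div_iff₀ (by linarith)]
      calc T ^ (4 / 3 : ℝ) * m ≤ T ^ (4 / 3 : ℝ) * (2 * M) := mul_le_mul_of_nonneg_left hm2 hp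
        _ = 2 * M * T ^ (4 / 3 : ℝ) := by ring
        _ ≤ T ^ 2 := hM
        _ ≤ _ := hTT
    have hY2 : (2 ^ I * T) / (m : ℝ) ≤ 2 * T ^ 2 := by
      rw [div_le_iff₀ (by linarith)]
      have : 2 * T ^ 2 * 1 ≤ 2 * T ^ 2 * (m : ℝ) := mul_le_mul_of_nonneg_left hmr (by positivity)
      linarith
    have h := hap T hT t ht _ hY1 hY2
    set ζ := riemannZeta (1 / 2 + (t : ℂ) * Complex.I)
    set P := (m : ℂ) ^ (-(1 / 2 + (t : ℂ) * Complex.I)) with hP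
    set S := ∑ n ∈ Icc 1 ⌊2 * ((2 ^ I * T) / (m : ℝ))⌋₊,
      ((Cu ((n : ℝ) / ((2 ^ I * T) / (m : ℝ))) : ℝ) : ℂ) *
        (n : ℂ) ^ (-(1 / 2 + (t : ℂ) * Complex.I))
    have e : ζ * (a m * P) - a m * P * S = a m * P * (ζ - S) := by ring
    rw [e, norm_mul, norm_mul]
    have hPn : ‖P‖ ≤ 1 := npow_norm_le t m hm0
    calc ‖a m‖ * ‖P‖ * ‖ζ - S‖ ≤ 1 * 1 * (C / T) := by
          apply mul_le_mul _ h (norm_nonneg _) (by norm_num)
          exact mul_le_mul (ha m) hPn (norm_nonneg _) (by norm_num)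
      _ = C / T := by ring
  refine (norm_sum_le_of_le _ hterm).trans ?_
  rw [Finset.sum_const, Nat.card_Ioc, nsmul_eq_mul]
  have : ((2 * M - M : ℕ) : ℝ) = M := by
    congr 1; omega
  rw [this, mul_div_assoc', div_le_iff₀ hT0, mul_comm]
  exact mul_le_mul_of_nonneg_left hMT hC.le

/-- Cauchy-Schwarz -/
theorem cs (x : ℂ) (I : ℕ) (y : ℕ → ℂ) (z : ℂ) (C : ℝ)
    (h : ‖z - (x + ∑ i ∈ range I, y i)‖ ≤ C) :
    ‖z‖ ^ 2 ≤ 3 * ‖x‖ ^ 2 + 3 * I * ∑ i ∈ range I, ‖y i‖ ^ 2 + 3 * C ^ 2 := by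
  have h1 : ‖z‖ ≤ C + (‖x‖ + ∑ i ∈ range I, ‖y i‖) := by
    calc ‖z‖ = ‖(z - (x + ∑ i ∈ range I, y i)) + (x + ∑ i ∈ range I, y i)‖ := by
          rw [sub_add_cancel]
      _ ≤ ‖z - (x + ∑ i ∈ range I, y i)‖ + ‖x + ∑ i ∈ range I, y i‖ := norm_add_le _ _
      _ ≤ C + (‖x‖ + ∑ i ∈ range I, ‖y i‖) := by
          apply add_le_add h
          refine (norm_add_le _ _).trans ?_
          exact add_le_add le_rfl (norm_sum_le _ _)
  have h2 : (∑ i ∈ range I, ‖y i‖) ^ 2 ≤ I * ∑ i ∈ range I, ‖y i‖ ^ 2 := by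
    have := sq_sum_le_card_mul_sum_sq (s := range I) (f := fun i => ‖y i‖)
    rwa [Finset.card_range] at this
  have h3 : 0 ≤ ∑ i ∈ range I, ‖y i‖ := Finset.sum_nonneg fun i _ => norm_nonneg _
  set S := ∑ i ∈ range I, ‖y i‖
  have hC : 0 ≤ C := le_trans (norm_nonneg _) h
  have h4 : ‖z‖ ^ 2 ≤ (C + (‖x‖ + S)) ^ 2 :=
    pow_le_pow_left₀ (norm_nonneg _) h1 2
  nlinarith [sq_nonneg (C - ‖x‖), sq_nonneg (C - S), sq_nonneg (‖x‖ - S)]

theorem Wg_lower (t₀ D t : ℝ) (hD : 0 < D) (h : |t - t₀| ≤ D) :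
    Real.exp (-Real.pi) ≤ Wg t₀ D t := by
  unfold Wg
  apply Real.exp_le_exp.2
  have h1 : ((t - t₀) / D) ^ 2 ≤ 1 := by
    rw [div_pow, div_le_one (by positivity)]
    exact sq_le_sq' (by linarith [(abs_le.1 h).1]) (abs_le.1 h).2
  nlinarith [Real.pi_pos]

/-- covering `[T,2T]` by windows of width `D` -/
theorem cover (T D B : ℝ) (hT : 0 < T) (hD : 0 < D) (G : ℝ → ℝ)
    (hG : ∀ t, 0 ≤ G t) (hGc : Continuous G)
    (hI : ∀ t₀ ∈ Set.Icc T (2 * T), Integrable (fun t => Wg t₀ D t * G t))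
    (hB : ∀ t₀ ∈ Set.Icc T (2 * T), ∫ t, Wg t₀ D t * G t ≤ B) :
    ∫ t in T..(2 * T), G t ≤ Real.exp Real.pi * (T / D + 1) * B := by
  set J := ⌊T / D⌋₊ with hJ
  have hcen : ∀ j ∈ range (J + 1), T + j * D ∈ Set.Icc T (2 * T) := by
    intro j hj
    rw [Finset.mem_range] at hj
    have h1 : (j : ℝ) ≤ J := by exact_mod_cast (by omega : j ≤ J)
    have h2 : (J : ℝ) ≤ T / D := Nat.floor_le (by positivity)
    have h3 : (j : ℝ) * D ≤ T := by
      rw [← le_div_iff₀ hD]; linarith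
    constructor
    · have : 0 ≤ (j : ℝ) * D := by positivity
      linarith
    · linarith
  have hB0 : 0 ≤ B := by
    refine le_trans ?_ (hB T ⟨le_rfl, by linarith⟩)
    apply integral_nonneg
    intro t
    exact mul_nonneg (Real.exp_pos _).le (hG t)
  have hint : Integrable (fun t => ∑ j ∈ range (J + 1),
      Real.exp Real.pi * (Wg (T + j * D) D t * G t)) := by
    apply integrable_finsetSum
    intro j hj
    exact (hI _ (hcen j hj)).const_mul _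
  have hpt : ∀ t ∈ Set.Ioc T (2 * T), G t ≤ ∑ j ∈ range (J + 1),
      Real.exp Real.pi * (Wg (T + j * D) D t * G t) := by
    intro t ht
    set j := ⌊(t - T) / D⌋₊ with hj
    have h0 : 0 ≤ (t - T) / D := div_nonneg (by linarith [ht.1]) hD.le
    have hj1 : (j : ℝ) ≤ (t - T) / D := Nat.floor_le h0
    have hj2 : (t - T) / D < j + 1 := Nat.lt_floor_add_one _
    have hjJ : j ≤ J := by
      apply Nat.floor_le_floor
      apply div_le_div_of_nonneg_right _ hD.le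
      linarith [ht.2]
    rw [le_div_iff₀ hD] at hj1
    rw [div_lt_iff₀ hD] at hj2
    have habs : |t - (T + j * D)| ≤ D := by
      rw [abs_le]
      constructor <;> nlinarith
    have hw := Wg_lower (T + j * D) D t hD habs
    have hone : 1 ≤ Real.exp Real.pi * Wg (T + j * D) D t := by
      have := mul_le_mul_of_nonneg_left hw (Real.exp_pos Real.pi).le
      rwa [← Real.exp_add, add_neg_cancel, Real.exp_zero] at this
    calc G t = 1 * G t := (one_mul _).symm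
      _ ≤ Real.exp Real.pi * Wg (T + j * D) D t * G t := mul_le_mul_of_nonneg_right hone (hG t)
      _ = (fun j : ℕ => Real.exp Real.pi * (Wg (T + j * D) D t * G t)) j := by
          simp only; ring
      _ ≤ _ := by
          apply Finset.single_le_sum (f := fun j : ℕ =>
            Real.exp Real.pi * (Wg (T + j * D) D t * G t))
          · intro i _
            have : 0 ≤ Wg (T + i * D) D t := (Real.exp_pos _).le
            have := hG t
            positivity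
          · rw [Finset.mem_range]; omega
  rw [intervalIntegral.integral_of_le (by linarith)]
  calc ∫ t in Set.Ioc T (2 * T), G t ≤ ∫ t in Set.Ioc T (2 * T), ∑ j ∈ range (J + 1),
      Real.exp Real.pi * (Wg (T + j * D) D t * G t) := by
        apply setIntegral_mono_on hGc.integrableOn_Ioc hint.integrableOn measurableSet_Ioc hpt
    _ ≤ ∫ t, ∑ j ∈ range (J + 1), Real.exp Real.pi * (Wg (T + j * D) D t * G t) := by
        apply setIntegral_le_integral hint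
        refine Filter.Eventually.of_forall fun t => ?_
        simp only [Pi.zero_apply]
        apply Finset.sum_nonneg
        intro i _
        have : 0 ≤ Wg (T + i * D) D t := (Real.exp_pos _).le
        have := hG t
        positivity
    _ = ∑ j ∈ range (J + 1), Real.exp Real.pi * ∫ t, (Wg (T + j * D) D t * G t) := by
        rw [integral_finsetSum]
        · apply Finset.sum_congr rfl
          intro j _
          rw [integral_const_mul]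
        · intro j hj
          exact (hI _ (hcen j hj)).const_mul _
    _ ≤ ∑ j ∈ range (J + 1), Real.exp Real.pi * B := by
        apply Finset.sum_le_sum
        intro j hj
        exact mul_le_mul_of_nonneg_left (hB _ (hcen j hj)) (Real.exp_pos _).le
    _ = (J + 1) * (Real.exp Real.pi * B) := by
        rw [Finset.sum_const, Finset.card_range, nsmul_eq_mul]
        push_cast
        ring
    _ ≤ (T / D + 1) * (Real.exp Real.pi * B) := by
        apply mul_le_mul_of_nonneg_right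
        · have h2 : (J : ℝ) ≤ T / D := Nat.floor_le (by positivity)
          linarith
        · positivity
    _ = _ := by ring

theorem Dp_cont (c : ℕ → ℂ) (K : ℕ) : Continuous (fun t => ‖Dp c K t‖ ^ 2) := by
  unfold Dp
  fun_prop

/-- coefficient bound of the short piece -/
theorem c0_sum (η : ℝ) (hη : 0 < η) (hη1 : η ≤ 1) : ∃ C : ℝ, 0 < C ∧ ∀ (a : ℕ → ℂ) (M : ℕ) (T : ℝ),
    (∀ m, ‖a m‖ ≤ 1) → 1 ≤ T →
    ∑ q ∈ Icc 1 ⌊2 * T⌋₊, ‖c0 a M T q‖ ^ 2 ≤ C * T ^ η := by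
  obtain ⟨C1, hC1, hdiv⟩ := Pool.Agent.H510R2.divisor_bound (η / 4) (by linarith)
  refine ⟨C1 ^ 2 * (1 + 2 / η) * 2, by positivity, ?_⟩
  intro a M T ha hT
  set K := ⌊2 * T⌋₊ with hK
  have hK2 : (K : ℝ) ≤ 2 * T := Nat.floor_le (by linarith)
  have hK1 : 1 ≤ K := by
    apply Nat.le_floor
    push_cast
    linarith
  have hKr : (1 : ℝ) ≤ K := by exact_mod_cast hK1
  have hterm : ∀ q ∈ Icc 1 K, ‖c0 a M T q‖ ^ 2 ≤ C1 ^ 2 * (K : ℝ) ^ (η / 2) * (1 / (q : ℝ)) := by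
    intro q hq
    rw [Finset.mem_Icc] at hq
    have hq0 : (0 : ℝ) < q := by exact_mod_cast hq.1
    have hqK : (q : ℝ) ≤ K := by exact_mod_cast hq.2
    have h1 : ‖bq a M q‖ ≤ C1 * (K : ℝ) ^ (η / 4) := by
      unfold bq
      refine (norm_sum_le _ _).trans ?_
      calc ∑ m ∈ (Ioc M (2 * M)).filter (fun m => m ∣ q), ‖a m‖
          ≤ ∑ m ∈ (Ioc M (2 * M)).filter (fun m => m ∣ q), (1 : ℝ) :=
            Finset.sum_le_sum fun m _ => ha m
        _ = (((Ioc M (2 * M)).filter (fun m => m ∣ q)).card : ℝ) := by simp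
        _ ≤ (q.divisors.card : ℝ) := by
            have : ((Ioc M (2 * M)).filter (fun m => m ∣ q)) ⊆ q.divisors := by
              intro m hm
              rw [Finset.mem_filter] at hm
              rw [Nat.mem_divisors]
              exact ⟨hm.2, by omega⟩
            exact_mod_cast Finset.card_le_card this
        _ ≤ C1 * (q : ℝ) ^ (η / 4) := hdiv q hq.1
        _ ≤ C1 * (K : ℝ) ^ (η / 4) := by
            apply mul_le_mul_of_nonneg_left _ hC1.le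
            exact Real.rpow_le_rpow hq0.le hqK (by linarith)
    have h2 : ‖c0 a M T q‖ ≤ C1 * (K : ℝ) ^ (η / 4) * (q : ℝ) ^ (-(1 / 2) : ℝ) := by
      unfold c0
      rw [norm_mul, Complex.norm_real]
      apply mul_le_mul h1 _ (norm_nonneg _) (by positivity)
      obtain ⟨u1, u2⟩ := cu_facts.2.1 ((q : ℝ) / T)
      have hp : 0 ≤ (q : ℝ) ^ (-(1 / 2) : ℝ) := by positivity
      rw [Real.norm_of_nonneg (mul_nonneg hp u1)]
      calc (q : ℝ) ^ (-(1 / 2) : ℝ) * Cu ((q : ℝ) / T) ≤ (q : ℝ) ^ (-(1 / 2) : ℝ) * 1 :=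
            mul_le_mul_of_nonneg_left u2 hp
        _ = _ := mul_one _
    calc ‖c0 a M T q‖ ^ 2 ≤ (C1 * (K : ℝ) ^ (η / 4) * (q : ℝ) ^ (-(1 / 2) : ℝ)) ^ 2 :=
          pow_le_pow_left₀ (norm_nonneg _) h2 2
      _ = C1 ^ 2 * ((K : ℝ) ^ (η / 4)) ^ 2 * ((q : ℝ) ^ (-(1 / 2) : ℝ)) ^ 2 := by ring
      _ = _ := by
          congr 1
          · congr 1
            rw [← Real.rpow_natCast, ← Real.rpow_mul (by positivity)]
            congr 1; push_cast; ring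
          · rw [← Real.rpow_natCast, ← Real.rpow_mul (by positivity),
              show (-(1 / 2) : ℝ) * ((2 : ℕ) : ℝ) = -1 by norm_num, Real.rpow_neg_one, one_div]
  have hharm : ∑ q ∈ Icc 1 K, (1 / (q : ℝ)) ≤ 1 + Real.log K := by
    have h := harmonic_le_one_add_log K
    rw [harmonic_eq_sum_Icc] at h
    push_cast at h
    simpa [one_div] using h
  have hlog : Real.log K ≤ (K : ℝ) ^ (η / 2) / (η / 2) :=
    Real.log_le_rpow_div (by positivity) (by linarith)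
  have hone : 1 ≤ (K : ℝ) ^ (η / 2) := Real.one_le_rpow hKr (by linarith)
  have hsq : (K : ℝ) ^ (η / 2) * (K : ℝ) ^ (η / 2) = (K : ℝ) ^ η := by
    rw [← Real.rpow_add (by linarith)]; congr 1; ring
  have hKη : (K : ℝ) ^ η ≤ 2 * T ^ η := by
    calc (K : ℝ) ^ η ≤ (2 * T) ^ η := Real.rpow_le_rpow (by positivity) hK2 hη.le
      _ = 2 ^ η * T ^ η := Real.mul_rpow (by norm_num) (by linarith)
      _ ≤ 2 ^ (1 : ℝ) * T ^ η := by
          apply mul_le_mul_of_nonneg_right _ (by positivity)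
          exact Real.rpow_le_rpow_of_exponent_le (by norm_num) hη1
      _ = 2 * T ^ η := by rw [Real.rpow_one]
  calc ∑ q ∈ Icc 1 K, ‖c0 a M T q‖ ^ 2 ≤ ∑ q ∈ Icc 1 K, C1 ^ 2 * (K : ℝ) ^ (η / 2) * (1 / (q : ℝ)) :=
        Finset.sum_le_sum hterm
    _ = C1 ^ 2 * (K : ℝ) ^ (η / 2) * ∑ q ∈ Icc 1 K, (1 / (q : ℝ)) := by rw [Finset.mul_sum]
    _ ≤ C1 ^ 2 * (K : ℝ) ^ (η / 2) * ((K : ℝ) ^ (η / 2) * (1 + 2 / η)) := by
        apply mul_le_mul_of_nonneg_left _ (by positivity)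
        have : (K : ℝ) ^ (η / 2) / (η / 2) = (K : ℝ) ^ (η / 2) * (2 / η) := by
          field_simp
        rw [this] at hlog
        nlinarith
    _ = C1 ^ 2 * (1 + 2 / η) * (K : ℝ) ^ η := by rw [← hsq]; ring
    _ ≤ C1 ^ 2 * (1 + 2 / η) * (2 * T ^ η) := mul_le_mul_of_nonneg_left hKη (by positivity)
    _ = _ := by ring

end TaskTN

open TaskTN in
theorem block_pre
    (long : ∀ (θ : ℝ) (_hθ0 : 0 < θ) (_hθ : θ < 14 / 27), ∃ d0 : ℝ, 0 < d0 ∧ ∀ d : ℝ, 0 < d →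
      d ≤ d0 → ∃ C T₁ : ℝ, 0 < C ∧ 1 ≤ T₁ ∧
      ∀ T : ℝ, T₁ ≤ T → ∀ t₀ ∈ Set.Icc T (2 * T), ∀ Q ∈ Set.Icc T (2 * T ^ 2),
      ∀ M : ℕ, 1 ≤ M → (M : ℝ) ≤ T ^ θ → ∀ a : ℕ → ℂ, (∀ m, ‖a m‖ ≤ 1) →
      ∫ t, Wg t₀ (T ^ (1 - d)) t * ‖Dp (cQ a M Q) ⌊4 * Q⌋₊ t‖ ^ 2 ≤ C * T ^ (1 + 9 * d))
    (apx : ∃ C : ℝ, 0 < C ∧ ∀ T : ℝ, 1 ≤ T → ∀ t ∈ Set.Icc T (2 * T), ∀ Y : ℝ,
      T ^ (4 / 3 : ℝ) ≤ Y → Y ≤ 2 * T ^ 2 →
      ‖riemannZeta (1 / 2 + (t : ℂ) * Complex.I) - ∑ n ∈ Icc 1 ⌊2 * Y⌋₊,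
        ((Cu ((n : ℝ) / Y) : ℝ) : ℂ) * (n : ℂ) ^ (-(1 / 2 + (t : ℂ) * Complex.I))‖ ≤ C / T)
    (θ : ℝ) (hθ0 : 0 < θ) (hθ : θ < 14 / 27) (ε : ℝ) (hε : 0 < ε) :
    ∃ C T₁ : ℝ, 0 < C ∧ 1 ≤ T₁ ∧ ∀ T : ℝ, T₁ ≤ T → ∀ M : ℕ, 1 ≤ M → (M : ℝ) ≤ T ^ θ →
    ∀ a : ℕ → ℂ, (∀ m, ‖a m‖ ≤ 1) →
    ∫ t in T..(2 * T), ‖riemannZeta (1 / 2 + (t : ℂ) * Complex.I)‖ ^ 2 *
      ‖∑ m ∈ Ioc M (2 * M), a m * (m : ℂ) ^ (-(1 / 2 + (t : ℂ) * Complex.I))‖ ^ 2 ≤
      C * T ^ (1 + ε) := by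
  obtain ⟨d0, hd0, H⟩ := long θ hθ0 hθ
  set d := min d0 (min (ε / 12) (1 / 100)) with hd_def
  have hd : 0 < d := lt_min hd0 (lt_min (by positivity) (by norm_num))
  have hdd0 : d ≤ d0 := min_le_left _ _
  have hdε : d ≤ ε / 12 := (min_le_right _ _).trans (min_le_left _ _)
  have hd1 : d ≤ 1 / 100 := (min_le_right _ _).trans (min_le_right _ _)
  obtain ⟨CL, TL, hCL, hTL, HL⟩ := H d hd hdd0
  obtain ⟨CS, hCS, HS⟩ := c0_sum d hd (by linarith)
  obtain ⟨CA, hCA, HA⟩ := apx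
  set CI : ℝ := 1 / (d * Real.log 2) + 1 with hCI
  have hl2 : 0 < Real.log 2 := Real.log_pos (by norm_num)
  have hCI0 : 0 < CI := by positivity
  refine ⟨360 * Real.exp Real.pi * CS + 6 * CI ^ 2 * Real.exp Real.pi * CL + 3 * CA ^ 2,
    max TL (2 ^ (1 / (2 / 3 - θ))), by positivity, le_max_of_le_left hTL, ?_⟩
  intro T hT M hM1 hMθ a ha
  have hTL' : TL ≤ T := (le_max_left _ _).trans hT
  have hT1 : 1 ≤ T := hTL.trans hTL'
  have hT0 : 0 < T := by linarith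
  have hT2 : (2 : ℝ) ^ (1 / (2 / 3 - θ)) ≤ T := (le_max_right _ _).trans hT
  have hθ3 : 0 < 2 / 3 - θ := by linarith
  have hpow : (2 : ℝ) ≤ T ^ (2 / 3 - θ) := by
    have := Real.rpow_le_rpow (by positivity) hT2 hθ3.le
    rwa [← Real.rpow_mul (by norm_num), one_div_mul_cancel hθ3.ne', Real.rpow_one] at this
  have hMT : (M : ℝ) ≤ T := by
    refine hMθ.trans ?_
    calc T ^ θ ≤ T ^ (1 : ℝ) := Real.rpow_le_rpow_of_exponent_le hT1 (by linarith)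
      _ = T := Real.rpow_one T
  have hM2 : 2 * M * T ^ (4 / 3 : ℝ) ≤ T ^ 2 := by
    calc 2 * M * T ^ (4 / 3 : ℝ) ≤ T ^ (2 / 3 - θ) * T ^ θ * T ^ (4 / 3 : ℝ) := by
          apply mul_le_mul_of_nonneg_right _ (by positivity)
          exact mul_le_mul hpow hMθ (by positivity) (by positivity)
      _ = T ^ (2 : ℝ) := by
          rw [← Real.rpow_add hT0, ← Real.rpow_add hT0]; congr 1; ring
      _ = T ^ 2 := by norm_num
  set X := T ^ d with hX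
  have hX1 : 1 ≤ X := Real.one_le_rpow hT1 hd.le
  have hX0 : 0 < X := by linarith
  obtain ⟨n, hn1, hn2⟩ := exists_nat_pow_near hT1 (one_lt_two : (1 : ℝ) < 2)
  have hI1 : T ≤ 2 ^ (n + 1) := hn2.le
  have hI2 : (2 : ℝ) ^ (n + 1) ≤ 2 * T := by rw [pow_succ]; linarith
  have hIb : ((n + 1 : ℕ) : ℝ) ≤ CI * X := by
    have h1 : (n : ℝ) * Real.log 2 ≤ Real.log T := by
      rw [← Real.log_pow]
      exact Real.log_le_log (by positivity) hn1
    have h2 : Real.log T ≤ X / d := Real.log_le_rpow_div hT0.le hd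
    have h3 : (n : ℝ) ≤ 1 / (d * Real.log 2) * X := by
      have : (n : ℝ) * Real.log 2 ≤ X / d := h1.trans h2
      rw [← le_div_iff₀ hl2] at this
      calc (n : ℝ) ≤ X / d / Real.log 2 := this
        _ = _ := by field_simp
    push_cast
    rw [hCI]
    linarith
  -- the window
  set D := T ^ (1 - d) with hDdef
  have hD1 : 1 ≤ D := Real.one_le_rpow hT1 (by linarith)
  have hD0 : 0 < D := by linarith
  have hDT : D ≤ T := by
    calc T ^ (1 - d) ≤ T ^ (1 : ℝ) := Real.rpow_le_rpow_of_exponent_le hT1 (by linarith)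
      _ = T := Real.rpow_one T
  have hTD : T / D = X := by
    rw [hDdef, hX, Real.rpow_sub hT0, Real.rpow_one]
    field_simp
  have hTD2 : T / D + 1 ≤ 2 * X := by rw [hTD]; linarith
  -- short piece
  have hshort : ∫ t in T..(2 * T), ‖Dp (c0 a M T) ⌊2 * T⌋₊ t‖ ^ 2 ≤
      120 * Real.exp Real.pi * CS * (T * X ^ 2) := by
    have hK1 : 1 ≤ ⌊2 * T⌋₊ := by
      apply Nat.le_floor
      push_cast
      linarith
    have hKT : (⌊2 * T⌋₊ : ℝ) ≤ 2 * T := Nat.floor_le (by linarith)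
    have h := cover T D (60 * CS * (T * X)) hT0 hD0 (fun t => ‖Dp (c0 a M T) ⌊2 * T⌋₊ t‖ ^ 2)
      (fun t => by positivity) (Dp_cont _ _)
      (fun t₀ _ => (kern (c0 a M T) ⌊2 * T⌋₊ t₀ D hD0).1)
      (fun t₀ _ => by
        refine (short (c0 a M T) ⌊2 * T⌋₊ hK1 t₀ D hD1).trans ?_
        have h1 := HS a M T ha hT1
        have h2 : 20 * (D + (⌊2 * T⌋₊ : ℝ)) ≤ 60 * T := by linarith
        calc 20 * (D + (⌊2 * T⌋₊ : ℝ)) * ∑ q ∈ Icc 1 ⌊2 * T⌋₊, ‖c0 a M T q‖ ^ 2 ≤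
            60 * T * (CS * X) := by
              apply mul_le_mul h2 h1 (Finset.sum_nonneg fun i _ => by positivity) (by positivity)
          _ = _ := by ring)
    refine h.trans ?_
    calc Real.exp Real.pi * (T / D + 1) * (60 * CS * (T * X)) ≤
        Real.exp Real.pi * (2 * X) * (60 * CS * (T * X)) := by
          apply mul_le_mul_of_nonneg_right _ (by positivity)
          exact mul_le_mul_of_nonneg_left hTD2 (Real.exp_pos _).le
      _ = _ := by ring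
  have hT9 : T ^ (1 + 9 * d) = T * X ^ 9 := by
    rw [Real.rpow_add hT0, Real.rpow_one, hX, ← Real.rpow_natCast, ← Real.rpow_mul hT0.le]
    congr 2; push_cast; ring
  have hlong : ∀ i ∈ range (n + 1),
      ∫ t in T..(2 * T), ‖Dp (cQ a M (2 ^ i * T)) ⌊4 * (2 ^ i * T)⌋₊ t‖ ^ 2 ≤
      2 * Real.exp Real.pi * CL * (T * X ^ 10) := by
    intro i hi
    have hin : i ≤ n := by
      have := Finset.mem_range.1 hi
      omega
    have h2i : (2 : ℝ) ^ i ≤ T := (pow_le_pow_right₀ (by norm_num) hin).trans hn1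
    have h2i1 : (1 : ℝ) ≤ 2 ^ i := one_le_pow₀ (by norm_num)
    have hQ : 2 ^ i * T ∈ Set.Icc T (2 * T ^ 2) := by
      constructor
      · nlinarith
      · have := mul_le_mul_of_nonneg_right h2i hT0.le
        rw [sq]
        nlinarith
    have h := cover T D (CL * (T * X ^ 9)) hT0 hD0
      (fun t => ‖Dp (cQ a M (2 ^ i * T)) ⌊4 * (2 ^ i * T)⌋₊ t‖ ^ 2)
      (fun t => by positivity) (Dp_cont _ _)
      (fun t₀ _ => (kern (cQ a M (2 ^ i * T)) ⌊4 * (2 ^ i * T)⌋₊ t₀ D hD0).1)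
      (fun t₀ ht₀ => by
        rw [← hT9]
        exact HL T hTL' t₀ ht₀ (2 ^ i * T) hQ M hM1 hMθ a ha)
    refine h.trans ?_
    calc Real.exp Real.pi * (T / D + 1) * (CL * (T * X ^ 9)) ≤
        Real.exp Real.pi * (2 * X) * (CL * (T * X ^ 9)) := by
          apply mul_le_mul_of_nonneg_right _ (by positivity)
          exact mul_le_mul_of_nonneg_left hTD2 (Real.exp_pos _).le
      _ = _ := by ring
  -- pointwise bound
  have hpt : ∀ t ∈ Set.Ioc T (2 * T), ‖riemannZeta (1 / 2 + (t : ℂ) * Complex.I)‖ ^ 2 *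
      ‖∑ m ∈ Ioc M (2 * M), a m * (m : ℂ) ^ (-(1 / 2 + (t : ℂ) * Complex.I))‖ ^ 2 ≤
      3 * ‖Dp (c0 a M T) ⌊2 * T⌋₊ t‖ ^ 2 + 3 * ((n + 1 : ℕ) : ℝ) * ∑ i ∈ range (n + 1),
        ‖Dp (cQ a M (2 ^ i * T)) ⌊4 * (2 ^ i * T)⌋₊ t‖ ^ 2 + 3 * CA ^ 2 := by
    intro t ht
    rw [← mul_pow, ← norm_mul]
    exact cs _ (n + 1) _ _ CA (approx CA hCA HA T hT1 M hMT hM2 a ha (n + 1) hI1 hI2 t
      ⟨ht.1.le, ht.2⟩)
  have hci : ∀ (c : ℕ → ℂ) (K : ℕ), IntervalIntegrable (fun t => ‖Dp c K t‖ ^ 2) volume T (2 * T) :=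
    fun c K => (Dp_cont c K).intervalIntegrable _ _
  have hcsum : Continuous (fun t => ∑ i ∈ range (n + 1),
        ‖Dp (cQ a M (2 ^ i * T)) ⌊4 * (2 ^ i * T)⌋₊ t‖ ^ 2) :=
    continuous_finsetSum _ fun i _ => Dp_cont _ _
  have hcont : Continuous (fun t => 3 * ‖Dp (c0 a M T) ⌊2 * T⌋₊ t‖ ^ 2 +
      3 * ((n + 1 : ℕ) : ℝ) * ∑ i ∈ range (n + 1),
        ‖Dp (cQ a M (2 ^ i * T)) ⌊4 * (2 ^ i * T)⌋₊ t‖ ^ 2 + 3 * CA ^ 2) :=
    (((Dp_cont _ _).const_mul 3).add (hcsum.const_mul _)).add continuous_const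
  have hle : ∫ t in T..(2 * T), ‖riemannZeta (1 / 2 + (t : ℂ) * Complex.I)‖ ^ 2 *
      ‖∑ m ∈ Ioc M (2 * M), a m * (m : ℂ) ^ (-(1 / 2 + (t : ℂ) * Complex.I))‖ ^ 2 ≤
      ∫ t in T..(2 * T), (3 * ‖Dp (c0 a M T) ⌊2 * T⌋₊ t‖ ^ 2 +
      3 * ((n + 1 : ℕ) : ℝ) * ∑ i ∈ range (n + 1),
        ‖Dp (cQ a M (2 ^ i * T)) ⌊4 * (2 ^ i * T)⌋₊ t‖ ^ 2 + 3 * CA ^ 2) := by
    rw [intervalIntegral.integral_of_le (by linarith),
      intervalIntegral.integral_of_le (by linarith)]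
    apply integral_mono_of_nonneg
    · exact Filter.Eventually.of_forall fun t => by simp only [Pi.zero_apply]; positivity
    · exact hcont.integrableOn_Ioc
    · exact (ae_restrict_iff' measurableSet_Ioc).2 (Filter.Eventually.of_forall hpt)
  have heval : ∫ t in T..(2 * T), (3 * ‖Dp (c0 a M T) ⌊2 * T⌋₊ t‖ ^ 2 +
      3 * ((n + 1 : ℕ) : ℝ) * ∑ i ∈ range (n + 1),
        ‖Dp (cQ a M (2 ^ i * T)) ⌊4 * (2 ^ i * T)⌋₊ t‖ ^ 2 + 3 * CA ^ 2) =
      3 * (∫ t in T..(2 * T), ‖Dp (c0 a M T) ⌊2 * T⌋₊ t‖ ^ 2) +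
      3 * ((n + 1 : ℕ) : ℝ) * ∑ i ∈ range (n + 1),
        (∫ t in T..(2 * T), ‖Dp (cQ a M (2 ^ i * T)) ⌊4 * (2 ^ i * T)⌋₊ t‖ ^ 2) +
      3 * CA ^ 2 * T := by
    rw [intervalIntegral.integral_add, intervalIntegral.integral_add,
      intervalIntegral.integral_const_mul, intervalIntegral.integral_const_mul,
      intervalIntegral.integral_finsetSum, intervalIntegral.integral_const]
    · simp only [smul_eq_mul]
      ring
    · intro i _
      exact hci _ _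
    · exact (hci _ _).const_mul _
    · exact (hcsum.const_mul _).intervalIntegrable _ _
    · exact (((Dp_cont _ _).const_mul 3).add (hcsum.const_mul _)).intervalIntegrable _ _
    · exact continuous_const.intervalIntegrable _ _
  rw [heval] at hle
  refine hle.trans ?_
  have hsum : ∑ i ∈ range (n + 1),
      (∫ t in T..(2 * T), ‖Dp (cQ a M (2 ^ i * T)) ⌊4 * (2 ^ i * T)⌋₊ t‖ ^ 2) ≤
      ((n + 1 : ℕ) : ℝ) * (2 * Real.exp Real.pi * CL * (T * X ^ 10)) := by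
    refine (Finset.sum_le_sum hlong).trans ?_
    rw [Finset.sum_const, Finset.card_range, nsmul_eq_mul]
  have hN0 : (0 : ℝ) ≤ ((n + 1 : ℕ) : ℝ) := by positivity
  have h12 : T * X ^ 12 ≤ T ^ (1 + ε) := by
    have : T * X ^ 12 = T ^ (1 + 12 * d) := by
      rw [Real.rpow_add hT0, Real.rpow_one, hX, ← Real.rpow_natCast, ← Real.rpow_mul hT0.le]
      congr 2; push_cast; ring
    rw [this]
    exact Real.rpow_le_rpow_of_exponent_le hT1 (by linarith)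
  have hX2 : X ^ 2 ≤ X ^ 12 := pow_le_pow_right₀ hX1 (by norm_num)
  have hX12 : 1 ≤ X ^ 12 := one_le_pow₀ hX1
  have hpart2 : 3 * ((n + 1 : ℕ) : ℝ) * (((n + 1 : ℕ) : ℝ) *
      (2 * Real.exp Real.pi * CL * (T * X ^ 10))) ≤
      6 * CI ^ 2 * Real.exp Real.pi * CL * (T * X ^ 12) := by
    have hsq : ((n + 1 : ℕ) : ℝ) ^ 2 ≤ (CI * X) ^ 2 := pow_le_pow_left₀ hN0 hIb 2
    calc 3 * ((n + 1 : ℕ) : ℝ) * (((n + 1 : ℕ) : ℝ) *
      (2 * Real.exp Real.pi * CL * (T * X ^ 10))) =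
        ((n + 1 : ℕ) : ℝ) ^ 2 * (6 * Real.exp Real.pi * CL * (T * X ^ 10)) := by ring
      _ ≤ (CI * X) ^ 2 * (6 * Real.exp Real.pi * CL * (T * X ^ 10)) :=
        mul_le_mul_of_nonneg_right hsq (by positivity)
      _ = _ := by ring
  have hpart2' : 3 * ((n + 1 : ℕ) : ℝ) * ∑ i ∈ range (n + 1),
      (∫ t in T..(2 * T), ‖Dp (cQ a M (2 ^ i * T)) ⌊4 * (2 ^ i * T)⌋₊ t‖ ^ 2) ≤
      6 * CI ^ 2 * Real.exp Real.pi * CL * (T * X ^ 12) :=
    (mul_le_mul_of_nonneg_left hsum (by positivity)).trans hpart2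
  have hpart1 : 3 * (120 * Real.exp Real.pi * CS * (T * X ^ 2)) ≤
      360 * Real.exp Real.pi * CS * (T * X ^ 12) := by
    calc 3 * (120 * Real.exp Real.pi * CS * (T * X ^ 2)) =
        360 * Real.exp Real.pi * CS * T * X ^ 2 := by ring
      _ ≤ 360 * Real.exp Real.pi * CS * T * X ^ 12 := mul_le_mul_of_nonneg_left hX2 (by positivity)
      _ = _ := by ring
  have hpart3 : 3 * CA ^ 2 * T ≤ 3 * CA ^ 2 * (T * X ^ 12) :=
    mul_le_mul_of_nonneg_left (le_mul_of_one_le_right hT0.le hX12) (by positivity)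
  have hpart1' : 3 * (∫ t in T..(2 * T), ‖Dp (c0 a M T) ⌊2 * T⌋₊ t‖ ^ 2) ≤
      360 * Real.exp Real.pi * CS * (T * X ^ 12) :=
    (mul_le_mul_of_nonneg_left hshort (by norm_num)).trans hpart1
  refine (add_le_add (add_le_add hpart1' hpart2') hpart3).trans ?_
  have hCC : 0 ≤ 360 * Real.exp Real.pi * CS + 6 * CI ^ 2 * Real.exp Real.pi * CL + 3 * CA ^ 2 := by
    positivity
  have hfin := mul_le_mul_of_nonneg_left h12 hCC
  refine le_trans (le_of_eq ?_) hfin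
  ring

end Pool.Agent.H442R2.TSM
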