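import Pool.Agent.H442R2.TSM.Defs

/-!
TSM project, task TO: the theorem from the estimate of one dyadic block.
-/

namespace Pool.Agent.H442R2.TSM

open Finset

namespace TaskTO

/-- the statement of `block` -/
def BlockS : Prop := ∀ (θ : ℝ) (_ : 0 < θ) (_ : θ < 14 / 27) (ε : ℝ) (_ : 0 < ε),
    ∃ C T₁ : ℝ, 0 < C ∧ 1 ≤ T₁ ∧ ∀ T : ℝ, T₁ ≤ T → ∀ M : ℕ, 1 ≤ M → (M : ℝ) ≤ T ^ θ →
    ∀ a : ℕ → ℂ, (∀ m, ‖a m‖ ≤ 1) →
    ∫ t in T..(2 * T), ‖riemannZeta (1 / 2 + (t : ℂ) * Complex.I)‖ ^ 2 *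
      ‖∑ m ∈ Ioc M (2 * M), a m * (m : ℂ) ^ (-(1 / 2 + (t : ℂ) * Complex.I))‖ ^ 2 ≤
      C * T ^ (1 + ε)

/-- square of the absolute value of zeta -/
noncomputable def zz (t : ℝ) : ℝ := ‖riemannZeta (1 / 2 + (t : ℂ) * Complex.I)‖ ^ 2

/-- square of the absolute value of a Dirichlet polynomial -/
noncomputable def GG (a : ℕ → ℂ) (S : Finset ℕ) (t : ℝ) : ℝ :=
  ‖∑ n ∈ S, a n * (n : ℂ) ^ (-(1 / 2 + (t : ℂ) * Complex.I))‖ ^ 2

lemma zz_cont {T : ℝ} (hT : 1 ≤ T) : ContinuousOn zz (Set.Icc T (2 * T)) := by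
  intro t ht
  have ht0 : t ≠ 0 := by
    have := ht.1
    intro h
    linarith
  have hne : (1 / 2 + (t : ℂ) * Complex.I) ≠ 1 := by
    intro h
    have := congrArg Complex.im h
    simp at this
    exact ht0 this
  have h1 : ContinuousAt riemannZeta (1 / 2 + (t : ℂ) * Complex.I) :=
    (differentiableAt_riemannZeta hne).continuousAt
  have h2 : ContinuousAt (fun t : ℝ => (1 / 2 + (t : ℂ) * Complex.I)) t := by fun_prop
  have h3 : ContinuousAt (fun t : ℝ => riemannZeta (1 / 2 + (t : ℂ) * Complex.I)) t :=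
    ContinuousAt.comp (f := fun t : ℝ => (1 / 2 + (t : ℂ) * Complex.I)) (g := riemannZeta) h1 h2
  exact ((h3.norm).pow 2).continuousWithinAt

lemma GG_cont (a : ℕ → ℂ) (S : Finset ℕ) (hS : ∀ n ∈ S, 1 ≤ n) : Continuous (GG a S) := by
  unfold GG
  refine Continuous.pow (Continuous.norm (continuous_finset_sum _ fun n hn => ?_)) 2
  refine continuous_const.mul ?_
  have hn0 : (n : ℂ) ≠ 0 := by
    have := hS n hn
    exact_mod_cast (by omega : n ≠ 0)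
  exact Continuous.const_cpow (by fun_prop) (Or.inl hn0)

lemma zz_nonneg (t : ℝ) : 0 ≤ zz t := by unfold zz; positivity

lemma GG_nonneg (a : ℕ → ℂ) (S : Finset ℕ) (t : ℝ) : 0 ≤ GG a S t := by unfold GG; positivity

lemma prod_int {T : ℝ} (hT : 1 ≤ T) (g : ℝ → ℝ) (hg : Continuous g) :
    IntervalIntegrable (fun t => zz t * g t) MeasureTheory.volume T (2 * T) := by
  apply ContinuousOn.intervalIntegrable
  rw [Set.uIcc_of_le (by linarith)]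
  exact (zz_cont hT).mul hg.continuousOn

lemma dyad (f : ℕ → ℂ) (J : ℕ) :
    ∑ n ∈ Icc 1 (2 ^ J), f n = f 1 + ∑ i ∈ range J, ∑ m ∈ Ioc (2 ^ i) (2 * 2 ^ i), f m := by
  induction J with
  | zero => simp
  | succ J ih =>
    rw [sum_range_succ, ← add_assoc, ← ih]
    have e : ∀ k : ℕ, Icc 1 k = Ioc 0 k := by
      intro k; ext x; simp only [mem_Icc, mem_Ioc]; omega
    have e2 : 2 ^ (J + 1) = 2 * 2 ^ J := by ring
    rw [e, e, e2]
    exact (sum_Ioc_consecutive f (Nat.zero_le _) (by omega)).symm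

lemma cs (J : ℕ) (x : ℂ) (B : ℕ → ℂ) :
    ‖x + ∑ i ∈ range J, B i‖ ^ 2 ≤ (J + 1) * (‖x‖ ^ 2 + ∑ i ∈ range J, ‖B i‖ ^ 2) := by
  let g : ℕ → ℂ := fun i => if i = 0 then x else B (i - 1)
  have h1 : x + ∑ i ∈ range J, B i = ∑ i ∈ range (J + 1), g i := by
    rw [sum_range_succ', add_comm]
    congr 1
  have h2 : ‖x‖ ^ 2 + ∑ i ∈ range J, ‖B i‖ ^ 2 = ∑ i ∈ range (J + 1), ‖g i‖ ^ 2 := by
    rw [sum_range_succ', add_comm]
    congr 1
  rw [h1, h2]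
  calc ‖∑ i ∈ range (J + 1), g i‖ ^ 2 ≤ (∑ i ∈ range (J + 1), ‖g i‖) ^ 2 :=
        pow_le_pow_left₀ (norm_nonneg _) (norm_sum_le _ _) 2
    _ ≤ ((range (J + 1)).card : ℝ) * ∑ i ∈ range (J + 1), ‖g i‖ ^ 2 :=
        sq_sum_le_card_mul_sum_sq
    _ = _ := by rw [card_range]; push_cast; ring

/-- coefficient sequence concentrated at `2` -/
noncomputable def e2 : ℕ → ℂ := fun m => if m = 2 then 1 else 0

lemma e2_bd (m : ℕ) : ‖e2 m‖ ≤ 1 := by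
  unfold e2; split_ifs <;> simp

lemma G2 (t : ℝ) : GG e2 (Ioc 1 (2 * 1)) t = 1 / 2 := by
  unfold GG
  have h1 : Ioc 1 (2 * 1) = ({2} : Finset ℕ) := by decide
  rw [h1, sum_singleton]
  have h2 : e2 2 = 1 := by unfold e2; simp
  rw [h2, one_mul]
  have h3 : ‖((2 : ℕ) : ℂ) ^ (-(1 / 2 + (t : ℂ) * Complex.I))‖ = (2 : ℝ) ^ (-(1 / 2) : ℝ) := by
    have := Complex.norm_natCast_cpow_of_pos (n := 2) (by norm_num)
      (-(1 / 2 + (t : ℂ) * Complex.I))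
    rw [this]
    have h4 : (-(1 / 2 + (t : ℂ) * Complex.I)).re = -(1 / 2) := by
      simp
    rw [h4]
    norm_num
  rw [h3, ← Real.rpow_natCast, ← Real.rpow_mul (by norm_num)]
  norm_num

lemma term_le (n : ℕ) (hn : 1 ≤ n) (t : ℝ) :
    ‖(n : ℂ) ^ (-(1 / 2 + (t : ℂ) * Complex.I))‖ ≤ 1 := by
  rw [Complex.norm_natCast_cpow_of_pos (by omega)]
  have h4 : (-(1 / 2 + (t : ℂ) * Complex.I)).re = -(1 / 2) := by
    simp
  rw [h4]
  exact Real.rpow_le_one_of_one_le_of_nonpos (by exact_mod_cast hn) (by norm_num)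

/-- the pointwise inequality -/
lemma pointwise (N : ℕ) (a : ℕ → ℂ) (ha : ∀ n, ‖a n‖ ≤ 1) (t : ℝ) :
    GG a (Icc 1 N) t ≤ ((Nat.clog 2 N : ℝ) + 1) * (2 * GG e2 (Ioc 1 (2 * 1)) t +
      ∑ i ∈ range (Nat.clog 2 N),
        GG (fun n => if n ≤ N then a n else 0) (Ioc (2 ^ i) (2 * 2 ^ i)) t) := by
  have hN : N ≤ 2 ^ Nat.clog 2 N := Nat.le_pow_clog (by norm_num) N
  have h1 : ∑ n ∈ Icc 1 N, a n * (n : ℂ) ^ (-(1 / 2 + (t : ℂ) * Complex.I)) =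
      ∑ n ∈ Icc 1 (2 ^ Nat.clog 2 N), (if n ≤ N then a n else 0) *
        (n : ℂ) ^ (-(1 / 2 + (t : ℂ) * Complex.I)) := by
    have h2 : ∑ n ∈ Icc 1 N, a n * (n : ℂ) ^ (-(1 / 2 + (t : ℂ) * Complex.I)) =
        ∑ n ∈ Icc 1 N, (if n ≤ N then a n else 0) *
        (n : ℂ) ^ (-(1 / 2 + (t : ℂ) * Complex.I)) := by
      refine sum_congr rfl fun n hn => ?_
      rw [if_pos (mem_Icc.1 hn).2]
    rw [h2]
    refine sum_subset (Icc_subset_Icc le_rfl hN) fun n _ hn' => ?_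
    rw [if_neg, zero_mul]
    intro h3
    exact hn' (mem_Icc.2 ⟨(mem_Icc.1 ‹_›).1, h3⟩)
  have h5 : ‖(if 1 ≤ N then a 1 else 0) *
      ((1 : ℕ) : ℂ) ^ (-(1 / 2 + (t : ℂ) * Complex.I))‖ ^ 2 ≤ 2 * GG e2 (Ioc 1 (2 * 1)) t := by
    rw [G2]
    have h6 : ‖(if 1 ≤ N then a 1 else 0) *
        ((1 : ℕ) : ℂ) ^ (-(1 / 2 + (t : ℂ) * Complex.I))‖ ≤ 1 := by
      rw [Nat.cast_one, Complex.one_cpow, mul_one]
      split_ifs
      · exact ha 1
      · simp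
    have h7 : ‖(if 1 ≤ N then a 1 else 0) *
        ((1 : ℕ) : ℂ) ^ (-(1 / 2 + (t : ℂ) * Complex.I))‖ ^ 2 ≤ 1 ^ 2 :=
      pow_le_pow_left₀ (norm_nonneg _) h6 2
    linarith
  have h8 : GG a (Icc 1 N) t = ‖∑ n ∈ Icc 1 (2 ^ Nat.clog 2 N), (if n ≤ N then a n else 0) *
        (n : ℂ) ^ (-(1 / 2 + (t : ℂ) * Complex.I))‖ ^ 2 := by
    unfold GG
    rw [h1]
  rw [h8, dyad (fun n => (if n ≤ N then a n else 0) *
        (n : ℂ) ^ (-(1 / 2 + (t : ℂ) * Complex.I))) (Nat.clog 2 N)]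
  refine (cs (Nat.clog 2 N) _ _).trans ?_
  refine mul_le_mul_of_nonneg_left ?_ (by positivity)
  exact add_le_add h5 le_rfl

lemma clog_bd (T θ ε : ℝ) (hT : 1 ≤ T) (hθ1 : θ ≤ 1) (hε : 0 < ε) (N : ℕ) (hN : (N : ℝ) ≤ T ^ θ) :
    (Nat.clog 2 N : ℝ) + 2 ≤ (3 + 8 / ε) * T ^ (ε / 4) := by
  have hT0 : 0 < T := by linarith
  have h1 : T ^ θ ≤ T := by
    calc T ^ θ ≤ T ^ (1 : ℝ) := Real.rpow_le_rpow_of_exponent_le hT hθ1
      _ = T := Real.rpow_one T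
  have h2 : (1 : ℝ) ≤ T ^ (ε / 4) := Real.one_le_rpow hT (by positivity)
  have h3 : Real.log T ≤ T ^ (ε / 4) / (ε / 4) := Real.log_le_rpow_div hT0.le (by positivity)
  have h4 : (Nat.clog 2 N : ℝ) ≤ 1 + 2 * Real.log T := by
    rcases Nat.eq_zero_or_pos (Nat.clog 2 N) with h0 | h0
    · rw [h0]
      have := Real.log_nonneg hT
      push_cast; linarith
    · have h5 : 2 ^ (Nat.clog 2 N - 1) < N :=
        (Nat.lt_clog_iff_pow_lt (by norm_num)).1 (by omega)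
      have h6 : (2 : ℝ) ^ (Nat.clog 2 N - 1) ≤ T := by
        have : ((2 ^ (Nat.clog 2 N - 1) : ℕ) : ℝ) ≤ (N : ℝ) := by exact_mod_cast h5.le
        push_cast at this
        linarith
      have h7 : ((Nat.clog 2 N - 1 : ℕ) : ℝ) * Real.log 2 ≤ Real.log T := by
        rw [← Real.log_pow]
        exact Real.log_le_log (by positivity) h6
      have h8 : (1 / 2 : ℝ) ≤ Real.log 2 := by
        have := Real.log_two_gt_d9
        linarith
      have h9 : ((Nat.clog 2 N - 1 : ℕ) : ℝ) * (1 / 2) ≤ Real.log T :=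
        (mul_le_mul_of_nonneg_left h8 (Nat.cast_nonneg _)).trans h7
      rw [Nat.cast_sub h0] at h9
      push_cast at h9
      linarith
  have h10 : (8 / ε) * T ^ (ε / 4) = 2 * (T ^ (ε / 4) / (ε / 4)) := by
    field_simp
    ring
  calc (Nat.clog 2 N : ℝ) + 2 ≤ 3 + 2 * Real.log T := by linarith
    _ ≤ 3 * T ^ (ε / 4) + 2 * (T ^ (ε / 4) / (ε / 4)) := by linarith
    _ = (3 + 8 / ε) * T ^ (ε / 4) := by rw [← h10]; ring

/-- large `T` -/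
lemma large (hb : BlockS) (θ : ℝ) (hθ0 : 0 < θ) (hθ : θ < 14 / 27) (ε : ℝ) (hε : 0 < ε) :
    ∃ C T₁ : ℝ, 0 < C ∧ 1 ≤ T₁ ∧ ∀ T : ℝ, T₁ ≤ T → ∀ N : ℕ, (N : ℝ) ≤ T ^ θ →
    ∀ a : ℕ → ℂ, (∀ n, ‖a n‖ ≤ 1) →
    ∫ t in T..(2 * T), zz t * GG a (Icc 1 N) t ≤ C * T ^ (1 + ε) := by
  obtain ⟨C, T₁, hC, hT₁, H⟩ := hb θ hθ0 hθ (ε / 2) (by positivity)
  refine ⟨C * (3 + 8 / ε) ^ 2, T₁, by positivity, hT₁, fun T hT N hN a ha => ?_⟩
  have hT1 : 1 ≤ T := hT₁.trans hT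
  have hT0 : 0 < T := by linarith
  set J := Nat.clog 2 N with hJ
  set a' : ℕ → ℂ := fun n => if n ≤ N then a n else 0 with ha'
  have ha'1 : ∀ n, ‖a' n‖ ≤ 1 := by
    intro n
    rw [ha']
    dsimp only
    split_ifs
    · exact ha n
    · simp
  have B0 : ∫ t in T..(2 * T), zz t * GG e2 (Ioc 1 (2 * 1)) t ≤ C * T ^ (1 + ε / 2) := by
    have hM : ((1 : ℕ) : ℝ) ≤ T ^ θ := by
      rw [Nat.cast_one]; exact Real.one_le_rpow hT1 hθ0.le
    exact H T hT 1 le_rfl hM e2 e2_bd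
  have Bi : ∀ i ∈ range J, ∫ t in T..(2 * T), zz t * GG a' (Ioc (2 ^ i) (2 * 2 ^ i)) t ≤
      C * T ^ (1 + ε / 2) := by
    intro i hi
    rw [mem_range] at hi
    have h1 : 2 ^ i < N := (Nat.lt_clog_iff_pow_lt (by norm_num)).1 hi
    have h2 : ((2 ^ i : ℕ) : ℝ) ≤ T ^ θ := by
      have : ((2 ^ i : ℕ) : ℝ) ≤ N := by exact_mod_cast h1.le
      linarith
    exact H T hT (2 ^ i) Nat.one_le_two_pow h2 a' ha'1
  have c1 : Continuous (GG e2 (Ioc 1 (2 * 1))) :=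
    GG_cont _ _ fun n hn => by rw [mem_Ioc] at hn; omega
  have ci : ∀ i, Continuous (GG a' (Ioc (2 ^ i) (2 * 2 ^ i))) := fun i =>
    GG_cont _ _ fun n hn => by rw [mem_Ioc] at hn; omega
  have cN : Continuous (GG a (Icc 1 N)) :=
    GG_cont _ _ fun n hn => by rw [mem_Icc] at hn; omega
  have sI := prod_int hT1 (fun t => ∑ i ∈ range J, GG a' (Ioc (2 ^ i) (2 * 2 ^ i)) t)
    (continuous_finset_sum _ fun i _ => ci i)
  simp only [mul_sum] at sI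
  have step1 : ∫ t in T..(2 * T), zz t * GG a (Icc 1 N) t ≤
      ∫ t in T..(2 * T), ((J : ℝ) + 1) * (2 * (zz t * GG e2 (Ioc 1 (2 * 1)) t) +
        ∑ i ∈ range J, zz t * GG a' (Ioc (2 ^ i) (2 * 2 ^ i)) t) := by
    refine intervalIntegral.integral_mono_on (by linarith) (prod_int hT1 _ cN) ?_ ?_
    · refine IntervalIntegrable.const_mul ?_ _
      exact IntervalIntegrable.add ((prod_int hT1 _ c1).const_mul _) sI
    · intro t _
      have h1 := mul_le_mul_of_nonneg_left (pointwise N a ha t) (zz_nonneg t)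
      refine h1.trans (le_of_eq ?_)
      rw [← mul_sum]
      ring
  have step2 : ∫ t in T..(2 * T), ((J : ℝ) + 1) * (2 * (zz t * GG e2 (Ioc 1 (2 * 1)) t) +
        ∑ i ∈ range J, zz t * GG a' (Ioc (2 ^ i) (2 * 2 ^ i)) t) =
      ((J : ℝ) + 1) * (2 * (∫ t in T..(2 * T), zz t * GG e2 (Ioc 1 (2 * 1)) t) +
        ∑ i ∈ range J, ∫ t in T..(2 * T), zz t * GG a' (Ioc (2 ^ i) (2 * 2 ^ i)) t) := by
    rw [intervalIntegral.integral_const_mul, intervalIntegral.integral_add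
      ((prod_int hT1 _ c1).const_mul _) sI,
      intervalIntegral.integral_const_mul,
      intervalIntegral.integral_finset_sum fun i _ => prod_int hT1 _ (ci i)]
  have step3 : ∑ i ∈ range J, ∫ t in T..(2 * T), zz t * GG a' (Ioc (2 ^ i) (2 * 2 ^ i)) t ≤
      J * (C * T ^ (1 + ε / 2)) := by
    calc _ ≤ ∑ _i ∈ range J, C * T ^ (1 + ε / 2) := sum_le_sum Bi
      _ = J * (C * T ^ (1 + ε / 2)) := by rw [sum_const, card_range, nsmul_eq_mul]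
  have hcl := clog_bd T θ ε hT1 (by linarith) hε N hN
  rw [← hJ] at hcl
  have hJ0 : (0 : ℝ) ≤ J := Nat.cast_nonneg _
  have hX : 0 < C * T ^ (1 + ε / 2) := by positivity
  calc ∫ t in T..(2 * T), zz t * GG a (Icc 1 N) t
      ≤ ((J : ℝ) + 1) * (2 * (C * T ^ (1 + ε / 2)) + J * (C * T ^ (1 + ε / 2))) := by
        rw [step2] at step1
        refine step1.trans ?_
        refine mul_le_mul_of_nonneg_left ?_ (by positivity)
        linarith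
    _ = (((J : ℝ) + 1) * ((J : ℝ) + 2)) * (C * T ^ (1 + ε / 2)) := by ring
    _ ≤ (((J : ℝ) + 2) * ((J : ℝ) + 2)) * (C * T ^ (1 + ε / 2)) := by
        refine mul_le_mul_of_nonneg_right ?_ hX.le
        nlinarith
    _ ≤ (((3 + 8 / ε) * T ^ (ε / 4)) * ((3 + 8 / ε) * T ^ (ε / 4))) *
          (C * T ^ (1 + ε / 2)) := by
        refine mul_le_mul_of_nonneg_right ?_ hX.le
        exact mul_le_mul hcl hcl (by positivity) (by positivity)
    _ = C * (3 + 8 / ε) ^ 2 * ((T ^ (ε / 4) * T ^ (ε / 4)) * T ^ (1 + ε / 2)) := by ring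
    _ = C * (3 + 8 / ε) ^ 2 * T ^ (1 + ε) := by
        rw [← Real.rpow_add hT0, ← Real.rpow_add hT0]
        congr 2
        ring

/-- small `T` -/
lemma small (θ : ℝ) (hθ : θ < 14 / 27) (ε : ℝ) (hε : 0 < ε) (T₁ : ℝ)
    (hT₁ : 1 ≤ T₁) : ∃ C : ℝ, 0 < C ∧ ∀ T : ℝ, 1 ≤ T → T ≤ T₁ → ∀ N : ℕ, (N : ℝ) ≤ T ^ θ →
    ∀ a : ℕ → ℂ, (∀ n, ‖a n‖ ≤ 1) →
    ∫ t in T..(2 * T), zz t * GG a (Icc 1 N) t ≤ C * T ^ (1 + ε) := by
  have hcont : ContinuousOn zz (Set.Icc 1 (2 * T₁)) := by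
    intro t ht
    have h := zz_cont (T := t) ht.1 t ⟨le_rfl, by linarith [ht.1]⟩
    have ht0 : t ≠ 0 := by
      have := ht.1
      intro h
      linarith
    have hne : (1 / 2 + (t : ℂ) * Complex.I) ≠ 1 := by
      intro h
      have := congrArg Complex.im h
      simp at this
      exact ht0 this
    have h1 : ContinuousAt riemannZeta (1 / 2 + (t : ℂ) * Complex.I) :=
      (differentiableAt_riemannZeta hne).continuousAt
    have h2 : ContinuousAt (fun t : ℝ => (1 / 2 + (t : ℂ) * Complex.I)) t := by fun_prop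
    have h3 : ContinuousAt (fun t : ℝ => riemannZeta (1 / 2 + (t : ℂ) * Complex.I)) t :=
      ContinuousAt.comp (f := fun t : ℝ => (1 / 2 + (t : ℂ) * Complex.I)) (g := riemannZeta) h1 h2
    exact ((h3.norm).pow 2).continuousWithinAt
  obtain ⟨B, hB⟩ := (isCompact_Icc.bddAbove_image hcont)
  have hB' : ∀ t ∈ Set.Icc 1 (2 * T₁), zz t ≤ B := fun t ht => hB (Set.mem_image_of_mem _ ht)
  have hB0 : 0 ≤ B := (zz_nonneg 1).trans (hB' 1 ⟨le_rfl, by linarith⟩)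
  refine ⟨B * T₁ ^ 2 + 1, by positivity, fun T hT hTT N hN a ha => ?_⟩
  have hT0 : 0 < T := by linarith
  have cN : Continuous (GG a (Icc 1 N)) :=
    GG_cont _ _ fun n hn => by rw [mem_Icc] at hn; omega
  have hNT : (N : ℝ) ≤ T₁ := by
    calc (N : ℝ) ≤ T ^ θ := hN
      _ ≤ T ^ (1 : ℝ) := Real.rpow_le_rpow_of_exponent_le hT (by linarith)
      _ = T := Real.rpow_one T
      _ ≤ T₁ := hTT
  have hG : ∀ t, GG a (Icc 1 N) t ≤ T₁ ^ 2 := by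
    intro t
    unfold GG
    refine pow_le_pow_left₀ (norm_nonneg _) ?_ 2
    refine (norm_sum_le _ _).trans ?_
    calc ∑ n ∈ Icc 1 N, ‖a n * (n : ℂ) ^ (-(1 / 2 + (t : ℂ) * Complex.I))‖
        ≤ ∑ _n ∈ Icc 1 N, (1 : ℝ) := by
          refine sum_le_sum fun n hn => ?_
          rw [norm_mul]
          have h1 := ha n
          have h2 := term_le n (mem_Icc.1 hn).1 t
          calc _ ≤ (1 : ℝ) * 1 := mul_le_mul h1 h2 (norm_nonneg _) zero_le_one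
            _ = 1 := one_mul 1
      _ = (N : ℝ) := by simp
      _ ≤ T₁ := hNT
  have h1 : ∫ t in T..(2 * T), zz t * GG a (Icc 1 N) t ≤ ∫ _t in T..(2 * T), B * T₁ ^ 2 := by
    refine intervalIntegral.integral_mono_on (by linarith) (prod_int hT _ cN)
      intervalIntegrable_const ?_
    intro t ht
    refine mul_le_mul (hB' t ⟨hT.trans ht.1, ?_⟩) (hG t) (GG_nonneg _ _ _) hB0
    linarith [ht.2]
  refine h1.trans ?_
  rw [intervalIntegral.integral_const, smul_eq_mul]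
  have h2 : T ≤ T ^ (1 + ε) := by
    calc T = T ^ (1 : ℝ) := (Real.rpow_one T).symm
      _ ≤ T ^ (1 + ε) := Real.rpow_le_rpow_of_exponent_le hT (by linarith)
  calc (2 * T - T) * (B * T₁ ^ 2) = (B * T₁ ^ 2) * T := by ring
    _ ≤ (B * T₁ ^ 2 + 1) * T := by nlinarith
    _ ≤ (B * T₁ ^ 2 + 1) * T ^ (1 + ε) := mul_le_mul_of_nonneg_left h2 (by positivity)

end TaskTO

theorem final_of (hb : TaskTO.BlockS) (θ : ℝ) (hθ0 : 0 < θ) (hθ : θ < 14 / 27) (ε : ℝ)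
    (hε : 0 < ε) :
    ∃ C : ℝ, 0 < C ∧ ∀ T : ℝ, 1 ≤ T → ∀ N : ℕ, (N : ℝ) ≤ T ^ θ →
    ∀ a : ℕ → ℂ, (∀ n, ‖a n‖ ≤ 1) →
    ∫ t in T..(2 * T), ‖riemannZeta (1 / 2 + (t : ℂ) * Complex.I)‖ ^ 2 *
      ‖∑ n ∈ Icc 1 N, a n * (n : ℂ) ^ (-(1 / 2 + (t : ℂ) * Complex.I))‖ ^ 2 ≤
      C * T ^ (1 + ε) := by
  obtain ⟨C, T₁, hC, hT₁, H⟩ := TaskTO.large hb θ hθ0 hθ ε hε
  obtain ⟨C', hC', H'⟩ := TaskTO.small θ hθ ε hε T₁ hT₁
  refine ⟨C + C', by positivity, fun T hT N hN a ha => ?_⟩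
  have hX : 0 < T ^ (1 + ε) := Real.rpow_pos_of_pos (by linarith) _
  rcases le_total T₁ T with h | h
  · refine (H T h N hN a ha).trans ?_
    refine mul_le_mul_of_nonneg_right ?_ hX.le
    linarith
  · refine (H' T hT h N hN a ha).trans ?_
    refine mul_le_mul_of_nonneg_right ?_ hX.le
    linarith

end Pool.Agent.H442R2.TSM
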