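import Pool.Agent.H442R2.TSM.Defs

/-!
TSM project, task TL: sorting by the gcd.
-/

namespace Pool.Agent.H442R2.TSM

open Finset

namespace TaskTL

theorem inn_zero (t₀ D Q : ℝ) (m₁ m₂ : ℕ) (r : ℤ) (h : ¬ ((Nat.gcd m₁ m₂ : ℕ) : ℤ) ∣ r) :
    inn t₀ D Q m₁ m₂ r = 0 := by
  unfold inn
  rw [Finset.filter_eq_empty_iff.mpr, Finset.sum_empty]
  rintro q _ ⟨h1, h2⟩
  apply h
  have h3 : ((Nat.gcd m₁ m₂ : ℕ) : ℤ) ∣ (q : ℤ) :=
    Int.natCast_dvd_natCast.mpr ((Nat.gcd_dvd_left m₁ m₂).trans h1)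
  have h4 : ((Nat.gcd m₁ m₂ : ℕ) : ℤ) ∣ (q : ℤ) - r :=
    (Int.natCast_dvd_natCast.mpr (Nat.gcd_dvd_right m₁ m₂)).trans h2
  have h5 := dvd_sub h3 h4
  simpa using h5

lemma mem_range {M g x : ℕ} (hg : 0 < g) (h1 : M < g * x) (h2 : g * x ≤ 2 * M) :
    x ∈ Ioc (M / g) (2 * (M / g) + 1) := by
  rw [mem_Ioc]
  constructor
  · rw [Nat.div_lt_iff_lt_mul hg, mul_comm]; exact h1
  · have h3 : M < g * (M / g + 1) := by
      have := Nat.lt_mul_div_succ M hg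
      simpa using this
    have h4 : g * x < g * (2 * (M / g) + 2) := by
      calc g * x ≤ 2 * M := h2
        _ < 2 * (g * (M / g + 1)) := by omega
        _ = g * (2 * (M / g) + 2) := by ring
    have := Nat.lt_of_mul_lt_mul_left h4
    omega

lemma sum_nz (f : ℤ → ℂ) (g R : ℕ) (hg : 0 < g) (hf : ∀ r : ℤ, ¬ (g : ℤ) ∣ r → f r = 0) :
    ∑ r ∈ nz R, f r = ∑ r ∈ nz (R / g), f (g * r) := by
  have hg' : (0 : ℤ) < g := by exact_mod_cast hg
  symm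
  rw [← Finset.sum_image (s := nz (R / g)) (g := fun r : ℤ => (g : ℤ) * r) (f := f)]
  · apply Finset.sum_subset
    · intro r hr
      rw [Finset.mem_image] at hr
      obtain ⟨r', hr', rfl⟩ := hr
      unfold nz at hr' ⊢
      rw [Finset.mem_erase, Finset.mem_Icc] at hr' ⊢
      obtain ⟨h0, h1, h2⟩ := hr'
      push_cast at h1 h2
      have h3 : (g : ℤ) * ((R : ℤ) / g) ≤ R := Int.mul_ediv_self_le hg'.ne'
      refine ⟨mul_ne_zero hg'.ne' h0, ?_, ?_⟩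
      · have : -((g : ℤ) * ((R : ℤ) / g)) ≤ g * r' := by nlinarith
        linarith
      · have : (g : ℤ) * r' ≤ g * ((R : ℤ) / g) := mul_le_mul_of_nonneg_left h2 hg'.le
        linarith
    · intro r hr hr'
      apply hf
      rintro ⟨r', rfl⟩
      apply hr'
      rw [Finset.mem_image]
      refine ⟨r', ?_, rfl⟩
      unfold nz at hr ⊢
      rw [Finset.mem_erase, Finset.mem_Icc] at hr ⊢
      obtain ⟨h0, h1, h2⟩ := hr
      refine ⟨fun h => h0 (by rw [h, mul_zero]), ?_, ?_⟩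
      · push_cast
        have h3 : -r' ≤ (R : ℤ) / g := by
          rw [Int.le_ediv_iff_mul_le hg']
          linarith [mul_comm (g : ℤ) r']
        linarith
      · push_cast
        rw [Int.le_ediv_iff_mul_le hg']
        linarith [mul_comm (g : ℤ) r']
  · intro x _ y _ hxy
    exact mul_left_cancel₀ hg'.ne' hxy

end TaskTL

open TaskTL in
theorem gcd_split (X : ℕ → ℕ → ℂ) (M : ℕ) :
    ∑ m₁ ∈ Ioc M (2 * M), ∑ m₂ ∈ Ioc M (2 * M), X m₁ m₂ =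
      ∑ g ∈ Icc 1 (2 * M), ∑ p ∈ CP (M / g),
        if (M < g * p.1 ∧ g * p.1 ≤ 2 * M) ∧ (M < g * p.2 ∧ g * p.2 ≤ 2 * M)
        then X (g * p.1) (g * p.2) else 0 := by
  simp_rw [← Finset.sum_filter]
  rw [← Finset.sum_product' (Ioc M (2 * M)) (Ioc M (2 * M)) X, Finset.sum_sigma']
  refine Finset.sum_bij'
    (fun m _ => ⟨Nat.gcd m.1 m.2, (m.1 / Nat.gcd m.1 m.2, m.2 / Nat.gcd m.1 m.2)⟩)
    (fun x _ => (x.1 * x.2.1, x.1 * x.2.2)) ?_ ?_ ?_ ?_ ?_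
  · rintro ⟨m1, m2⟩ hm
    rw [Finset.mem_product, mem_Ioc, mem_Ioc] at hm
    obtain ⟨⟨h1, h2⟩, ⟨h3, h4⟩⟩ := hm
    simp only at h1 h2 h3 h4
    have hg : 0 < Nat.gcd m1 m2 := Nat.gcd_pos_of_pos_left _ (by omega)
    have e1 : Nat.gcd m1 m2 * (m1 / Nat.gcd m1 m2) = m1 := Nat.mul_div_cancel' (Nat.gcd_dvd_left _ _)
    have e2 : Nat.gcd m1 m2 * (m2 / Nat.gcd m1 m2) = m2 :=
      Nat.mul_div_cancel' (Nat.gcd_dvd_right _ _)
    simp only [Finset.mem_sigma, Finset.mem_filter, mem_Icc]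
    refine ⟨⟨hg, ?_⟩, ?_, ?_⟩
    · exact (Nat.gcd_le_left _ (by omega)).trans h2
    · unfold CP
      rw [Finset.mem_filter, Finset.mem_product]
      refine ⟨⟨?_, ?_⟩, ?_⟩
      · exact mem_range hg (by simp only [e1]; exact h1) (by simp only [e1]; exact h2)
      · exact mem_range hg (by simp only [e2]; exact h3) (by simp only [e2]; exact h4)
      · exact Nat.coprime_div_gcd_div_gcd hg
    · rw [e1, e2]; exact ⟨⟨h1, h2⟩, ⟨h3, h4⟩⟩
  · rintro ⟨g, p⟩ hx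
    simp only [Finset.mem_sigma, Finset.mem_filter] at hx
    rw [Finset.mem_product, mem_Ioc, mem_Ioc]
    exact hx.2.2
  · rintro ⟨m1, m2⟩ _
    have e1 : Nat.gcd m1 m2 * (m1 / Nat.gcd m1 m2) = m1 := Nat.mul_div_cancel' (Nat.gcd_dvd_left _ _)
    have e2 : Nat.gcd m1 m2 * (m2 / Nat.gcd m1 m2) = m2 :=
      Nat.mul_div_cancel' (Nat.gcd_dvd_right _ _)
    simp only [e1, e2]
  · rintro ⟨g, p1, p2⟩ hx
    simp only [Finset.mem_sigma, Finset.mem_filter, mem_Icc, CP] at hx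
    have hg : 0 < g := hx.1.1
    have hc : Nat.Coprime p1 p2 := hx.2.1.2
    have e1 : Nat.gcd (g * p1) (g * p2) = g := by
      rw [Nat.gcd_mul_left, hc.gcd_eq_one, mul_one]
    simp only [e1, Nat.mul_div_cancel_left _ hg]
  · rintro ⟨m1, m2⟩ _
    have e1 : Nat.gcd m1 m2 * (m1 / Nat.gcd m1 m2) = m1 := Nat.mul_div_cancel' (Nat.gcd_dvd_left _ _)
    have e2 : Nat.gcd m1 m2 * (m2 / Nat.gcd m1 m2) = m2 :=
      Nat.mul_div_cancel' (Nat.gcd_dvd_right _ _)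
    simp only [e1, e2]

open TaskTL in
theorem SS_split (a : ℕ → ℂ) (M : ℕ) (t₀ D Q : ℝ) (R : ℕ) :
    SS a M t₀ D Q R = ∑ g ∈ Icc 1 (2 * M), ∑ p ∈ CP (M / g),
      (if M < g * p.1 ∧ g * p.1 ≤ 2 * M then a (g * p.1) else 0) *
      (if M < g * p.2 ∧ g * p.2 ≤ 2 * M then (starRingEnd ℂ) (a (g * p.2)) else 0) *
      ∑ r ∈ nz (R / g), inn t₀ D Q (g * p.1) (g * p.2) (g * r) := by
  unfold SS
  rw [gcd_split (fun m₁ m₂ => a m₁ * (starRingEnd ℂ) (a m₂) * ∑ r ∈ nz R, inn t₀ D Q m₁ m₂ r)]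
  refine Finset.sum_congr rfl fun g hg => Finset.sum_congr rfl fun p hp => ?_
  rw [mem_Icc] at hg
  have hc : Nat.Coprime p.1 p.2 := by
    unfold CP at hp
    exact (Finset.mem_filter.mp hp).2
  have h1 : ∑ r ∈ nz R, inn t₀ D Q (g * p.1) (g * p.2) r =
      ∑ r ∈ nz (R / g), inn t₀ D Q (g * p.1) (g * p.2) (g * r) := by
    refine sum_nz _ g R hg.1 fun r hr => ?_
    apply TaskTL.inn_zero
    rw [Nat.gcd_mul_left, hc.gcd_eq_one, mul_one]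
    exact hr
  by_cases c1 : M < g * p.1 ∧ g * p.1 ≤ 2 * M
  · by_cases c2 : M < g * p.2 ∧ g * p.2 ≤ 2 * M
    · rw [if_pos ⟨c1, c2⟩, if_pos c1, if_pos c2, h1]
    · rw [if_neg (fun h => c2 h.2), if_neg c2]; ring
  · rw [if_neg (fun h => c1 h.1), if_neg c1]; ring

end Pool.Agent.H442R2.TSM
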