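import Pool.Agent.H442R2.TSM.Inn
import Pool.Agent.H442R2.TSM.Gcd

/-! TM: assembly of the long pieces (helper152). `long_pre` takes the statements of the tasks TE, TH,
TJ, TK as hypotheses. -/

namespace Pool.Agent.H442R2.TSM

open Finset MeasureTheory

namespace TaskTM

/-- splitting off finitely many terms of a series -/
theorem tsplit (f : ℤ → ℂ) (hf : Summable f) (s : Finset ℤ) :
    ‖∑' j, f j - ∑ j ∈ s, f j‖ ≤ ∑' j, (if j ∈ s then 0 else ‖f j‖) := by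
  classical
  have h1 : HasSum (fun j => if j ∈ s then f j else 0) (∑ j ∈ s, f j) := by
    have h : HasSum (fun j => if j ∈ s then f j else 0) (∑ j ∈ s, if j ∈ s then f j else 0) :=
      hasSum_sum_of_ne_finset_zero (fun j hj => if_neg hj)
    have e : ∑ j ∈ s, (if j ∈ s then f j else 0) = ∑ j ∈ s, f j :=
      Finset.sum_congr rfl (fun j hj => if_pos hj)
    rwa [e] at h
  have h2 : Summable (fun j => if j ∈ s then 0 else f j) := by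
    have h := hf.sub h1.summable
    refine h.congr (fun j => ?_)
    by_cases hj : j ∈ s <;> simp [hj]
  have h3 : ∑' j, f j = ∑ j ∈ s, f j + ∑' j, (if j ∈ s then 0 else f j) := by
    have h := (h1.add h2.hasSum).tsum_eq
    rw [← h]
    refine tsum_congr (fun j => ?_)
    by_cases hj : j ∈ s <;> simp [hj]
  have e2 : ∀ j, ‖(if j ∈ s then 0 else f j)‖ = (if j ∈ s then 0 else ‖f j‖) := by
    intro j
    by_cases hj : j ∈ s <;> simp [hj]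
  rw [h3, add_sub_cancel_left]
  have h4 := norm_tsum_le_tsum_norm (f := fun j => if j ∈ s then 0 else f j) h2.norm
  refine h4.trans (le_of_eq ?_)
  exact tsum_congr e2

theorem norm_kf (b m : ℤ) (n : ℕ) : ‖KF.kf b m n‖ = 1 := by
  unfold KF.kf
  exact KF.norm_e _

theorem kf_zero (m : ℤ) (n : ℕ) : KF.kf 0 m n = 1 := by
  unfold KF.kf
  simp [KF.e_zero]

theorem card_nz (R : ℕ) : (nz R).card = 2 * R := by
  unfold nz
  rw [Finset.card_erase_of_mem (by rw [Finset.mem_Icc]; omega), Int.card_Icc]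
  omega

theorem mem_nz {R : ℕ} {r : ℤ} (h : r ∈ nz R) : |r| ≤ R := by
  unfold nz at h
  rw [Finset.mem_erase, Finset.mem_Icc] at h
  rw [abs_le]
  exact h.2

theorem mem_CP {m : ℕ} {p : ℕ × ℕ} (h : p ∈ CP m) :
    (m < p.1 ∧ p.1 ≤ 2 * m + 1) ∧ (m < p.2 ∧ p.2 ≤ 2 * m + 1) ∧ Nat.Coprime p.1 p.2 := by
  unfold CP at h
  rw [Finset.mem_filter, Finset.mem_product, Finset.mem_Ioc, Finset.mem_Ioc] at h
  exact ⟨h.1.1, h.1.2, h.2⟩

theorem sum_CP (m g : ℕ) (hg : 1 ≤ g) :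
    ∑ p ∈ CP m, 1 / ((g : ℝ) * p.1 * p.2) ≤ 1 / g := by
  have hg' : (0:ℝ) < g := by exact_mod_cast hg
  have hm : (0:ℝ) < (m:ℝ) + 1 := by positivity
  have h1 : ∀ p ∈ CP m, 1 / ((g : ℝ) * p.1 * p.2) ≤ 1 / ((g:ℝ) * ((m:ℝ)+1) ^ 2) := by
    intro p hp
    obtain ⟨⟨a1, _⟩, ⟨a2, _⟩, _⟩ := mem_CP hp
    have b1 : (m:ℝ) + 1 ≤ p.1 := by exact_mod_cast a1
    have b2 : (m:ℝ) + 1 ≤ p.2 := by exact_mod_cast a2
    apply one_div_le_one_div_of_le (by positivity)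
    rw [mul_assoc, sq]
    exact mul_le_mul_of_nonneg_left (mul_le_mul b1 b2 hm.le (by linarith)) hg'.le
  have h2 : ((CP m).card : ℝ) ≤ ((m:ℝ)+1) ^ 2 := by
    have : (CP m).card ≤ (m+1)^2 := by
      unfold CP
      refine (Finset.card_filter_le _ _).trans ?_
      rw [Finset.card_product, Nat.card_Ioc]
      have : 2 * m + 1 - m = m + 1 := by omega
      rw [this, sq]
    exact_mod_cast this
  calc ∑ p ∈ CP m, 1 / ((g : ℝ) * p.1 * p.2)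
      ≤ (CP m).card • (1 / ((g:ℝ) * ((m:ℝ)+1) ^ 2)) := Finset.sum_le_card_nsmul _ _ _ h1
    _ = (CP m).card * (1 / ((g:ℝ) * ((m:ℝ)+1) ^ 2)) := by rw [nsmul_eq_mul]
    _ ≤ ((m:ℝ)+1) ^ 2 * (1 / ((g:ℝ) * ((m:ℝ)+1) ^ 2)) :=
        mul_le_mul_of_nonneg_right h2 (by positivity)
    _ = 1 / g := by field_simp

/-- combination of the three parts -/
theorem comb (m g : ℕ) (hg : 1 ≤ g) (α β : ℕ → ℂ) (hα : ∀ n, ‖α n‖ ≤ 1) (hβ : ∀ n, ‖β n‖ ≤ 1)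
    (S : Finset ℤ) (I : ℕ × ℕ → ℤ → ℂ) (z : ℤ → ℂ) (Md : ℕ × ℕ → ℤ → ℂ) (Zb Mb Eb : ℝ)
    (hI : ∀ p ∈ CP m, ∀ r ∈ S,
      ‖I p r - (((1 / ((g : ℝ) * p.1 * p.2) : ℝ) : ℂ) * z r + Md p r)‖ ≤
        1 / ((g : ℝ) * p.1 * p.2) * Eb)
    (hz : ‖∑ r ∈ S, z r‖ ≤ Zb) (hM : ‖∑ p ∈ CP m, α p.1 * β p.2 * ∑ r ∈ S, Md p r‖ ≤ Mb)
    (hEb : 0 ≤ Eb) :
    ‖∑ p ∈ CP m, α p.1 * β p.2 * ∑ r ∈ S, I p r‖ ≤ 1 / g * Zb + Mb + 1 / g * (S.card * Eb) := by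
  have hab : ∀ p : ℕ × ℕ, ‖α p.1 * β p.2‖ ≤ 1 := by
    intro p
    rw [norm_mul]
    exact mul_le_one₀ (hα _) (norm_nonneg _) (hβ _)
  have hZb : 0 ≤ Zb := (norm_nonneg _).trans hz
  have e : ∑ p ∈ CP m, α p.1 * β p.2 * ∑ r ∈ S, I p r =
      ∑ p ∈ CP m, α p.1 * β p.2 * (((1 / ((g : ℝ) * p.1 * p.2) : ℝ) : ℂ) * ∑ r ∈ S, z r) +
      ∑ p ∈ CP m, α p.1 * β p.2 * ∑ r ∈ S, Md p r +
      ∑ p ∈ CP m, α p.1 * β p.2 * ∑ r ∈ S,
        (I p r - (((1 / ((g : ℝ) * p.1 * p.2) : ℝ) : ℂ) * z r + Md p r)) := by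
    rw [← Finset.sum_add_distrib, ← Finset.sum_add_distrib]
    refine Finset.sum_congr rfl fun p _ => ?_
    rw [← mul_add, ← mul_add]
    congr 1
    rw [Finset.mul_sum, ← Finset.sum_add_distrib, ← Finset.sum_add_distrib]
    refine Finset.sum_congr rfl fun r _ => ?_
    ring
  have n1 : ‖∑ p ∈ CP m, α p.1 * β p.2 *
      (((1 / ((g : ℝ) * p.1 * p.2) : ℝ) : ℂ) * ∑ r ∈ S, z r)‖ ≤ 1 / g * Zb := by
    refine (norm_sum_le _ _).trans ?_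
    refine (Finset.sum_le_sum (g := fun p => 1 / ((g : ℝ) * p.1 * p.2) * Zb) ?_).trans ?_
    · intro p _
      rw [norm_mul (α p.1 * β p.2), norm_mul (((1 / ((g : ℝ) * p.1 * p.2) : ℝ) : ℂ)),
        Complex.norm_real, Real.norm_of_nonneg (by positivity)]
      calc ‖α p.1 * β p.2‖ * (1 / ((g : ℝ) * p.1 * p.2) * ‖∑ r ∈ S, z r‖)
          ≤ 1 * (1 / ((g : ℝ) * p.1 * p.2) * ‖∑ r ∈ S, z r‖) :=
            mul_le_mul_of_nonneg_right (hab p) (by positivity)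
        _ ≤ 1 / ((g : ℝ) * p.1 * p.2) * Zb := by
            rw [one_mul]
            exact mul_le_mul_of_nonneg_left hz (by positivity)
    · rw [← Finset.sum_mul]
      exact mul_le_mul_of_nonneg_right (sum_CP m g hg) hZb
  have n3 : ‖∑ p ∈ CP m, α p.1 * β p.2 * ∑ r ∈ S,
      (I p r - (((1 / ((g : ℝ) * p.1 * p.2) : ℝ) : ℂ) * z r + Md p r))‖ ≤
      1 / g * (S.card * Eb) := by
    refine (norm_sum_le _ _).trans ?_
    refine (Finset.sum_le_sum (g := fun p => 1 / ((g : ℝ) * p.1 * p.2) * (S.card * Eb)) ?_).trans ?_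
    · intro p hp
      rw [norm_mul]
      have h1 : ‖∑ r ∈ S, (I p r - (((1 / ((g : ℝ) * p.1 * p.2) : ℝ) : ℂ) * z r + Md p r))‖ ≤
          S.card * (1 / ((g : ℝ) * p.1 * p.2) * Eb) := by
        refine (norm_sum_le _ _).trans ?_
        refine (Finset.sum_le_card_nsmul _ _ _ (hI p hp)).trans ?_
        rw [nsmul_eq_mul]
      calc ‖α p.1 * β p.2‖ * _ ≤ 1 * (S.card * (1 / ((g : ℝ) * p.1 * p.2) * Eb)) :=
            mul_le_mul (hab p) h1 (norm_nonneg _) (by norm_num)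
        _ = 1 / ((g : ℝ) * p.1 * p.2) * (S.card * Eb) := by ring
    · rw [← Finset.sum_mul]
      exact mul_le_mul_of_nonneg_right (sum_CP m g hg) (by positivity)
  rw [e]
  refine (norm_add_le _ _).trans (add_le_add ((norm_add_le _ _).trans (add_le_add n1 hM)) n3)

theorem inn_split (t₀ D Q : ℝ) (hD : 0 < D) (hQ : 1 ≤ Q) (m g : ℕ) (hg : 1 ≤ g) (p : ℕ × ℕ)
    (hp : p ∈ CP m) (r : ℤ) (s : Finset ℤ) (hs : (0 : ℤ) ∈ s) (Eb : ℝ)
    (hE : ∑' j : ℤ, (if j ∈ s then 0 else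
      ‖Fh (gr t₀ D Q ((g : ℝ) * r)) ((j : ℝ) / ((g : ℝ) * p.1 * p.2))‖) ≤ Eb) :
    ‖inn t₀ D Q (g * p.1) (g * p.2) (g * r) -
      (((1 / ((g : ℝ) * p.1 * p.2) : ℝ) : ℂ) * Fh (gr t₀ D Q ((g : ℝ) * r)) 0 +
        ((1 / ((g : ℝ) * p.1 * p.2) : ℝ) : ℂ) * ∑ j ∈ s.erase 0,
          Fh (gr t₀ D Q ((g : ℝ) * r)) ((j : ℝ) / ((g : ℝ) * p.1 * p.2)) *
            KF.kf (j * r) p.1 p.2)‖ ≤ 1 / ((g : ℝ) * p.1 * p.2) * Eb := by
  obtain ⟨⟨a1, _⟩, ⟨a2, _⟩, a3⟩ := mem_CP hp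
  obtain ⟨h1, h2⟩ := inn_pois t₀ D Q hD hQ g p.1 p.2 hg (by omega) (by omega) a3 r
  rw [h2, ← mul_add, ← mul_sub, norm_mul, Complex.norm_real, Real.norm_of_nonneg (by positivity)]
  refine mul_le_mul_of_nonneg_left ?_ (by positivity)
  refine le_trans ?_ hE
  have h3 := tsplit _ h1 s
  rw [← Finset.add_sum_erase s _ hs] at h3
  have e1 : Fh (gr t₀ D Q ((g : ℝ) * r)) (((0 : ℤ) : ℝ) / ((g : ℝ) * p.1 * p.2)) *
      KF.kf (0 * r) p.1 p.2 = Fh (gr t₀ D Q ((g : ℝ) * r)) 0 := by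
    rw [zero_mul, kf_zero, Int.cast_zero, zero_div, mul_one]
  rw [e1] at h3
  refine h3.trans (le_of_eq (tsum_congr fun j => ?_))
  by_cases hj : j ∈ s
  · rw [if_pos hj, if_pos hj]
  · rw [if_neg hj, if_neg hj, norm_mul, norm_kf, mul_one]

/-- sum over `g` -/
theorem harm (d T : ℝ) (hd : 0 < d) (hd1 : d ≤ 1) (hT : 1 ≤ T) (n : ℕ) (hn : (n : ℝ) ≤ 2 * T) :
    ∑ g ∈ Icc 1 n, 1 / (g : ℝ) ≤ (1 + 2 / d) * T ^ d := by
  have h1 : ∑ g ∈ Icc 1 n, 1 / (g : ℝ) = ((harmonic n : ℚ) : ℝ) := by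
    rw [harmonic_eq_sum_Icc]
    push_cast
    refine Finset.sum_congr rfl fun g _ => ?_
    rw [one_div]
  rw [h1]
  have h2 := harmonic_le_one_add_log n
  have hTd : 1 ≤ T ^ d := Real.one_le_rpow hT hd.le
  rcases Nat.eq_zero_or_pos n with h0 | h0
  · rw [h0]
    simp only [harmonic_zero, Rat.cast_zero]
    positivity
  · have hn0 : (0:ℝ) < n := by exact_mod_cast h0
    have h3 : Real.log n ≤ Real.log (2 * T) := Real.log_le_log hn0 hn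
    have h4 : Real.log (2 * T) ≤ (2 * T) ^ d / d := Real.log_le_rpow_div (by linarith) hd
    have h5 : (2 * T) ^ d ≤ 2 * T ^ d := by
      rw [Real.mul_rpow (by norm_num) (by linarith)]
      refine mul_le_mul_of_nonneg_right ?_ (by positivity)
      calc (2:ℝ) ^ d ≤ 2 ^ (1:ℝ) := Real.rpow_le_rpow_of_exponent_le (by norm_num) hd1
        _ = 2 := Real.rpow_one 2
    have h6 : (2 * T) ^ d / d ≤ 2 / d * T ^ d := by
      rw [div_mul_eq_mul_div]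
      exact div_le_div_of_nonneg_right h5 hd.le
    linarith

end TaskTM

open TaskTM in
/-- TM from TE, TH, TJ, TK -/
theorem long_pre
    (lin : ∀ (d : ℝ) (_hd : 0 < d) (_hd1 : d ≤ 1 / 100),
      ∃ C T₁ : ℝ, 0 < C ∧ 1 ≤ T₁ ∧
        ∀ T : ℝ, T₁ ≤ T → ∀ t₀ ∈ Set.Icc T (2 * T), ∀ Q ∈ Set.Icc T (2 * T ^ 2), ∀ M : ℕ,
        ∀ a : ℕ → ℂ, (∀ m, ‖a m‖ ≤ 1) →
        ∫ t, Wg t₀ (T ^ (1 - d)) t * ‖Dp (cQ a M Q) ⌊4 * Q⌋₊ t‖ ^ 2 ≤
          ‖SS a M t₀ (T ^ (1 - d)) Q ⌊Q * T ^ (2 * d - 1)⌋₊‖ + C * T ^ (1 + 8 * d))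
    (zero_freq : ∀ (d : ℝ) (_hd : 0 < d) (_hd1 : d ≤ 1 / 100),
      ∃ C T₁ : ℝ, 0 < C ∧ 1 ≤ T₁ ∧
        ∀ T : ℝ, T₁ ≤ T → ∀ t₀ ∈ Set.Icc T (2 * T), ∀ Q ∈ Set.Icc T (2 * T ^ 2), ∀ g : ℕ, 1 ≤ g →
        ‖∑ r ∈ nz (⌊Q * T ^ (2 * d - 1)⌋₊ / g), Fh (gr t₀ (T ^ (1 - d)) Q ((g : ℝ) * r)) 0‖ ≤
          C * T)
    (mid_low : ∀ (θ : ℝ) (_hθ0 : 0 < θ) (_hθ : θ < 14 / 27),
      ∃ d0 : ℝ, 0 < d0 ∧ ∀ d : ℝ, 0 < d →
        d ≤ d0 → ∃ C T₁ : ℝ, 0 < C ∧ 1 ≤ T₁ ∧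
        ∀ T : ℝ, T₁ ≤ T → ∀ t₀ ∈ Set.Icc T (2 * T), ∀ Q ∈ Set.Icc T (2 * T ^ 2),
        ∀ m g : ℕ, 1 ≤ m → 1 ≤ g → (m : ℝ) ≤ T ^ θ →
        ∀ α β : ℕ → ℂ, (∀ n, ‖α n‖ ≤ 1) → (∀ n, ‖β n‖ ≤ 1) →
        ‖∑ p ∈ CP m, α p.1 * β p.2 * ∑ r ∈ nz (⌊Q * T ^ (2 * d - 1)⌋₊ / g),
          ((1 / ((g : ℝ) * p.1 * p.2) : ℝ) : ℂ) * ∑ j ∈ nz ⌊(g : ℝ) * m ^ 2 * T ^ (3 * d) / Q⌋₊,
            Fh (gr t₀ (T ^ (1 - d)) Q ((g : ℝ) * r)) ((j : ℝ) / ((g : ℝ) * p.1 * p.2)) *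
              KF.kf (j * r) p.1 p.2‖ ≤ C * T ^ (1 + 6 * d) / g)
    (tail_high : ∀ (d : ℝ) (_hd : 0 < d) (_hd1 : d ≤ 1 / 100),
      ∃ C : ℝ, 0 < C ∧
        ∀ T : ℝ, 1 ≤ T → ∀ t₀ ∈ Set.Icc T (2 * T), ∀ Q ∈ Set.Icc T (2 * T ^ 2),
        ∀ m g : ℕ, 1 ≤ m → 1 ≤ g → (g : ℝ) ≤ 2 * T → (m : ℝ) ≤ T →
        ∀ h ∈ Ioc m (2 * m + 1), ∀ k ∈ Ioc m (2 * m + 1), ∀ r : ℤ,
        |(g : ℝ) * r| ≤ Q * T ^ (2 * d - 1) →
        Summable (fun j : ℤ => ‖Fh (gr t₀ (T ^ (1 - d)) Q ((g : ℝ) * r)) ((j : ℝ) / ((g : ℝ) * h * k))‖) ∧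
        ∑' j : ℤ, (if j ∈ Icc (-(⌊(g : ℝ) * m ^ 2 * T ^ (3 * d) / Q⌋₊ : ℤ))
            ⌊(g : ℝ) * m ^ 2 * T ^ (3 * d) / Q⌋₊ then 0 else
          ‖Fh (gr t₀ (T ^ (1 - d)) Q ((g : ℝ) * r)) ((j : ℝ) / ((g : ℝ) * h * k))‖) ≤ C / T ^ 10)
    (tail_one : ∀ (d : ℝ) (_hd : 0 < d) (_hd1 : d ≤ 1 / 100),
      ∃ C : ℝ, 0 < C ∧
        ∀ T : ℝ, 1 ≤ T → ∀ t₀ ∈ Set.Icc T (2 * T), ∀ Q ∈ Set.Icc T (2 * T ^ 2),
        ∀ g : ℕ, 1 ≤ g → ∀ r : ℤ, |(g : ℝ) * r| ≤ Q * T ^ (2 * d - 1) →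
        ∑' j : ℤ, (if j = 0 then 0 else
          ‖Fh (gr t₀ (T ^ (1 - d)) Q ((g : ℝ) * r)) ((j : ℝ) / (g : ℝ))‖) ≤
          C * T ^ (1 - d) * (T ^ (2 * d) * g / Q) ^ 2)
    (θ : ℝ) (hθ0 : 0 < θ) (hθ : θ < 14 / 27) : ∃ d0 : ℝ, 0 < d0 ∧ ∀ d : ℝ, 0 < d →
    d ≤ d0 → ∃ C T₁ : ℝ, 0 < C ∧ 1 ≤ T₁ ∧
    ∀ T : ℝ, T₁ ≤ T → ∀ t₀ ∈ Set.Icc T (2 * T), ∀ Q ∈ Set.Icc T (2 * T ^ 2),
    ∀ M : ℕ, 1 ≤ M → (M : ℝ) ≤ T ^ θ → ∀ a : ℕ → ℂ, (∀ m, ‖a m‖ ≤ 1) →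
    ∫ t, Wg t₀ (T ^ (1 - d)) t * ‖Dp (cQ a M Q) ⌊4 * Q⌋₊ t‖ ^ 2 ≤ C * T ^ (1 + 9 * d) := by
  obtain ⟨d0, hd0, hmid⟩ := mid_low θ hθ0 hθ
  refine ⟨min d0 (1 / 100), lt_min hd0 (by norm_num), ?_⟩
  intro d hd hdle
  have hdd0 : d ≤ d0 := hdle.trans (min_le_left _ _)
  have hd1 : d ≤ 1 / 100 := hdle.trans (min_le_right _ _)
  obtain ⟨C3, T3, hC3, hT3, hmid⟩ := hmid d hd hdd0
  obtain ⟨C1, T1, hC1, hT1, hlin⟩ := lin d hd hd1
  obtain ⟨C2, T2, hC2, hT2, hzero⟩ := zero_freq d hd hd1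
  obtain ⟨C4, hC4, htail⟩ := tail_high d hd hd1
  obtain ⟨C5, hC5, htail1⟩ := tail_one d hd hd1
  refine ⟨(C2 + C3 + 4 * C4 + 4 * C5) * (1 + 2 / d) + C1, max T1 (max T2 T3), by positivity,
    hT1.trans (le_max_left _ _), ?_⟩
  intro T hT t₀ ht₀ Q hQ M hM hMT a ha
  have hT1' : T1 ≤ T := (le_max_left _ _).trans hT
  have hT2' : T2 ≤ T := ((le_max_left _ _).trans (le_max_right _ _)).trans hT
  have hT3' : T3 ≤ T := ((le_max_right _ _).trans (le_max_right _ _)).trans hT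
  have hT0 : 1 ≤ T := hT1.trans hT1'
  have hTp : 0 < T := by linarith
  have hQT : T ≤ Q := hQ.1
  have hQ1 : 1 ≤ Q := hT0.trans hQT
  have hQp : 0 < Q := by linarith
  obtain ⟨x, hx⟩ : ∃ x, x = T ^ d := ⟨_, rfl⟩
  have hx1 : 1 ≤ x := by rw [hx]; exact Real.one_le_rpow hT0 hd.le
  have hxp : 0 < x := by linarith
  have hxT : x ≤ T := by
    rw [hx]
    calc T ^ d ≤ T ^ (1:ℝ) := Real.rpow_le_rpow_of_exponent_le hT0 (by linarith)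
      _ = T := Real.rpow_one T
  have hpw : ∀ k : ℕ, T ^ ((k:ℝ) * d) = x ^ k := by
    intro k
    rw [mul_comm, Real.rpow_mul hTp.le, Real.rpow_natCast, hx]
  have e1 : T ^ (1 - d) = T / x := by
    rw [Real.rpow_sub hTp, Real.rpow_one, hx]
  have e2 : T ^ (2 * d) = x ^ 2 := by
    have := hpw 2
    push_cast at this
    exact this
  have e3 : T ^ (2 * d - 1) = x ^ 2 / T := by
    rw [Real.rpow_sub hTp, Real.rpow_one, e2]
  have e6 : T ^ (1 + 6 * d) = T * x ^ 6 := by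
    have := hpw 6
    push_cast at this
    rw [Real.rpow_add hTp, Real.rpow_one, this]
  have e8 : T ^ (1 + 8 * d) = T * x ^ 8 := by
    have := hpw 8
    push_cast at this
    rw [Real.rpow_add hTp, Real.rpow_one, this]
  have e9 : T ^ (1 + 9 * d) = T * x ^ 9 := by
    have := hpw 9
    push_cast at this
    rw [Real.rpow_add hTp, Real.rpow_one, this]
  have hTθ : T ^ θ ≤ T := by
    calc T ^ θ ≤ T ^ (1:ℝ) := Real.rpow_le_rpow_of_exponent_le hT0 (by linarith)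
      _ = T := Real.rpow_one T
  have hMT' : (M:ℝ) ≤ T := hMT.trans hTθ
  have hDp : 0 < T ^ (1 - d) := Real.rpow_pos_of_pos hTp _
  obtain ⟨R, hR⟩ : ∃ R, R = ⌊Q * T ^ (2 * d - 1)⌋₊ := ⟨_, rfl⟩
  have hRQ : (R:ℝ) ≤ Q * T ^ (2 * d - 1) := by
    rw [hR]
    exact Nat.floor_le (by positivity)
  have hx6 : 1 ≤ x ^ 6 := one_le_pow₀ hx1
  -- every `g`
  have hX : ∀ g ∈ Icc 1 (2 * M), ‖∑ p ∈ CP (M / g),
      (if M < g * p.1 ∧ g * p.1 ≤ 2 * M then a (g * p.1) else 0) *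
      (if M < g * p.2 ∧ g * p.2 ≤ 2 * M then (starRingEnd ℂ) (a (g * p.2)) else 0) *
      ∑ r ∈ nz (R / g), inn t₀ (T ^ (1 - d)) Q (g * p.1) (g * p.2) (g * r)‖ ≤
      (C2 + C3 + 4 * C4 + 4 * C5) * (T * x ^ 6) * (1 / (g:ℝ)) := by
    intro g hg
    rw [Finset.mem_Icc] at hg
    have hg1 : 1 ≤ g := hg.1
    have hgp : (0:ℝ) < g := by exact_mod_cast hg1
    have hg2T : (g:ℝ) ≤ 2 * T := by
      have : (g:ℝ) ≤ 2 * M := by exact_mod_cast hg.2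
      linarith
    have hα : ∀ n, ‖(fun n => if M < g * n ∧ g * n ≤ 2 * M then a (g * n) else 0) n‖ ≤ 1 := by
      intro n
      dsimp only
      split_ifs
      · exact ha _
      · simp
    have hβ : ∀ n, ‖(fun n => if M < g * n ∧ g * n ≤ 2 * M then
        (starRingEnd ℂ) (a (g * n)) else 0) n‖ ≤ 1 := by
      intro n
      dsimp only
      split_ifs
      · rw [RCLike.norm_conj]; exact ha _
      · simp
    have hcard : ((nz (R / g)).card : ℝ) ≤ 2 * Q * x ^ 2 / (T * g) := by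
      rw [card_nz]
      push_cast
      have h1 : ((R / g : ℕ) : ℝ) ≤ (R:ℝ) / g := Nat.cast_div_le
      have h2 : (R:ℝ) / g ≤ (Q * T ^ (2 * d - 1)) / g := div_le_div_of_nonneg_right hRQ hgp.le
      rw [e3] at h2
      calc (2:ℝ) * ((R / g : ℕ) : ℝ) ≤ 2 * (Q * (x ^ 2 / T) / g) := by linarith
        _ = 2 * Q * x ^ 2 / (T * g) := by field_simp
    have hrg : ∀ r ∈ nz (R / g), |(g : ℝ) * r| ≤ Q * T ^ (2 * d - 1) := by
      intro r hr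
      have h1 : |(r:ℝ)| ≤ ((R / g : ℕ) : ℝ) := by
        have h3 : ((|r| : ℤ) : ℝ) ≤ (((R / g : ℕ) : ℤ) : ℝ) := Int.cast_le.2 (mem_nz hr)
        rwa [Int.cast_abs, Int.cast_natCast] at h3
      have h2 : ((R / g : ℕ) : ℝ) ≤ (R:ℝ) / g := Nat.cast_div_le
      rw [abs_mul, abs_of_pos hgp]
      calc (g:ℝ) * |(r:ℝ)| ≤ g * ((R:ℝ) / g) := mul_le_mul_of_nonneg_left (h1.trans h2) hgp.le
        _ = R := by field_simp
        _ ≤ _ := hRQ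
    have hz := hzero T hT2' t₀ ht₀ Q hQ g hg1
    rw [← hR] at hz
    rcases Nat.eq_zero_or_pos (M / g) with h0 | h0
    · -- `m = 0`
      rw [h0]
      have hEb : 0 ≤ C5 * T ^ (1 - d) * (T ^ (2 * d) * g / Q) ^ 2 := by positivity
      have h := comb 0 g hg1 _ _ hα hβ (nz (R / g))
        (fun p r => inn t₀ (T ^ (1 - d)) Q (g * p.1) (g * p.2) (g * r))
        (fun r => Fh (gr t₀ (T ^ (1 - d)) Q ((g : ℝ) * r)) 0) (fun _ _ => 0)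
        (C2 * T) 0 (C5 * T ^ (1 - d) * (T ^ (2 * d) * g / Q) ^ 2) (by
          intro p hp r hr
          have h1 := inn_split t₀ (T ^ (1 - d)) Q hDp hQ1 0 g hg1 p hp r {0} (by simp)
            (C5 * T ^ (1 - d) * (T ^ (2 * d) * g / Q) ^ 2) (by
              refine le_trans (le_of_eq (tsum_congr fun j => ?_))
                (htail1 T hT0 t₀ ht₀ Q hQ g hg1 r (hrg r hr))
              obtain ⟨⟨a1, a2⟩, ⟨a3, a4⟩, _⟩ := mem_CP hp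
              have b1 : p.1 = 1 := by omega
              have b2 : p.2 = 1 := by omega
              rw [b1, b2]
              simp only [Finset.mem_singleton, Nat.cast_one, mul_one])
          have h2 : ({0} : Finset ℤ).erase 0 = ∅ := by simp
          rw [h2, Finset.sum_empty, mul_zero] at h1
          exact h1) hz (by simp) hEb
      refine h.trans ?_
      have k1 : 1 / (g:ℝ) * (C2 * T) ≤ C2 * (T * x ^ 6) * (1 / (g:ℝ)) := by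
        have : C2 * T ≤ C2 * (T * x ^ 6) :=
          mul_le_mul_of_nonneg_left (le_mul_of_one_le_right hTp.le hx6) hC2.le
        calc 1 / (g:ℝ) * (C2 * T) ≤ 1 / (g:ℝ) * (C2 * (T * x ^ 6)) :=
              mul_le_mul_of_nonneg_left this (by positivity)
          _ = _ := by ring
      have k2 : 1 / (g:ℝ) * (((nz (R / g)).card : ℝ) *
          (C5 * T ^ (1 - d) * (T ^ (2 * d) * g / Q) ^ 2)) ≤ 4 * C5 * (T * x ^ 6) * (1 / (g:ℝ)) := by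
        refine mul_le_mul_of_nonneg_left ?_ (by positivity) |>.trans (le_of_eq (mul_comm _ _))
        calc ((nz (R / g)).card : ℝ) * (C5 * T ^ (1 - d) * (T ^ (2 * d) * g / Q) ^ 2)
            ≤ (2 * Q * x ^ 2 / (T * g)) * (C5 * T ^ (1 - d) * (T ^ (2 * d) * g / Q) ^ 2) :=
              mul_le_mul_of_nonneg_right hcard hEb
          _ = 2 * C5 * x ^ 5 * (g / Q) := by
              rw [e1, e2]
              field_simp
          _ ≤ 2 * C5 * x ^ 5 * 2 := by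
              refine mul_le_mul_of_nonneg_left ?_ (by positivity)
              rw [div_le_iff₀ hQp]
              linarith
          _ ≤ 4 * C5 * (T * x ^ 6) := by
              have h5 : x ^ 5 ≤ T * x ^ 6 := by
                calc x ^ 5 ≤ x ^ 6 := pow_le_pow_right₀ hx1 (by norm_num)
                  _ ≤ T * x ^ 6 := le_mul_of_one_le_left (by positivity) hT0
              nlinarith
      have k3 : 0 ≤ (C3 + 4 * C4) * (T * x ^ 6) * (1 / (g:ℝ)) := by positivity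
      nlinarith
    · -- `m ≥ 1`
      have hm1 : 1 ≤ M / g := h0
      have hmM : M / g ≤ M := Nat.div_le_self _ _
      have hmT : ((M / g : ℕ) : ℝ) ≤ T ^ θ := le_trans (by exact_mod_cast hmM) hMT
      have hmT' : ((M / g : ℕ) : ℝ) ≤ T := hmT.trans hTθ
      have hEb : 0 ≤ C4 / T ^ 10 := by positivity
      have hmd := hmid T hT3' t₀ ht₀ Q hQ (M / g) g hm1 hg1 hmT _ _ hα hβ
      rw [← hR] at hmd
      have h := comb (M / g) g hg1 _ _ hα hβ (nz (R / g))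
        (fun p r => inn t₀ (T ^ (1 - d)) Q (g * p.1) (g * p.2) (g * r))
        (fun r => Fh (gr t₀ (T ^ (1 - d)) Q ((g : ℝ) * r)) 0)
        (fun p r => ((1 / ((g : ℝ) * p.1 * p.2) : ℝ) : ℂ) *
          ∑ j ∈ nz ⌊(g : ℝ) * (M / g : ℕ) ^ 2 * T ^ (3 * d) / Q⌋₊,
          Fh (gr t₀ (T ^ (1 - d)) Q ((g : ℝ) * r)) ((j : ℝ) / ((g : ℝ) * p.1 * p.2)) *
            KF.kf (j * r) p.1 p.2)
        (C2 * T) _ (C4 / T ^ 10) (by
          intro p hp r hr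
          obtain ⟨⟨a1, a2⟩, ⟨a3, a4⟩, _⟩ := mem_CP hp
          exact inn_split t₀ (T ^ (1 - d)) Q hDp hQ1 (M / g) g hg1 p hp r
            (Icc (-(⌊(g : ℝ) * (M / g : ℕ) ^ 2 * T ^ (3 * d) / Q⌋₊ : ℤ))
              ⌊(g : ℝ) * (M / g : ℕ) ^ 2 * T ^ (3 * d) / Q⌋₊)
            (by rw [Finset.mem_Icc]; omega) (C4 / T ^ 10)
            (htail T hT0 t₀ ht₀ Q hQ (M / g) g hm1 hg1 hg2T hmT' p.1
              (Finset.mem_Ioc.2 ⟨a1, a2⟩) p.2 (Finset.mem_Ioc.2 ⟨a3, a4⟩) r (hrg r hr)).2)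
        hz hmd hEb
      refine h.trans ?_
      have k1 : 1 / (g:ℝ) * (C2 * T) ≤ C2 * (T * x ^ 6) * (1 / (g:ℝ)) := by
        have : C2 * T ≤ C2 * (T * x ^ 6) :=
          mul_le_mul_of_nonneg_left (le_mul_of_one_le_right hTp.le hx6) hC2.le
        calc 1 / (g:ℝ) * (C2 * T) ≤ 1 / (g:ℝ) * (C2 * (T * x ^ 6)) :=
              mul_le_mul_of_nonneg_left this (by positivity)
          _ = _ := by ring
      have k0 : C3 * T ^ (1 + 6 * d) / g = C3 * (T * x ^ 6) * (1 / (g:ℝ)) := by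
        rw [e6]; ring
      have k2 : 1 / (g:ℝ) * (((nz (R / g)).card : ℝ) * (C4 / T ^ 10)) ≤
          4 * C4 * (T * x ^ 6) * (1 / (g:ℝ)) := by
        refine mul_le_mul_of_nonneg_left ?_ (by positivity) |>.trans (le_of_eq (mul_comm _ _))
        have hc : ((nz (R / g)).card : ℝ) ≤ 4 * T ^ 10 := by
          refine hcard.trans ?_
          rw [div_le_iff₀ (by positivity)]
          have q1 : x ^ 2 ≤ T ^ 2 := pow_le_pow_left₀ hxp.le hxT 2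
          have q2 : Q ≤ 2 * T ^ 2 := hQ.2
          have q3 : (1:ℝ) ≤ g := by exact_mod_cast hg1
          have q4 : T ^ 4 ≤ T ^ 11 := pow_le_pow_right₀ hT0 (by norm_num)
          calc 2 * Q * x ^ 2 ≤ 2 * (2 * T ^ 2) * T ^ 2 :=
                mul_le_mul (by linarith) q1 (by positivity) (by positivity)
            _ = 4 * T ^ 4 * 1 := by ring
            _ ≤ 4 * T ^ 11 * g := mul_le_mul (by linarith) q3 (by norm_num) (by positivity)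
            _ = 4 * T ^ 10 * (T * g) := by ring
        calc ((nz (R / g)).card : ℝ) * (C4 / T ^ 10) ≤ 4 * T ^ 10 * (C4 / T ^ 10) :=
              mul_le_mul_of_nonneg_right hc hEb
          _ = 4 * C4 * 1 := by field_simp
          _ ≤ 4 * C4 * (T * x ^ 6) := by
              refine mul_le_mul_of_nonneg_left ?_ (by positivity)
              exact one_le_mul_of_one_le_of_one_le hT0 hx6
      have k3 : 0 ≤ (4 * C5) * (T * x ^ 6) * (1 / (g:ℝ)) := by positivity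
      rw [k0]
      nlinarith
  have hmain := hlin T hT1' t₀ ht₀ Q hQ M a ha
  rw [← hR, SS_split] at hmain
  have hsum : ‖∑ g ∈ Icc 1 (2 * M), ∑ p ∈ CP (M / g),
      (if M < g * p.1 ∧ g * p.1 ≤ 2 * M then a (g * p.1) else 0) *
      (if M < g * p.2 ∧ g * p.2 ≤ 2 * M then (starRingEnd ℂ) (a (g * p.2)) else 0) *
      ∑ r ∈ nz (R / g), inn t₀ (T ^ (1 - d)) Q (g * p.1) (g * p.2) (g * r)‖ ≤
      (C2 + C3 + 4 * C4 + 4 * C5) * (1 + 2 / d) * (T * x ^ 9) := by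
    refine (norm_sum_le _ _).trans ((Finset.sum_le_sum hX).trans ?_)
    rw [← Finset.mul_sum]
    have h1 := harm d T hd (by linarith) hT0 (2 * M) (by push_cast; linarith)
    rw [← hx] at h1
    have hC : 0 ≤ C2 + C3 + 4 * C4 + 4 * C5 := by positivity
    calc (C2 + C3 + 4 * C4 + 4 * C5) * (T * x ^ 6) * ∑ g ∈ Icc 1 (2 * M), 1 / (g : ℝ)
        ≤ (C2 + C3 + 4 * C4 + 4 * C5) * (T * x ^ 6) * ((1 + 2 / d) * x) :=
          mul_le_mul_of_nonneg_left h1 (by positivity)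
      _ = (C2 + C3 + 4 * C4 + 4 * C5) * (1 + 2 / d) * (T * x ^ 7) := by ring
      _ ≤ _ := by
          refine mul_le_mul_of_nonneg_left ?_ (by positivity)
          exact mul_le_mul_of_nonneg_left (pow_le_pow_right₀ hx1 (by norm_num)) hTp.le
  have h8 : C1 * T ^ (1 + 8 * d) ≤ C1 * (T * x ^ 9) := by
    rw [e8]
    refine mul_le_mul_of_nonneg_left ?_ hC1.le
    exact mul_le_mul_of_nonneg_left (pow_le_pow_right₀ hx1 (by norm_num)) hTp.le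
  rw [e9]
  calc _ ≤ _ := hmain
    _ ≤ (C2 + C3 + 4 * C4 + 4 * C5) * (1 + 2 / d) * (T * x ^ 9) + C1 * (T * x ^ 9) :=
        add_le_add hsum h8
    _ = _ := by ring

end Pool.Agent.H442R2.TSM
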