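import Pool.Agent.H442R2.TSM.Defs
import Pool.Agent.H442R2.KF.Tri
import Pool.Agent.H353R2.Z2

/-! Task TI: two smooth variables from the trilinear theorem. -/

namespace Pool.Agent.H442R2.TSM

open Finset MeasureTheory

namespace TaskTI

/-- the pairs with product `l` -/
def PP (J R l : ℕ) : Finset (ℕ × ℕ) := (Icc 1 J ×ˢ Icc 1 R).filter (fun p => p.1 * p.2 = l)

theorem card_PP (J R l : ℕ) : (PP J R l).card ≤ l.divisors.card := by
  apply Finset.card_le_card_of_injOn (fun p => p.1)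
  · intro p hp
    have hp' := mem_filter.mp (mem_coe.mp hp)
    rw [mem_product, mem_Icc, mem_Icc] at hp'
    rw [mem_coe, Nat.mem_divisors]
    refine ⟨⟨p.2, hp'.2.symm⟩, ?_⟩
    rw [← hp'.2]
    exact Nat.mul_ne_zero (by omega) (by omega)
  · intro p hp q hq h
    have hp' := mem_filter.mp (mem_coe.mp hp)
    have hq' := mem_filter.mp (mem_coe.mp hq)
    rw [mem_product, mem_Icc, mem_Icc] at hp' hq'
    have h1 : p.1 = q.1 := h
    have h2 : p.1 * p.2 = p.1 * q.2 := by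
      rw [hp'.2]; rw [h1, hq'.2]
    exact Prod.ext h1 (Nat.eq_of_mul_eq_mul_left (by omega) h2)

/-- the combined weight -/
noncomputable def psi (w : ℕ → ℕ → ℝ → ℂ) (J R : ℕ) (B : ℝ) (l : ℕ) (s : ℝ) : ℂ :=
  ((B⁻¹ : ℝ) : ℂ) * ∑ p ∈ PP J R l, w p.1 p.2 s

theorem wei_psi {M : ℕ} {V : ℝ} (hV : 1 ≤ V) {w : ℕ → ℕ → ℝ → ℂ}
    (hw : ∀ j r, KF.Wei M V (w j r)) {J R l : ℕ} {B : ℝ} (hB : 0 < B)
    (hc : ((PP J R l).card : ℝ) ≤ B) : KF.Wei M V (psi w J R B l) := by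
  have hB1 : ‖((B⁻¹ : ℝ) : ℂ)‖ = B⁻¹ := by
    rw [Complex.norm_real, Real.norm_of_nonneg (by positivity)]
  constructor
  · intro s hs
    unfold psi
    rw [norm_mul, hB1]
    have h1 : ‖∑ p ∈ PP J R l, w p.1 p.2 s‖ ≤ B := by
      calc ‖∑ p ∈ PP J R l, w p.1 p.2 s‖ ≤ ∑ p ∈ PP J R l, (1 : ℝ) :=
            norm_sum_le_of_le _ fun p _ => (hw p.1 p.2).bd s hs
        _ = ((PP J R l).card : ℝ) := by simp
        _ ≤ B := hc
    calc B⁻¹ * ‖∑ p ∈ PP J R l, w p.1 p.2 s‖ ≤ B⁻¹ * B :=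
          mul_le_mul_of_nonneg_left h1 (by positivity)
      _ = 1 := inv_mul_cancel₀ hB.ne'
  · intro s s' hs hs'
    unfold psi
    rw [← mul_sub, ← sum_sub_distrib, norm_mul, hB1]
    set D : ℝ := V * |s - s'| / (M : ℝ) ^ 2 with hD
    have hD0 : 0 ≤ D := by positivity
    have h1 : ‖∑ p ∈ PP J R l, (w p.1 p.2 s - w p.1 p.2 s')‖ ≤ B * D := by
      calc ‖∑ p ∈ PP J R l, (w p.1 p.2 s - w p.1 p.2 s')‖ ≤ ∑ p ∈ PP J R l, D :=
            norm_sum_le_of_le _ fun p _ => (hw p.1 p.2).lip s s' hs hs'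
        _ = ((PP J R l).card : ℝ) * D := by rw [sum_const, nsmul_eq_mul]
        _ ≤ B * D := mul_le_mul_of_nonneg_right hc hD0
    calc B⁻¹ * ‖∑ p ∈ PP J R l, (w p.1 p.2 s - w p.1 p.2 s')‖ ≤ B⁻¹ * (B * D) :=
          mul_le_mul_of_nonneg_left h1 (by positivity)
      _ = D := by rw [← mul_assoc, inv_mul_cancel₀ hB.ne', one_mul]

theorem FF_psi (w : ℕ → ℕ → ℝ → ℂ) (J R : ℕ) (B : ℝ) (s : ℤ) (m n : ℕ) :
    KF.FF (psi w J R B) s (J * R) n m = ((B⁻¹ : ℝ) : ℂ) *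
      ∑ j ∈ Icc 1 J, ∑ r ∈ Icc 1 R, w j r ((m : ℝ) * n) * KF.kf (s * ((j : ℤ) * r)) m n := by
  unfold KF.FF psi
  have h1 : ∀ l ∈ Icc 1 (J * R), ((B⁻¹ : ℝ) : ℂ) * (∑ p ∈ PP J R l, w p.1 p.2 ((m : ℝ) * n)) *
      KF.kf ((l : ℤ) * s) m n = ((B⁻¹ : ℝ) : ℂ) * ∑ p ∈ (Icc 1 J ×ˢ Icc 1 R) with p.1 * p.2 = l,
        w p.1 p.2 ((m : ℝ) * n) * KF.kf (s * ((p.1 : ℤ) * p.2)) m n := by
    intro l _
    rw [mul_assoc, sum_mul]
    congr 1
    apply sum_congr rfl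
    intro p hp
    have hp' := (mem_filter.mp hp).2
    congr 2
    rw [← hp']
    push_cast
    ring
  rw [sum_congr rfl h1, ← mul_sum]
  congr 1
  rw [sum_fiberwise_of_maps_to (g := fun p : ℕ × ℕ => p.1 * p.2)]
  · rw [sum_product]
  · intro p hp
    rw [mem_product, mem_Icc, mem_Icc] at hp
    rw [mem_Icc]
    exact ⟨Nat.mul_pos hp.1.1 hp.2.1, Nat.mul_le_mul hp.1.2 hp.2.2⟩

theorem sum_CP (M : ℕ) (f : ℕ → ℕ → ℂ) : ∑ p ∈ CP M, f p.1 p.2 =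
    ∑ m ∈ Ioc M (2 * M + 1), ∑ n ∈ (Ioc M (2 * M + 1)).filter (fun n => Nat.Coprime m n), f m n := by
  unfold CP
  rw [sum_filter, sum_product]
  apply sum_congr rfl
  intro m _
  rw [sum_filter]

end TaskTI

open TaskTI in
theorem tri_app (δ : ℝ) (hδ : 0 < δ) : ∃ C : ℝ, 0 < C ∧ ∀ (M J R : ℕ), 1 ≤ M →
    ((J * R : ℕ) : ℝ) ≤ (M : ℝ) ^ (1 / 14 - δ) → ∀ V : ℝ, 1 ≤ V →
    ∀ w : ℕ → ℕ → ℝ → ℂ, (∀ j r, KF.Wei M V (w j r)) → ∀ s : ℤ, (s = 1 ∨ s = -1) →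
    ∀ α β : ℕ → ℂ, (∀ m, ‖α m‖ ≤ 1) → (∀ n, ‖β n‖ ≤ 1) →
    ‖∑ p ∈ CP M, α p.1 * β p.2 * ∑ j ∈ Icc 1 J, ∑ r ∈ Icc 1 R,
      w j r ((p.1 : ℝ) * p.2) * KF.kf (s * ((j : ℤ) * r)) p.1 p.2‖ ≤ C * V ^ 2 * (M : ℝ) ^ 2 := by
  obtain ⟨η, C1, hη, hC1, htri⟩ := KF.tri δ hδ
  obtain ⟨C2, hC2, hdiv⟩ := H353.divisor_bound_real η hη
  refine ⟨C2 * C1, by positivity, ?_⟩
  intro M J R hM hJR V hV w hw s hs α β hα hβ
  have hM1 : (1 : ℝ) ≤ M := by exact_mod_cast hM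
  have hM0 : (0 : ℝ) < M := by linarith
  rcases Nat.eq_zero_or_pos (J * R) with h0 | hpos
  · have hz : ∀ p : ℕ × ℕ, ∑ j ∈ Icc 1 J, ∑ r ∈ Icc 1 R,
        w j r ((p.1 : ℝ) * p.2) * KF.kf (s * ((j : ℤ) * r)) p.1 p.2 = 0 := by
      intro p
      rcases Nat.mul_eq_zero.mp h0 with h | h
      · subst h; simp
      · subst h; simp
    simp only [hz, mul_zero, sum_const_zero, norm_zero]
    positivity
  · have hJR1 : ((J * R : ℕ) : ℝ) ≤ M := by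
      refine hJR.trans ?_
      calc (M : ℝ) ^ (1 / 14 - δ) ≤ (M : ℝ) ^ (1 : ℝ) :=
            Real.rpow_le_rpow_of_exponent_le hM1 (by linarith)
        _ = M := Real.rpow_one _
    set B : ℝ := C2 * (M : ℝ) ^ η with hB
    have hB0 : 0 < B := by positivity
    have hcard : ∀ l, ((PP J R l).card : ℝ) ≤ B := by
      intro l
      rcases Nat.eq_zero_or_pos (PP J R l).card with h | h
      · rw [h]; simpa using hB0.le
      · obtain ⟨p, hp⟩ := card_pos.mp h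
        have hp' := mem_filter.mp hp
        rw [mem_product, mem_Icc, mem_Icc] at hp'
        have hl0 : l ≠ 0 := by
          rw [← hp'.2]; exact Nat.mul_ne_zero (by omega) (by omega)
        have hl : (l : ℝ) ≤ M := by
          refine le_trans ?_ hJR1
          have : l ≤ J * R := by
            rw [← hp'.2]; exact Nat.mul_le_mul hp'.1.1.2 hp'.1.2.2
          exact_mod_cast this
        calc ((PP J R l).card : ℝ) ≤ (l.divisors.card : ℝ) := by exact_mod_cast card_PP J R l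
          _ ≤ C2 * (l : ℝ) ^ η := hdiv l hl0
          _ ≤ B := by
            apply mul_le_mul_of_nonneg_left _ hC2.le
            exact Real.rpow_le_rpow (Nat.cast_nonneg _) hl hη.le
    have hs0 : s ≠ 0 := by rcases hs with h | h <;> rw [h] <;> norm_num
    have hsabs : |(s : ℝ)| = 1 := by
      rcases hs with h | h <;> rw [h] <;> norm_num
    have hk : |(s : ℝ)| * ((J * R : ℕ) : ℝ) ≤ V * (M : ℝ) ^ 2 := by
      rw [hsabs, one_mul]
      refine hJR1.trans ?_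
      have : (M : ℝ) ≤ (M : ℝ) ^ 2 := by nlinarith
      nlinarith [sq_nonneg (M : ℝ)]
    have hmain := htri M (J * R) hM hpos hJR V hV (psi w J R B)
      (fun l => wei_psi hV hw hB0 (hcard l)) s hs0 hk α β hα hβ
    have hB' : (B : ℂ) ≠ 0 := by exact_mod_cast hB0.ne'
    have hident : ∑ p ∈ CP M, α p.1 * β p.2 * ∑ j ∈ Icc 1 J, ∑ r ∈ Icc 1 R,
        w j r ((p.1 : ℝ) * p.2) * KF.kf (s * ((j : ℤ) * r)) p.1 p.2 =
        (B : ℂ) * ∑ m ∈ Ioc M (2 * M + 1),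
          ∑ n ∈ (Ioc M (2 * M + 1)).filter (fun n => Nat.Coprime m n),
            α m * β n * KF.FF (psi w J R B) s (J * R) n m := by
      rw [sum_CP M (fun m n => α m * β n * ∑ j ∈ Icc 1 J, ∑ r ∈ Icc 1 R,
        w j r ((m : ℝ) * n) * KF.kf (s * ((j : ℤ) * r)) m n), mul_sum]
      apply sum_congr rfl
      intro m _
      rw [mul_sum]
      apply sum_congr rfl
      intro n _
      rw [FF_psi]
      push_cast
      field_simp
    rw [hident, norm_mul, Complex.norm_real, Real.norm_of_nonneg hB0.le]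
    calc B * _ ≤ B * (C1 * V ^ 2 * (M : ℝ) ^ (2 - η)) := mul_le_mul_of_nonneg_left hmain hB0.le
      _ = C2 * C1 * V ^ 2 * ((M : ℝ) ^ η * (M : ℝ) ^ (2 - η)) := by rw [hB]; ring
      _ = C2 * C1 * V ^ 2 * (M : ℝ) ^ 2 := by
        rw [← Real.rpow_add hM0]
        congr 1
        rw [show η + (2 - η) = ((2 : ℕ) : ℝ) by push_cast; ring, Real.rpow_natCast]

end Pool.Agent.H442R2.TSM
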