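import Pool.Agent.H442R2.TSM.Bnd
import Pool.Agent.H442R2.TSM.TriApp

/-! TSM project, task TJ: low frequencies. -/

namespace Pool.Agent.H442R2.TSM

open Finset MeasureTheory

namespace TaskJ

lemma nz_sum (R : ℕ) (G : ℤ → ℂ) :
    ∑ r ∈ nz R, G r = ∑ i ∈ Icc 1 R, (G ((1 : ℤ) * (i : ℤ)) + G ((-1 : ℤ) * (i : ℤ))) := by
  have h1 : nz R = (Icc 1 R).image (fun i : ℕ => ((1 : ℤ) * (i : ℤ))) ∪
      (Icc 1 R).image (fun i : ℕ => ((-1 : ℤ) * (i : ℤ))) := by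
    ext x
    simp only [nz, mem_erase, mem_Icc, mem_union, mem_image, one_mul]
    constructor
    · rintro ⟨h0, h1, h2⟩
      rcases lt_or_gt_of_ne h0 with h | h
      · right
        exact ⟨(-x).toNat, by omega, by omega⟩
      · left
        exact ⟨x.toNat, by omega, by omega⟩
    · rintro (⟨i, h1, h2⟩ | ⟨i, h1, h2⟩)
      · omega
      · omega
  have h2 : Disjoint ((Icc 1 R).image (fun i : ℕ => ((1 : ℤ) * (i : ℤ))))
      ((Icc 1 R).image (fun i : ℕ => ((-1 : ℤ) * (i : ℤ)))) := by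
    rw [Finset.disjoint_left]
    intro x hx hy
    rw [mem_image] at hx hy
    obtain ⟨i, hi, rfl⟩ := hx
    obtain ⟨j, hj, h⟩ := hy
    rw [mem_Icc] at hi hj
    omega
  rw [h1, Finset.sum_union h2, Finset.sum_image, Finset.sum_image, Finset.sum_add_distrib]
  · intro a _ b _ h
    simp only at h
    omega
  · intro a _ b _ h
    simp only at h
    omega

/-- the weights -/
noncomputable def W (t₀ D Q : ℝ) (m g J : ℕ) (σ₁ σ₂ : ℤ) (j r : ℕ) (s : ℝ) : ℂ :=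
  if j ≤ J then (((m : ℝ) ^ 2 / s * (2 * D)⁻¹ : ℝ) : ℂ) *
    Fh (gr t₀ D Q ((g : ℝ) * ((σ₁ : ℝ) * r))) (((σ₂ : ℝ) * j) / ((g : ℝ) * s)) else 0

lemma W_wei (t₀ D Q : ℝ) (hD : 0 < D) (hQ : 0 < Q) (m g J : ℕ) (hm : 1 ≤ m) (hg : 1 ≤ g)
    (σ₁ σ₂ : ℤ) (hσ : |(σ₂ : ℝ)| = 1) (V : ℝ) (hV : 1 + 10 * Q * J / (g * m ^ 2) ≤ V) (j r : ℕ) :
    KF.Wei m V (W t₀ D Q m g J σ₁ σ₂ j r) := by
  have hm0 : (0 : ℝ) < m := by exact_mod_cast hm
  have hg0 : (0 : ℝ) < g := by exact_mod_cast hg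
  have hV0 : 0 ≤ V := le_trans (by positivity) hV
  set G := Fh (gr t₀ D Q ((g : ℝ) * ((σ₁ : ℝ) * r))) with hG
  have hGb : ∀ w, ‖G w‖ ≤ 2 * D := fun w => gr_bd0 t₀ D Q _ w hD hQ
  have hGl : ∀ w w', ‖G w - G w'‖ ≤ 20 * D * Q * |w - w'| := fun w w' => gr_lip t₀ D Q _ w w' hD hQ
  constructor
  · intro s hs
    have hs0 : 0 < s := lt_of_lt_of_le (by positivity) hs
    unfold W
    split_ifs
    · rw [norm_mul, Complex.norm_real, Real.norm_eq_abs, abs_of_nonneg (by positivity)]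
      calc (m : ℝ) ^ 2 / s * (2 * D)⁻¹ * ‖G (((σ₂ : ℝ) * j) / ((g : ℝ) * s))‖
          ≤ (m : ℝ) ^ 2 / s * (2 * D)⁻¹ * (2 * D) := mul_le_mul_of_nonneg_left (hGb _) (by positivity)
        _ = (m : ℝ) ^ 2 / s := by field_simp
        _ ≤ 1 := by rw [div_le_one hs0]; exact hs
    · rw [norm_zero]
      exact zero_le_one
  · intro s s' hs hs'
    have hm2 : (0 : ℝ) < (m : ℝ) ^ 2 := by positivity
    have hs0 : 0 < s := lt_of_lt_of_le hm2 hs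
    have hs0' : 0 < s' := lt_of_lt_of_le hm2 hs'
    unfold W
    split_ifs with hj
    · have hjJ : (j : ℝ) ≤ J := by exact_mod_cast hj
      set x := ((σ₂ : ℝ) * j) / ((g : ℝ) * s) with hx
      set x' := ((σ₂ : ℝ) * j) / ((g : ℝ) * s') with hx'
      have e1 : (((m : ℝ) ^ 2 / s * (2 * D)⁻¹ : ℝ) : ℂ) * G x -
          (((m : ℝ) ^ 2 / s' * (2 * D)⁻¹ : ℝ) : ℂ) * G x' =
          (((m : ℝ) ^ 2 / s - (m : ℝ) ^ 2 / s' : ℝ) : ℂ) * (((2 * D)⁻¹ : ℝ) : ℂ) * G x +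
          (((m : ℝ) ^ 2 / s' * (2 * D)⁻¹ : ℝ) : ℂ) * (G x - G x') := by
        push_cast
        ring
      rw [e1]
      refine (norm_add_le _ _).trans ?_
      have hss : (m : ℝ) ^ 2 * (m : ℝ) ^ 2 ≤ s * s' := mul_le_mul hs hs' hm2.le hs0.le
      have h1 : ‖(((m : ℝ) ^ 2 / s - (m : ℝ) ^ 2 / s' : ℝ) : ℂ) * (((2 * D)⁻¹ : ℝ) : ℂ) * G x‖ ≤
          |s - s'| / (m : ℝ) ^ 2 := by
        rw [norm_mul, norm_mul, Complex.norm_real, Complex.norm_real, Real.norm_eq_abs,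
          Real.norm_eq_abs, abs_of_nonneg (by positivity : (0 : ℝ) ≤ (2 * D)⁻¹)]
        have h2 : |(m : ℝ) ^ 2 / s - (m : ℝ) ^ 2 / s'| ≤ |s - s'| / (m : ℝ) ^ 2 := by
          have h3 : (m : ℝ) ^ 2 / s - (m : ℝ) ^ 2 / s' = (m : ℝ) ^ 2 * (s' - s) / (s * s') := by
            field_simp
          rw [h3, abs_div, abs_mul, abs_of_pos hm2, abs_of_pos (mul_pos hs0 hs0'), abs_sub_comm s' s,
            div_le_div_iff₀ (mul_pos hs0 hs0') hm2]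
          nlinarith [abs_nonneg (s - s'), mul_le_mul_of_nonneg_left hss (abs_nonneg (s - s'))]
        calc |(m : ℝ) ^ 2 / s - (m : ℝ) ^ 2 / s'| * (2 * D)⁻¹ * ‖G x‖
            ≤ |s - s'| / (m : ℝ) ^ 2 * (2 * D)⁻¹ * (2 * D) :=
              mul_le_mul (mul_le_mul_of_nonneg_right h2 (by positivity)) (hGb x) (norm_nonneg _)
                (by positivity)
          _ = _ := by field_simp
      have h4 : ‖(((m : ℝ) ^ 2 / s' * (2 * D)⁻¹ : ℝ) : ℂ) * (G x - G x')‖ ≤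
          (10 * Q * J / (g * m ^ 2)) * |s - s'| / (m : ℝ) ^ 2 := by
        rw [norm_mul, Complex.norm_real, Real.norm_eq_abs, abs_of_nonneg (by positivity)]
        have h5 : |x - x'| ≤ (J : ℝ) / g * (|s - s'| / ((m : ℝ) ^ 2 * (m : ℝ) ^ 2)) := by
          have h6 : x - x' = (σ₂ : ℝ) * ((j : ℝ) / g * ((s' - s) / (s * s'))) := by
            rw [hx, hx']
            field_simp
          rw [h6, abs_mul, hσ, one_mul, abs_mul, abs_of_nonneg (by positivity : (0 : ℝ) ≤ (j : ℝ) / g),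
            abs_div, abs_of_pos (mul_pos hs0 hs0'), abs_sub_comm s' s]
          gcongr
        have h7 : (m : ℝ) ^ 2 / s' ≤ 1 := by rw [div_le_one hs0']; exact hs'
        calc (m : ℝ) ^ 2 / s' * (2 * D)⁻¹ * ‖G x - G x'‖
            ≤ 1 * (2 * D)⁻¹ * (20 * D * Q * ((J : ℝ) / g * (|s - s'| / ((m : ℝ) ^ 2 * (m : ℝ) ^ 2)))) := by
              refine mul_le_mul (mul_le_mul_of_nonneg_right h7 (by positivity)) ((hGl x x').trans ?_)
                (norm_nonneg _) (by positivity)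
              exact mul_le_mul_of_nonneg_left h5 (by positivity)
          _ = _ := by field_simp; ring
      calc _ ≤ |s - s'| / (m : ℝ) ^ 2 + (10 * Q * J / (g * m ^ 2)) * |s - s'| / (m : ℝ) ^ 2 :=
            add_le_add h1 h4
        _ = (1 + 10 * Q * J / (g * m ^ 2)) * |s - s'| / (m : ℝ) ^ 2 := by ring
        _ ≤ V * |s - s'| / (m : ℝ) ^ 2 := by gcongr
    · rw [sub_zero, norm_zero]
      positivity

lemma len_bd (θ d η T Q : ℝ) (hθ0 : 0 < θ) (hη : η = 1 - 27 * θ / 14) (hη0 : 0 < η) (hd : d ≤ η / 10)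
    (hT : 1 ≤ T) (hQ : 0 < Q) (m g : ℕ) (hm : 1 ≤ m) (hg : 1 ≤ g)
    (hmT : (m : ℝ) ≤ T ^ θ) (J R : ℕ) (hJ : (J : ℝ) ≤ g * m ^ 2 * T ^ (3 * d) / Q)
    (hR : (R : ℝ) ≤ Q * T ^ (2 * d - 1) / g) :
    ((J * R : ℕ) : ℝ) ≤ (m : ℝ) ^ (1 / 14 - η / 2) := by
  have hT0 : 0 < T := by linarith
  have hm1 : (1 : ℝ) ≤ m := by exact_mod_cast hm
  have hm0 : (0 : ℝ) < m := by linarith
  have hg0 : (0 : ℝ) < g := by exact_mod_cast hg
  push_cast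
  calc (J : ℝ) * R ≤ (g * m ^ 2 * T ^ (3 * d) / Q) * (Q * T ^ (2 * d - 1) / g) :=
        mul_le_mul hJ hR (Nat.cast_nonneg _) (by positivity)
    _ = (m : ℝ) ^ 2 * (T ^ (3 * d) * T ^ (2 * d - 1)) := by field_simp
    _ = (m : ℝ) ^ 2 * T ^ (5 * d - 1) := by
        rw [← Real.rpow_add hT0]
        congr 2
        ring
    _ = (m : ℝ) ^ (1 / 14 - η / 2) * ((m : ℝ) ^ (27 / 14 + η / 2) * T ^ (5 * d - 1)) := by
        rw [← mul_assoc, ← Real.rpow_add hm0]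
        congr 1
        rw [← Real.rpow_natCast]
        congr 1
        push_cast
        ring
    _ ≤ (m : ℝ) ^ (1 / 14 - η / 2) * 1 := by
        refine mul_le_mul_of_nonneg_left ?_ (by positivity)
        have h1 : (m : ℝ) ^ (27 / 14 + η / 2) ≤ T ^ (1 - 5 * d) := by
          calc (m : ℝ) ^ (27 / 14 + η / 2) ≤ (T ^ θ) ^ (27 / 14 + η / 2) :=
                Real.rpow_le_rpow hm0.le hmT (by positivity)
            _ = T ^ (θ * (27 / 14 + η / 2)) := by rw [← Real.rpow_mul hT0.le]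
            _ ≤ T ^ (1 - 5 * d) := by
                apply Real.rpow_le_rpow_of_exponent_le hT
                nlinarith
        calc (m : ℝ) ^ (27 / 14 + η / 2) * T ^ (5 * d - 1) ≤ T ^ (1 - 5 * d) * T ^ (5 * d - 1) :=
              mul_le_mul_of_nonneg_right h1 (by positivity)
          _ = 1 := by
              rw [← Real.rpow_add hT0]
              have : 1 - 5 * d + (5 * d - 1) = 0 := by ring
              rw [this, Real.rpow_zero]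
    _ = _ := mul_one _

end TaskJ

theorem mid_low (θ : ℝ) (hθ0 : 0 < θ) (hθ : θ < 14 / 27) : ∃ d0 : ℝ, 0 < d0 ∧ ∀ d : ℝ, 0 < d →
    d ≤ d0 → ∃ C T₁ : ℝ, 0 < C ∧ 1 ≤ T₁ ∧
    ∀ T : ℝ, T₁ ≤ T → ∀ t₀ ∈ Set.Icc T (2 * T), ∀ Q ∈ Set.Icc T (2 * T ^ 2),
    ∀ m g : ℕ, 1 ≤ m → 1 ≤ g → (m : ℝ) ≤ T ^ θ →
    ∀ α β : ℕ → ℂ, (∀ n, ‖α n‖ ≤ 1) → (∀ n, ‖β n‖ ≤ 1) →
    ‖∑ p ∈ CP m, α p.1 * β p.2 * ∑ r ∈ nz (⌊Q * T ^ (2 * d - 1)⌋₊ / g),
      ((1 / ((g : ℝ) * p.1 * p.2) : ℝ) : ℂ) * ∑ j ∈ nz ⌊(g : ℝ) * m ^ 2 * T ^ (3 * d) / Q⌋₊,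
        Fh (gr t₀ (T ^ (1 - d)) Q ((g : ℝ) * r)) ((j : ℝ) / ((g : ℝ) * p.1 * p.2)) *
          KF.kf (j * r) p.1 p.2‖ ≤ C * T ^ (1 + 6 * d) / g := by
  set η := 1 - 27 * θ / 14 with hη
  have hη0 : 0 < η := by rw [hη]; linarith
  refine ⟨η / 10, by positivity, ?_⟩
  intro d hd hd0
  obtain ⟨C0, hC0, hC⟩ := tri_app (η / 2) (by positivity)
  refine ⟨8 * 121 * C0, 1, by positivity, le_rfl, ?_⟩
  intro T hT t₀ _ Q hQ m g hm hg hmT α β hα hβ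
  have hT0 : 0 < T := by linarith
  have hQ0 : 0 < Q := lt_of_lt_of_le hT0 hQ.1
  have hm1 : (1 : ℝ) ≤ m := by exact_mod_cast hm
  have hm0 : (0 : ℝ) < m := by linarith
  have hg0 : (0 : ℝ) < g := by exact_mod_cast hg
  set D := T ^ (1 - d) with hDdef
  have hD : 0 < D := by positivity
  set R := ⌊Q * T ^ (2 * d - 1)⌋₊ / g with hRdef
  set J := ⌊(g : ℝ) * m ^ 2 * T ^ (3 * d) / Q⌋₊ with hJdef
  have hJ : (J : ℝ) ≤ g * m ^ 2 * T ^ (3 * d) / Q := Nat.floor_le (by positivity)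
  have hR : (R : ℝ) ≤ Q * T ^ (2 * d - 1) / g := by
    refine (Nat.cast_div_le).trans ?_
    gcongr
    exact Nat.floor_le (by positivity)
  have hJR := TaskJ.len_bd θ d η T Q hθ0 hη hη0 hd0 hT hQ0 m g hm hg hmT J R hJ hR
  set V := 11 * T ^ (3 * d) with hV
  have hT3 : 1 ≤ T ^ (3 * d) := Real.one_le_rpow hT (by positivity)
  have hV1 : 1 + 10 * Q * J / (g * m ^ 2) ≤ V := by
    have h1 : 10 * Q * J / (g * m ^ 2) ≤ 10 * T ^ (3 * d) := by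
      rw [div_le_iff₀ (by positivity)]
      calc 10 * Q * J ≤ 10 * Q * (g * m ^ 2 * T ^ (3 * d) / Q) := by gcongr
        _ = _ := by field_simp
    rw [hV]
    linarith
  have hV0 : 1 ≤ V := by rw [hV]; linarith
  -- the four pieces
  set F : ℕ × ℕ → ℤ → ℤ → ℂ := fun p r j =>
    Fh (gr t₀ D Q ((g : ℝ) * r)) ((j : ℝ) / ((g : ℝ) * p.1 * p.2)) * KF.kf (j * r) p.1 p.2 with hF
  set S' : ℤ → ℤ → ℂ := fun σ₁ σ₂ => ∑ p ∈ CP m, α p.1 * β p.2 * ∑ i ∈ Icc 1 R,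
    ((1 / ((g : ℝ) * p.1 * p.2) : ℝ) : ℂ) * ∑ l ∈ Icc 1 J, F p (σ₁ * (i : ℤ)) (σ₂ * (l : ℤ)) with hS'
  have hsum : ∑ p ∈ CP m, α p.1 * β p.2 * ∑ r ∈ nz R, ((1 / ((g : ℝ) * p.1 * p.2) : ℝ) : ℂ) *
      ∑ j ∈ nz J, F p r j = S' 1 1 + S' 1 (-1) + S' (-1) 1 + S' (-1) (-1) := by
    simp only [hS', ← Finset.sum_add_distrib]
    refine Finset.sum_congr rfl fun p _ => ?_
    rw [TaskJ.nz_sum R]
    simp only [← mul_add, ← Finset.sum_add_distrib]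
    congr 1
    refine Finset.sum_congr rfl fun i _ => ?_
    rw [TaskJ.nz_sum J]
    congr 1
    refine Finset.sum_congr rfl fun l _ => ?_
    ring
  have hbd : ∀ σ₁ σ₂ : ℤ, (σ₁ = 1 ∨ σ₁ = -1) → (σ₂ = 1 ∨ σ₂ = -1) →
      ‖S' σ₁ σ₂‖ ≤ 2 * D / (g * m ^ 2) * (C0 * V ^ 2 * (m : ℝ) ^ 2) := by
    intro σ₁ σ₂ h1 h2
    have h3 : σ₁ * σ₂ = 1 ∨ σ₁ * σ₂ = -1 := by
      rcases h1 with rfl | rfl <;> rcases h2 with rfl | rfl <;> simp
    have h4 : |(σ₂ : ℝ)| = 1 := by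
      rcases h2 with rfl | rfl <;> simp
    have h5 := hC m J R hm hJR V hV0 (TaskJ.W t₀ D Q m g J σ₁ σ₂)
      (fun j r => TaskJ.W_wei t₀ D Q hD hQ0 m g J hm hg σ₁ σ₂ h4 V hV1 j r) (σ₁ * σ₂) h3 α β hα hβ
    have h6 : S' σ₁ σ₂ = ((2 * D / (g * m ^ 2) : ℝ) : ℂ) * ∑ p ∈ CP m, α p.1 * β p.2 *
        ∑ j ∈ Icc 1 J, ∑ r ∈ Icc 1 R, TaskJ.W t₀ D Q m g J σ₁ σ₂ j r ((p.1 : ℝ) * p.2) *
          KF.kf (σ₁ * σ₂ * ((j : ℤ) * r)) p.1 p.2 := by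
      simp only [hS']
      rw [Finset.mul_sum]
      refine Finset.sum_congr rfl fun p hp => ?_
      rw [Finset.sum_comm (s := Icc 1 J)]
      rw [mul_left_comm]
      congr 1
      rw [Finset.mul_sum]
      refine Finset.sum_congr rfl fun i _ => ?_
      rw [Finset.mul_sum, Finset.mul_sum]
      refine Finset.sum_congr rfl fun l hl => ?_
      simp only [CP, mem_filter, mem_product, mem_Ioc] at hp
      have hp1 : (0 : ℝ) < p.1 := by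
        have := hp.1.1.1
        exact_mod_cast (by omega : 0 < p.1)
      have hp2 : (0 : ℝ) < p.2 := by
        have := hp.1.2.1
        exact_mod_cast (by omega : 0 < p.2)
      have hl2 : l ≤ J := (mem_Icc.1 hl).2
      simp only [hF, TaskJ.W, if_pos hl2]
      have e1 : (σ₂ * (l : ℤ)) * (σ₁ * (i : ℤ)) = σ₁ * σ₂ * ((l : ℤ) * i) := by ring
      rw [e1]
      push_cast
      have e2 : (g : ℝ) * p.1 * p.2 = (g : ℝ) * ((p.1 : ℝ) * p.2) := by ring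
      rw [e2]
      have hc1 : (p.1 : ℂ) ≠ 0 := by exact_mod_cast hp1.ne'
      have hc2 : (p.2 : ℂ) ≠ 0 := by exact_mod_cast hp2.ne'
      have hc3 : (g : ℂ) ≠ 0 := by exact_mod_cast hg0.ne'
      have hc4 : (m : ℂ) ≠ 0 := by exact_mod_cast hm0.ne'
      have hc5 : (D : ℂ) ≠ 0 := by exact_mod_cast hD.ne'
      field_simp
    rw [h6, norm_mul, Complex.norm_real, Real.norm_eq_abs, abs_of_nonneg (by positivity)]
    exact mul_le_mul_of_nonneg_left h5 (by positivity)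
  rw [hsum]
  have hfin : ‖S' 1 1 + S' 1 (-1) + S' (-1) 1 + S' (-1) (-1)‖ ≤
      4 * (2 * D / (g * m ^ 2) * (C0 * V ^ 2 * (m : ℝ) ^ 2)) := by
    refine (norm_add_le _ _).trans ?_
    have a1 := hbd 1 1 (Or.inl rfl) (Or.inl rfl)
    have a2 := hbd 1 (-1) (Or.inl rfl) (Or.inr rfl)
    have a3 := hbd (-1) 1 (Or.inr rfl) (Or.inl rfl)
    have a4 := hbd (-1) (-1) (Or.inr rfl) (Or.inr rfl)
    have a5 := norm_add_le (S' 1 1 + S' 1 (-1)) (S' (-1) 1)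
    have a6 := norm_add_le (S' 1 1) (S' 1 (-1))
    linarith
  refine hfin.trans ?_
  have e3 : 4 * (2 * D / (g * m ^ 2) * (C0 * V ^ 2 * (m : ℝ) ^ 2)) =
      8 * 121 * C0 * (T ^ (1 - d) * (T ^ (3 * d)) ^ 2) / g := by
    rw [hV]
    field_simp
    ring
  rw [e3]
  have e4 : T ^ (1 - d) * (T ^ (3 * d)) ^ 2 ≤ T ^ (1 + 6 * d) := by
    rw [← Real.rpow_natCast, ← Real.rpow_mul hT0.le, ← Real.rpow_add hT0]
    apply Real.rpow_le_rpow_of_exponent_le hT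
    push_cast
    linarith
  gcongr

end Pool.Agent.H442R2.TSM
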