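import Pool.Agent.H442R2.TSM.Bnd

/-! TK: high frequencies (helper228). -/

namespace Pool.Agent.H442R2.TSM

open Finset MeasureTheory

namespace TaskK

/-- `∑ 1/j²` -/
noncomputable def S0 : ℝ := ∑' j : ℤ, 1 / (j : ℝ) ^ 2

theorem summ : Summable (fun j : ℤ => 1 / (j : ℝ) ^ 2) :=
  Real.summable_one_div_int_pow.2 one_lt_two

theorem S0_nonneg : 0 ≤ S0 := tsum_nonneg fun j => by positivity

theorem sum_bd (f : ℤ → ℝ) (K : ℝ) (h0 : f 0 = 0) (hf : ∀ j, 0 ≤ f j)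
    (h : ∀ j : ℤ, j ≠ 0 → f j ≤ K * (1 / (j : ℝ) ^ 2)) : Summable f ∧ ∑' j, f j ≤ K * S0 := by
  have h1 : ∀ j, f j ≤ K * (1 / (j : ℝ) ^ 2) := by
    intro j
    by_cases hj : j = 0
    · subst hj
      rw [h0]
      simp
    · exact h j hj
  have h2 : Summable f := Summable.of_nonneg_of_le hf h1 (summ.mul_left K)
  refine ⟨h2, ?_⟩
  unfold S0
  rw [← tsum_mul_left]
  exact h2.tsum_le_tsum h1 (summ.mul_left K)

theorem summ_of (f : ℤ → ℝ) (K : ℝ) (hf : ∀ j, 0 ≤ f j)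
    (h : ∀ j : ℤ, j ≠ 0 → f j ≤ K * (1 / (j : ℝ) ^ 2)) : Summable f := by
  have h1 : Summable (fun j : ℤ => if j = 0 then f 0 else 0) :=
    (hasSum_ite_eq (0 : ℤ) (f 0)).summable
  have h2 := (sum_bd (fun j => if j = 0 then 0 else f j) K (by simp)
    (fun j => by split_ifs; exacts [le_rfl, hf j])
    (fun j hj => by simp only [if_neg hj]; exact h j hj)).1
  refine (h1.add h2).congr fun j => ?_
  by_cases hj : j = 0
  · subst hj; simp
  · simp [hj]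

end TaskK

open TaskK

theorem tail_high (d : ℝ) (hd : 0 < d) (hd1 : d ≤ 1 / 100) : ∃ C : ℝ, 0 < C ∧
    ∀ T : ℝ, 1 ≤ T → ∀ t₀ ∈ Set.Icc T (2 * T), ∀ Q ∈ Set.Icc T (2 * T ^ 2),
    ∀ m g : ℕ, 1 ≤ m → 1 ≤ g → (g : ℝ) ≤ 2 * T → (m : ℝ) ≤ T →
    ∀ h ∈ Ioc m (2 * m + 1), ∀ k ∈ Ioc m (2 * m + 1), ∀ r : ℤ,
    |(g : ℝ) * r| ≤ Q * T ^ (2 * d - 1) →
    Summable (fun j : ℤ => ‖Fh (gr t₀ (T ^ (1 - d)) Q ((g : ℝ) * r)) ((j : ℝ) / ((g : ℝ) * h * k))‖) ∧
    ∑' j : ℤ, (if j ∈ Icc (-(⌊(g : ℝ) * m ^ 2 * T ^ (3 * d) / Q⌋₊ : ℤ))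
        ⌊(g : ℝ) * m ^ 2 * T ^ (3 * d) / Q⌋₊ then 0 else
      ‖Fh (gr t₀ (T ^ (1 - d)) Q ((g : ℝ) * r)) ((j : ℝ) / ((g : ℝ) * h * k))‖) ≤ C / T ^ 10 := by
  obtain ⟨C2, hC2, hb2⟩ := gr_bd 2
  set A : ℕ := ⌈20 / d⌉₊ + 2 with hA
  obtain ⟨CA, hCA, hbA⟩ := gr_bd A
  have hdA : 20 ≤ d * A := by
    have h1 : 20 / d ≤ (A : ℝ) := by
      rw [hA]
      push_cast
      have := Nat.le_ceil (20 / d)
      linarith
    rw [div_le_iff₀ hd] at h1
    linarith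
  refine ⟨CA * 9 ^ A * 4 * (S0 + 1), by have := S0_nonneg; positivity, ?_⟩
  intro T hT t₀ ht₀ Q hQ m g hm hg hgT hmT h hh k hk r hr
  have hT0 : 0 < T := by linarith
  have hQ1 : 1 ≤ Q := hT.trans hQ.1
  have hQ0 : 0 < Q := by linarith
  have hg0 : (0 : ℝ) < g := by exact_mod_cast hg
  have hm1 : (1 : ℝ) ≤ m := by exact_mod_cast hm
  have hh' := Finset.mem_Ioc.1 hh
  have hk' := Finset.mem_Ioc.1 hk
  have hh1 : (1 : ℝ) ≤ h := by exact_mod_cast (by omega : 1 ≤ h)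
  have hk1 : (1 : ℝ) ≤ k := by exact_mod_cast (by omega : 1 ≤ k)
  have hh3 : (h : ℝ) ≤ 3 * m := by exact_mod_cast (by omega : h ≤ 3 * m)
  have hk3 : (k : ℝ) ≤ 3 * m := by exact_mod_cast (by omega : k ≤ 3 * m)
  have hw : ∀ j : ℤ, j ≠ 0 → (j : ℝ) / ((g : ℝ) * h * k) ≠ 0 := by
    intro j hj
    have : (j : ℝ) ≠ 0 := by exact_mod_cast hj
    positivity
  have hwabs : ∀ j : ℤ, T ^ (2 * d) / (Q * |(j : ℝ) / ((g : ℝ) * h * k)|) =
      T ^ (2 * d) * (g * h * k) / Q / |(j : ℝ)| := by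
    intro j
    rw [abs_div, abs_of_pos (show (0 : ℝ) < (g : ℝ) * h * k by positivity)]
    rcases eq_or_ne (j : ℝ) 0 with hj | hj
    · rw [hj]; simp
    · have : |(j : ℝ)| ≠ 0 := abs_ne_zero.2 hj
      field_simp
  constructor
  · refine summ_of _ (C2 * T ^ (1 - d) * (T ^ (2 * d) * (g * h * k) / Q) ^ 2)
      (fun j => norm_nonneg _) fun j hj => ?_
    refine (hb2 d T hd hd1 hT t₀ ht₀ Q hQ1 _ hr _ (hw j hj)).trans (le_of_eq ?_)
    rw [hwabs, div_pow _ |(j : ℝ)|, sq_abs]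
    ring
  · set x : ℝ := (g : ℝ) * m ^ 2 * T ^ (3 * d) / Q with hx
    have hx0 : 0 < x := by positivity
    have hxle : x ≤ 2 * T ^ 3 := by
      rw [hx, div_le_iff₀ hQ0]
      have h1 : T ^ (3 * d) ≤ T := by
        calc T ^ (3 * d) ≤ T ^ (1 : ℝ) := Real.rpow_le_rpow_of_exponent_le hT (by linarith)
          _ = T := Real.rpow_one T
      have h2 : (m : ℝ) ^ 2 ≤ T ^ 2 := pow_le_pow_left₀ (by positivity) hmT 2
      calc (g : ℝ) * m ^ 2 * T ^ (3 * d) ≤ (2 * T) * T ^ 2 * T := by gcongr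
        _ = 2 * T ^ 3 * T := by ring
        _ ≤ 2 * T ^ 3 * Q := by gcongr; exact hQ.1
    have hmain := (sum_bd (fun j : ℤ => if j ∈ Icc (-(⌊x⌋₊ : ℤ)) ⌊x⌋₊ then 0 else
        ‖Fh (gr t₀ (T ^ (1 - d)) Q ((g : ℝ) * r)) ((j : ℝ) / ((g : ℝ) * h * k))‖)
        (CA * T ^ (1 - d) * (9 ^ A * (T ^ 20)⁻¹ * x ^ 2)) (by simp)
        (fun j => by split_ifs; exacts [le_rfl, norm_nonneg _]) (fun j hj => by
          have hj0 : (0 : ℝ) < |(j : ℝ)| := abs_pos.2 (by exact_mod_cast hj)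
          split_ifs with hmem
          · positivity
          · have hxj : x ≤ |(j : ℝ)| := by
              rw [Finset.mem_Icc, not_and_or] at hmem
              have h1 : (⌊x⌋₊ : ℤ) + 1 ≤ |j| := by
                rcases hmem with h2 | h2
                · rw [le_abs]; right; omega
                · rw [le_abs]; left; omega
              have h2 : ((⌊x⌋₊ : ℝ) + 1) ≤ |(j : ℝ)| := by exact_mod_cast h1
              exact (Nat.lt_floor_add_one x).le.trans h2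
            refine (hbA d T hd hd1 hT t₀ ht₀ Q hQ1 _ hr _ (hw j hj)).trans ?_
            rw [hwabs, mul_assoc (CA * T ^ (1 - d))]
            refine mul_le_mul_of_nonneg_left ?_ (by positivity)
            have h3 : T ^ (2 * d) * (g * h * k) / Q / |(j : ℝ)| ≤
                9 * T ^ (-d) * (x / |(j : ℝ)|) := by
              have h4 : T ^ (2 * d) = T ^ (-d) * T ^ (3 * d) := by
                rw [← Real.rpow_add hT0]
                congr 1
                ring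
              rw [h4, hx]
              have h5 : (h : ℝ) * k ≤ 9 * m ^ 2 := by nlinarith
              calc T ^ (-d) * T ^ (3 * d) * (g * h * k) / Q / |(j : ℝ)|
                  = T ^ (-d) * T ^ (3 * d) * g * (h * k) / Q / |(j : ℝ)| := by ring
                _ ≤ T ^ (-d) * T ^ (3 * d) * g * (9 * m ^ 2) / Q / |(j : ℝ)| := by gcongr
                _ = 9 * T ^ (-d) * (g * m ^ 2 * T ^ (3 * d) / Q / |(j : ℝ)|) := by ring
            have h6 : (x / |(j : ℝ)|) ^ A ≤ (x / |(j : ℝ)|) ^ 2 :=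
              pow_le_pow_of_le_one (by positivity) ((div_le_one hj0).2 hxj) (by omega)
            have h7 : (T ^ (-d)) ^ A ≤ (T ^ 20)⁻¹ := by
              rw [← Real.rpow_natCast, ← Real.rpow_mul hT0.le, ← Real.rpow_natCast T 20,
                ← Real.rpow_neg hT0.le]
              apply Real.rpow_le_rpow_of_exponent_le hT
              push_cast
              linarith
            calc (T ^ (2 * d) * (g * h * k) / Q / |(j : ℝ)|) ^ A
                ≤ (9 * T ^ (-d) * (x / |(j : ℝ)|)) ^ A :=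
                  pow_le_pow_left₀ (by positivity) h3 A
              _ = 9 ^ A * (T ^ (-d)) ^ A * (x / |(j : ℝ)|) ^ A := by
                  rw [mul_pow, mul_pow]
              _ ≤ 9 ^ A * (T ^ 20)⁻¹ * (x / |(j : ℝ)|) ^ 2 := by gcongr
              _ = 9 ^ A * (T ^ 20)⁻¹ * x ^ 2 * (1 / (j : ℝ) ^ 2) := by
                  rw [div_pow, sq_abs]
                  ring)).2
    refine hmain.trans ?_
    have hS := S0_nonneg
    have hTd : T ^ (1 - d) ≤ T := by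
      calc T ^ (1 - d) ≤ T ^ (1 : ℝ) := Real.rpow_le_rpow_of_exponent_le hT (by linarith)
        _ = T := Real.rpow_one T
    have hx2 : x ^ 2 ≤ 4 * T ^ 6 := by
      calc x ^ 2 ≤ (2 * T ^ 3) ^ 2 := pow_le_pow_left₀ hx0.le hxle 2
        _ = 4 * T ^ 6 := by ring
    calc CA * T ^ (1 - d) * (9 ^ A * (T ^ 20)⁻¹ * x ^ 2) * S0
        ≤ CA * T * (9 ^ A * (T ^ 20)⁻¹ * (4 * T ^ 6)) * (S0 + 1) := by
          gcongr
          linarith
      _ = CA * 9 ^ A * 4 * (S0 + 1) / T ^ 13 := by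
          field_simp
      _ ≤ CA * 9 ^ A * 4 * (S0 + 1) / T ^ 10 := by
          apply div_le_div_of_nonneg_left (by positivity) (by positivity)
          exact pow_le_pow_right₀ hT (by norm_num)

theorem tail_one (d : ℝ) (hd : 0 < d) (hd1 : d ≤ 1 / 100) : ∃ C : ℝ, 0 < C ∧
    ∀ T : ℝ, 1 ≤ T → ∀ t₀ ∈ Set.Icc T (2 * T), ∀ Q ∈ Set.Icc T (2 * T ^ 2),
    ∀ g : ℕ, 1 ≤ g → ∀ r : ℤ, |(g : ℝ) * r| ≤ Q * T ^ (2 * d - 1) →
    ∑' j : ℤ, (if j = 0 then 0 else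
      ‖Fh (gr t₀ (T ^ (1 - d)) Q ((g : ℝ) * r)) ((j : ℝ) / (g : ℝ))‖) ≤
      C * T ^ (1 - d) * (T ^ (2 * d) * g / Q) ^ 2 := by
  obtain ⟨C2, hC2, hb2⟩ := gr_bd 2
  have hS := S0_nonneg
  refine ⟨C2 * (S0 + 1), by positivity, ?_⟩
  intro T hT t₀ ht₀ Q hQ g hg r hr
  have hT0 : 0 < T := by linarith
  have hQ1 : 1 ≤ Q := hT.trans hQ.1
  have hQ0 : 0 < Q := by linarith
  have hg0 : (0 : ℝ) < g := by exact_mod_cast hg
  have hmain := (sum_bd (fun j : ℤ => if j = 0 then 0 else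
      ‖Fh (gr t₀ (T ^ (1 - d)) Q ((g : ℝ) * r)) ((j : ℝ) / (g : ℝ))‖)
      (C2 * T ^ (1 - d) * (T ^ (2 * d) * g / Q) ^ 2) (by simp)
      (fun j => by split_ifs; exacts [le_rfl, norm_nonneg _]) (fun j hj => by
        have hj0 : (j : ℝ) ≠ 0 := by exact_mod_cast hj
        have hj1 : (0 : ℝ) < |(j : ℝ)| := abs_pos.2 hj0
        simp only [if_neg hj]
        refine (hb2 d T hd hd1 hT t₀ ht₀ Q hQ1 _ hr _ (by positivity)).trans (le_of_eq ?_)
        rw [abs_div, abs_of_pos hg0]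
        have : T ^ (2 * d) / (Q * (|(j : ℝ)| / g)) = T ^ (2 * d) * g / Q / |(j : ℝ)| := by
          field_simp
        rw [this, div_pow _ |(j : ℝ)|, sq_abs]
        ring)).2
  refine hmain.trans ?_
  calc C2 * T ^ (1 - d) * (T ^ (2 * d) * g / Q) ^ 2 * S0
      ≤ C2 * T ^ (1 - d) * (T ^ (2 * d) * g / Q) ^ 2 * (S0 + 1) := by
        gcongr
        linarith
    _ = C2 * (S0 + 1) * T ^ (1 - d) * (T ^ (2 * d) * g / Q) ^ 2 := by ring

end Pool.Agent.H442R2.TSM
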