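import Pool.Agent.H442R2.TSM.Inn

/-!
TSM project, task TH: the zero frequency.
-/

namespace Pool.Agent.H442R2.TSM

open Finset MeasureTheory

namespace TaskH

/-! ### Gaussian sums -/

lemma half_sum {c : ℝ} (hc : 0 < c) : Summable (fun n : ℕ => Real.exp (-(c * ((n : ℝ) + 1) ^ 2))) ∧
    ∑' n : ℕ, Real.exp (-(c * ((n : ℝ) + 1) ^ 2)) ≤ 2 / √c := by
  set s := √c with hs
  have hs0 : 0 < s := Real.sqrt_pos.2 hc
  have hs2 : s ^ 2 = c := Real.sq_sqrt hc.le
  set q := Real.exp (-s) with hq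
  have hq0 : 0 < q := Real.exp_pos _
  have hq1 : q < 1 := by
    rw [hq, Real.exp_lt_one_iff]
    linarith
  have hb : ∀ n : ℕ, Real.exp (-(c * ((n : ℝ) + 1) ^ 2)) ≤ Real.exp (1 / 4) * q * q ^ n := by
    intro n
    have h1 : Real.exp (1 / 4) * q * q ^ n = Real.exp (1 / 4 - s * (n + 1)) := by
      rw [hq, ← Real.exp_nat_mul, ← Real.exp_add, ← Real.exp_add]
      congr 1
      ring
    rw [h1, ← hs2]
    apply Real.exp_le_exp.2
    nlinarith [sq_nonneg (s * ((n : ℝ) + 1) - 1 / 2)]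
  have hg := (summable_geometric_of_lt_one hq0.le hq1).mul_left (Real.exp (1 / 4) * q)
  have hsum := Summable.of_nonneg_of_le (fun n => (Real.exp_pos _).le) hb hg
  refine ⟨hsum, (hsum.tsum_le_tsum hb hg).trans ?_⟩
  rw [tsum_mul_left, tsum_geometric_of_lt_one hq0.le hq1]
  have h2 : q * (1 + s) ≤ 1 := by
    have h3 : 1 + s ≤ Real.exp s := by linarith [Real.add_one_le_exp s]
    calc q * (1 + s) ≤ q * Real.exp s := mul_le_mul_of_nonneg_left h3 hq0.le
      _ = 1 := by rw [hq, ← Real.exp_add, neg_add_cancel, Real.exp_zero]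
  have h4 : Real.exp (1 / 4) ≤ 2 := by
    rw [← Real.exp_log (by norm_num : (0 : ℝ) < 2)]
    apply Real.exp_le_exp.2
    linarith [Real.log_two_gt_d9]
  have h5 : 0 < 1 - q := by linarith
  rw [← div_eq_mul_inv, div_le_div_iff₀ h5 hs0]
  have h6 : q * s ≤ 1 - q := by linarith
  have h7 : Real.exp (1 / 4) * (q * s) ≤ 2 * (1 - q) :=
    mul_le_mul h4 h6 (by positivity) (by norm_num)
  linarith

lemma full_sum {c : ℝ} (hc : 0 < c) : Summable (fun n : ℤ => Real.exp (-(c * (n : ℝ) ^ 2))) ∧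
    ∑' n : ℤ, Real.exp (-(c * (n : ℝ) ^ 2)) ≤ 1 + 4 / √c := by
  obtain ⟨h1, h2⟩ := half_sum hc
  generalize hf : (fun n : ℤ => Real.exp (-(c * (n : ℝ) ^ 2))) = f
  have hfn : ∀ n : ℤ, f n = Real.exp (-(c * (n : ℝ) ^ 2)) := fun n => by rw [← hf]
  have e1 : ∀ n : ℕ, f ((n + 1 : ℕ) : ℤ) = Real.exp (-(c * ((n : ℝ) + 1) ^ 2)) := by
    intro n
    rw [hfn]
    push_cast
    rfl
  have e2 : ∀ n : ℕ, f (-((n : ℤ) + 1)) = Real.exp (-(c * ((n : ℝ) + 1) ^ 2)) := by
    intro n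
    rw [hfn]
    congr 2
    push_cast
    ring
  have h3 : Summable (fun n : ℕ => f (n : ℤ)) := by
    rw [← summable_nat_add_iff 1]
    exact h1.congr (fun n => (e1 n).symm)
  have h4 : Summable (fun n : ℕ => f (-((n : ℤ) + 1))) := h1.congr (fun n => (e2 n).symm)
  refine ⟨Summable.of_nat_of_neg_add_one h3 h4, ?_⟩
  rw [tsum_of_nat_of_neg_add_one h3 h4, h3.tsum_eq_zero_add]
  have h5 : ∑' n : ℕ, f ((n + 1 : ℕ) : ℤ) = ∑' n : ℕ, Real.exp (-(c * ((n : ℝ) + 1) ^ 2)) :=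
    tsum_congr e1
  have h6 : ∑' n : ℕ, f (-((n : ℤ) + 1)) = ∑' n : ℕ, Real.exp (-(c * ((n : ℝ) + 1) ^ 2)) :=
    tsum_congr e2
  rw [h5, h6]
  have h7 : f ((0 : ℕ) : ℤ) = 1 := by rw [hfn]; simp
  rw [h7]
  have h8 : 4 / √c = 2 / √c + 2 / √c := by ring
  rw [h8]
  linarith

/-! ### the kernel -/

lemma Kh_norm (t₀ D u : ℝ) (hD : 0 < D) :
    ‖Kh t₀ D u‖ = D * Real.exp (-(D ^ 2 * u ^ 2 / (4 * Real.pi))) := by
  unfold Kh
  rw [norm_mul, Complex.norm_real, Real.norm_eq_abs, abs_of_pos hD, Complex.norm_exp]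
  congr 2
  rw [Complex.sub_re, Complex.ofReal_re, neg_mul, Complex.neg_re, Complex.re_ofReal_mul,
    Complex.I_re]
  ring

/-- Poisson summation for the kernel -/
lemma Kh_poisson (t₀ D l : ℝ) (hD : 0 < D) (hl : 0 < l) :
    ‖∑' r : ℤ, Kh t₀ D (l * r)‖ ≤ (2 * Real.pi / l) *
      ∑' n : ℤ, Real.exp (-(Real.pi * ((2 * Real.pi / l * n + t₀) / D) ^ 2)) := by
  have hπ := Real.pi_pos
  set y : ℝ := D * l / (2 * Real.pi) with hy
  have hy0 : 0 < y := by positivity
  have ha : 0 < ((y ^ 2 : ℝ) : ℂ).re := by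
    rw [Complex.ofReal_re]
    positivity
  have h := Complex.tsum_exp_neg_quadratic ha (-((t₀ * l / (2 * Real.pi) : ℝ) : ℂ) * Complex.I)
  have hπC : (Real.pi : ℂ) ≠ 0 := by
    rw [Complex.ofReal_ne_zero]
    exact hπ.ne'
  have h1 : ∑' r : ℤ, Kh t₀ D (l * r) = (D : ℂ) * ∑' n : ℤ,
      Complex.exp (-Real.pi * ((y ^ 2 : ℝ) : ℂ) * n ^ 2 +
        2 * Real.pi * (-((t₀ * l / (2 * Real.pi) : ℝ) : ℂ) * Complex.I) * n) := by
    rw [← tsum_mul_left]
    congr 1
    ext r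
    unfold Kh
    congr 2
    rw [hy]
    push_cast
    field_simp
    ring
  have h2 : (((y ^ 2 : ℝ) : ℂ)) ^ (1 / 2 : ℂ) = ((y : ℝ) : ℂ) := by
    have h3 : ((1 / 2 : ℝ) : ℂ) = (1 / 2 : ℂ) := by push_cast; rfl
    rw [← h3, ← Complex.ofReal_cpow (by positivity), ← Real.sqrt_eq_rpow, Real.sqrt_sq hy0.le]
  rw [h1, h, h2]
  have h4 : ∀ n : ℤ, Complex.exp (-Real.pi / ((y ^ 2 : ℝ) : ℂ) *
      ((n : ℂ) + Complex.I * (-((t₀ * l / (2 * Real.pi) : ℝ) : ℂ) * Complex.I)) ^ 2) =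
      ((Real.exp (-(Real.pi * ((2 * Real.pi / l * n + t₀) / D) ^ 2)) : ℝ) : ℂ) := by
    intro n
    rw [Complex.ofReal_exp]
    congr 1
    have h5 : Complex.I * (-((t₀ * l / (2 * Real.pi) : ℝ) : ℂ) * Complex.I) =
        ((t₀ * l / (2 * Real.pi) : ℝ) : ℂ) := by
      have : Complex.I * (-((t₀ * l / (2 * Real.pi) : ℝ) : ℂ) * Complex.I) =
        -(Complex.I * Complex.I) * ((t₀ * l / (2 * Real.pi) : ℝ) : ℂ) := by ring
      rw [this, Complex.I_mul_I]
      ring
    rw [h5]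
    have h6 : -(Real.pi * ((2 * Real.pi / l * n + t₀) / D) ^ 2) =
        -Real.pi / (y ^ 2) * ((n : ℝ) + t₀ * l / (2 * Real.pi)) ^ 2 := by
      rw [hy]
      field_simp
    rw [h6]
    push_cast
    ring
  simp_rw [h4]
  rw [← Complex.ofReal_tsum, norm_mul, norm_mul, norm_div, norm_one, Complex.norm_real,
    Complex.norm_real, Complex.norm_real, Real.norm_eq_abs, Real.norm_eq_abs, Real.norm_eq_abs,
    abs_of_pos hD, abs_of_pos hy0, abs_of_nonneg (tsum_nonneg (fun n => (Real.exp_pos _).le)),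
    ← mul_assoc]
  apply le_of_eq
  congr 1
  rw [hy]
  field_simp

/-- the main estimate -/
lemma key (T D l t₀ E : ℝ) (hT : 1 ≤ T) (hD : 0 < D) (hDT : D ≤ T) (hE : E = (T / D) ^ 2)
    (ht0 : T ≤ t₀) (ht1 : t₀ ≤ 2 * T) (hl : 0 < l) (hl8 : 1 / l ≤ 8 * T ^ 2) (N : ℕ)
    (hN : T / D / 4 ≤ D * l * (N + 1)) :
    ‖∑ r ∈ nz N, Kh t₀ D (l * (r : ℝ))‖ ≤
      17 * T + 600 * (T ^ 2 * Real.exp (-(E / (128 * Real.pi)))) := by
  have hπ := Real.pi_pos
  have hπ3 := Real.pi_gt_three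
  have hπ4 := Real.pi_le_four
  have hT0 : 0 < T := by linarith
  have hTD : 1 ≤ T / D := by rwa [le_div_iff₀ hD, one_mul]
  have hE1 : 1 ≤ E := by
    rw [hE]
    nlinarith
  have hexp0 : 0 < Real.exp (-(E / (128 * Real.pi))) := Real.exp_pos _
  by_cases hlT : 1 / l ≤ T
  · -- trivial bound
    set c := D ^ 2 * l ^ 2 / (4 * Real.pi) with hc
    have hc0 : 0 < c := by positivity
    obtain ⟨h1, h2⟩ := full_sum hc0
    have h3 : ‖∑ r ∈ nz N, Kh t₀ D (l * (r : ℝ))‖ ≤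
        ∑ r ∈ nz N, D * Real.exp (-(c * (r : ℝ) ^ 2)) := by
      refine (norm_sum_le _ _).trans (le_of_eq (Finset.sum_congr rfl (fun r _ => ?_)))
      rw [Kh_norm _ _ _ hD, hc]
      congr 3
      ring
    have h4 : ∑ r ∈ nz N, D * Real.exp (-(c * (r : ℝ) ^ 2)) ≤ D * (1 + 4 / √c) := by
      rw [← Finset.mul_sum]
      apply mul_le_mul_of_nonneg_left _ hD.le
      exact (h1.sum_le_tsum _ (fun r _ => (Real.exp_pos _).le)).trans h2
    have h5 : D * l / 4 ≤ √c := by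
      apply Real.le_sqrt_of_sq_le
      rw [hc, div_pow, mul_pow, div_le_div_iff₀ (by norm_num) (by positivity)]
      have : 0 ≤ D ^ 2 * l ^ 2 := by positivity
      nlinarith
    have h6 : D * (4 / √c) ≤ 16 * (1 / l) := by
      have h7 : 4 / √c ≤ 4 / (D * l / 4) :=
        div_le_div_of_nonneg_left (by norm_num) (by positivity) h5
      calc D * (4 / √c) ≤ D * (4 / (D * l / 4)) := mul_le_mul_of_nonneg_left h7 hD.le
        _ = 16 * (1 / l) := by field_simp; norm_num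
    have h8 : D * (1 + 4 / √c) = D + D * (4 / √c) := by ring
    have h9 : 0 ≤ 600 * (T ^ 2 * Real.exp (-(E / (128 * Real.pi)))) := by positivity
    rw [h8] at h4
    linarith
  · push Not at hlT
    -- all sum
    set c := D ^ 2 * l ^ 2 / (4 * Real.pi) with hc
    have hc0 : 0 < c := by positivity
    obtain ⟨hs1, -⟩ := full_sum hc0
    have hnorm : ∀ r : ℤ, ‖Kh t₀ D (l * (r : ℝ))‖ = D * Real.exp (-(c * (r : ℝ) ^ 2)) := by
      intro r
      rw [Kh_norm _ _ _ hD, hc]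
      congr 3
      ring
    have hsumN : Summable (fun r : ℤ => ‖Kh t₀ D (l * (r : ℝ))‖) := by
      refine (hs1.mul_left D).congr (fun r => ?_)
      rw [hnorm]
    have hsum : Summable (fun r : ℤ => Kh t₀ D (l * (r : ℝ))) := hsumN.of_norm
    set S : Finset ℤ := Icc (-(N : ℤ)) N with hS
    have hfin : HasSum (fun r : ℤ => if r ∈ S then Kh t₀ D (l * (r : ℝ)) else 0)
        (∑ r ∈ S, Kh t₀ D (l * (r : ℝ))) := by
      have h1 : HasSum (fun r : ℤ => if r ∈ S then Kh t₀ D (l * (r : ℝ)) else 0)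
          (∑ r ∈ S, (if r ∈ S then Kh t₀ D (l * (r : ℝ)) else 0)) :=
        hasSum_sum_of_ne_finset_zero (fun r hr => if_neg hr)
      have h2 : ∑ r ∈ S, (if r ∈ S then Kh t₀ D (l * (r : ℝ)) else 0) =
          ∑ r ∈ S, Kh t₀ D (l * (r : ℝ)) :=
        Finset.sum_congr rfl (fun r hr => if_pos hr)
      rwa [h2] at h1
    have hdiff := hsum.hasSum.sub hfin
    have hSe : Kh t₀ D (l * ((0 : ℤ) : ℝ)) + ∑ r ∈ nz N, Kh t₀ D (l * (r : ℝ)) =
        ∑ r ∈ S, Kh t₀ D (l * (r : ℝ)) := by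
      unfold nz
      exact Finset.add_sum_erase S (fun r : ℤ => Kh t₀ D (l * (r : ℝ))) (by
        rw [hS, Finset.mem_Icc]; constructor <;> omega)
    -- tail
    set c₂ := D ^ 2 * l ^ 2 / (8 * Real.pi) with hc₂
    have hc₂0 : 0 < c₂ := by positivity
    obtain ⟨ht1', ht2'⟩ := full_sum hc₂0
    have htail : ‖∑' r : ℤ, (Kh t₀ D (l * (r : ℝ)) -
        (if r ∈ S then Kh t₀ D (l * (r : ℝ)) else 0))‖ ≤
        D * Real.exp (-(E / (128 * Real.pi))) * (1 + 4 / √c₂) := by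
      have hb : ∀ r : ℤ, ‖Kh t₀ D (l * (r : ℝ)) -
          (if r ∈ S then Kh t₀ D (l * (r : ℝ)) else 0)‖ ≤
          D * Real.exp (-(E / (128 * Real.pi))) * Real.exp (-(c₂ * (r : ℝ) ^ 2)) := by
        intro r
        split_ifs with hr
        · rw [sub_self, norm_zero]
          positivity
        · rw [sub_zero, hnorm, mul_assoc, ← Real.exp_add]
          apply mul_le_mul_of_nonneg_left _ hD.le
          apply Real.exp_le_exp.2
          have h1 : ((N : ℝ) + 1) ^ 2 ≤ (r : ℝ) ^ 2 := by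
            rw [hS, Finset.mem_Icc, not_and_or] at hr
            have h2 : ((N : ℤ) + 1) ^ 2 ≤ r ^ 2 := by
              rcases hr with hr | hr
              · nlinarith
              · nlinarith
            exact_mod_cast h2
          have h2 : E / 16 ≤ D ^ 2 * l ^ 2 * (r : ℝ) ^ 2 := by
            have h3 : (T / D / 4) ^ 2 ≤ (D * l * (N + 1)) ^ 2 :=
              pow_le_pow_left₀ (by positivity) hN 2
            have h4 : (T / D / 4) ^ 2 = E / 16 := by rw [hE]; ring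
            have h5 : (D * l * ((N : ℝ) + 1)) ^ 2 = D ^ 2 * l ^ 2 * ((N : ℝ) + 1) ^ 2 := by ring
            rw [h4, h5] at h3
            exact h3.trans (mul_le_mul_of_nonneg_left h1 (by positivity))
          have h6 : c = c₂ + c₂ := by
            rw [hc, hc₂]
            field_simp
            norm_num
          have h7 : E / (128 * Real.pi) ≤ c₂ * (r : ℝ) ^ 2 := by
            have h8 : c₂ * (r : ℝ) ^ 2 = D ^ 2 * l ^ 2 * (r : ℝ) ^ 2 / (8 * Real.pi) := by
              rw [hc₂]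
              ring
            have h9 : E / (128 * Real.pi) = (E / 16) / (8 * Real.pi) := by
              field_simp
              norm_num
            rw [h8, h9]
            exact div_le_div_of_nonneg_right h2 (by positivity)
          rw [h6]
          linarith
      have hbs := ht1'.mul_left (D * Real.exp (-(E / (128 * Real.pi))))
      refine (tsum_of_norm_bounded hbs.hasSum hb).trans ?_
      rw [tsum_mul_left]
      exact mul_le_mul_of_nonneg_left ht2' (by positivity)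
    rw [hdiff.tsum_eq] at htail
    have hp := Kh_poisson t₀ D l hD hl
    -- the Poisson side
    have hpi4 : 0 < Real.pi / 4 := by positivity
    obtain ⟨hq1, hq2⟩ := full_sum hpi4
    have hq3 : 4 / √(Real.pi / 4) ≤ 5 := by
      have h1 : (4 / 5 : ℝ) ≤ √(Real.pi / 4) := by
        apply Real.le_sqrt_of_sq_le
        norm_num
        linarith
      rw [div_le_iff₀ (by positivity)]
      linarith
    have hterm : ∀ n : ℤ, Real.exp (-(Real.pi * ((2 * Real.pi / l * n + t₀) / D) ^ 2)) ≤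
        Real.exp (-(E / (128 * Real.pi))) * Real.exp (-(Real.pi / 4 * (n : ℝ) ^ 2)) := by
      intro n
      rw [← Real.exp_add]
      apply Real.exp_le_exp.2
      have hPT : 6 * T ≤ 2 * Real.pi / l := by
        have : 2 * Real.pi / l = 2 * Real.pi * (1 / l) := by ring
        rw [this]
        nlinarith
      have habs : T * (|(n : ℝ)| + 1) / 2 ≤ |2 * Real.pi / l * n + t₀| := by
        by_cases hn : n = 0
        · subst hn
          simp only [Int.cast_zero, abs_zero, mul_zero, zero_add]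
          rw [abs_of_pos (by linarith)]
          linarith
        · have hn1 : (1 : ℝ) ≤ |(n : ℝ)| := by
            have := Int.one_le_abs hn
            exact_mod_cast this
          have h1 : |2 * Real.pi / l * n| - |t₀| ≤ |2 * Real.pi / l * n + t₀| := by
            have := abs_sub_abs_le_abs_sub (2 * Real.pi / l * n) (-t₀)
            rwa [abs_neg, sub_neg_eq_add] at this
          rw [abs_mul, abs_of_pos (by positivity : 0 < 2 * Real.pi / l),
            abs_of_pos (by linarith : 0 < t₀)] at h1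
          have h2 : 6 * T * |(n : ℝ)| ≤ 2 * Real.pi / l * |(n : ℝ)| :=
            mul_le_mul_of_nonneg_right hPT (abs_nonneg _)
          have h3 : T * 1 ≤ T * |(n : ℝ)| := mul_le_mul_of_nonneg_left hn1 hT0.le
          linarith
      have hsq : E * (|(n : ℝ)| + 1) ^ 2 / 4 ≤ ((2 * Real.pi / l * n + t₀) / D) ^ 2 := by
        rw [div_pow, ← sq_abs (2 * Real.pi / l * n + t₀), hE, div_pow]
        have h1 : (T * (|(n : ℝ)| + 1) / 2) ^ 2 ≤ |2 * Real.pi / l * n + t₀| ^ 2 :=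
          pow_le_pow_left₀ (by positivity) habs 2
        have h2 : T ^ 2 / D ^ 2 * (|(n : ℝ)| + 1) ^ 2 / 4 = (T * (|(n : ℝ)| + 1) / 2) ^ 2 / D ^ 2 := by
          ring
        rw [h2]
        exact div_le_div_of_nonneg_right h1 (by positivity)
      have h3 : E + (n : ℝ) ^ 2 ≤ E * (|(n : ℝ)| + 1) ^ 2 := by
        have h4 : (n : ℝ) ^ 2 = |(n : ℝ)| ^ 2 := (sq_abs _).symm
        rw [h4]
        have h5 : 0 ≤ |(n : ℝ)| := abs_nonneg _
        have h6 : 1 * (|(n : ℝ)| ^ 2 + 2 * |(n : ℝ)|) ≤ E * (|(n : ℝ)| ^ 2 + 2 * |(n : ℝ)|) :=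
          mul_le_mul_of_nonneg_right hE1 (by positivity)
        have h7 : E * (|(n : ℝ)| + 1) ^ 2 = E * (|(n : ℝ)| ^ 2 + 2 * |(n : ℝ)|) + E := by ring
        rw [h7]
        linarith
      have h5 : E / (128 * Real.pi) ≤ Real.pi / 4 * E := by
        rw [div_le_iff₀ (by positivity)]
        have h51 : 1 ≤ Real.pi / 4 * (128 * Real.pi) := by nlinarith
        have h52 := mul_le_mul_of_nonneg_left h51 (by linarith : (0 : ℝ) ≤ E)
        linarith
      have h6 : Real.pi * (E * (|(n : ℝ)| + 1) ^ 2 / 4) ≤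
          Real.pi * ((2 * Real.pi / l * n + t₀) / D) ^ 2 :=
        mul_le_mul_of_nonneg_left hsq hπ.le
      have h7 : Real.pi / 4 * (E + (n : ℝ) ^ 2) ≤ Real.pi / 4 * (E * (|(n : ℝ)| + 1) ^ 2) :=
        mul_le_mul_of_nonneg_left h3 (by positivity)
      linarith
    have hsum6 : ∑' n : ℤ, Real.exp (-(Real.pi * ((2 * Real.pi / l * n + t₀) / D) ^ 2)) ≤
        6 * Real.exp (-(E / (128 * Real.pi))) := by
      have hbs := hq1.mul_left (Real.exp (-(E / (128 * Real.pi))))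
      have h1 := (Summable.of_nonneg_of_le (fun n => (Real.exp_pos _).le) hterm hbs).tsum_le_tsum
        hterm hbs
      rw [tsum_mul_left] at h1
      have h2 := mul_le_mul_of_nonneg_left (hq2.trans (add_le_add_right hq3 1)) hexp0.le
      linarith
    have hp2 : ‖∑' r : ℤ, Kh t₀ D (l * (r : ℝ))‖ ≤
        384 * (T ^ 2 * Real.exp (-(E / (128 * Real.pi)))) := by
      refine hp.trans ?_
      have h1 : 2 * Real.pi / l ≤ 64 * T ^ 2 := by
        have : 2 * Real.pi / l = 2 * Real.pi * (1 / l) := by ring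
        rw [this]
        have h2 : 2 * Real.pi ≤ 8 := by linarith
        calc 2 * Real.pi * (1 / l) ≤ 8 * (8 * T ^ 2) :=
              mul_le_mul h2 hl8 (by positivity) (by norm_num)
          _ = 64 * T ^ 2 := by ring
      calc 2 * Real.pi / l * ∑' n : ℤ, Real.exp (-(Real.pi * ((2 * Real.pi / l * n + t₀) / D) ^ 2))
          ≤ 64 * T ^ 2 * (6 * Real.exp (-(E / (128 * Real.pi)))) :=
            mul_le_mul h1 hsum6 (tsum_nonneg (fun n => (Real.exp_pos _).le)) (by positivity)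
        _ = 384 * (T ^ 2 * Real.exp (-(E / (128 * Real.pi)))) := by ring
    have h0 : ‖Kh t₀ D (l * ((0 : ℤ) : ℝ))‖ ≤ T := by
      rw [hnorm]
      simp only [Int.cast_zero]
      rw [zero_pow two_ne_zero, mul_zero, neg_zero, Real.exp_zero, mul_one]
      exact hDT
    have htail2 : D * Real.exp (-(E / (128 * Real.pi))) * (1 + 4 / √c₂) ≤
        T + 168 * (T ^ 2 * Real.exp (-(E / (128 * Real.pi)))) := by
      have hπ315 := Real.pi_lt_d2
      have h1 : 4 / 21 * (D * l) ≤ √c₂ := by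
        apply Real.le_sqrt_of_sq_le
        rw [hc₂, mul_pow, mul_pow, le_div_iff₀ (by positivity)]
        have h2 : 0 ≤ D ^ 2 * l ^ 2 := by positivity
        have h3 : (4 / 21 : ℝ) ^ 2 * (8 * Real.pi) ≤ 1 := by norm_num; linarith
        have h4 := mul_le_mul_of_nonneg_left h3 h2
        linarith
      have h2 : 4 / √c₂ ≤ 4 / (4 / 21 * (D * l)) :=
        div_le_div_of_nonneg_left (by norm_num) (by positivity) h1
      have h3 : D * (4 / √c₂) ≤ 21 * (1 / l) := by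
        calc D * (4 / √c₂) ≤ D * (4 / (4 / 21 * (D * l))) := mul_le_mul_of_nonneg_left h2 hD.le
          _ = 21 * (1 / l) := by field_simp
      have h4 : D * (4 / √c₂) ≤ 168 * T ^ 2 := by linarith
      have h5 : Real.exp (-(E / (128 * Real.pi))) ≤ 1 := by
        rw [Real.exp_le_one_iff, neg_nonpos]
        positivity
      have h6 : D * Real.exp (-(E / (128 * Real.pi))) ≤ T := by
        calc D * Real.exp (-(E / (128 * Real.pi))) ≤ D * 1 := mul_le_mul_of_nonneg_left h5 hD.le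
          _ ≤ T := by rw [mul_one]; exact hDT
      have h7 := mul_le_mul_of_nonneg_right h4 hexp0.le
      have h8 : D * Real.exp (-(E / (128 * Real.pi))) * (1 + 4 / √c₂) =
          D * Real.exp (-(E / (128 * Real.pi))) +
            D * (4 / √c₂) * Real.exp (-(E / (128 * Real.pi))) := by ring
      rw [h8]
      linarith
    have hfinal : ∑ r ∈ nz N, Kh t₀ D (l * (r : ℝ)) =
        ∑' r : ℤ, Kh t₀ D (l * (r : ℝ)) -
          (∑' r : ℤ, Kh t₀ D (l * (r : ℝ)) - ∑ r ∈ S, Kh t₀ D (l * (r : ℝ))) -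
          Kh t₀ D (l * ((0 : ℤ) : ℝ)) := by
      rw [← hSe]
      ring
    rw [hfinal]
    refine (norm_sub_le _ _).trans ?_
    refine (add_le_add_left (norm_sub_le _ _) _).trans ?_
    have hX : 0 ≤ T ^ 2 * Real.exp (-(E / (128 * Real.pi))) := by positivity
    have hA := add_le_add (add_le_add hp2 (htail.trans htail2)) h0
    refine hA.trans ?_
    linarith

/-- `T² exp(-T^{2d}/(128π))` is bounded -/
lemma decay (d : ℝ) (hd : 0 < d) : ∃ C : ℝ, 0 < C ∧ ∀ T : ℝ, 1 ≤ T →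
    T ^ 2 * Real.exp (-(T ^ (2 * d) / (128 * Real.pi))) ≤ C := by
  obtain ⟨k, hk⟩ := exists_nat_ge (1 / d)
  have hπ := Real.pi_pos
  refine ⟨(128 * Real.pi) ^ k * (Nat.factorial k : ℝ), by positivity, ?_⟩
  intro T hT
  have hT0 : 0 < T := by linarith
  have h1 := Real.pow_div_factorial_le_exp (x := T ^ (2 * d) / (128 * Real.pi)) (by positivity) k
  have h2 : T ^ 2 ≤ (T ^ (2 * d)) ^ k := by
    rw [← Real.rpow_natCast, ← Real.rpow_natCast, ← Real.rpow_mul hT0.le]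
    apply Real.rpow_le_rpow_of_exponent_le hT
    rw [div_le_iff₀ hd] at hk
    push_cast
    linarith
  rw [Real.exp_neg]
  rw [← div_eq_mul_inv, div_le_iff₀ (Real.exp_pos _)]
  have h3 : (T ^ (2 * d)) ^ k = (128 * Real.pi) ^ k * (Nat.factorial k : ℝ) *
      ((T ^ (2 * d) / (128 * Real.pi)) ^ k / (Nat.factorial k : ℝ)) := by
    rw [div_pow]
    field_simp
  calc T ^ 2 ≤ (T ^ (2 * d)) ^ k := h2
    _ = _ := h3
    _ ≤ _ := mul_le_mul_of_nonneg_left h1 (by positivity)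

lemma gr_integrable (t₀ D Q r : ℝ) (hQ : 0 < Q) : Integrable (gr t₀ D Q r) := by
  have h := TaskF.gr_tst t₀ D Q r hQ
  have hc : Continuous (gr t₀ D Q r) := by
    have h1 : gr t₀ D Q r = (fun u => gr t₀ D Q r (Q * u)) ∘ (fun x => x / Q) := by
      ext x
      simp only [Function.comp_apply]
      congr 1
      field_simp
    rw [h1]
    exact h.smooth.continuous.comp (continuous_id.div_const Q)
  apply hc.integrable_of_hasCompactSupport
  apply HasCompactSupport.of_support_subset_isCompact (K := Set.Icc Q (4 * Q)) isCompact_Icc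
  intro x hx
  have h1 : x / Q ∈ Set.Icc (1 : ℝ) 4 := by
    by_contra hcon
    apply hx
    have this : gr t₀ D Q r (Q * (x / Q)) = 0 := h.supp _ hcon
    rwa [mul_div_cancel₀ _ hQ.ne'] at this
  exact ⟨by have := h1.1; rwa [le_div_iff₀ hQ, one_mul] at this,
    by have := h1.2; rwa [div_le_iff₀ hQ] at this⟩

end TaskH

open TaskH in
theorem zero_freq (d : ℝ) (hd : 0 < d) (hd1 : d ≤ 1 / 100) : ∃ C T₁ : ℝ, 0 < C ∧ 1 ≤ T₁ ∧
    ∀ T : ℝ, T₁ ≤ T → ∀ t₀ ∈ Set.Icc T (2 * T), ∀ Q ∈ Set.Icc T (2 * T ^ 2), ∀ g : ℕ, 1 ≤ g →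
    ‖∑ r ∈ nz (⌊Q * T ^ (2 * d - 1)⌋₊ / g), Fh (gr t₀ (T ^ (1 - d)) Q ((g : ℝ) * r)) 0‖ ≤
      C * T := by
  obtain ⟨C, hC0, hC⟩ := decay d hd
  refine ⟨3 * (17 + 600 * C), 1, by positivity, le_rfl, ?_⟩
  intro T hT t₀ ht₀ Q hQ g hg
  have hT0 : 0 < T := by linarith
  have hQ0 : 0 < Q := by linarith [hQ.1]
  have hg0 : (1 : ℝ) ≤ g := by exact_mod_cast hg
  set D := T ^ (1 - d) with hD
  have hD0 : 0 < D := Real.rpow_pos_of_pos hT0 _
  have hDT : D ≤ T := by
    rw [hD]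
    calc T ^ (1 - d) ≤ T ^ (1 : ℝ) := Real.rpow_le_rpow_of_exponent_le hT (by linarith)
      _ = T := Real.rpow_one T
  have hTD : T / D = T ^ d := by
    rw [hD, div_eq_iff (Real.rpow_pos_of_pos hT0 _).ne', ← Real.rpow_add hT0]
    have : d + (1 - d) = 1 := by ring
    rw [this, Real.rpow_one]
  set N := ⌊Q * T ^ (2 * d - 1)⌋₊ / g with hN
  -- the integrals
  have h1 : ∀ r : ℤ, Fh (gr t₀ D Q ((g : ℝ) * r)) 0 = ∫ x, gr t₀ D Q ((g : ℝ) * r) x := by
    intro r
    unfold Fh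
    congr 1
    ext x
    rw [zero_mul, neg_zero, KF.e_zero, mul_one]
  simp_rw [h1]
  rw [← integral_finsetSum _ (fun r _ => gr_integrable t₀ D Q _ hQ0)]
  -- pointwise bound
  have hpt : ∀ x ∈ Set.Icc Q (4 * Q), ‖∑ r ∈ nz N, gr t₀ D Q ((g : ℝ) * r) x‖ ≤
      (1 / Q) * ((17 + 600 * C) * T) := by
    intro x hx
    have hx0 : 0 < x := by linarith [hx.1]
    have h2 : ∑ r ∈ nz N, gr t₀ D Q ((g : ℝ) * r) x = ((x⁻¹ * Bu (x / Q) ^ 2 : ℝ) : ℂ) *
        ∑ r ∈ nz N, Kh t₀ D ((g / x : ℝ) * (r : ℝ)) := by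
      rw [Finset.mul_sum]
      apply Finset.sum_congr rfl
      intro r _
      unfold gr
      congr 2
      ring
    rw [h2, norm_mul, Complex.norm_real, Real.norm_eq_abs]
    have hB : |x⁻¹ * Bu (x / Q) ^ 2| ≤ 1 / Q := by
      have hB0 : 0 ≤ Bu (x / Q) ∧ Bu (x / Q) ≤ 1 := by
        have hcu : ∀ z, 0 ≤ Cu z ∧ Cu z ≤ 1 := fun z =>
          ⟨Real.smoothTransition.nonneg _, Real.smoothTransition.le_one _⟩
        unfold Bu
        by_cases h3 : x / Q ≤ 2
        · rw [TaskF.Cu_one (x := x / Q / 2) (by linarith)]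
          constructor <;> linarith [(hcu (x / Q)).1, (hcu (x / Q)).2]
        · rw [TaskF.Cu_zero (x := x / Q) (by linarith)]
          constructor <;> linarith [(hcu (x / Q / 2)).1, (hcu (x / Q / 2)).2]
      rw [abs_mul, abs_of_pos (inv_pos.2 hx0), abs_of_nonneg (sq_nonneg _), ← one_div]
      have h3 : Bu (x / Q) ^ 2 ≤ 1 := by nlinarith [hB0.1, hB0.2]
      have h4 : 1 / x ≤ 1 / Q := one_div_le_one_div_of_le hQ0 hx.1
      calc 1 / x * Bu (x / Q) ^ 2 ≤ 1 / Q * 1 :=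
            mul_le_mul h4 h3 (sq_nonneg _) (by positivity)
        _ = 1 / Q := mul_one _
    have hl0 : 0 < (g : ℝ) / x := by positivity
    have hl8 : 1 / ((g : ℝ) / x) ≤ 8 * T ^ 2 := by
      rw [one_div_div, div_le_iff₀ (by linarith)]
      have h3 : x ≤ 8 * T ^ 2 := by linarith [hx.2, hQ.2]
      have h4 : 8 * T ^ 2 * 1 ≤ 8 * T ^ 2 * g := mul_le_mul_of_nonneg_left hg0 (by positivity)
      linarith
    have hNN : T / D / 4 ≤ D * ((g : ℝ) / x) * (N + 1) := by
      have h3 : Q * T ^ (2 * d - 1) < (g : ℝ) * (N + 1) := by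
        have h4 : Q * T ^ (2 * d - 1) < (⌊Q * T ^ (2 * d - 1)⌋₊ : ℝ) + 1 := Nat.lt_floor_add_one _
        have h5 : ⌊Q * T ^ (2 * d - 1)⌋₊ + 1 ≤ g * (N + 1) := by
          have := Nat.lt_mul_div_succ ⌊Q * T ^ (2 * d - 1)⌋₊ (by omega : 0 < g)
          exact this
        have h6 : ((⌊Q * T ^ (2 * d - 1)⌋₊ : ℝ) + 1) ≤ (g : ℝ) * (N + 1) := by exact_mod_cast h5
        linarith
      have h4 : D * ((g : ℝ) / x) * (N + 1) = D * ((g : ℝ) * (N + 1)) / x := by ring
      rw [h4, le_div_iff₀ hx0, hTD]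
      have h5 : T ^ d = D * T ^ (2 * d - 1) := by
        rw [hD, ← Real.rpow_add hT0]
        congr 1
        ring
      have h6 : 0 < T ^ d := Real.rpow_pos_of_pos hT0 _
      calc T ^ d / 4 * x ≤ T ^ d / 4 * (4 * Q) :=
            mul_le_mul_of_nonneg_left hx.2 (by positivity)
        _ = D * (Q * T ^ (2 * d - 1)) := by rw [h5]; ring
        _ ≤ D * ((g : ℝ) * (N + 1)) := mul_le_mul_of_nonneg_left h3.le hD0.le
    have hk := key T D ((g : ℝ) / x) t₀ ((T / D) ^ 2) hT hD0 hDT rfl ht₀.1 ht₀.2 hl0 hl8 N hNN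
    have h5 : (T / D) ^ 2 = T ^ (2 * d) := by
      rw [hTD, ← Real.rpow_natCast, ← Real.rpow_mul hT0.le]
      congr 1
      push_cast
      ring
    rw [h5] at hk
    have h6 := hC T hT
    have h7 : ‖∑ r ∈ nz N, Kh t₀ D ((g : ℝ) / x * (r : ℝ))‖ ≤ (17 + 600 * C) * T := by
      have : C * 1 ≤ C * T := mul_le_mul_of_nonneg_left hT hC0.le
      linarith
    exact mul_le_mul hB h7 (norm_nonneg _) (by positivity)
  have hout : ∀ x, x ∉ Set.Icc Q (4 * Q) → ∑ r ∈ nz N, gr t₀ D Q ((g : ℝ) * r) x = 0 := by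
    intro x hx
    apply Finset.sum_eq_zero
    intro r _
    unfold gr
    rw [TaskF.Bu_zero (x := x / Q) (by
      rintro ⟨h3, h4⟩
      apply hx
      exact ⟨by rwa [le_div_iff₀ hQ0, one_mul] at h3, by rwa [div_le_iff₀ hQ0] at h4⟩)]
    simp
  rw [← setIntegral_eq_integral_of_forall_compl_eq_zero hout]
  refine (norm_setIntegral_le_of_norm_le_const (by simp) hpt).trans ?_
  rw [Real.volume_real_Icc_of_le (by linarith)]
  have : (1 / Q) * ((17 + 600 * C) * T) * (4 * Q - Q) = 3 * (17 + 600 * C) * T := by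
    field_simp
    ring
  rw [this]

end Pool.Agent.H442R2.TSM
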