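import Pool.Agent.H442R2.TSM.Lin
import Pool.Agent.H442R2.TSM.Zero
import Pool.Agent.H442R2.TSM.Mid
import Pool.Agent.H442R2.TSM.Tail
import Pool.Agent.H442R2.TSM.LongPre
import Pool.Agent.H442R2.TSM.BlkPre
import Pool.Agent.H442R2.TSM.FinPre
import Pool.Agent.H442R2.TSM.Apx

/-! TSM project: final assembly. -/

namespace Pool.Agent.H442R2.TSM

open Finset

theorem block_thm : TaskTO.BlockS :=
  fun θ hθ0 hθ ε hε => block_pre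
    (fun θ hθ0 hθ => long_pre lin zero_freq mid_low tail_high tail_one θ hθ0 hθ)
    apx θ hθ0 hθ ε hε

theorem final_thm (θ : ℝ) (hθ0 : 0 < θ) (hθ : θ < 14 / 27) (ε : ℝ) (hε : 0 < ε) :
    ∃ C : ℝ, 0 < C ∧ ∀ T : ℝ, 1 ≤ T → ∀ N : ℕ, (N : ℝ) ≤ T ^ θ →
    ∀ a : ℕ → ℂ, (∀ n, ‖a n‖ ≤ 1) →
    ∫ t in T..(2 * T), ‖riemannZeta (1 / 2 + (t : ℂ) * Complex.I)‖ ^ 2 *
      ‖∑ n ∈ Icc 1 N, a n * (n : ℂ) ^ (-(1 / 2 + (t : ℂ) * Complex.I))‖ ^ 2 ≤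
      C * T ^ (1 + ε) :=
  final_of block_thm θ hθ0 hθ ε hε

end Pool.Agent.H442R2.TSM
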