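import Pool.Agent.H442R2.TSM.Osc

/-!
TG (Bnd.lean): bounds for the Fourier transforms of `g_r` (helper640)
-/

namespace Pool.Agent.H442R2.TSM

open Finset MeasureTheory

namespace TaskTG

theorem norm_e (x : ℝ) : ‖KF.e x‖ = 1 := by
  unfold KF.e
  exact Complex.norm_exp_ofReal_mul_I _

theorem norm_Kh_le (t₀ D u : ℝ) (hD : 0 < D) : ‖Kh t₀ D u‖ ≤ D := by
  unfold Kh
  rw [norm_mul, Complex.norm_exp, Complex.norm_real, Real.norm_eq_abs, abs_of_pos hD]
  have h1 : (-((t₀ * u : ℝ) : ℂ) * Complex.I -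
      ((D ^ 2 * u ^ 2 / (4 * Real.pi) : ℝ) : ℂ)).re = -(D ^ 2 * u ^ 2 / (4 * Real.pi)) := by
    rw [Complex.sub_re, Complex.ofReal_re, ← Complex.ofReal_neg, Complex.re_ofReal_mul,
      Complex.I_re]
    ring
  rw [h1]
  have h2 : Real.exp (-(D ^ 2 * u ^ 2 / (4 * Real.pi))) ≤ 1 := by
    rw [Real.exp_le_one_iff, neg_nonpos]
    positivity
  calc D * Real.exp (-(D ^ 2 * u ^ 2 / (4 * Real.pi))) ≤ D * 1 :=
        mul_le_mul_of_nonneg_left h2 hD.le
    _ = D := mul_one D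

/-- support and size of `g_r` -/
theorem gr_norm (t₀ D Q r x : ℝ) (hD : 0 < D) (hQ : 0 < Q) :
    ‖gr t₀ D Q r x‖ ≤ (Set.Ioc Q (4 * Q)).indicator (fun x => D * x⁻¹) x := by
  obtain ⟨-, hb1, hb2, hb3, -⟩ := bu_facts
  by_cases hx : x ∈ Set.Ioc Q (4 * Q)
  · rw [Set.indicator_of_mem hx]
    have hx0 : 0 < x := hQ.trans hx.1
    unfold gr
    rw [norm_mul, Complex.norm_real, Real.norm_eq_abs,
      abs_of_nonneg (by positivity : 0 ≤ x⁻¹ * Bu (x / Q) ^ 2)]
    have h1 := hb1 (x / Q)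
    have h2 : Bu (x / Q) ^ 2 ≤ 1 := pow_le_one₀ h1.1 h1.2
    have h3 : x⁻¹ * Bu (x / Q) ^ 2 ≤ x⁻¹ := by
      have := mul_le_mul_of_nonneg_left h2 (inv_nonneg.2 hx0.le)
      rwa [mul_one] at this
    calc x⁻¹ * Bu (x / Q) ^ 2 * ‖Kh t₀ D (r / x)‖ ≤ x⁻¹ * D :=
          mul_le_mul h3 (norm_Kh_le _ _ _ hD) (norm_nonneg _) (by positivity)
      _ = D * x⁻¹ := mul_comm _ _
  · rw [Set.indicator_of_notMem hx]
    have h0 : Bu (x / Q) = 0 := by
      rw [Set.mem_Ioc, not_and_or, not_lt, not_le] at hx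
      rcases hx with h | h
      · exact hb2 _ ((div_le_one hQ).2 h)
      · refine hb3 _ ?_
        rw [le_div_iff₀ hQ]
        exact h.le
    unfold gr
    rw [h0]
    simp

theorem int_inv (D Q : ℝ) (hQ : 0 < Q) :
    Integrable ((Set.Ioc Q (4 * Q)).indicator (fun x : ℝ => D * x⁻¹)) ∧
    ∫ x, (Set.Ioc Q (4 * Q)).indicator (fun x : ℝ => D * x⁻¹) x = D * Real.log 4 := by
  have hle : Q ≤ 4 * Q := by linarith
  have h1 : IntervalIntegrable (fun x : ℝ => D * x⁻¹) volume Q (4 * Q) := by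
    refine (intervalIntegral.intervalIntegrable_inv (fun x hx => ?_) continuousOn_id).const_mul D
    rw [Set.uIcc_of_le hle] at hx
    exact (hQ.trans_le hx.1).ne'
  constructor
  · rw [integrable_indicator_iff measurableSet_Ioc]
    exact (intervalIntegrable_iff_integrableOn_Ioc_of_le hle).1 h1
  · rw [integral_indicator measurableSet_Ioc, ← intervalIntegral.integral_of_le hle,
      intervalIntegral.integral_const_mul, integral_inv_of_pos hQ (by linarith)]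
    congr 2
    field_simp

theorem meas_gr (t₀ D Q r : ℝ) : Measurable (gr t₀ D Q r) := by
  obtain ⟨hb, -⟩ := bu_facts
  unfold gr Kh
  have h1 : Measurable Bu := hb.continuous.measurable
  fun_prop

theorem int_gr (t₀ D Q r w : ℝ) (hD : 0 < D) (hQ : 0 < Q) :
    Integrable (fun x => gr t₀ D Q r x * KF.e (-(w * x))) := by
  refine (int_inv D Q hQ).1.mono' ?_ ?_
  · refine (meas_gr t₀ D Q r).aestronglyMeasurable.mul ?_
    unfold KF.e
    exact (by fun_prop : Continuous fun x : ℝ =>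
      Complex.exp (((2 * Real.pi * (-(w * x)) : ℝ) : ℂ) * Complex.I)).aestronglyMeasurable
  · refine Filter.Eventually.of_forall fun x => ?_
    rw [norm_mul, norm_e, mul_one]
    exact gr_norm t₀ D Q r x hD hQ

theorem e_sub (a b : ℝ) : ‖KF.e a - KF.e b‖ ≤ 2 * Real.pi * |a - b| := by
  unfold KF.e
  have h1 : Complex.exp (((2 * Real.pi * a : ℝ) : ℂ) * Complex.I) -
      Complex.exp (((2 * Real.pi * b : ℝ) : ℂ) * Complex.I) =
      Complex.exp (((2 * Real.pi * b : ℝ) : ℂ) * Complex.I) *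
        (Complex.exp (Complex.I * ((2 * Real.pi * (a - b) : ℝ) : ℂ)) - 1) := by
    rw [mul_sub, mul_one, ← Complex.exp_add]
    congr 2
    push_cast
    ring
  rw [h1, norm_mul, Complex.norm_exp_ofReal_mul_I, one_mul]
  refine (Real.norm_exp_I_mul_ofReal_sub_one_le (x := 2 * Real.pi * (a - b))).trans ?_
  rw [Real.norm_eq_abs, abs_mul, abs_of_pos (by positivity : (0:ℝ) < 2 * Real.pi)]

end TaskTG

open TaskTG in
theorem gr_bd0 (t₀ D Q r w : ℝ) (hD : 0 < D) (hQ : 0 < Q) : ‖Fh (gr t₀ D Q r) w‖ ≤ 2 * D := by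
  unfold Fh
  refine (norm_integral_le_of_norm_le (int_inv D Q hQ).1
    (Filter.Eventually.of_forall fun x => ?_)).trans ?_
  · rw [norm_mul, norm_e, mul_one]
    exact gr_norm t₀ D Q r x hD hQ
  · rw [(int_inv D Q hQ).2]
    have h4 : Real.log 4 = 2 * Real.log 2 := by
      rw [show (4:ℝ) = 2 ^ 2 by norm_num, Real.log_pow]
      norm_num
    have h2 := Real.log_two_lt_d9
    have h5 : Real.log 4 ≤ 2 := by rw [h4]; linarith
    nlinarith

open TaskTG in
theorem gr_lip (t₀ D Q r w w' : ℝ) (hD : 0 < D) (hQ : 0 < Q) :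
    ‖Fh (gr t₀ D Q r) w - Fh (gr t₀ D Q r) w'‖ ≤ 20 * D * Q * |w - w'| := by
  unfold Fh
  rw [← integral_sub (int_gr t₀ D Q r w hD hQ) (int_gr t₀ D Q r w' hD hQ)]
  have hle : Q ≤ 4 * Q := by linarith
  set c : ℝ := D * (2 * Real.pi * |w - w'|) with hc
  have hc0 : 0 ≤ c := by positivity
  have hint : Integrable ((Set.Ioc Q (4 * Q)).indicator (fun _ : ℝ => c)) := by
    rw [integrable_indicator_iff measurableSet_Ioc]
    exact integrableOn_const (by simp) (by simp)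
  refine (norm_integral_le_of_norm_le hint (Filter.Eventually.of_forall fun x => ?_)).trans ?_
  · rw [← mul_sub, norm_mul]
    have h1 := gr_norm t₀ D Q r x hD hQ
    by_cases hx : x ∈ Set.Ioc Q (4 * Q)
    · rw [Set.indicator_of_mem hx] at h1 ⊢
      have hx0 : 0 < x := hQ.trans hx.1
      have h2 := e_sub (-(w * x)) (-(w' * x))
      have h3 : |-(w * x) - -(w' * x)| = |w - w'| * x := by
        rw [show -(w * x) - -(w' * x) = -((w - w') * x) by ring, abs_neg, abs_mul,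
          abs_of_pos hx0]
      rw [h3] at h2
      calc ‖gr t₀ D Q r x‖ * ‖KF.e (-(w * x)) - KF.e (-(w' * x))‖
          ≤ (D * x⁻¹) * (2 * Real.pi * (|w - w'| * x)) :=
            mul_le_mul h1 h2 (norm_nonneg _) (by positivity)
        _ = c := by
            rw [hc]
            field_simp
    · rw [Set.indicator_of_notMem hx] at h1 ⊢
      have h2 : ‖gr t₀ D Q r x‖ = 0 := le_antisymm h1 (norm_nonneg _)
      rw [h2, zero_mul]
  · rw [integral_indicator measurableSet_Ioc, setIntegral_const, Real.volume_real_Ioc_of_le hle,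
      smul_eq_mul]
    have hpi := Real.pi_lt_d2
    have h0 : 0 ≤ D * Q * |w - w'| := by positivity
    have e1 : (4 * Q - Q) * c = 6 * Real.pi * (D * Q * |w - w'|) := by
      rw [hc]; ring
    rw [e1]
    nlinarith

open TaskTG in
theorem gr_bd (A : ℕ) : ∃ C : ℝ, 0 < C ∧ ∀ d T : ℝ, 0 < d → d ≤ 1 / 100 → 1 ≤ T →
    ∀ t₀ ∈ Set.Icc T (2 * T), ∀ Q : ℝ, 1 ≤ Q → ∀ r : ℝ, |r| ≤ Q * T ^ (2 * d - 1) →
    ∀ w : ℝ, w ≠ 0 → ‖Fh (gr t₀ (T ^ (1 - d)) Q r) w‖ ≤
      C * T ^ (1 - d) * (T ^ (2 * d) / (Q * |w|)) ^ A := by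
  obtain ⟨C0, hC0, h⟩ := osc_fourier _ tst_one A
  refine ⟨C0 * 4 ^ A, by positivity, ?_⟩
  intro d T hd hd1 hT t₀ ht Q hQ r hr w hw
  have hT0 : 0 < T := by linarith
  have hQ0 : 0 < Q := by linarith
  set D : ℝ := T ^ (1 - d) with hD
  have hD0 : 0 < D := Real.rpow_pos_of_pos hT0 _
  set ρ : ℝ := t₀ * r / Q with hρ
  set σ : ℝ := D ^ 2 * r ^ 2 / (4 * Real.pi * Q ^ 2) with hσ
  have hσ0 : 0 ≤ σ := by positivity
  -- change of variables
  have key : Fh (gr t₀ D Q r) w =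
      (D : ℂ) * Fh (fun u => ((u⁻¹ * Bu u ^ 2 : ℝ) : ℂ) * EE 0 ρ σ u) (w * Q) := by
    unfold Fh
    rw [← integral_const_mul]
    have h1 := Measure.integral_comp_mul_left (fun x => gr t₀ D Q r x * KF.e (-(w * x))) Q
    rw [abs_of_pos (inv_pos.2 hQ0)] at h1
    have h2 : ∫ x, gr t₀ D Q r x * KF.e (-(w * x)) =
        (Q : ℂ) * ∫ x, gr t₀ D Q r (Q * x) * KF.e (-(w * (Q * x))) := by
      rw [h1, Complex.real_smul, ← mul_assoc, ← Complex.ofReal_mul, mul_inv_cancel₀ hQ0.ne',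
        Complex.ofReal_one, one_mul]
    rw [h2, ← integral_const_mul]
    congr 1
    funext u
    unfold gr Kh EE
    have e1 : Q * u / Q = u := by field_simp
    have e2 : ((Q : ℝ) : ℂ) * (((Q * u)⁻¹ * Bu u ^ 2 : ℝ) : ℂ) = ((u⁻¹ * Bu u ^ 2 : ℝ) : ℂ) := by
      rw [← Complex.ofReal_mul]
      congr 1
      rw [mul_inv, ← mul_assoc, ← mul_assoc, mul_inv_cancel₀ hQ0.ne', one_mul]
    have e3 : (-((t₀ * (r / (Q * u)) : ℝ) : ℂ) * Complex.I -
        ((D ^ 2 * (r / (Q * u)) ^ 2 / (4 * Real.pi) : ℝ) : ℂ)) =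
        (-((0 * Real.log u + ρ / u : ℝ) : ℂ) * Complex.I - ((σ / u ^ 2 : ℝ) : ℂ)) := by
      have e4 : t₀ * (r / (Q * u)) = 0 * Real.log u + ρ / u := by
        rw [hρ]
        ring
      have e5 : D ^ 2 * (r / (Q * u)) ^ 2 / (4 * Real.pi) = σ / u ^ 2 := by
        rw [hσ]
        ring
      rw [e4, e5]
    have e6 : -(w * (Q * u)) = -(w * Q * u) := by ring
    rw [e1, e3, e6]
    beta_reduce
    rw [← e2]
    ring
  rw [key, norm_mul, Complex.norm_real, Real.norm_eq_abs, abs_of_pos hD0]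
  have hwQ : w * Q ≠ 0 := mul_ne_zero hw hQ0.ne'
  have h3 := h 0 ρ σ hσ0 (w * Q) hwQ
  -- the parameters
  have hTd : 1 ≤ T ^ (2 * d) := Real.one_le_rpow hT (by linarith)
  have hrQ : |r| / Q ≤ T ^ (2 * d - 1) := by
    rw [div_le_iff₀ hQ0, mul_comm]
    exact hr
  have hρ' : |ρ| ≤ 2 * T ^ (2 * d) := by
    have e1 : |ρ| = |t₀| * (|r| / Q) := by
      rw [hρ, abs_div, abs_mul, abs_of_pos hQ0]
      ring
    have e2 : |t₀| ≤ 2 * T := by
      rw [abs_of_nonneg (by linarith [ht.1])]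
      exact ht.2
    have e3 : T * T ^ (2 * d - 1) = T ^ (2 * d) := by
      rw [← Real.rpow_one_add' hT0.le (by linarith)]
      congr 1
      ring
    rw [e1, ← e3]
    calc |t₀| * (|r| / Q) ≤ (2 * T) * T ^ (2 * d - 1) :=
          mul_le_mul e2 hrQ (by positivity) (by positivity)
      _ = _ := by ring
  have hσ' : σ ≤ T ^ (2 * d) := by
    have e1 : σ = (D * (|r| / Q)) ^ 2 / (4 * Real.pi) := by
      rw [hσ, mul_pow, div_pow, sq_abs]
      ring
    have e2 : D * (|r| / Q) ≤ T ^ d := by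
      calc D * (|r| / Q) ≤ T ^ (1 - d) * T ^ (2 * d - 1) :=
            mul_le_mul_of_nonneg_left hrQ hD0.le
        _ = T ^ d := by
            rw [← Real.rpow_add hT0]
            congr 1
            ring
    have e3 : (D * (|r| / Q)) ^ 2 ≤ (T ^ d) ^ 2 :=
      pow_le_pow_left₀ (by positivity) e2 2
    have e4 : (T ^ d) ^ 2 = T ^ (2 * d) := by
      rw [← Real.rpow_natCast, ← Real.rpow_mul hT0.le]
      congr 1
      push_cast
      ring
    have hpi := Real.pi_gt_three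
    rw [e1, div_le_iff₀ (by positivity)]
    have : 0 ≤ T ^ (2 * d) := by positivity
    nlinarith
  have h4 : (1 + |(0:ℝ)| + |ρ| + σ) / |w * Q| ≤ 4 * (T ^ (2 * d) / (Q * |w|)) := by
    rw [abs_zero, add_zero, abs_mul, abs_of_pos hQ0, mul_comm |w| Q, mul_div_assoc']
    have : 0 < |w| := abs_pos.2 hw
    refine div_le_div_of_nonneg_right ?_ (by positivity)
    linarith
  have h5 : ((1 + |(0:ℝ)| + |ρ| + σ) / |w * Q|) ^ A ≤ (4 * (T ^ (2 * d) / (Q * |w|))) ^ A :=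
    pow_le_pow_left₀ (by positivity) h4 A
  calc D * ‖Fh (fun u => ((u⁻¹ * Bu u ^ 2 : ℝ) : ℂ) * EE 0 ρ σ u) (w * Q)‖
      ≤ D * (C0 * ((1 + |(0:ℝ)| + |ρ| + σ) / |w * Q|) ^ A) :=
        mul_le_mul_of_nonneg_left h3 hD0.le
    _ ≤ D * (C0 * (4 * (T ^ (2 * d) / (Q * |w|))) ^ A) := by
        refine mul_le_mul_of_nonneg_left ?_ hD0.le
        exact mul_le_mul_of_nonneg_left h5 hC0.le
    _ = _ := by rw [mul_pow]; ring

end Pool.Agent.H442R2.TSM
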