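import Pool.Agent.H442R2.KF.Defs

/-!
TSM project (helper442): the mean square of the zeta function times an arbitrary Dirichlet
polynomial of length `T^θ`, `θ < 14/27`. Definitions.
-/

namespace Pool.Agent.H442R2.TSM

open Finset

/-- smooth cutoff: `1` for `x ≤ 1`, `0` for `x ≥ 2` -/
noncomputable def Cu (x : ℝ) : ℝ := Real.smoothTransition (2 - x)

/-- the dyadic bump `Cu (x/2) - Cu x`, zero outside `[1,4]` -/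
noncomputable def Bu (x : ℝ) : ℝ := Cu (x / 2) - Cu x

/-- Fourier transform `∫ f(u) e(-wu) du` -/
noncomputable def Fh (f : ℝ → ℂ) (w : ℝ) : ℂ := ∫ u, f u * KF.e (-(w * u))

/-- test functions: smooth and zero outside `[1,4]` -/
structure Tst (f : ℝ → ℂ) : Prop where
  smooth : ContDiff ℝ ((⊤ : ℕ∞) : WithTop ℕ∞) f
  supp : ∀ u, u ∉ Set.Icc (1 : ℝ) 4 → f u = 0

/-- the oscillating factor `exp(-i(τ log u + ρ/u) - σ/u²)` -/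
noncomputable def EE (τ ρ σ u : ℝ) : ℂ :=
  Complex.exp (-((τ * Real.log u + ρ / u : ℝ) : ℂ) * Complex.I - ((σ / u ^ 2 : ℝ) : ℂ))

/-- Gaussian window centred at `t₀`, of width `D` -/
noncomputable def Wg (t₀ D t : ℝ) : ℝ := Real.exp (-Real.pi * ((t - t₀) / D) ^ 2)

/-- `∫ Wg(t) exp(-itu) dt = D exp(-i t₀ u - D² u²/(4π))` -/
noncomputable def Kh (t₀ D u : ℝ) : ℂ :=
  (D : ℂ) * Complex.exp (-((t₀ * u : ℝ) : ℂ) * Complex.I -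
    ((D ^ 2 * u ^ 2 / (4 * Real.pi) : ℝ) : ℂ))

/-- a Dirichlet polynomial `∑_{q ≤ K} c_q q^{-it}` -/
noncomputable def Dp (c : ℕ → ℂ) (K : ℕ) (t : ℝ) : ℂ :=
  ∑ q ∈ Icc 1 K, c q * Complex.exp (-((t * Real.log q : ℝ) : ℂ) * Complex.I)

/-- `b_q = ∑_{m | q, M < m ≤ 2M} a_m` -/
noncomputable def bq (a : ℕ → ℂ) (M q : ℕ) : ℂ :=
  ∑ m ∈ (Ioc M (2 * M)).filter (fun m => m ∣ q), a m

/-- coefficients of the dyadic piece `q ≍ Q` -/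
noncomputable def cQ (a : ℕ → ℂ) (M : ℕ) (Q : ℝ) (q : ℕ) : ℂ :=
  bq a M q * (((q : ℝ) ^ (-(1 / 2) : ℝ) * Bu ((q : ℝ) / Q) : ℝ) : ℂ)

/-- coefficients of the short piece `q ≤ 2Q` -/
noncomputable def c0 (a : ℕ → ℂ) (M : ℕ) (Q : ℝ) (q : ℕ) : ℂ :=
  bq a M q * (((q : ℝ) ^ (-(1 / 2) : ℝ) * Cu ((q : ℝ) / Q) : ℝ) : ℂ)

/-- the linearised kernel `g_r(x) = x⁻¹ Bu(x/Q)² Kh(r/x)` -/
noncomputable def gr (t₀ D Q r x : ℝ) : ℂ :=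
  ((x⁻¹ * Bu (x / Q) ^ 2 : ℝ) : ℂ) * Kh t₀ D (r / x)

/-- the sum over `q ≡ 0 mod m₁`, `q ≡ r mod m₂` of `g_r(q)` -/
noncomputable def inn (t₀ D Q : ℝ) (m₁ m₂ : ℕ) (r : ℤ) : ℂ :=
  ∑ q ∈ (Icc 1 ⌊4 * Q⌋₊).filter (fun q : ℕ => m₁ ∣ q ∧ (m₂ : ℤ) ∣ (q : ℤ) - r),
    gr t₀ D Q (r : ℝ) (q : ℝ)

/-- the nonzero integers with `|r| ≤ R` -/
noncomputable def nz (R : ℕ) : Finset ℤ := (Icc (-(R : ℤ)) R).erase 0

/-- the main sum -/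
noncomputable def SS (a : ℕ → ℂ) (M : ℕ) (t₀ D Q : ℝ) (R : ℕ) : ℂ :=
  ∑ m₁ ∈ Ioc M (2 * M), ∑ m₂ ∈ Ioc M (2 * M), a m₁ * (starRingEnd ℂ) (a m₂) *
    ∑ r ∈ nz R, inn t₀ D Q m₁ m₂ r

/-- the coprime pairs `h, k ∈ (m, 2m+1]` -/
noncomputable def CP (m : ℕ) : Finset (ℕ × ℕ) :=
  (Ioc m (2 * m + 1) ×ˢ Ioc m (2 * m + 1)).filter (fun p => Nat.Coprime p.1 p.2)

end Pool.Agent.H442R2.TSM
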