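import Pool.Agent.H442R2.TSM.Poi

/-!
TSM project, task TF: Poisson summation in the inner sum.
-/

namespace Pool.Agent.H442R2.TSM

open Finset MeasureTheory

theorem inn_zero (t₀ D Q : ℝ) (m₁ m₂ : ℕ) (r : ℤ) (h : ¬ ((Nat.gcd m₁ m₂ : ℕ) : ℤ) ∣ r) :
    inn t₀ D Q m₁ m₂ r = 0 := by
  unfold inn
  rw [Finset.filter_false_of_mem, Finset.sum_empty]
  rintro q - ⟨h1, h2⟩
  apply h
  have h3 : ((Nat.gcd m₁ m₂ : ℕ) : ℤ) ∣ (q : ℤ) :=
    Int.natCast_dvd_natCast.2 ((Nat.gcd_dvd_left m₁ m₂).trans h1)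
  have h4 : ((Nat.gcd m₁ m₂ : ℕ) : ℤ) ∣ (q : ℤ) - r :=
    (Int.natCast_dvd_natCast.2 (Nat.gcd_dvd_right m₁ m₂)).trans h2
  have h5 := dvd_sub h3 h4
  simpa using h5

namespace TaskF

lemma Cu_smooth : ContDiff ℝ ((⊤ : ℕ∞) : WithTop ℕ∞) Cu := by
  unfold Cu
  exact Real.smoothTransition.contDiff.comp (contDiff_const.sub contDiff_id)

lemma Bu_smooth : ContDiff ℝ ((⊤ : ℕ∞) : WithTop ℕ∞) Bu := by
  unfold Bu
  exact (Cu_smooth.comp (contDiff_id.div_const 2)).sub Cu_smooth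

lemma Cu_one {x : ℝ} (h : x ≤ 1) : Cu x = 1 := by
  unfold Cu
  exact Real.smoothTransition.one_of_one_le (by linarith)

lemma Cu_zero {x : ℝ} (h : 2 ≤ x) : Cu x = 0 := by
  unfold Cu
  exact Real.smoothTransition.zero_of_nonpos (by linarith)

lemma Bu_zero {x : ℝ} (h : x ∉ Set.Icc (1 : ℝ) 4) : Bu x = 0 := by
  unfold Bu
  by_cases h1 : x < 1
  · rw [Cu_one (by linarith), Cu_one (by linarith), sub_self]
  · have h2 : 4 < x := by
      by_contra h3
      exact h ⟨not_lt.1 h1, not_lt.1 h3⟩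
    rw [Cu_zero (by linarith), Cu_zero (by linarith), sub_self]

/-- the scaled kernel is a test function -/
lemma gr_tst (t₀ D Q r : ℝ) (hQ : 0 < Q) : Tst (fun u => gr t₀ D Q r (Q * u)) := by
  have hz : ∀ u : ℝ, u ∉ Set.Icc (1 : ℝ) 4 → gr t₀ D Q r (Q * u) = 0 := by
    intro u hu
    unfold gr
    rw [mul_div_cancel_left₀ _ hQ.ne', Bu_zero hu]
    simp
  refine ⟨?_, hz⟩
  rw [contDiff_iff_contDiffAt]
  intro u
  by_cases hu : u < 1
  · have h1 : (fun u => gr t₀ D Q r (Q * u)) =ᶠ[nhds u] fun _ => 0 := by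
      filter_upwards [Iio_mem_nhds hu] with v hv
      exact hz v (fun h => not_lt.2 h.1 hv)
    exact contDiffAt_const.congr_of_eventuallyEq h1
  · have hu0 : Q * u ≠ 0 := by
      have : 0 < u := by linarith
      positivity
    have e1 : ContDiffAt ℝ ((⊤ : ℕ∞) : WithTop ℕ∞) (fun u : ℝ => (Q * u)⁻¹) u :=
      (contDiffAt_const.mul contDiffAt_id).inv hu0
    have e2 : ContDiffAt ℝ ((⊤ : ℕ∞) : WithTop ℕ∞) (fun u : ℝ => r / (Q * u)) u :=
      contDiffAt_const.div (contDiffAt_const.mul contDiffAt_id) hu0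
    have e3 : ContDiffAt ℝ ((⊤ : ℕ∞) : WithTop ℕ∞) (fun u : ℝ => Bu (Q * u / Q)) u :=
      (Bu_smooth.comp ((contDiff_const.mul contDiff_id).div_const Q)).contDiffAt
    have hR : ContDiff ℝ ((⊤ : ℕ∞) : WithTop ℕ∞) (fun x : ℝ => (x : ℂ)) :=
      Complex.ofRealCLM.contDiff
    have e4 : ContDiffAt ℝ ((⊤ : ℕ∞) : WithTop ℕ∞)
        (fun u : ℝ => ((((Q * u)⁻¹ * Bu (Q * u / Q) ^ 2 : ℝ)) : ℂ)) u :=
      hR.contDiffAt.comp u (e1.mul (e3.pow 2))
    have e5 : ContDiffAt ℝ ((⊤ : ℕ∞) : WithTop ℕ∞)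
        (fun u : ℝ => (((t₀ * (r / (Q * u)) : ℝ)) : ℂ)) u :=
      hR.contDiffAt.comp u (contDiffAt_const.mul e2)
    have e6 : ContDiffAt ℝ ((⊤ : ℕ∞) : WithTop ℕ∞)
        (fun u : ℝ => (((D ^ 2 * (r / (Q * u)) ^ 2 / (4 * Real.pi) : ℝ)) : ℂ)) u :=
      hR.contDiffAt.comp u ((contDiffAt_const.mul (e2.pow 2)).div_const _)
    have e7 : ContDiffAt ℝ ((⊤ : ℕ∞) : WithTop ℕ∞)
        (fun u : ℝ => (D : ℂ) * Complex.exp (-(((t₀ * (r / (Q * u)) : ℝ)) : ℂ) * Complex.I -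
          (((D ^ 2 * (r / (Q * u)) ^ 2 / (4 * Real.pi) : ℝ)) : ℂ))) u :=
      contDiffAt_const.mul (((e5.neg).mul contDiffAt_const).sub e6).cexp
    exact e4.mul e7

/-- scaling of the Fourier transform -/
lemma Fh_scale (F : ℝ → ℂ) (Q : ℝ) (hQ : 0 < Q) (w : ℝ) :
    Fh (fun u => F (Q * u)) w = ((1 / Q : ℝ) : ℂ) * Fh F (w / Q) := by
  unfold Fh
  have h1 : ∀ u : ℝ, F (Q * u) * KF.e (-(w * u)) =
      (fun x : ℝ => F x * KF.e (-(w / Q * x))) (Q * u) := by
    intro u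
    simp only
    have : w / Q * (Q * u) = w * u := by field_simp
    rw [this]
  simp_rw [h1]
  rw [Measure.integral_comp_mul_left (fun x : ℝ => F x * KF.e (-(w / Q * x))) Q,
    abs_of_pos (inv_pos.2 hQ), one_div, Complex.real_smul]

/-- the residue class -/
lemma cond_iff (g h k : ℕ) (hg : 1 ≤ g) (_hh : 1 ≤ h) (hk : 1 ≤ k) (hc : Nat.Coprime h k)
    (r q : ℤ) :
    (((g * h : ℕ) : ℤ) ∣ q ∧ ((g * k : ℕ) : ℤ) ∣ q - (g : ℤ) * r) ↔
      ∃ n : ℤ, q = (g : ℤ) * h * (k * n + r * ((((h : ℤ) : ZMod k)⁻¹).val : ℤ)) := by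
  have : NeZero k := ⟨by omega⟩
  have hg0 : (g : ℤ) ≠ 0 := by exact_mod_cast (by omega : g ≠ 0)
  set b : ℤ := ((((h : ℤ) : ZMod k)⁻¹).val : ℤ) with hb
  have hhb : (k : ℤ) ∣ (h : ℤ) * b - 1 := by
    rw [← ZMod.intCast_zmod_eq_zero_iff_dvd] at *
    push_cast
    rw [hb]
    push_cast
    rw [ZMod.natCast_zmod_val, ZMod.coe_mul_inv_eq_one h hc, sub_self]
  obtain ⟨c, hcc⟩ := hhb
  constructor
  · rintro ⟨⟨ν, hν⟩, ⟨μ, hμ⟩⟩
    -- h ν - r = k μ
    have h1 : (h : ℤ) * ν - r = k * μ := by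
      have : (g : ℤ) * ((h : ℤ) * ν - r) = (g : ℤ) * (k * μ) := by
        rw [hν] at hμ
        push_cast at hμ
        linarith
      exact mul_left_cancel₀ hg0 this
    -- ν = k n + r b : ν - r b = ν - b (h ν - k μ) = ν (1 - b h) + b k μ = -ν k c + b k μ
    refine ⟨b * μ - ν * c, ?_⟩
    rw [hν]
    push_cast
    have h2 : ν = k * (b * μ - ν * c) + r * b := by
      have e1 : r = h * ν - k * μ := by linarith
      rw [e1]
      have e2 : (h : ℤ) * b = k * c + 1 := by linarith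
      linear_combination (-ν) * e2
    rw [← h2]
  · rintro ⟨n, rfl⟩
    constructor
    · exact ⟨k * n + r * b, by push_cast; ring⟩
    · refine ⟨h * n + r * c, ?_⟩
      push_cast
      have e2 : (h : ℤ) * b = k * c + 1 := by linarith
      linear_combination (g : ℤ) * r * e2

end TaskF

open TaskF in
theorem inn_pois (t₀ D Q : ℝ) (hD : 0 < D) (hQ : 1 ≤ Q) (g h k : ℕ) (hg : 1 ≤ g) (hh : 1 ≤ h)
    (hk : 1 ≤ k) (hc : Nat.Coprime h k) (r : ℤ) :
    Summable (fun j : ℤ => Fh (gr t₀ D Q ((g : ℝ) * r)) ((j : ℝ) / ((g : ℝ) * h * k)) *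
      KF.kf (j * r) h k) ∧
    inn t₀ D Q (g * h) (g * k) (g * r) = ((1 / ((g : ℝ) * h * k) : ℝ) : ℂ) *
      ∑' j : ℤ, Fh (gr t₀ D Q ((g : ℝ) * r)) ((j : ℝ) / ((g : ℝ) * h * k)) *
        KF.kf (j * r) h k := by
  have _ := hD
  have hQ0 : 0 < Q := by linarith
  have hgR : (0 : ℝ) < g := by exact_mod_cast (by omega : 0 < g)
  have hhR : (0 : ℝ) < h := by exact_mod_cast (by omega : 0 < h)
  have hkR : (0 : ℝ) < k := by exact_mod_cast (by omega : 0 < k)
  set b : ℤ := ((((h : ℤ) : ZMod k)⁻¹).val : ℤ) with hb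
  set F : ℝ → ℂ := gr t₀ D Q ((g : ℝ) * r) with hF
  set f : ℝ → ℂ := fun u => F (Q * u) with hf
  have hft : Tst f := gr_tst t₀ D Q _ hQ0
  set l : ℝ := (g : ℝ) * h * k / Q with hl
  have hl0 : 0 < l := by positivity
  set x : ℝ := (r * b : ℤ) / (k : ℝ) with hx
  obtain ⟨hp1, hp2⟩ := pois f hft l hl0 x
  have hFf : ∀ j : ℤ, Fh f ((j : ℝ) / l) =
      ((1 / Q : ℝ) : ℂ) * Fh F ((j : ℝ) / ((g : ℝ) * h * k)) := by
    intro j
    rw [hf, Fh_scale F Q hQ0]
    congr 2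
    rw [hl]
    field_simp
  have hkf : ∀ j : ℤ, KF.e ((j : ℝ) * x) = KF.kf (j * r) h k := by
    intro j
    unfold KF.kf
    congr 1
    rw [hx, hb]
    push_cast
    ring
  have hterm : ∀ j : ℤ, Fh f ((j : ℝ) / l) * KF.e ((j : ℝ) * x) = ((1 / Q : ℝ) : ℂ) *
      (Fh F ((j : ℝ) / ((g : ℝ) * h * k)) * KF.kf (j * r) h k) := by
    intro j
    rw [hFf, hkf, mul_assoc]
  have hQC : ((1 / Q : ℝ) : ℂ) ≠ 0 := by
    rw [Complex.ofReal_ne_zero]
    positivity
  constructor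
  · have h1 := hp1.mul_left (((1 / Q : ℝ) : ℂ)⁻¹)
    refine h1.congr (fun j => ?_)
    rw [hterm, inv_mul_cancel_left₀ hQC]
  · -- the inner sum
    have h2 : inn t₀ D Q (g * h) (g * k) (g * r) = ∑' n : ℤ, f (l * ((n : ℝ) + x)) := by
      classical
      set φ : ℤ → ℤ := fun n => (g : ℤ) * h * (k * n + r * b) with hφ
      have hφi : Function.Injective φ := by
        intro n n' hn
        have h3 : (g : ℤ) * h ≠ 0 := by
          have : g * h ≠ 0 := Nat.mul_ne_zero (by omega) (by omega)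
          exact_mod_cast this
        have h4 := mul_left_cancel₀ h3 hn
        have h5 : (k : ℤ) * n = k * n' := by linarith
        exact mul_left_cancel₀ (by exact_mod_cast (by omega : k ≠ 0)) h5
      set G : ℤ → ℂ := fun q => if ((g * h : ℕ) : ℤ) ∣ q ∧ ((g * k : ℕ) : ℤ) ∣ q - (g : ℤ) * r
        then F (q : ℝ) else 0 with hG
      have h3 : ∀ n : ℤ, f (l * ((n : ℝ) + x)) = G (φ n) := by
        intro n
        have hcond : ((g * h : ℕ) : ℤ) ∣ φ n ∧ ((g * k : ℕ) : ℤ) ∣ φ n - (g : ℤ) * r :=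
          (cond_iff g h k hg hh hk hc r (φ n)).2 ⟨n, rfl⟩
        rw [hG]
        simp only
        rw [if_pos hcond, hf]
        simp only
        congr 1
        rw [hl, hx, hφ]
        push_cast
        field_simp
      simp_rw [h3]
      rw [hφi.tsum_eq (f := G) (by
        intro q hq
        rw [Function.mem_support] at hq
        have hcond : ((g * h : ℕ) : ℤ) ∣ q ∧ ((g * k : ℕ) : ℤ) ∣ q - (g : ℤ) * r := by
          by_contra hcon
          exact hq (if_neg hcon)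
        obtain ⟨n, hn⟩ := (cond_iff g h k hg hh hk hc r q).1 hcond
        exact ⟨n, hn.symm⟩)]
      rw [tsum_eq_sum (s := (Icc 1 ⌊4 * Q⌋₊).map Nat.castEmbedding) (by
        intro q hq
        rw [hG]
        simp only
        split_ifs with hcond
        · rw [hF]
          unfold gr
          rw [Bu_zero (by
            rintro ⟨h5, h6⟩
            apply hq
            rw [Finset.mem_map]
            have h7 : Q ≤ (q : ℝ) := by rwa [le_div_iff₀ hQ0, one_mul] at h5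
            have h8 : (q : ℝ) ≤ 4 * Q := by rwa [div_le_iff₀ hQ0] at h6
            have h9 : 0 < q := by
              have : (0 : ℝ) < q := by linarith
              exact_mod_cast this
            refine ⟨q.toNat, ?_, ?_⟩
            · rw [Finset.mem_Icc]
              refine ⟨by omega, ?_⟩
              apply Nat.le_floor
              have : ((q.toNat : ℕ) : ℝ) = (q : ℝ) := by
                have : ((q.toNat : ℕ) : ℤ) = q := Int.toNat_of_nonneg h9.le
                exact_mod_cast this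
              rw [this]
              exact h8
            · simp only [Nat.castEmbedding_apply]
              exact Int.toNat_of_nonneg h9.le)]
          simp
        · rfl)]
      rw [Finset.sum_map]
      unfold inn
      rw [Finset.sum_filter]
      apply Finset.sum_congr rfl
      intro q _
      rw [hG]
      simp only [Nat.castEmbedding_apply]
      have hcc : (g * h ∣ q ∧ ((g * k : ℕ) : ℤ) ∣ (q : ℤ) - (g : ℤ) * r) ↔
          (((g * h : ℕ) : ℤ) ∣ (q : ℤ) ∧ ((g * k : ℕ) : ℤ) ∣ (q : ℤ) - (g : ℤ) * r) := by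
        rw [Int.natCast_dvd_natCast]
      by_cases h5 : (g * h ∣ q ∧ ((g * k : ℕ) : ℤ) ∣ (q : ℤ) - (g : ℤ) * r)
      · rw [if_pos h5, if_pos (hcc.1 h5), hF]
        push_cast
        rfl
      · rw [if_neg h5, if_neg (fun h6 => h5 (hcc.2 h6))]
    rw [h2, hp2]
    simp_rw [hterm]
    rw [tsum_mul_left, ← mul_assoc, ← Complex.ofReal_mul]
    congr 2
    rw [hl]
    field_simp

end Pool.Agent.H442R2.TSM
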