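import Pool.Agent.H442R2.TSM.Osc
import Pool.Agent.H442R2.TSM.Kern
import Pool.Agent.Helper112.Arith

/-! TE: the dyadic piece, reduction to the linearised sum (helper228). -/

namespace Pool.Agent.H442R2.TSM

open Finset MeasureTheory

namespace TaskE

/-- the numbers `Q < q ≤ 4Q` -/
noncomputable def AA (Q : ℝ) : Finset ℕ := (Icc 1 ⌊4 * Q⌋₊).filter (fun q => Q < (q : ℝ))

/-- the numbers `≠ q` at distance at most `R` from `q` -/
def NN (R q : ℕ) : Finset ℕ := (Icc (q - R) (q + R)).erase q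

theorem nz_sum (R q : ℕ) (h : R < q) (F : ℤ → ℂ) :
    ∑ r ∈ nz R, F r = ∑ p ∈ NN R q, F ((q : ℤ) - p) := by
  refine Finset.sum_bij' (fun r _ => ((q : ℤ) - r).toNat) (fun p _ => (q : ℤ) - p) ?_ ?_ ?_ ?_ ?_
  · intro r hr
    unfold nz at hr
    rw [Finset.mem_erase, Finset.mem_Icc] at hr
    unfold NN
    rw [Finset.mem_erase, Finset.mem_Icc]
    omega
  · intro p hp
    unfold NN at hp
    rw [Finset.mem_erase, Finset.mem_Icc] at hp
    unfold nz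
    rw [Finset.mem_erase, Finset.mem_Icc]
    omega
  · intro r hr
    unfold nz at hr
    rw [Finset.mem_erase, Finset.mem_Icc] at hr
    omega
  · intro p hp
    omega
  · intro r hr
    unfold nz at hr
    rw [Finset.mem_erase, Finset.mem_Icc] at hr
    congr 1
    omega

theorem inn_eq (t₀ D Q : ℝ) (hQ : 0 < Q) (m₁ m₂ : ℕ) (r : ℤ) :
    inn t₀ D Q m₁ m₂ r = ∑ q ∈ AA Q, if m₁ ∣ q ∧ (m₂ : ℤ) ∣ (q : ℤ) - r
      then gr t₀ D Q (r : ℝ) (q : ℝ) else 0 := by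
  unfold inn AA
  rw [Finset.sum_filter, Finset.sum_filter]
  refine Finset.sum_congr rfl fun q _ => ?_
  by_cases h : Q < (q : ℝ)
  · rw [if_pos h]
  · rw [if_neg h]
    have h1 : Bu ((q : ℝ) / Q) = 0 := bu_facts.2.2.1 _ ((div_le_one hQ).2 (not_lt.1 h))
    have h2 : gr t₀ D Q (r : ℝ) (q : ℝ) = 0 := by
      unfold gr
      rw [h1]
      simp
    rw [h2, ite_self]

theorem SS_eq (a : ℕ → ℂ) (M : ℕ) (t₀ D Q : ℝ) (hQ : 0 < Q) (R : ℕ) (hR : (R : ℝ) ≤ Q) :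
    SS a M t₀ D Q R = ∑ q ∈ AA Q, ∑ p ∈ NN R q,
      bq a M q * (starRingEnd ℂ) (bq a M p) * gr t₀ D Q ((q : ℝ) - p) (q : ℝ) := by
  have h1 : ∀ m₁ m₂ : ℕ, ∑ r ∈ nz R, inn t₀ D Q m₁ m₂ r = ∑ q ∈ AA Q, ∑ p ∈ NN R q,
      (if m₁ ∣ q then 1 else 0) * (if m₂ ∣ p then 1 else 0) *
        gr t₀ D Q ((q : ℝ) - p) (q : ℝ) := by
    intro m₁ m₂
    simp only [inn_eq t₀ D Q hQ]
    rw [Finset.sum_comm]
    refine Finset.sum_congr rfl fun q hq => ?_
    unfold AA at hq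
    have hq2 := (Finset.mem_filter.1 hq).2
    have hRq : R < q := by
      have : (R : ℝ) < q := lt_of_le_of_lt hR hq2
      exact_mod_cast this
    rw [nz_sum R q hRq]
    refine Finset.sum_congr rfl fun p _ => ?_
    have e1 : ((q : ℤ) - ((q : ℤ) - p)) = (p : ℤ) := by ring
    have e2 : (((q : ℤ) - (p : ℤ) : ℤ) : ℝ) = (q : ℝ) - p := by push_cast; ring
    rw [e1, e2]
    simp only [Int.natCast_dvd_natCast]
    by_cases g1 : m₁ ∣ q <;> by_cases g2 : m₂ ∣ p <;> simp [g1, g2]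
  have h2 : ∀ n : ℕ, bq a M n = ∑ m ∈ Ioc M (2 * M), a m * (if m ∣ n then 1 else 0) := by
    intro n
    unfold bq
    rw [Finset.sum_filter]
    refine Finset.sum_congr rfl fun m _ => ?_
    split_ifs <;> simp
  unfold SS
  simp only [h1, h2, map_sum, map_mul]
  calc ∑ m₁ ∈ Ioc M (2 * M), ∑ m₂ ∈ Ioc M (2 * M), a m₁ * (starRingEnd ℂ) (a m₂) *
        ∑ q ∈ AA Q, ∑ p ∈ NN R q, (if m₁ ∣ q then 1 else 0) * (if m₂ ∣ p then 1 else 0) *
          gr t₀ D Q ((q : ℝ) - p) (q : ℝ)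
      = ∑ m₁ ∈ Ioc M (2 * M), ∑ m₂ ∈ Ioc M (2 * M), ∑ q ∈ AA Q, ∑ p ∈ NN R q,
          a m₁ * (starRingEnd ℂ) (a m₂) * ((if m₁ ∣ q then 1 else 0) *
            (if m₂ ∣ p then 1 else 0) * gr t₀ D Q ((q : ℝ) - p) (q : ℝ)) := by
        simp only [Finset.mul_sum]
    _ = ∑ m₁ ∈ Ioc M (2 * M), ∑ q ∈ AA Q, ∑ m₂ ∈ Ioc M (2 * M), ∑ p ∈ NN R q,
          a m₁ * (starRingEnd ℂ) (a m₂) * ((if m₁ ∣ q then 1 else 0) *
            (if m₂ ∣ p then 1 else 0) * gr t₀ D Q ((q : ℝ) - p) (q : ℝ)) :=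
        Finset.sum_congr rfl fun m₁ _ => Finset.sum_comm
    _ = ∑ q ∈ AA Q, ∑ m₁ ∈ Ioc M (2 * M), ∑ m₂ ∈ Ioc M (2 * M), ∑ p ∈ NN R q,
          a m₁ * (starRingEnd ℂ) (a m₂) * ((if m₁ ∣ q then 1 else 0) *
            (if m₂ ∣ p then 1 else 0) * gr t₀ D Q ((q : ℝ) - p) (q : ℝ)) := Finset.sum_comm
    _ = ∑ q ∈ AA Q, ∑ m₁ ∈ Ioc M (2 * M), ∑ p ∈ NN R q, ∑ m₂ ∈ Ioc M (2 * M),
          a m₁ * (starRingEnd ℂ) (a m₂) * ((if m₁ ∣ q then 1 else 0) *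
            (if m₂ ∣ p then 1 else 0) * gr t₀ D Q ((q : ℝ) - p) (q : ℝ)) :=
        Finset.sum_congr rfl fun q _ => Finset.sum_congr rfl fun m₁ _ => Finset.sum_comm
    _ = ∑ q ∈ AA Q, ∑ p ∈ NN R q, ∑ m₁ ∈ Ioc M (2 * M), ∑ m₂ ∈ Ioc M (2 * M),
          a m₁ * (starRingEnd ℂ) (a m₂) * ((if m₁ ∣ q then 1 else 0) *
            (if m₂ ∣ p then 1 else 0) * gr t₀ D Q ((q : ℝ) - p) (q : ℝ)) :=
        Finset.sum_congr rfl fun q _ => Finset.sum_comm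
    _ = _ := by
        refine Finset.sum_congr rfl fun q _ => Finset.sum_congr rfl fun p _ => ?_
        rw [Finset.sum_mul_sum, Finset.sum_mul]
        refine Finset.sum_congr rfl fun m₁ _ => ?_
        rw [Finset.sum_mul]
        refine Finset.sum_congr rfl fun m₂ _ => ?_
        have : (starRingEnd ℂ) (if m₂ ∣ p then (1 : ℂ) else 0) = if m₂ ∣ p then 1 else 0 := by
          split_ifs <;> simp
        rw [this]
        ring

/-- splitting of the double sum -/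
theorem split (X : ℕ → ℕ → ℂ) (Q : ℝ) (R : ℕ) (hR : (R : ℝ) ≤ Q)
    (h1 : ∀ q p : ℕ, (q : ℝ) ≤ Q → X q p = 0) (h2 : ∀ q p : ℕ, 4 * Q ≤ (p : ℝ) → X q p = 0) :
    ∑ q ∈ Icc 1 ⌊4 * Q⌋₊, ∑ p ∈ Icc 1 ⌊4 * Q⌋₊, X q p =
      ∑ q ∈ AA Q, (X q q + ∑ p ∈ NN R q, X q p +
        ∑ p ∈ (Icc 1 ⌊4 * Q⌋₊).filter (fun p => p ∉ Icc (q - R) (q + R)), X q p) := by
  have h3 : ∑ q ∈ Icc 1 ⌊4 * Q⌋₊, ∑ p ∈ Icc 1 ⌊4 * Q⌋₊, X q p =
      ∑ q ∈ AA Q, ∑ p ∈ Icc 1 ⌊4 * Q⌋₊, X q p := by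
    unfold AA
    rw [Finset.sum_filter]
    refine Finset.sum_congr rfl fun q _ => ?_
    split_ifs with h
    · rfl
    · exact Finset.sum_eq_zero fun p _ => h1 q p (not_lt.1 h)
  rw [h3]
  refine Finset.sum_congr rfl fun q hq => ?_
  unfold AA at hq
  have hq2 := (Finset.mem_filter.1 hq).2
  have hRq : R < q := by
    have : (R : ℝ) < q := lt_of_le_of_lt hR hq2
    exact_mod_cast this
  have hfil : ∑ p ∈ (Icc 1 ⌊4 * Q⌋₊).filter (fun p => p ∈ Icc (q - R) (q + R)), X q p =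
      ∑ p ∈ Icc (q - R) (q + R), X q p := by
    apply Finset.sum_subset
    · intro p hp
      exact (Finset.mem_filter.1 hp).2
    · intro p hp hp'
      apply h2
      have h4 : ¬ p ≤ ⌊4 * Q⌋₊ := by
        intro h5
        apply hp'
        rw [Finset.mem_filter, Finset.mem_Icc]
        rw [Finset.mem_Icc] at hp
        exact ⟨⟨by omega, h5⟩, Finset.mem_Icc.2 hp⟩
      rw [not_le] at h4
      exact (Nat.lt_of_floor_lt h4).le
  have hmem : q ∈ Icc (q - R) (q + R) := Finset.mem_Icc.2 ⟨by omega, by omega⟩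
  rw [← Finset.sum_filter_add_sum_filter_not (Icc 1 ⌊4 * Q⌋₊)
    (fun p => p ∈ Icc (q - R) (q + R)), hfil, ← Finset.add_sum_erase _ _ hmem]
  rfl

/-- the kernel of the mean square -/
noncomputable def k1 (t₀ D Q x y : ℝ) : ℂ :=
  (((x ^ (-(1 / 2) : ℝ) * Bu (x / Q)) * (y ^ (-(1 / 2) : ℝ) * Bu (y / Q)) : ℝ) : ℂ) *
    Kh t₀ D (Real.log x - Real.log y)

theorem log_lin {s : ℝ} (hs : |s| ≤ 1 / 4) : |-Real.log (1 - s) - s| ≤ 2 * s ^ 2 := by
  have h := Real.abs_log_sub_add_sum_range_le (x := s) (by linarith [hs] : |s| < 1) 1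
  simp only [Finset.sum_range_one, zero_add, pow_one, Nat.cast_zero, div_one] at h
  have h1 : -Real.log (1 - s) - s = -(s + Real.log (1 - s)) := by ring
  rw [h1, abs_neg]
  refine h.trans ?_
  rw [div_le_iff₀ (by linarith)]
  have h2 : |s| ^ (1 + 1) = s ^ 2 := by norm_num
  rw [h2]
  nlinarith [sq_nonneg s]

theorem Kh_le (t₀ D u : ℝ) (hD : 0 < D) : ‖Kh t₀ D u‖ ≤ D := by
  rw [(Kh_facts t₀ D hD).1]
  have : Real.exp (-(D ^ 2 * u ^ 2 / (4 * Real.pi))) ≤ 1 := by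
    rw [Real.exp_le_one_iff]
    have := Real.pi_pos
    have : 0 ≤ D ^ 2 * u ^ 2 / (4 * Real.pi) := by positivity
    linarith
  nlinarith

theorem near {L : ℝ} (hL : ∀ x y, |Bu x - Bu y| ≤ L * |x - y|) (hL0 : 0 < L)
    (t₀ D Q x y ρ : ℝ) (hD : 0 < D) (hQ : 0 < Q) (hx : Q < x) (hρ : ρ ≤ 1 / 4)
    (hr : |x - y| ≤ ρ * Q) :
    ‖k1 t₀ D Q x y - gr t₀ D Q (x - y) x‖ ≤
      1 / Q * (2 * ρ * D + L * ρ * D + 2 * (|t₀| + D) * D * ρ ^ 2) := by
  have hx0 : 0 < x := hQ.trans hx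
  have hρ0 : 0 ≤ ρ := by
    have := (abs_nonneg _).trans hr
    by_contra hcon
    push Not at hcon
    nlinarith
  have hy : 3 / 4 * Q ≤ y := by
    have h1 := (abs_le.1 hr).2
    nlinarith
  have hy0 : 0 < y := by linarith
  set α1 : ℝ := x ^ (-(1 / 2) : ℝ) * y ^ (-(1 / 2) : ℝ) with hα1
  set α2 : ℝ := x⁻¹ with hα2
  set β1 : ℝ := Bu (y / Q) with hβ1
  set β2 : ℝ := Bu (x / Q) with hβ2
  set κ1 : ℂ := Kh t₀ D (Real.log x - Real.log y) with hκ1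
  set κ2 : ℂ := Kh t₀ D ((x - y) / x) with hκ2
  have hβ1' := bu_facts.2.1 (y / Q)
  have hβ2' := bu_facts.2.1 (x / Q)
  rw [← hβ1] at hβ1'
  rw [← hβ2] at hβ2'
  have hβ1n : 0 ≤ β1 := hβ1'.1
  have hβ2n : 0 ≤ β2 := hβ2'.1
  have e : k1 t₀ D Q x y - gr t₀ D Q (x - y) x =
      ((β2 : ℝ) : ℂ) * ((((α1 - α2) * β1 : ℝ) : ℂ) * κ1 + (((β1 - β2) * α2 : ℝ) : ℂ) * κ1 +
        ((α2 * β2 : ℝ) : ℂ) * (κ1 - κ2)) := by
    unfold k1 gr
    rw [← hκ1, ← hκ2, ← hβ1, ← hβ2, ← hα2, hα1]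
    push_cast
    ring
  have hα2pos : 0 < α2 := by positivity
  have hα2le : α2 ≤ 1 / Q := by
    rw [hα2, ← one_div]
    exact one_div_le_one_div_of_le hQ hx.le
  have hα1pos : 0 < α1 := by positivity
  have hα1sq : α1 ^ 2 = 1 / (x * y) := by
    rw [hα1, mul_pow, ← Real.rpow_natCast, ← Real.rpow_natCast, ← Real.rpow_mul hx0.le,
      ← Real.rpow_mul hy0.le]
    norm_num
    rw [Real.rpow_neg_one, Real.rpow_neg_one]
    ring
  have hdα : |α1 - α2| ≤ 2 * ρ / Q := by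
    have h1 : (α1 - α2) * (α1 + α2) = (x - y) / (x * y) * α2 := by
      have : (α1 - α2) * (α1 + α2) = α1 ^ 2 - α2 ^ 2 := by ring
      rw [this, hα1sq, hα2]
      field_simp
    have h2 : |α1 - α2| * (α1 + α2) = |x - y| / (x * y) * α2 := by
      have h3 := congrArg abs h1
      rw [abs_mul, abs_mul, abs_div, abs_of_pos (by positivity : 0 < α1 + α2),
        abs_of_pos (by positivity : 0 < x * y), abs_of_pos hα2pos] at h3
      exact h3
    have h4 : |α1 - α2| ≤ |x - y| / (x * y) := by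
      have h5 : |α1 - α2| * α2 ≤ |x - y| / (x * y) * α2 := by
        rw [← h2]
        exact mul_le_mul_of_nonneg_left (by linarith) (abs_nonneg _)
      exact le_of_mul_le_mul_right h5 hα2pos
    refine h4.trans ?_
    rw [div_le_div_iff₀ (by positivity) hQ]
    have h6 : 3 / 4 * Q * Q ≤ x * y := by
      nlinarith [mul_nonneg hQ.le hQ.le]
    calc |x - y| * Q ≤ ρ * Q * Q := mul_le_mul_of_nonneg_right hr hQ.le
      _ ≤ 2 * ρ * (3 / 4 * Q * Q) := by nlinarith [mul_nonneg hρ0 (mul_nonneg hQ.le hQ.le)]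
      _ ≤ 2 * ρ * (x * y) := mul_le_mul_of_nonneg_left h6 (by positivity)
  have hdβ : |β1 - β2| ≤ L * ρ := by
    refine (hL _ _).trans ?_
    apply mul_le_mul_of_nonneg_left _ hL0.le
    rw [← sub_div, abs_div, abs_of_pos hQ, div_le_iff₀ hQ, abs_sub_comm]
    exact hr
  have hs : |(x - y) / x| ≤ ρ := by
    rw [abs_div, abs_of_pos hx0, div_le_iff₀ hx0]
    exact hr.trans (mul_le_mul_of_nonneg_left hx.le hρ0)
  have hdκ : ‖κ1 - κ2‖ ≤ (|t₀| + D) * D * (2 * ρ ^ 2) := by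
    refine ((Kh_facts t₀ D hD).2 _ _).trans ?_
    apply mul_le_mul_of_nonneg_left _ (by positivity)
    have h1 : Real.log x - Real.log y = -Real.log (1 - (x - y) / x) := by
      have : 1 - (x - y) / x = y / x := by
        field_simp
        ring
      rw [this, Real.log_div hy0.ne' hx0.ne']
      ring
    rw [h1]
    refine (log_lin (hs.trans hρ)).trans ?_
    have h2 : ((x - y) / x) ^ 2 ≤ ρ ^ 2 := by
      rw [← sq_abs]
      exact pow_le_pow_left₀ (abs_nonneg _) hs 2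
    linarith
  have hκ1' : ‖κ1‖ ≤ D := Kh_le t₀ D _ hD
  rw [e, norm_mul, Complex.norm_real, Real.norm_eq_abs, abs_of_nonneg hβ2'.1]
  calc β2 * ‖(((α1 - α2) * β1 : ℝ) : ℂ) * κ1 + (((β1 - β2) * α2 : ℝ) : ℂ) * κ1 +
        ((α2 * β2 : ℝ) : ℂ) * (κ1 - κ2)‖
      ≤ 1 * (‖(((α1 - α2) * β1 : ℝ) : ℂ) * κ1‖ + ‖(((β1 - β2) * α2 : ℝ) : ℂ) * κ1‖ +
        ‖((α2 * β2 : ℝ) : ℂ) * (κ1 - κ2)‖) :=
        mul_le_mul hβ2'.2 (norm_add₃_le) (norm_nonneg _) zero_le_one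
    _ = |α1 - α2| * β1 * ‖κ1‖ + |β1 - β2| * α2 * ‖κ1‖ + α2 * β2 * ‖κ1 - κ2‖ := by
        rw [norm_mul, norm_mul, norm_mul, Complex.norm_real, Complex.norm_real,
          Complex.norm_real, Real.norm_eq_abs, Real.norm_eq_abs, Real.norm_eq_abs, abs_mul,
          abs_mul, abs_mul, abs_of_nonneg hβ1'.1, abs_of_pos hα2pos, abs_of_nonneg hβ2'.1]
        ring
    _ ≤ 2 * ρ / Q * 1 * D + L * ρ * (1 / Q) * D + 1 / Q * 1 * ((|t₀| + D) * D * (2 * ρ ^ 2)) := by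
        gcongr
        · exact hβ1'.2
        · exact hβ2'.2
    _ = 1 / Q * (2 * ρ * D + L * ρ * D + 2 * (|t₀| + D) * D * ρ ^ 2) := by ring

theorem log_far {x y : ℝ} (hx : 0 < x) (hy : 0 < y) {m : ℝ} (hxm : x ≤ m) (hym : y ≤ m) :
    |x - y| / m ≤ |Real.log x - Real.log y| := by
  have hm : 0 < m := hx.trans_le hxm
  have key : ∀ {x y : ℝ}, 0 < x → 0 < y → x ≤ m → y ≤ x →
      (x - y) / m ≤ Real.log x - Real.log y := by
    intro x y hx hy hxm hyx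
    have h1 := Real.one_sub_inv_le_log_of_pos (x := x / y) (by positivity)
    rw [Real.log_div hx.ne' hy.ne', inv_div] at h1
    refine le_trans ?_ h1
    have h2 : 1 - y / x = (x - y) / x := by field_simp
    rw [h2]
    exact div_le_div_of_nonneg_left (by linarith) hx hxm
  rcases le_total y x with h | h
  · rw [abs_of_nonneg (sub_nonneg.2 h)]
    exact (key hx hy hxm h).trans (le_abs_self _)
  · rw [abs_sub_comm x y, abs_of_nonneg (sub_nonneg.2 h), abs_sub_comm]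
    exact (key hy hx hym h).trans (le_abs_self _)

theorem k1_le (t₀ D Q x y : ℝ) (hx : 1 ≤ x) (hy : 1 ≤ y) :
    ‖k1 t₀ D Q x y‖ ≤ ‖Kh t₀ D (Real.log x - Real.log y)‖ := by
  unfold k1
  rw [norm_mul, Complex.norm_real, Real.norm_eq_abs]
  have h1 := bu_facts.2.1 (x / Q)
  have h2 := bu_facts.2.1 (y / Q)
  have h3 : x ^ (-(1 / 2) : ℝ) ≤ 1 := Real.rpow_le_one_of_one_le_of_nonpos hx (by norm_num)
  have h4 : y ^ (-(1 / 2) : ℝ) ≤ 1 := Real.rpow_le_one_of_one_le_of_nonpos hy (by norm_num)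
  have h5 : 0 ≤ x ^ (-(1 / 2) : ℝ) := by positivity
  have h6 : 0 ≤ y ^ (-(1 / 2) : ℝ) := by positivity
  have h7 : |x ^ (-(1 / 2) : ℝ) * Bu (x / Q) * (y ^ (-(1 / 2) : ℝ) * Bu (y / Q))| ≤ 1 := by
    rw [abs_of_nonneg (mul_nonneg (mul_nonneg h5 h1.1) (mul_nonneg h6 h2.1))]
    exact mul_le_one₀ (mul_le_one₀ h3 h1.1 h1.2) (mul_nonneg h6 h2.1) (mul_le_one₀ h4 h2.1 h2.2)
  calc _ ≤ 1 * ‖Kh t₀ D (Real.log x - Real.log y)‖ :=
        mul_le_mul_of_nonneg_right h7 (norm_nonneg _)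
    _ = _ := one_mul _

theorem k1_diag (t₀ D Q x : ℝ) (hD : 0 < D) (hQ : 0 < Q) (hx : Q < x) :
    ‖k1 t₀ D Q x x‖ ≤ D / Q := by
  have hx0 : 0 < x := hQ.trans hx
  unfold k1
  rw [norm_mul, Complex.norm_real, Real.norm_eq_abs]
  have h1 := bu_facts.2.1 (x / Q)
  have h2 : x ^ (-(1 / 2) : ℝ) * x ^ (-(1 / 2) : ℝ) = x⁻¹ := by
    rw [← Real.rpow_add hx0, ← Real.rpow_neg_one]
    norm_num
  have h3 : x ^ (-(1 / 2) : ℝ) * Bu (x / Q) * (x ^ (-(1 / 2) : ℝ) * Bu (x / Q)) =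
      x⁻¹ * (Bu (x / Q) * Bu (x / Q)) := by
    rw [← h2]; ring
  have h4 : |x⁻¹ * (Bu (x / Q) * Bu (x / Q))| ≤ 1 / Q := by
    rw [abs_of_nonneg (by have := h1.1; positivity)]
    calc x⁻¹ * (Bu (x / Q) * Bu (x / Q)) ≤ x⁻¹ * 1 :=
          mul_le_mul_of_nonneg_left (mul_le_one₀ h1.2 h1.1 h1.2) (by positivity)
      _ ≤ 1 / Q := by
          rw [mul_one, ← one_div]
          exact one_div_le_one_div_of_le hQ hx.le
  rw [h3]
  calc _ ≤ 1 / Q * D := mul_le_mul h4 (Kh_le t₀ D _ hD) (norm_nonneg _) (by positivity)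
    _ = D / Q := by ring

theorem bq_le (a : ℕ → ℂ) (ha : ∀ m, ‖a m‖ ≤ 1) (M n : ℕ) (hn : 1 ≤ n) :
    ‖bq a M n‖ ≤ n.divisors.card := by
  unfold bq
  calc ‖∑ m ∈ (Ioc M (2 * M)).filter (fun m => m ∣ n), a m‖
      ≤ ∑ m ∈ (Ioc M (2 * M)).filter (fun m => m ∣ n), ‖a m‖ := norm_sum_le _ _
    _ ≤ ∑ m ∈ (Ioc M (2 * M)).filter (fun m => m ∣ n), (1 : ℝ) :=
        Finset.sum_le_sum fun m _ => ha m
    _ = ((Ioc M (2 * M)).filter (fun m => m ∣ n)).card := by simp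
    _ ≤ n.divisors.card := by
        have : ((Ioc M (2 * M)).filter (fun m => m ∣ n)) ⊆ n.divisors := by
          intro m hm
          rw [Nat.mem_divisors]
          exact ⟨(Finset.mem_filter.1 hm).2, by omega⟩
        exact_mod_cast Finset.card_le_card this

/-- `T⁴ exp(-T^{2d}/(64π))` is bounded -/
theorem exp_bd (d : ℝ) (hd : 0 < d) : ∃ C : ℝ, 0 < C ∧ ∀ T : ℝ, 1 ≤ T →
    T ^ 4 * Real.exp (-(T ^ (2 * d) / (64 * Real.pi))) ≤ C := by
  set n : ℕ := ⌈2 / d⌉₊ with hn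
  have hpi := Real.pi_pos
  refine ⟨n.factorial * (64 * Real.pi) ^ n, by positivity, fun T hT => ?_⟩
  have hT0 : 0 < T := by linarith
  have h1 : T ^ 4 ≤ (T ^ (2 * d)) ^ n := by
    rw [← Real.rpow_natCast, ← Real.rpow_natCast, ← Real.rpow_mul hT0.le]
    apply Real.rpow_le_rpow_of_exponent_le hT
    have h2 : 2 / d ≤ n := Nat.le_ceil _
    rw [div_le_iff₀ hd] at h2
    push_cast
    linarith
  set y : ℝ := T ^ (2 * d) / (64 * Real.pi) with hy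
  have hy0 : 0 ≤ y := by positivity
  have h3 : y ^ n / n.factorial ≤ Real.exp y := Real.pow_div_factorial_le_exp y hy0 n
  have h4 : (T ^ (2 * d)) ^ n = (64 * Real.pi) ^ n * y ^ n := by
    rw [← mul_pow, hy]
    congr 1
    field_simp
  have h5 : y ^ n ≤ n.factorial * Real.exp y := by
    rw [div_le_iff₀ (by positivity)] at h3
    linarith
  rw [Real.exp_neg]
  have hexp := Real.exp_pos y
  rw [← div_eq_mul_inv, div_le_iff₀ hexp]
  calc T ^ 4 ≤ (64 * Real.pi) ^ n * y ^ n := by rw [← h4]; exact h1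
    _ ≤ (64 * Real.pi) ^ n * (n.factorial * Real.exp y) :=
        mul_le_mul_of_nonneg_left h5 (by positivity)
    _ = n.factorial * (64 * Real.pi) ^ n * Real.exp y := by ring

end TaskE

open TaskE

set_option maxHeartbeats 4000000 in
theorem lin (d : ℝ) (hd : 0 < d) (hd1 : d ≤ 1 / 100) : ∃ C T₁ : ℝ, 0 < C ∧ 1 ≤ T₁ ∧
    ∀ T : ℝ, T₁ ≤ T → ∀ t₀ ∈ Set.Icc T (2 * T), ∀ Q ∈ Set.Icc T (2 * T ^ 2), ∀ M : ℕ,
    ∀ a : ℕ → ℂ, (∀ m, ‖a m‖ ≤ 1) →
    ∫ t, Wg t₀ (T ^ (1 - d)) t * ‖Dp (cQ a M Q) ⌊4 * Q⌋₊ t‖ ^ 2 ≤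
      ‖SS a M t₀ (T ^ (1 - d)) Q ⌊Q * T ^ (2 * d - 1)⌋₊‖ + C * T ^ (1 + 8 * d) := by
  obtain ⟨L, hL0, hL⟩ := bu_facts.2.2.2.2
  obtain ⟨Ct, hCt, hdiv⟩ := Pool.Agent.Helper112.divisor_bound (d / 4) (by positivity)
  obtain ⟨Ce, hCe, hexp⟩ := exp_bd d hd
  refine ⟨100 * Ct ^ 2 * (4 + 16 * (8 + L) + 64 * Ce), 16, by positivity, by norm_num, ?_⟩
  intro T hT t₀ ht₀ Q hQ M a ha
  have hT1 : 1 ≤ T := by linarith
  have hT0 : 0 < T := by linarith
  have hQ1 : 1 ≤ Q := hT1.trans hQ.1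
  have hQ0 : 0 < Q := by linarith
  set D : ℝ := T ^ (1 - d) with hDdef
  have hD : 0 < D := by positivity
  set ρ : ℝ := T ^ (2 * d - 1) with hρdef
  have hρ0 : 0 < ρ := by positivity
  have hρ : ρ ≤ 1 / 4 := by
    have h1 : ρ ≤ T ^ (-(1 / 2) : ℝ) :=
      Real.rpow_le_rpow_of_exponent_le hT1 (by linarith)
    have h2 : T ^ (-(1 / 2) : ℝ) ≤ (16 : ℝ) ^ (-(1 / 2) : ℝ) :=
      Real.rpow_le_rpow_of_nonpos (by norm_num) hT (by norm_num)
    have h3 : (16 : ℝ) ^ (-(1 / 2) : ℝ) = 1 / 4 := by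
      rw [show (16 : ℝ) = 4 ^ (2 : ℝ) by norm_num, ← Real.rpow_mul (by norm_num)]
      norm_num
    linarith
  set R : ℕ := ⌊Q * ρ⌋₊ with hRdef
  have hRle : (R : ℝ) ≤ Q * ρ := Nat.floor_le (by positivity)
  have hRQ : (R : ℝ) ≤ Q := by nlinarith
  set B : ℝ := 10 * Ct * T ^ (d / 2) with hB
  have hB0 : 0 < B := by positivity
  have hB2 : B ^ 2 = 100 * Ct ^ 2 * T ^ d := by
    rw [hB, mul_pow, mul_pow, ← Real.rpow_natCast (T ^ (d / 2)), ← Real.rpow_mul hT0.le]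
    push_cast
    rw [show d / 2 * 2 = d by ring]
    norm_num
  have hbq : ∀ n : ℕ, 1 ≤ n → (n : ℝ) ≤ 5 * Q → ‖bq a M n‖ ≤ B := by
    intro n hn hn5
    refine (bq_le a ha M n hn).trans ((hdiv n hn).trans ?_)
    have h1 : (n : ℝ) ≤ 10 * T ^ 2 := by
      have := hQ.2
      linarith
    have h2 : (n : ℝ) ^ (d / 4) ≤ (10 * T ^ 2) ^ (d / 4) :=
      Real.rpow_le_rpow (by positivity) h1 (by positivity)
    have h3 : (10 * T ^ 2) ^ (d / 4) = 10 ^ (d / 4) * T ^ (d / 2) := by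
      rw [Real.mul_rpow (by norm_num) (by positivity), ← Real.rpow_natCast,
        ← Real.rpow_mul hT0.le]
      congr 2
      push_cast
      ring
    have h4 : (10 : ℝ) ^ (d / 4) ≤ 10 := by
      calc (10 : ℝ) ^ (d / 4) ≤ 10 ^ (1 : ℝ) :=
            Real.rpow_le_rpow_of_exponent_le (by norm_num) (by linarith)
        _ = 10 := Real.rpow_one _
    rw [h3] at h2
    calc Ct * (n : ℝ) ^ (d / 4) ≤ Ct * (10 ^ (d / 4) * T ^ (d / 2)) :=
          mul_le_mul_of_nonneg_left h2 hCt.le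
      _ ≤ Ct * (10 * T ^ (d / 2)) := by gcongr
      _ = B := by rw [hB]; ring
  -- the expansion
  set c : ℕ → ℂ := cQ a M Q with hc
  set K : ℕ := ⌊4 * Q⌋₊ with hK
  set X : ℕ → ℕ → ℂ := fun q p => c q * (starRingEnd ℂ) (c p) *
    Kh t₀ D (Real.log q - Real.log p) with hX
  have hXe : ∀ q p : ℕ, X q p = bq a M q * (starRingEnd ℂ) (bq a M p) * k1 t₀ D Q q p := by
    intro q p
    simp only [hX, hc]
    unfold cQ k1
    rw [map_mul, Complex.conj_ofReal]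
    push_cast
    ring
  have hkern := kern c K t₀ D hD
  have hI : ((∫ t, Wg t₀ D t * ‖Dp c K t‖ ^ 2 : ℝ) : ℂ) =
      ∑ q ∈ Icc 1 K, ∑ p ∈ Icc 1 K, X q p := hkern.2
  have hX1 : ∀ q p : ℕ, (q : ℝ) ≤ Q → X q p = 0 := by
    intro q p hq
    have : Bu ((q : ℝ) / Q) = 0 := bu_facts.2.2.1 _ ((div_le_one hQ0).2 hq)
    rw [hXe]
    unfold k1
    rw [this]
    simp
  have hX2 : ∀ q p : ℕ, 4 * Q ≤ (p : ℝ) → X q p = 0 := by
    intro q p hp
    have : Bu ((p : ℝ) / Q) = 0 := bu_facts.2.2.2.1 _ ((le_div_iff₀ hQ0).2 hp)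
    rw [hXe]
    unfold k1
    rw [this]
    simp
  have hsplit := split X Q R hRQ hX1 hX2
  have hSS := SS_eq a M t₀ D Q hQ0 R hRQ
  have hdiff : ((∫ t, Wg t₀ D t * ‖Dp c K t‖ ^ 2 : ℝ) : ℂ) - SS a M t₀ D Q R =
      ∑ q ∈ AA Q, (X q q + ∑ p ∈ NN R q, bq a M q * (starRingEnd ℂ) (bq a M p) *
        (k1 t₀ D Q q p - gr t₀ D Q ((q : ℝ) - p) (q : ℝ)) +
        ∑ p ∈ (Icc 1 K).filter (fun p => p ∉ Icc (q - R) (q + R)), X q p) := by
    rw [hI, hsplit, hSS, ← Finset.sum_sub_distrib]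
    refine Finset.sum_congr rfl fun q _ => ?_
    have : ∑ p ∈ NN R q, bq a M q * (starRingEnd ℂ) (bq a M p) *
        (k1 t₀ D Q q p - gr t₀ D Q ((q : ℝ) - p) (q : ℝ)) = ∑ p ∈ NN R q, X q p -
        ∑ p ∈ NN R q, bq a M q * (starRingEnd ℂ) (bq a M p) *
          gr t₀ D Q ((q : ℝ) - p) (q : ℝ) := by
      rw [← Finset.sum_sub_distrib]
      refine Finset.sum_congr rfl fun p _ => ?_
      rw [hXe]
      ring
    rw [this]
    ring
  -- bounds of the terms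
  have hAA : ∀ q ∈ AA Q, 1 ≤ q ∧ Q < (q : ℝ) ∧ (q : ℝ) ≤ 4 * Q := by
    intro q hq
    unfold AA at hq
    have h1 := Finset.mem_filter.1 hq
    have h2 := Finset.mem_Icc.1 h1.1
    exact ⟨h2.1, h1.2, (Nat.le_floor_iff (by positivity)).1 h2.2⟩
  set ex : ℝ := Real.exp (-(T ^ (2 * d) / (64 * Real.pi))) with hex
  have hex0 : 0 < ex := Real.exp_pos _
  have hbb : ∀ q p : ℕ, 1 ≤ q → 1 ≤ p → (q : ℝ) ≤ 5 * Q → (p : ℝ) ≤ 5 * Q →
      ‖bq a M q * (starRingEnd ℂ) (bq a M p)‖ ≤ B ^ 2 := by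
    intro q p hq hp hq5 hp5
    rw [norm_mul, RCLike.norm_conj, sq]
    exact mul_le_mul (hbq q hq hq5) (hbq p hp hp5) (norm_nonneg _) hB0.le
  have hterm1 : ∀ q ∈ AA Q, ‖X q q‖ ≤ B ^ 2 * (D / Q) := by
    intro q hq
    obtain ⟨h1, h2, h3⟩ := hAA q hq
    rw [hXe, norm_mul]
    exact mul_le_mul (hbb q q h1 h1 (by linarith) (by linarith)) (k1_diag t₀ D Q q hD hQ0 h2)
      (norm_nonneg _) (by positivity)
  have hρD : ρ * D = T ^ d := by
    rw [hρdef, hDdef, ← Real.rpow_add hT0]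
    congr 1
    ring
  have hTd3 : T ^ d ≤ T ^ (3 * d) := Real.rpow_le_rpow_of_exponent_le hT1 (by linarith)
  have hnear : 2 * ρ * D + L * ρ * D + 2 * (|t₀| + D) * D * ρ ^ 2 ≤ (8 + L) * T ^ (3 * d) := by
    have h1 : |t₀| + D ≤ 3 * T := by
      have h2 : |t₀| ≤ 2 * T := by
        rw [abs_of_nonneg (hT0.le.trans ht₀.1)]
        exact ht₀.2
      have h3 : D ≤ T := by
        calc D ≤ T ^ (1 : ℝ) := Real.rpow_le_rpow_of_exponent_le hT1 (by linarith)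
          _ = T := Real.rpow_one T
      linarith
    have h4 : T * D * ρ ^ 2 = T ^ (3 * d) := by
      have : T * D * ρ ^ 2 = T * (ρ * D) * ρ := by ring
      rw [this, hρD, hρdef]
      nth_rewrite 1 [← Real.rpow_one T]
      rw [← Real.rpow_add hT0, ← Real.rpow_add hT0]
      congr 1
      ring
    have h5 : 2 * (|t₀| + D) * D * ρ ^ 2 ≤ 6 * T ^ (3 * d) := by
      rw [← h4]
      have : 0 ≤ D * ρ ^ 2 := by positivity
      nlinarith
    have h6 : 2 * ρ * D + L * ρ * D = (2 + L) * T ^ d := by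
      rw [← hρD]; ring
    rw [h6]
    nlinarith
  have hNN : ∀ q ∈ AA Q, ∀ p ∈ NN R q, 1 ≤ p ∧ (p : ℝ) ≤ 5 * Q ∧ |(q : ℝ) - p| ≤ ρ * Q := by
    intro q hq p hp
    obtain ⟨h1, h2, h3⟩ := hAA q hq
    have hRq : R < q := by
      have : (R : ℝ) < q := lt_of_le_of_lt hRQ h2
      exact_mod_cast this
    unfold NN at hp
    rw [Finset.mem_erase, Finset.mem_Icc] at hp
    have h4 : (p : ℝ) ≤ q + R := by exact_mod_cast hp.2.2
    have h5 : (q : ℝ) ≤ p + R := by exact_mod_cast (by omega : q ≤ p + R)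
    refine ⟨by omega, by linarith, ?_⟩
    rw [abs_le]
    constructor <;> linarith
  have hterm2 : ∀ q ∈ AA Q, ∀ p ∈ NN R q, ‖bq a M q * (starRingEnd ℂ) (bq a M p) *
      (k1 t₀ D Q q p - gr t₀ D Q ((q : ℝ) - p) (q : ℝ))‖ ≤
      B ^ 2 * (1 / Q * ((8 + L) * T ^ (3 * d))) := by
    intro q hq p hp
    obtain ⟨h1, h2, h3⟩ := hAA q hq
    obtain ⟨g1, g2, g3⟩ := hNN q hq p hp
    rw [norm_mul]
    refine mul_le_mul (hbb q p h1 g1 (by linarith) g2) ?_ (norm_nonneg _) (by positivity)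
    refine (near hL hL0 t₀ D Q q p ρ hD hQ0 h2 hρ g3).trans ?_
    exact mul_le_mul_of_nonneg_left hnear (by positivity)
  have hterm3 : ∀ q ∈ AA Q, ∀ p ∈ (Icc 1 K).filter (fun p => p ∉ Icc (q - R) (q + R)),
      ‖X q p‖ ≤ B ^ 2 * (D * ex) := by
    intro q hq p hp
    obtain ⟨h1, h2, h3⟩ := hAA q hq
    obtain ⟨hp1, hp2⟩ := Finset.mem_filter.1 hp
    obtain ⟨g1, g2⟩ := Finset.mem_Icc.1 hp1
    have g3 : (p : ℝ) ≤ 4 * Q := (Nat.le_floor_iff (by positivity)).1 g2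
    have hRq : R < q := by
      have : (R : ℝ) < q := lt_of_le_of_lt hRQ h2
      exact_mod_cast this
    have hfar : ρ * Q ≤ |(q : ℝ) - p| := by
      rw [Finset.mem_Icc, not_and_or] at hp2
      have h4 : Q * ρ < R + 1 := Nat.lt_floor_add_one _
      rcases hp2 with h5 | h5
      · have h6 : (p : ℝ) + R + 1 ≤ q := by exact_mod_cast (by omega : p + R + 1 ≤ q)
        have h7 : (q : ℝ) - p ≤ |(q : ℝ) - p| := le_abs_self _
        linarith
      · have h6 : (q : ℝ) + R + 1 ≤ p := by exact_mod_cast (by omega : q + R + 1 ≤ p)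
        have h7 : -((q : ℝ) - p) ≤ |(q : ℝ) - p| := neg_le_abs _
        linarith
    rw [hXe, norm_mul]
    have hq1 : (1 : ℝ) ≤ q := by exact_mod_cast h1
    have hp1' : (1 : ℝ) ≤ p := by exact_mod_cast g1
    refine mul_le_mul (hbb q p h1 g1 (by linarith) (by linarith)) ?_ (norm_nonneg _)
      (by positivity)
    refine (k1_le t₀ D Q q p hq1 hp1').trans ?_
    rw [(Kh_facts t₀ D hD).1]
    apply mul_le_mul_of_nonneg_left _ hD.le
    apply Real.exp_le_exp.2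
    have hlog := log_far (x := q) (y := p) (by linarith) (by linarith) h3 g3
    have hu : ρ / 4 ≤ |Real.log q - Real.log p| := by
      refine le_trans ?_ hlog
      rw [le_div_iff₀ (by positivity)]
      linarith
    have hpi := Real.pi_pos
    have h8 : D ^ 2 * (ρ / 4) ^ 2 ≤ D ^ 2 * (Real.log q - Real.log p) ^ 2 := by
      rw [← sq_abs (Real.log q - Real.log p)]
      gcongr
    have h9 : D ^ 2 * (ρ / 4) ^ 2 = T ^ (2 * d) / 16 := by
      have : D ^ 2 * (ρ / 4) ^ 2 = (ρ * D) ^ 2 / 16 := by ring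
      rw [this, hρD, ← Real.rpow_natCast, ← Real.rpow_mul hT0.le]
      congr 2
      push_cast
      ring
    rw [h9] at h8
    have h10 : T ^ (2 * d) / (64 * Real.pi) ≤
        D ^ 2 * (Real.log q - Real.log p) ^ 2 / (4 * Real.pi) := by
      rw [div_le_div_iff₀ (by positivity) (by positivity)]
      nlinarith
    linarith
  -- cardinalities
  have hcardA : ((AA Q).card : ℝ) ≤ 4 * Q := by
    have h1 : (AA Q).card ≤ K := by
      unfold AA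
      refine (Finset.card_filter_le _ _).trans ?_
      simp [hK]
    have h2 : (K : ℝ) ≤ 4 * Q := Nat.floor_le (by positivity)
    have h3 : ((AA Q).card : ℝ) ≤ K := by exact_mod_cast h1
    linarith
  have hcardN : ∀ q ∈ AA Q, ((NN R q).card : ℝ) ≤ 2 * R := by
    intro q hq
    obtain ⟨h1, h2, h3⟩ := hAA q hq
    have hRq : R < q := by
      have : (R : ℝ) < q := lt_of_le_of_lt hRQ h2
      exact_mod_cast this
    have h4 : (NN R q).card = 2 * R := by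
      unfold NN
      rw [Finset.card_erase_of_mem (Finset.mem_Icc.2 ⟨by omega, by omega⟩), Nat.card_Icc]
      omega
    rw [h4]
    push_cast
    exact le_rfl
  have hcardF : ∀ q, (((Icc 1 K).filter (fun p => p ∉ Icc (q - R) (q + R))).card : ℝ) ≤
      4 * Q := by
    intro q
    have h1 : ((Icc 1 K).filter (fun p => p ∉ Icc (q - R) (q + R))).card ≤ K := by
      refine (Finset.card_filter_le _ _).trans ?_
      simp
    have h2 : (K : ℝ) ≤ 4 * Q := Nat.floor_le (by positivity)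
    have h3 : (((Icc 1 K).filter (fun p => p ∉ Icc (q - R) (q + R))).card : ℝ) ≤ K := by
      exact_mod_cast h1
    linarith
  have hq_bound : ∀ q ∈ AA Q, ‖X q q + ∑ p ∈ NN R q, bq a M q * (starRingEnd ℂ) (bq a M p) *
        (k1 t₀ D Q q p - gr t₀ D Q ((q : ℝ) - p) (q : ℝ)) +
        ∑ p ∈ (Icc 1 K).filter (fun p => p ∉ Icc (q - R) (q + R)), X q p‖ ≤
      B ^ 2 * (D / Q) + 2 * R * (B ^ 2 * (1 / Q * ((8 + L) * T ^ (3 * d)))) +
        4 * Q * (B ^ 2 * (D * ex)) := by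
    intro q hq
    refine (norm_add₃_le).trans ?_
    refine add_le_add (add_le_add (hterm1 q hq) ?_) ?_
    · calc _ ≤ ∑ p ∈ NN R q, ‖bq a M q * (starRingEnd ℂ) (bq a M p) *
            (k1 t₀ D Q q p - gr t₀ D Q ((q : ℝ) - p) (q : ℝ))‖ := norm_sum_le _ _
        _ ≤ ∑ p ∈ NN R q, B ^ 2 * (1 / Q * ((8 + L) * T ^ (3 * d))) :=
            Finset.sum_le_sum (hterm2 q hq)
        _ = (NN R q).card * (B ^ 2 * (1 / Q * ((8 + L) * T ^ (3 * d)))) := by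
            rw [Finset.sum_const, nsmul_eq_mul]
        _ ≤ _ := mul_le_mul_of_nonneg_right (hcardN q hq) (by positivity)
    · calc _ ≤ ∑ p ∈ (Icc 1 K).filter (fun p => p ∉ Icc (q - R) (q + R)), ‖X q p‖ :=
            norm_sum_le _ _
        _ ≤ ∑ p ∈ (Icc 1 K).filter (fun p => p ∉ Icc (q - R) (q + R)), B ^ 2 * (D * ex) :=
            Finset.sum_le_sum (hterm3 q hq)
        _ = ((Icc 1 K).filter (fun p => p ∉ Icc (q - R) (q + R))).card * (B ^ 2 * (D * ex)) := by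
            rw [Finset.sum_const, nsmul_eq_mul]
        _ ≤ _ := mul_le_mul_of_nonneg_right (hcardF q) (by positivity)
  have htotal : ‖((∫ t, Wg t₀ D t * ‖Dp c K t‖ ^ 2 : ℝ) : ℂ) - SS a M t₀ D Q R‖ ≤
      4 * Q * (B ^ 2 * (D / Q) + 2 * R * (B ^ 2 * (1 / Q * ((8 + L) * T ^ (3 * d)))) +
        4 * Q * (B ^ 2 * (D * ex))) := by
    rw [hdiff]
    refine (norm_sum_le _ _).trans ((Finset.sum_le_sum hq_bound).trans ?_)
    rw [Finset.sum_const, nsmul_eq_mul]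
    exact mul_le_mul_of_nonneg_right hcardA (by positivity)
  -- final estimate
  have hfin : 4 * Q * (B ^ 2 * (D / Q) + 2 * R * (B ^ 2 * (1 / Q * ((8 + L) * T ^ (3 * d)))) +
        4 * Q * (B ^ 2 * (D * ex))) ≤
      100 * Ct ^ 2 * (4 + 16 * (8 + L) + 64 * Ce) * T ^ (1 + 8 * d) := by
    have e1 : 4 * Q * (B ^ 2 * (D / Q) + 2 * R * (B ^ 2 * (1 / Q * ((8 + L) * T ^ (3 * d)))) +
        4 * Q * (B ^ 2 * (D * ex))) = 4 * (B ^ 2 * D) + 8 * R * (B ^ 2 * ((8 + L) * T ^ (3 * d))) +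
        16 * Q ^ 2 * (B ^ 2 * D * ex) := by
      field_simp
      ring
    have hBD : B ^ 2 * D = 100 * Ct ^ 2 * T := by
      rw [hB2, hDdef, mul_assoc, ← Real.rpow_add hT0]
      congr 1
      rw [show d + (1 - d) = 1 by ring, Real.rpow_one]
    have hR2 : (R : ℝ) ≤ 2 * T ^ (1 + 2 * d) := by
      calc (R : ℝ) ≤ Q * ρ := hRle
        _ ≤ 2 * T ^ 2 * ρ := mul_le_mul_of_nonneg_right hQ.2 hρ0.le
        _ = 2 * T ^ (1 + 2 * d) := by
            rw [mul_assoc, hρdef, ← Real.rpow_natCast T 2, ← Real.rpow_add hT0]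
            congr 2
            push_cast
            ring
    have hQ2 : Q ^ 2 ≤ 4 * T ^ 4 := by
      calc Q ^ 2 ≤ (2 * T ^ 2) ^ 2 := pow_le_pow_left₀ hQ0.le hQ.2 2
        _ = 4 * T ^ 4 := by ring
    have hTle : T ≤ T ^ (1 + 8 * d) := by
      calc T = T ^ (1 : ℝ) := (Real.rpow_one T).symm
        _ ≤ T ^ (1 + 8 * d) := Real.rpow_le_rpow_of_exponent_le hT1 (by linarith)
    rw [e1]
    have p1 : 4 * (B ^ 2 * D) ≤ 100 * Ct ^ 2 * 4 * T ^ (1 + 8 * d) := by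
      rw [hBD]
      have : 0 ≤ 100 * Ct ^ 2 * 4 := by positivity
      nlinarith
    have p2 : 8 * R * (B ^ 2 * ((8 + L) * T ^ (3 * d))) ≤
        100 * Ct ^ 2 * (16 * (8 + L)) * T ^ (1 + 8 * d) := by
      calc 8 * R * (B ^ 2 * ((8 + L) * T ^ (3 * d)))
          ≤ 8 * (2 * T ^ (1 + 2 * d)) * (B ^ 2 * ((8 + L) * T ^ (3 * d))) := by gcongr
        _ = 100 * Ct ^ 2 * (16 * (8 + L)) * (T ^ (1 + 2 * d) * T ^ d * T ^ (3 * d)) := by
            rw [hB2]; ring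
        _ = 100 * Ct ^ 2 * (16 * (8 + L)) * T ^ (1 + 6 * d) := by
            rw [← Real.rpow_add hT0, ← Real.rpow_add hT0]
            congr 2
            ring
        _ ≤ 100 * Ct ^ 2 * (16 * (8 + L)) * T ^ (1 + 8 * d) := by
            apply mul_le_mul_of_nonneg_left _ (by positivity)
            exact Real.rpow_le_rpow_of_exponent_le hT1 (by linarith)
    have p3 : 16 * Q ^ 2 * (B ^ 2 * D * ex) ≤ 100 * Ct ^ 2 * (64 * Ce) * T ^ (1 + 8 * d) := by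
      rw [hBD]
      calc 16 * Q ^ 2 * (100 * Ct ^ 2 * T * ex) ≤ 16 * (4 * T ^ 4) * (100 * Ct ^ 2 * T * ex) := by
            gcongr
        _ = 100 * Ct ^ 2 * 64 * T * (T ^ 4 * ex) := by ring
        _ ≤ 100 * Ct ^ 2 * 64 * T * Ce :=
            mul_le_mul_of_nonneg_left (hexp T hT1) (by positivity)
        _ = 100 * Ct ^ 2 * (64 * Ce) * T := by ring
        _ ≤ _ := mul_le_mul_of_nonneg_left hTle (by positivity)
    calc _ ≤ 100 * Ct ^ 2 * 4 * T ^ (1 + 8 * d) + 100 * Ct ^ 2 * (16 * (8 + L)) * T ^ (1 + 8 * d) +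
          100 * Ct ^ 2 * (64 * Ce) * T ^ (1 + 8 * d) := add_le_add (add_le_add p1 p2) p3
      _ = _ := by ring
  calc ∫ t, Wg t₀ D t * ‖Dp c K t‖ ^ 2
      ≤ ‖((∫ t, Wg t₀ D t * ‖Dp c K t‖ ^ 2 : ℝ) : ℂ)‖ := by
        rw [Complex.norm_real, Real.norm_eq_abs]
        exact le_abs_self _
    _ = ‖SS a M t₀ D Q R + (((∫ t, Wg t₀ D t * ‖Dp c K t‖ ^ 2 : ℝ) : ℂ) -
          SS a M t₀ D Q R)‖ := by
        rw [add_sub_cancel]
    _ ≤ ‖SS a M t₀ D Q R‖ + ‖((∫ t, Wg t₀ D t * ‖Dp c K t‖ ^ 2 : ℝ) : ℂ) -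
          SS a M t₀ D Q R‖ := norm_add_le _ _
    _ ≤ _ := by
        have := htotal.trans hfin
        linarith

end Pool.Agent.H442R2.TSM
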