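import Pool.Agent.H442R2.TSM.Defs

set_option autoImplicit false

/-!
TSM project, task TA: oscillatory integrals and the bumps.
-/

namespace Pool.Agent.H442R2.TSM

open Finset MeasureTheory

namespace TaskTA

theorem tst_mul {ψ φ : ℝ → ℂ} (hψ : Tst ψ)
    (hφ : ∀ u, 0 < u → ContDiffAt ℝ ((⊤ : ℕ∞) : WithTop ℕ∞) φ u) : Tst (fun u => ψ u * φ u) := by
  refine ⟨?_, fun u hu => by rw [hψ.supp u hu, zero_mul]⟩
  rw [contDiff_iff_contDiffAt]
  intro u
  rcases lt_or_ge 0 u with h | h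
  · exact hψ.smooth.contDiffAt.mul (hφ u h)
  · have h1 : (fun u => ψ u * φ u) =ᶠ[nhds u] fun _ => 0 := by
      have : ∀ᶠ v in nhds u, v < 1 := gt_mem_nhds (by linarith)
      filter_upwards [this] with v hv
      rw [hψ.supp v (fun h => by linarith [h.1]), zero_mul]
    exact (contDiffAt_const (c := (0 : ℂ))).congr_of_eventuallyEq h1

theorem tst_deriv {ψ : ℝ → ℂ} (hψ : Tst ψ) : Tst (deriv ψ) := by
  refine ⟨?_, ?_⟩
  · exact (contDiff_infty_iff_deriv.mp hψ.smooth).2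
  · intro u hu
    have h1 : ψ =ᶠ[nhds u] fun _ => 0 := by
      have : (Set.Icc (1 : ℝ) 4)ᶜ ∈ nhds u := isClosed_Icc.isOpen_compl.mem_nhds hu
      filter_upwards [this] with v hv
      exact hψ.supp v hv
    rw [h1.deriv_eq]; simp

theorem tst_inv {ψ : ℝ → ℂ} (hψ : Tst ψ) (k : ℕ) : Tst (fun u => ψ u * (((u ^ k)⁻¹ : ℝ) : ℂ)) := by
  apply tst_mul hψ
  intro u hu
  have h1 : ContDiffAt ℝ ((⊤ : ℕ∞) : WithTop ℕ∞) (fun u : ℝ => (u ^ k)⁻¹) u :=
    (contDiffAt_id.pow k).inv (by positivity)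
  exact Complex.ofRealCLM.contDiff.contDiffAt.comp u h1

theorem tst_id {ψ : ℝ → ℂ} (hψ : Tst ψ) : Tst (fun u => ψ u * (u : ℂ)) := by
  apply tst_mul hψ
  intro u hu
  exact Complex.ofRealCLM.contDiff.contDiffAt

theorem EE_smooth (τ ρ σ u : ℝ) (hu : 0 < u) :
    ContDiffAt ℝ ((⊤ : ℕ∞) : WithTop ℕ∞) (EE τ ρ σ) u := by
  unfold EE
  apply ContDiffAt.cexp
  apply ContDiffAt.sub
  · apply ContDiffAt.mul _ contDiffAt_const
    apply ContDiffAt.neg
    have h1 : ContDiffAt ℝ ((⊤ : ℕ∞) : WithTop ℕ∞) (fun u : ℝ => τ * Real.log u + ρ / u) u :=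
      (contDiffAt_const.mul (Real.contDiffAt_log.mpr hu.ne')).add
        (contDiffAt_const.div contDiffAt_id hu.ne')
    exact Complex.ofRealCLM.contDiff.contDiffAt.comp u h1
  · have h1 : ContDiffAt ℝ ((⊤ : ℕ∞) : WithTop ℕ∞) (fun u : ℝ => σ / u ^ 2) u :=
      contDiffAt_const.div (contDiffAt_id.pow 2) (by positivity)
    exact Complex.ofRealCLM.contDiff.contDiffAt.comp u h1

theorem EE_deriv (τ ρ σ u : ℝ) (hu : 0 < u) :
    HasDerivAt (EE τ ρ σ) (EE τ ρ σ u * (-((τ * u⁻¹ - ρ * (u ^ 2)⁻¹ : ℝ) : ℂ) * Complex.I +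
      ((2 * σ * (u ^ 3)⁻¹ : ℝ) : ℂ))) u := by
  unfold EE
  apply HasDerivAt.cexp
  have h1 : HasDerivAt (fun u : ℝ => τ * Real.log u + ρ / u) (τ * u⁻¹ - ρ * (u ^ 2)⁻¹) u := by
    have a := (Real.hasDerivAt_log hu.ne').const_mul τ
    have b := (hasDerivAt_inv hu.ne').const_mul ρ
    have c := a.add b
    refine (c.congr_deriv ?_).congr_of_eventuallyEq (Filter.Eventually.of_forall fun v => ?_)
    · ring
    · simp [div_eq_mul_inv]
  have h2 : HasDerivAt (fun u : ℝ => σ / u ^ 2) (-(2 * σ * (u ^ 3)⁻¹)) u := by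
    have a := (((hasDerivAt_id u).pow 2).inv (by simpa using hu.ne')).const_mul σ
    refine (a.congr_deriv ?_).congr_of_eventuallyEq (Filter.Eventually.of_forall fun v => ?_)
    · simp
      field_simp
    · simp [div_eq_mul_inv]
  have h3 := (h1.ofReal_comp.neg.mul_const Complex.I).sub h2.ofReal_comp
  refine h3.congr_deriv ?_
  push_cast
  ring

theorem EE_norm (τ ρ σ u : ℝ) (hσ : 0 ≤ σ) : ‖EE τ ρ σ u‖ ≤ 1 := by
  unfold EE
  rw [Complex.norm_exp]
  have : (-((τ * Real.log u + ρ / u : ℝ) : ℂ) * Complex.I - ((σ / u ^ 2 : ℝ) : ℂ)).re =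
      -(σ / u ^ 2) := by
    simp
    norm_cast
  rw [this]
  have h2 : 0 ≤ σ / u ^ 2 := by positivity
  rw [Real.exp_le_one_iff]
  linarith

theorem tst_cs {ψ : ℝ → ℂ} (hψ : Tst ψ) : HasCompactSupport ψ :=
  HasCompactSupport.intro isCompact_Icc hψ.supp

theorem tst_cont {ψ : ℝ → ℂ} (hψ : Tst ψ) : Continuous ψ := hψ.smooth.continuous

theorem tst_int {ψ : ℝ → ℂ} (hψ : Tst ψ) : Integrable ψ :=
  (tst_cont hψ).integrable_of_hasCompactSupport (tst_cs hψ)

theorem e_cont (w : ℝ) : Continuous (fun u => KF.e (-(w * u))) := by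
  unfold KF.e
  fun_prop

theorem tst_int' {ψ : ℝ → ℂ} (hψ : Tst ψ) (w : ℝ) : Integrable (fun u => ψ u * KF.e (-(w * u))) :=
  ((tst_cont hψ).mul (e_cont w)).integrable_of_hasCompactSupport ((tst_cs hψ).mul_right)

theorem tst_hasDeriv {ψ : ℝ → ℂ} (hψ : Tst ψ) (u : ℝ) : HasDerivAt ψ (deriv ψ u) u :=
  (hψ.smooth.differentiable (by simp) u).hasDerivAt

theorem e_deriv (w u : ℝ) : HasDerivAt (fun u => KF.e (-(w * u)))
    (-(2 * Real.pi * Complex.I * w) * KF.e (-(w * u))) u := by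
  unfold KF.e
  have h1 : HasDerivAt (fun u : ℝ => 2 * Real.pi * -(w * u)) (-(2 * Real.pi * w)) u := by
    have := ((hasDerivAt_id u).const_mul w).neg.const_mul (2 * Real.pi)
    refine this.congr_deriv ?_
    ring
  have h2 := (h1.ofReal_comp.mul_const Complex.I).cexp
  refine h2.congr_deriv ?_
  push_cast
  ring

/-- integration by parts -/
theorem Fh_deriv {ψ : ℝ → ℂ} (hψ : Tst ψ) (w : ℝ) :
    Fh (deriv ψ) w = 2 * Real.pi * Complex.I * w * Fh ψ w := by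
  unfold Fh
  have hd := tst_deriv hψ
  have h1 := integral_mul_deriv_eq_deriv_mul_of_integrable (u := fun u => KF.e (-(w * u)))
    (u' := fun u => -(2 * Real.pi * Complex.I * w) * KF.e (-(w * u))) (v := ψ) (v' := deriv ψ)
    (fun x _ => e_deriv w x) (fun x _ => tst_hasDeriv hψ x)
    (by
      have := tst_int' hd w
      refine this.congr (Filter.Eventually.of_forall fun u => ?_)
      simp [mul_comm])
    (by
      have := (tst_int' hψ w).const_mul (-(2 * Real.pi * Complex.I * w))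
      refine this.congr (Filter.Eventually.of_forall fun u => ?_)
      simp only [Pi.mul_apply]; ring)
    (by
      have := tst_int' hψ w
      refine this.congr (Filter.Eventually.of_forall fun u => ?_)
      simp [mul_comm])
  have h2 : ∫ u, deriv ψ u * KF.e (-(w * u)) = ∫ u, KF.e (-(w * u)) * deriv ψ u :=
    integral_congr_ae (Filter.Eventually.of_forall fun u => mul_comm _ _)
  rw [h2, h1, ← integral_neg, ← integral_const_mul]
  refine integral_congr_ae (Filter.Eventually.of_forall fun u => ?_)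
  simp only
  ring

theorem int_deriv {ψ : ℝ → ℂ} (hψ : Tst ψ) : ∫ u, deriv ψ u = 0 := by
  have h := Fh_deriv hψ 0
  unfold Fh at h
  simpa [KF.e_zero] using h

theorem int4 {f0 f1 f2 f3 : ℝ → ℂ} (h0 : Integrable f0) (h1 : Integrable f1)
    (h2 : Integrable f2) (h3 : Integrable f3) (c1 c2 c3 : ℂ) :
    ∫ u, (f0 u + c1 * f1 u + c2 * f2 u + c3 * f3 u) =
      (∫ u, f0 u) + c1 * (∫ u, f1 u) + c2 * (∫ u, f2 u) + c3 * (∫ u, f3 u) := by
  have a1 := h1.const_mul c1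
  have a2 := h2.const_mul c2
  have a3 := h3.const_mul c3
  have b1 : ∫ u, (f0 u + c1 * f1 u) = (∫ u, f0 u) + c1 * (∫ u, f1 u) := by
    rw [← integral_const_mul]; exact integral_add h0 a1
  have b2 : ∫ u, (f0 u + c1 * f1 u + c2 * f2 u) =
      (∫ u, (f0 u + c1 * f1 u)) + c2 * (∫ u, f2 u) := by
    rw [← integral_const_mul]; exact integral_add (h0.add a1) a2
  have b3 : ∫ u, (f0 u + c1 * f1 u + c2 * f2 u + c3 * f3 u) =
      (∫ u, (f0 u + c1 * f1 u + c2 * f2 u)) + c3 * (∫ u, f3 u) := by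
    rw [← integral_const_mul]; exact integral_add ((h0.add a1).add a2) a3
  rw [b3, b2, b1]

/-- the derivative of `ψ EE` -/
theorem deriv_mul_EE {ψ : ℝ → ℂ} (hψ : Tst ψ) (τ ρ σ : ℝ) :
    deriv (fun u => ψ u * EE τ ρ σ u) = fun u => deriv ψ u * EE τ ρ σ u +
      (-(τ : ℂ) * Complex.I) * ((ψ u * (((u ^ 1)⁻¹ : ℝ) : ℂ)) * EE τ ρ σ u) +
      ((ρ : ℂ) * Complex.I) * ((ψ u * (((u ^ 2)⁻¹ : ℝ) : ℂ)) * EE τ ρ σ u) +
      (2 * (σ : ℂ)) * ((ψ u * (((u ^ 3)⁻¹ : ℝ) : ℂ)) * EE τ ρ σ u) := by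
  funext u
  rcases lt_or_ge 0 u with h | h
  · have h1 := (tst_hasDeriv hψ u).mul (EE_deriv τ ρ σ u h)
    have h2 : deriv (fun u => ψ u * EE τ ρ σ u) u = _ := h1.deriv
    rw [h2]
    push_cast
    ring
  · have h1 : (fun u => ψ u * EE τ ρ σ u) =ᶠ[nhds u] fun _ => 0 := by
      have : ∀ᶠ v in nhds u, v < 1 := gt_mem_nhds (by linarith)
      filter_upwards [this] with v hv
      rw [hψ.supp v (fun h => by linarith [h.1]), zero_mul]
    rw [h1.deriv_eq]
    have h2 : u ∉ Set.Icc (1 : ℝ) 4 := fun h' => by linarith [h'.1]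
    rw [hψ.supp u h2, (tst_deriv hψ).supp u h2]
    simp

end TaskTA

open TaskTA

theorem osc_tst (ψ : ℝ → ℂ) (hψ : Tst ψ) (τ ρ σ : ℝ) : Tst (fun u => ψ u * EE τ ρ σ u) :=
  tst_mul hψ fun u hu => EE_smooth τ ρ σ u hu

theorem osc_fourier (ψ : ℝ → ℂ) (hψ : Tst ψ) (A : ℕ) : ∃ C : ℝ, 0 < C ∧ ∀ τ ρ σ : ℝ, 0 ≤ σ →
    ∀ w : ℝ, w ≠ 0 →
    ‖Fh (fun u => ψ u * EE τ ρ σ u) w‖ ≤ C * ((1 + |τ| + |ρ| + σ) / |w|) ^ A := by
  induction A generalizing ψ with
  | zero =>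
    refine ⟨(∫ u, ‖ψ u‖) + 1, by have : 0 ≤ ∫ u, ‖ψ u‖ := by positivity
                                 linarith, ?_⟩
    intro τ ρ σ hσ w hw
    rw [pow_zero, mul_one]
    unfold Fh
    calc ‖∫ u, ψ u * EE τ ρ σ u * KF.e (-(w * u))‖ ≤ ∫ u, ‖ψ u * EE τ ρ σ u * KF.e (-(w * u))‖ :=
          norm_integral_le_integral_norm _
      _ ≤ ∫ u, ‖ψ u‖ := by
          refine integral_mono ((tst_int' (osc_tst ψ hψ τ ρ σ) w).norm) (tst_int hψ).norm fun u => ?_
          show ‖ψ u * EE τ ρ σ u * KF.e (-(w * u))‖ ≤ ‖ψ u‖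
          rw [norm_mul, norm_mul, KF.norm_e, mul_one]
          exact mul_le_of_le_one_right (norm_nonneg _) (EE_norm τ ρ σ u hσ)
      _ ≤ _ := by linarith
  | succ A ih =>
    obtain ⟨C0, hC0, h0⟩ := ih _ (tst_deriv hψ)
    obtain ⟨C1, hC1, h1⟩ := ih _ (tst_inv hψ 1)
    obtain ⟨C2, hC2, h2⟩ := ih _ (tst_inv hψ 2)
    obtain ⟨C3, hC3, h3⟩ := ih _ (tst_inv hψ 3)
    refine ⟨C0 + C1 + C2 + 2 * C3, by positivity, ?_⟩
    intro τ ρ σ hσ w hw
    have hT := osc_tst ψ hψ τ ρ σ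
    have T0 := osc_tst _ (tst_deriv hψ) τ ρ σ
    have T1 := osc_tst _ (tst_inv hψ 1) τ ρ σ
    have T2 := osc_tst _ (tst_inv hψ 2) τ ρ σ
    have T3 := osc_tst _ (tst_inv hψ 3) τ ρ σ
    have key := Fh_deriv hT w
    have h4 : Fh (deriv (fun u => ψ u * EE τ ρ σ u)) w =
        Fh (fun u => deriv ψ u * EE τ ρ σ u) w +
        (-(τ : ℂ) * Complex.I) * Fh (fun u => (ψ u * (((u ^ 1)⁻¹ : ℝ) : ℂ)) * EE τ ρ σ u) w +
        ((ρ : ℂ) * Complex.I) * Fh (fun u => (ψ u * (((u ^ 2)⁻¹ : ℝ) : ℂ)) * EE τ ρ σ u) w +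
        (2 * (σ : ℂ)) * Fh (fun u => (ψ u * (((u ^ 3)⁻¹ : ℝ) : ℂ)) * EE τ ρ σ u) w := by
      rw [deriv_mul_EE hψ]
      unfold Fh
      rw [← int4 (tst_int' T0 w) (tst_int' T1 w) (tst_int' T2 w) (tst_int' T3 w)]
      refine integral_congr_ae (Filter.Eventually.of_forall fun u => ?_)
      simp only
      ring
    rw [h4] at key
    set X := 1 + |τ| + |ρ| + σ with hX
    have hX1 : 1 ≤ X := by rw [hX]; nlinarith [abs_nonneg τ, abs_nonneg ρ]
    have hw0 : 0 < |w| := abs_pos.mpr hw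
    set P := (X / |w|) ^ A with hP
    have hP0 : 0 ≤ P := by rw [hP]; positivity
    have a0 := h0 τ ρ σ hσ w hw
    have a1 := h1 τ ρ σ hσ w hw
    have a2 := h2 τ ρ σ hσ w hw
    have a3 := h3 τ ρ σ hσ w hw
    have b : ‖2 * Real.pi * Complex.I * w * Fh (fun u => ψ u * EE τ ρ σ u) w‖ ≤
        (C0 + C1 + C2 + 2 * C3) * (X * P) := by
      rw [← key]
      refine (norm_add_le _ _).trans ?_
      refine (add_le_add_left (norm_add_le _ _) _).trans ?_
      refine (add_le_add_left (add_le_add_left (norm_add_le _ _) _) _).trans ?_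
      rw [norm_mul, norm_mul, norm_mul, norm_mul, norm_mul, norm_mul, norm_neg, Complex.norm_I,
        mul_one, mul_one, Complex.norm_real, Complex.norm_real, Complex.norm_real,
        Real.norm_eq_abs, Real.norm_eq_abs, Real.norm_eq_abs, abs_of_nonneg hσ]
      have e2 : ‖(2 : ℂ)‖ = 2 := by simp
      rw [e2]
      have hτX : |τ| ≤ X := by rw [hX]; linarith [abs_nonneg ρ]
      have hρX : |ρ| ≤ X := by rw [hX]; linarith [abs_nonneg τ]
      have hσX : σ ≤ X := by rw [hX]; linarith [abs_nonneg τ, abs_nonneg ρ]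
      have c0 : ‖Fh (fun u => deriv ψ u * EE τ ρ σ u) w‖ ≤ C0 * (X * P) :=
        a0.trans (mul_le_mul_of_nonneg_left (le_mul_of_one_le_left hP0 hX1) hC0.le)
      have c1 : |τ| * ‖Fh (fun u => (ψ u * (((u ^ 1)⁻¹ : ℝ) : ℂ)) * EE τ ρ σ u) w‖ ≤
          C1 * (X * P) := by
        calc _ ≤ X * (C1 * P) := mul_le_mul hτX a1 (norm_nonneg _) (by linarith)
          _ = _ := by ring
      have c2 : |ρ| * ‖Fh (fun u => (ψ u * (((u ^ 2)⁻¹ : ℝ) : ℂ)) * EE τ ρ σ u) w‖ ≤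
          C2 * (X * P) := by
        calc _ ≤ X * (C2 * P) := mul_le_mul hρX a2 (norm_nonneg _) (by linarith)
          _ = _ := by ring
      have c3 : 2 * σ * ‖Fh (fun u => (ψ u * (((u ^ 3)⁻¹ : ℝ) : ℂ)) * EE τ ρ σ u) w‖ ≤
          2 * C3 * (X * P) := by
        calc _ ≤ 2 * X * (C3 * P) := mul_le_mul (by linarith) a3 (norm_nonneg _) (by linarith)
          _ = _ := by ring
      linarith
    have e1 : ‖2 * Real.pi * Complex.I * w * Fh (fun u => ψ u * EE τ ρ σ u) w‖ =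
        2 * Real.pi * |w| * ‖Fh (fun u => ψ u * EE τ ρ σ u) w‖ := by
      rw [norm_mul, norm_mul, norm_mul, norm_mul, Complex.norm_I, Complex.norm_real,
        Complex.norm_real, Real.norm_eq_abs, Real.norm_eq_abs, abs_of_pos Real.pi_pos]
      simp
    rw [e1] at b
    have hpi : 1 ≤ 2 * Real.pi := by linarith [Real.pi_gt_three]
    have b2 : |w| * ‖Fh (fun u => ψ u * EE τ ρ σ u) w‖ ≤ (C0 + C1 + C2 + 2 * C3) * (X * P) := by
      refine le_trans ?_ b
      rw [mul_assoc (2 * Real.pi)]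
      exact le_mul_of_one_le_left (by positivity) hpi
    have e3 : (C0 + C1 + C2 + 2 * C3) * (X / |w|) ^ (A + 1) =
        (C0 + C1 + C2 + 2 * C3) * (X * P) / |w| := by
      rw [pow_succ, hP]; ring
    rw [e3, le_div_iff₀ hw0, mul_comm]
    exact b2

theorem osc_zero (ψ : ℝ → ℂ) (hψ : Tst ψ) (A : ℕ) : ∃ C : ℝ, 0 < C ∧ ∀ τ : ℝ, τ ≠ 0 →
    ‖∫ u, ψ u * EE τ 0 0 u‖ ≤ C / |τ| ^ A := by
  induction A generalizing ψ with
  | zero =>
    refine ⟨(∫ u, ‖ψ u‖) + 1, by have : 0 ≤ ∫ u, ‖ψ u‖ := by positivity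
                                 linarith, ?_⟩
    intro τ _
    rw [pow_zero, div_one]
    calc ‖∫ u, ψ u * EE τ 0 0 u‖ ≤ ∫ u, ‖ψ u * EE τ 0 0 u‖ :=
          norm_integral_le_integral_norm _
      _ ≤ ∫ u, ‖ψ u‖ := by
          refine integral_mono ((tst_int (osc_tst ψ hψ τ 0 0)).norm) (tst_int hψ).norm fun u => ?_
          show ‖ψ u * EE τ 0 0 u‖ ≤ ‖ψ u‖
          rw [norm_mul]
          exact mul_le_of_le_one_right (norm_nonneg _) (EE_norm τ 0 0 u le_rfl)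
      _ ≤ _ := by linarith
  | succ A ih =>
    have hψ1 := tst_id hψ
    obtain ⟨C, hC, h⟩ := ih _ (tst_deriv hψ1)
    refine ⟨C, hC, ?_⟩
    intro τ hτ
    have hT := osc_tst _ hψ1 τ 0 0
    have T0 := osc_tst _ (tst_deriv hψ1) τ 0 0
    have T1 := osc_tst _ hψ τ 0 0
    have key := int_deriv hT
    have h4 : ∫ u, deriv (fun u => ψ u * (u : ℂ) * EE τ 0 0 u) u =
        (∫ u, deriv (fun u => ψ u * (u : ℂ)) u * EE τ 0 0 u) +
        (-(τ : ℂ) * Complex.I) * ∫ u, ψ u * EE τ 0 0 u := by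
      rw [← integral_const_mul, ← integral_add (tst_int T0) ((tst_int T1).const_mul _)]
      refine integral_congr_ae (Filter.Eventually.of_forall fun u => ?_)
      simp only
      rw [deriv_mul_EE hψ1]
      by_cases hu : u = 0
      · subst hu
        rw [hψ.supp 0 (by simp)]
        simp
      · have hu' : (u : ℂ) ≠ 0 := by exact_mod_cast hu
        push_cast
        field_simp
        ring
    rw [h4] at key
    have h5 : ‖(-(τ : ℂ) * Complex.I) * ∫ u, ψ u * EE τ 0 0 u‖ =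
        ‖∫ u, deriv (fun u => ψ u * (u : ℂ)) u * EE τ 0 0 u‖ := by
      have : (-(τ : ℂ) * Complex.I) * ∫ u, ψ u * EE τ 0 0 u =
          -∫ u, deriv (fun u => ψ u * (u : ℂ)) u * EE τ 0 0 u := by
        linear_combination key
      rw [this, norm_neg]
    rw [norm_mul, norm_mul, norm_neg, Complex.norm_I, mul_one, Complex.norm_real,
      Real.norm_eq_abs] at h5
    have h6 := h τ hτ
    rw [← h5] at h6
    have hτ0 : 0 < |τ| := abs_pos.mpr hτ
    rw [pow_succ, le_div_iff₀ (by positivity)]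
    rw [le_div_iff₀ (by positivity)] at h6
    calc _ = |τ| * ‖∫ u, ψ u * EE τ 0 0 u‖ * |τ| ^ A := by ring
      _ ≤ C := h6

/-- `Cu` is smooth, values in `[0,1]`, `1` for `x ≤ 1`, `0` for `x ≥ 2` -/
theorem cu_facts : ContDiff ℝ ((⊤ : ℕ∞) : WithTop ℕ∞) Cu ∧ (∀ x, 0 ≤ Cu x ∧ Cu x ≤ 1) ∧
    (∀ x, x ≤ 1 → Cu x = 1) ∧ (∀ x, 2 ≤ x → Cu x = 0) := by
  refine ⟨?_, fun x => ⟨Real.smoothTransition.nonneg _, Real.smoothTransition.le_one _⟩,
    fun x hx => Real.smoothTransition.one_of_one_le (by linarith),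
    fun x hx => Real.smoothTransition.zero_of_nonpos (by linarith)⟩
  exact Real.smoothTransition.contDiff.comp (contDiff_const.sub contDiff_id)

/-- `Bu` is smooth, values in `[0,1]`, zero outside `(1,4)`, and Lipschitz (on `[1,2]` it is
`1 - Cu x`, on `[2,4]` it is `Cu (x/2)`) -/
theorem bu_facts : ContDiff ℝ ((⊤ : ℕ∞) : WithTop ℕ∞) Bu ∧ (∀ x, 0 ≤ Bu x ∧ Bu x ≤ 1) ∧
    (∀ x, x ≤ 1 → Bu x = 0) ∧ (∀ x, 4 ≤ x → Bu x = 0) ∧
    (∃ L : ℝ, 0 < L ∧ ∀ x y, |Bu x - Bu y| ≤ L * |x - y|) := by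
  obtain ⟨h1, h2, h3, h4⟩ := cu_facts
  have hs : ContDiff ℝ ((⊤ : ℕ∞) : WithTop ℕ∞) Bu :=
    (h1.comp (contDiff_id.div_const 2)).sub h1
  have hz1 : ∀ x, x ≤ 1 → Bu x = 0 := fun x hx => by
    unfold Bu; rw [h3 x hx, h3 (x / 2) (by linarith), sub_self]
  have hz4 : ∀ x, 4 ≤ x → Bu x = 0 := fun x hx => by
    unfold Bu; rw [h4 x (by linarith), h4 (x / 2) (by linarith), sub_self]
  refine ⟨hs, ?_, hz1, hz4, ?_⟩
  · intro x
    rcases le_total x 2 with hx | hx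
    · unfold Bu
      rw [h3 (x / 2) (by linarith)]
      have := h2 x
      constructor <;> linarith [this.1, this.2]
    · unfold Bu
      rw [h4 x hx, sub_zero]
      exact h2 _
  · have hc : HasCompactSupport Bu := HasCompactSupport.intro (K := Set.Icc 1 4) isCompact_Icc
      (fun x hx => by
        rcases lt_or_ge x 1 with h | h
        · exact hz1 x h.le
        · exact hz4 x (by
            by_contra h'
            exact hx ⟨h, by linarith⟩))
    obtain ⟨L, hL⟩ := ContDiff.lipschitzWith_of_hasCompactSupport hc hs (by simp)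
    refine ⟨L + 1, by positivity, fun x y => ?_⟩
    have := hL.dist_le_mul x y
    rw [Real.dist_eq, Real.dist_eq] at this
    refine this.trans ?_
    have h0 := abs_nonneg (x - y)
    nlinarith

namespace TaskTA

theorem tst_bu (f : ℝ → ℝ) (hf : ∀ u, 0 < u → ContDiffAt ℝ ((⊤ : ℕ∞) : WithTop ℕ∞) f u) :
    Tst (fun u => ((f u * Bu u : ℝ) : ℂ)) := by
  obtain ⟨hs, -, hz1, hz4, -⟩ := bu_facts
  have hB : Tst (fun u => ((Bu u : ℝ) : ℂ)) := by
    refine ⟨Complex.ofRealCLM.contDiff.comp hs, fun u hu => ?_⟩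
    have : Bu u = 0 := by
      rcases lt_or_ge u 1 with h | h
      · exact hz1 u h.le
      · exact hz4 u (by
          by_contra h'
          exact hu ⟨h, by linarith⟩)
    rw [this]; simp
  have := tst_mul (φ := fun u => ((f u : ℝ) : ℂ)) hB (fun u hu =>
    Complex.ofRealCLM.contDiff.contDiffAt.comp u (hf u hu))
  convert this using 2 with u
  push_cast
  ring

end TaskTA

theorem tst_half : Tst (fun u => ((u ^ (-(1 / 2) : ℝ) * Bu u : ℝ) : ℂ)) := by
  apply tst_bu (fun u => u ^ (-(1 / 2) : ℝ))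
  intro u hu
  exact Real.contDiffAt_rpow_const_of_ne hu.ne'

theorem tst_one : Tst (fun u => ((u⁻¹ * Bu u ^ 2 : ℝ) : ℂ)) := by
  have := tst_bu (fun u => u⁻¹ * Bu u) (fun u hu =>
    (contDiffAt_id.inv hu.ne').mul bu_facts.1.contDiffAt)
  convert this using 3 with u
  ring

end Pool.Agent.H442R2.TSM
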