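import Pool.Agent.H442R2.TSM.QDefs
import Pool.Agent.H442R2.TSM.Poi
import Pool.Agent.H442R2.TSM.Osc
import Pool.Agent.H307R2.LU

/-!
TSQ project, task QI: smooth approximation of `L(1/2+it, χ)`.
-/

namespace Pool.Agent.H442R2.TSM

open Finset MeasureTheory

namespace TaskQI

/-- the test function `u^{-1/2-it} Bu(u)` -/
noncomputable def ph (t : ℝ) (u : ℝ) : ℂ := ((u ^ (-(1 / 2) : ℝ) * Bu u : ℝ) : ℂ) * EE t 0 0 u

lemma ph_tst (t : ℝ) : Tst (ph t) := osc_tst _ tst_half t 0 0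

lemma pw_eq (t u : ℝ) (hu : 0 < u) :
    (u : ℂ) ^ (-(1 / 2 + (t : ℂ) * Complex.I)) = ((u ^ (-(1 / 2) : ℝ) : ℝ) : ℂ) * EE t 0 0 u := by
  have hu' : (u : ℂ) ≠ 0 := by exact_mod_cast hu.ne'
  rw [Complex.cpow_def_of_ne_zero hu', ← Complex.ofReal_log hu.le, Real.rpow_def_of_pos hu]
  unfold EE
  rw [Complex.ofReal_exp, ← Complex.exp_add]
  congr 1
  push_cast
  ring

lemma pw_norm (t u : ℝ) (hu : 0 < u) :
    ‖(u : ℂ) ^ (-(1 / 2 + (t : ℂ) * Complex.I))‖ = u ^ (-(1 / 2) : ℝ) := by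
  rw [Complex.norm_cpow_eq_rpow_re_of_pos hu]
  congr 1
  simp

lemma pw_mul (t x Y : ℝ) (hx : 0 < x) (hY : 0 < Y) :
    (x : ℂ) ^ (-(1 / 2 + (t : ℂ) * Complex.I)) = (Y : ℂ) ^ (-(1 / 2 + (t : ℂ) * Complex.I)) *
      ((x / Y : ℝ) : ℂ) ^ (-(1 / 2 + (t : ℂ) * Complex.I)) := by
  rw [← Complex.mul_cpow_ofReal_nonneg hY.le (by positivity)]
  congr 1
  rw [← Complex.ofReal_mul]
  congr 1
  field_simp

/-- the smoothed sum -/
noncomputable def Sm {q : ℕ} (χ : DirichletCharacter ℂ q) (t Y : ℝ) : ℂ :=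
  ∑ n ∈ Icc 1 ⌊2 * Y⌋₊, ((Cu ((n : ℝ) / Y) : ℝ) : ℂ) * χ (n : ZMod q) *
        (n : ℂ) ^ (-(1 / 2 + (t : ℂ) * Complex.I))

/-- extend the range of the smoothed sum -/
lemma Sm_ext {q : ℕ} (χ : DirichletCharacter ℂ q) (t Y : ℝ) (hY : 0 < Y) (N : ℕ)
    (hN : ⌊2 * Y⌋₊ ≤ N) :
    Sm χ t Y = ∑ n ∈ Icc 1 N, ((Cu ((n : ℝ) / Y) : ℝ) : ℂ) * χ (n : ZMod q) *
        (n : ℂ) ^ (-(1 / 2 + (t : ℂ) * Complex.I)) := by
  unfold Sm
  refine sum_subset (Icc_subset_Icc_right hN) fun n hn hn' => ?_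
  rw [mem_Icc] at hn hn'
  have h1 : ⌊2 * Y⌋₊ < n := by
    by_contra h
    exact hn' ⟨hn.1, by omega⟩
  have h2 : 2 * Y < n := (Nat.floor_lt (by positivity)).1 h1
  rw [cu_facts.2.2.2 _ (by rw [le_div_iff₀ hY]; linarith)]
  simp

lemma Sm_diff {q : ℕ} (χ : DirichletCharacter ℂ q) (t Y : ℝ) (hY : 0 < Y) :
    Sm χ t (2 * Y) - Sm χ t Y = (Y : ℂ) ^ (-(1 / 2 + (t : ℂ) * Complex.I)) *
      ∑ n ∈ Icc 1 ⌊4 * Y⌋₊, χ (n : ZMod q) * ph t ((n : ℝ) / Y) := by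
  have e1 : Sm χ t (2 * Y) = ∑ n ∈ Icc 1 ⌊4 * Y⌋₊, ((Cu ((n : ℝ) / (2 * Y)) : ℝ) : ℂ) *
      χ (n : ZMod q) * (n : ℂ) ^ (-(1 / 2 + (t : ℂ) * Complex.I)) := by
    unfold Sm
    rw [show 2 * (2 * Y) = 4 * Y by ring]
  rw [e1, Sm_ext χ t Y hY ⌊4 * Y⌋₊ (Nat.floor_le_floor (by linarith)), ← sum_sub_distrib,
    mul_sum]
  refine sum_congr rfl fun n hn => ?_
  rw [mem_Icc] at hn
  have hn0 : (0 : ℝ) < n := by exact_mod_cast hn.1
  have e2 : (n : ℂ) = ((n : ℝ) : ℂ) := by simp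
  rw [e2, pw_mul t n Y hn0 hY, pw_eq t ((n : ℝ) / Y) (by positivity)]
  unfold ph Bu
  have e3 : (n : ℝ) / Y / 2 = (n : ℝ) / (2 * Y) := by field_simp
  rw [e3]
  push_cast
  ring

/-- decomposition into residue classes -/
lemma class_sum {q : ℕ} [NeZero q] (χ : DirichletCharacter ℂ q) (f : ℝ → ℂ) (hf : Tst f)
    (Y : ℝ) (hY : 0 < Y) :
    ∑ n ∈ Icc 1 ⌊4 * Y⌋₊, χ (n : ZMod q) * f ((n : ℝ) / Y) =
      ∑ a : Fin q, χ ((a : ℕ) : ZMod q) *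
        ∑' k : ℤ, f ((q : ℝ) / Y * ((k : ℝ) + ((a : ℕ) : ℝ) / q)) := by
  have hq0 : (q : ℝ) ≠ 0 := by exact_mod_cast NeZero.ne q
  set G : ℤ → ℂ := fun n => χ (n : ZMod q) * f ((n : ℝ) / Y) with hG
  have hG0 : ∀ n : ℤ, n ∉ (Icc 1 ⌊4 * Y⌋₊).map Nat.castEmbedding → G n = 0 := by
    intro n hn
    have : f ((n : ℝ) / Y) = 0 := by
      apply hf.supp
      intro h
      apply hn
      rw [mem_map]
      have h1 : (0 : ℝ) < n := by
        have := h.1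
        rw [le_div_iff₀ hY] at this
        linarith
      have h1' : 0 < n := by exact_mod_cast h1
      obtain ⟨m, hm⟩ := Int.eq_ofNat_of_zero_le h1'.le
      refine ⟨m, ?_, by rw [hm]; rfl⟩
      rw [mem_Icc]
      refine ⟨by omega, Nat.le_floor ?_⟩
      have := h.2
      rw [div_le_iff₀ hY, hm] at this
      exact_mod_cast this
    rw [hG]
    simp only [this, mul_zero]
  have hGs : Summable G := summable_of_ne_finset_zero hG0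
  have e1 : ∑ n ∈ Icc 1 ⌊4 * Y⌋₊, χ (n : ZMod q) * f ((n : ℝ) / Y) = ∑' n : ℤ, G n := by
    rw [tsum_eq_sum hG0, sum_map]
    refine sum_congr rfl fun n _ => ?_
    simp [hG]
  have hGs' : Summable (fun p : ℤ × Fin q => G ((Int.divModEquiv q).symm p)) :=
    (Int.divModEquiv q).symm.summable_iff.2 hGs
  rw [e1, ← (Int.divModEquiv q).symm.tsum_eq G]
  have hsw : Summable (fun p : Fin q × ℤ => G ((Int.divModEquiv q).symm (p.2, p.1))) :=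
    (Equiv.prodComm (Fin q) ℤ).summable_iff.2 hGs'
  have e2 : ∑' p : ℤ × Fin q, G ((Int.divModEquiv q).symm p) =
      ∑' p : Fin q × ℤ, G ((Int.divModEquiv q).symm (p.2, p.1)) :=
    ((Equiv.prodComm (Fin q) ℤ).tsum_eq
      (fun p : ℤ × Fin q => G ((Int.divModEquiv q).symm p))).symm
  rw [e2, hsw.tsum_prod, tsum_fintype]
  refine sum_congr rfl fun a _ => ?_
  rw [← tsum_mul_left]
  refine tsum_congr fun k => ?_
  rw [Int.divModEquiv_symm_apply]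
  simp only [hG]
  push_cast
  congr 2
  · simp
  · field_simp

lemma char_sum0 {q : ℕ} [NeZero q] {χ : DirichletCharacter ℂ q} (hχ : χ ≠ 1) :
    ∑ a : Fin q, χ ((a : ℕ) : ZMod q) = 0 := by
  have hbij : Function.Bijective (fun a : Fin q => ((a : ℕ) : ZMod q)) := by
    rw [Fintype.bijective_iff_injective_and_card]
    refine ⟨fun a b hab => ?_, by rw [Fintype.card_fin, ZMod.card]⟩
    have h1 : (a : ℕ) ≡ b [MOD q] := (ZMod.natCast_eq_natCast_iff a b q).1 hab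
    have h2 := h1.eq_of_lt_of_lt a.2 b.2
    exact Fin.ext h2
  have h := Fintype.sum_bijective _ hbij (fun a : Fin q => χ ((a : ℕ) : ZMod q))
    (fun x : ZMod q => χ x) (fun _ => rfl)
  rw [h]
  exact MulChar.sum_eq_zero_of_ne_one hχ

lemma pow_help {q : ℕ} {Y : ℝ} (hY0 : 0 < Y) (hY : (q : ℝ) ^ (4 / 3 : ℝ) ≤ Y) :
    Y ^ (-(1 / 2) : ℝ) * (Y * ((q : ℝ) / Y) ^ 6) ≤ 1 / Y := by
  have h1 : (q : ℝ) ^ 6 ≤ Y ^ (9 / 2 : ℝ) := by
    have e : (q : ℝ) ^ 6 = ((q : ℝ) ^ (4 / 3 : ℝ)) ^ (9 / 2 : ℝ) := by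
      rw [← Real.rpow_mul (by positivity), ← Real.rpow_natCast]
      norm_num
    rw [e]
    exact Real.rpow_le_rpow (by positivity) hY (by norm_num)
  have e1 : Y ^ (-(1 / 2) : ℝ) * Y ^ (9 / 2 : ℝ) = Y ^ 4 := by
    rw [← Real.rpow_add hY0, ← Real.rpow_natCast]
    norm_num
  calc Y ^ (-(1 / 2) : ℝ) * (Y * ((q : ℝ) / Y) ^ 6)
      = Y ^ (-(1 / 2) : ℝ) * (q : ℝ) ^ 6 / Y ^ 5 := by
        field_simp
    _ ≤ Y ^ (-(1 / 2) : ℝ) * Y ^ (9 / 2 : ℝ) / Y ^ 5 := by gcongr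
    _ = 1 / Y := by
        rw [e1]
        field_simp

lemma step (t : ℝ) : ∃ C : ℝ, 0 < C ∧ ∀ (q : ℕ) [NeZero q], ∀ χ : DirichletCharacter ℂ q,
    χ ≠ 1 → ∀ Y : ℝ, (q : ℝ) ^ (4 / 3 : ℝ) ≤ Y → ‖Sm χ t (2 * Y) - Sm χ t Y‖ ≤ C / Y := by
  obtain ⟨C0, hC0, h0⟩ := osc_fourier _ tst_half 6
  have hW : Summable (fun j : ℤ => 1 / (j : ℝ) ^ 6) :=
    Real.summable_one_div_int_pow.2 (by norm_num)
  set W : ℝ := ∑' j : ℤ, 1 / (j : ℝ) ^ 6 with hWd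
  have hW0 : 0 ≤ W := tsum_nonneg fun j => by positivity
  refine ⟨C0 * (1 + |t|) ^ 6 * (W + 1), by positivity, ?_⟩
  intro q _ χ hχ Y hY
  have hq1 : (1 : ℝ) ≤ q := by exact_mod_cast Nat.one_le_iff_ne_zero.2 (NeZero.ne q)
  have hY1 : 1 ≤ Y := (Real.one_le_rpow hq1 (by norm_num)).trans hY
  have hY0 : 0 < Y := by linarith
  have hq0 : (0 : ℝ) < q := by linarith
  set l : ℝ := (q : ℝ) / Y with hl
  have hl0 : 0 < l := by positivity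
  set f : ℝ → ℂ := ph t with hf
  have hft : Tst f := ph_tst t
  set B : ℝ := C0 * ((1 + |t|) * l) ^ 6 * W with hB
  have hB0 : 0 ≤ B := by positivity
  have hR : ∀ x : ℝ, ‖∑' j : ℤ, Fh f ((j : ℝ) / l) * KF.e ((j : ℝ) * x) - Fh f 0‖ ≤ B := by
    intro x
    obtain ⟨hs, -⟩ := pois f hft l hl0 x
    have e1 := hs.tsum_eq_add_tsum_ite (b := 0)
    rw [e1]
    have e2 : Fh f (((0 : ℤ) : ℝ) / l) * KF.e (((0 : ℤ) : ℝ) * x) = Fh f 0 := by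
      rw [Int.cast_zero, zero_div, zero_mul, KF.e_zero, mul_one]
    rw [e2, add_sub_cancel_left]
    have hs2 : HasSum (fun j : ℤ => C0 * ((1 + |t|) * l) ^ 6 * (1 / (j : ℝ) ^ 6)) B :=
      hW.hasSum.mul_left _
    refine tsum_of_norm_bounded hs2 fun j => ?_
    split_ifs with hj
    · rw [norm_zero]
      positivity
    · rw [norm_mul, KF.norm_e, mul_one]
      have hj' : (j : ℝ) ≠ 0 := by exact_mod_cast hj
      have h1 := h0 t 0 0 le_rfl ((j : ℝ) / l) (by positivity)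
      refine h1.trans (le_of_eq ?_)
      rw [abs_div, abs_of_pos hl0, abs_zero, add_zero, add_zero]
      have e3 : (j : ℝ) ^ 6 = |(j : ℝ)| ^ 6 := by
        rw [← abs_pow, abs_of_nonneg (by positivity)]
      have hj2 : |(j : ℝ)| ≠ 0 := abs_ne_zero.2 hj'
      rw [e3]
      field_simp
  rw [Sm_diff χ t Y hY0, class_sum χ f hft Y hY0, norm_mul, pw_norm t Y hY0]
  have key : ∑ a : Fin q, χ ((a : ℕ) : ZMod q) *
        ∑' k : ℤ, f ((q : ℝ) / Y * ((k : ℝ) + ((a : ℕ) : ℝ) / q)) =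
      ((1 / l : ℝ) : ℂ) * ∑ a : Fin q, χ ((a : ℕ) : ZMod q) *
        (∑' j : ℤ, Fh f ((j : ℝ) / l) * KF.e ((j : ℝ) * (((a : ℕ) : ℝ) / q)) - Fh f 0) := by
    have e4 : ∑ a : Fin q, χ ((a : ℕ) : ZMod q) * Fh f 0 = 0 := by
      rw [← sum_mul, char_sum0 hχ, zero_mul]
    have e5 : ∑ a : Fin q, χ ((a : ℕ) : ZMod q) *
        (∑' j : ℤ, Fh f ((j : ℝ) / l) * KF.e ((j : ℝ) * (((a : ℕ) : ℝ) / q)) - Fh f 0) =
        ∑ a : Fin q, χ ((a : ℕ) : ZMod q) *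
        ∑' j : ℤ, Fh f ((j : ℝ) / l) * KF.e ((j : ℝ) * (((a : ℕ) : ℝ) / q)) := by
      simp_rw [mul_sub]
      rw [sum_sub_distrib, e4, sub_zero]
    rw [e5, mul_sum]
    refine sum_congr rfl fun a _ => ?_
    rw [(pois f hft l hl0 (((a : ℕ) : ℝ) / q)).2]
    ring
  rw [key, norm_mul, Complex.norm_real, Real.norm_eq_abs, abs_of_pos (by positivity)]
  have h5 : ‖∑ a : Fin q, χ ((a : ℕ) : ZMod q) *
        (∑' j : ℤ, Fh f ((j : ℝ) / l) * KF.e ((j : ℝ) * (((a : ℕ) : ℝ) / q)) - Fh f 0)‖ ≤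
      q * B := by
    refine (norm_sum_le _ _).trans ?_
    calc _ ≤ ∑ a : Fin q, B := by
          refine sum_le_sum fun a _ => ?_
          rw [norm_mul]
          calc _ ≤ 1 * B := mul_le_mul (χ.norm_le_one _) (hR _) (norm_nonneg _) zero_le_one
            _ = B := one_mul B
      _ = q * B := by simp
  calc Y ^ (-(1 / 2) : ℝ) * (1 / l * ‖_‖) ≤ Y ^ (-(1 / 2) : ℝ) * (1 / l * (q * B)) := by gcongr
    _ = (Y ^ (-(1 / 2) : ℝ) * (Y * ((q : ℝ) / Y) ^ 6)) * (C0 * (1 + |t|) ^ 6 * W) := by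
        rw [hB, hl]
        field_simp
    _ ≤ (1 / Y) * (C0 * (1 + |t|) ^ 6 * (W + 1)) := by
        have := pow_help (q := q) hY0 hY
        gcongr
        linarith
    _ = _ := by ring

/-- the partial sums -/
noncomputable def Ps {q : ℕ} (χ : DirichletCharacter ℂ q) (t : ℝ) (N : ℕ) : ℂ :=
  ∑ n ∈ Icc 1 N, χ (n : ZMod q) * (n : ℂ) ^ (-(1 / 2 + (t : ℂ) * Complex.I))

lemma Ps_bound {q : ℕ} [NeZero q] {χ : DirichletCharacter ℂ q} (hχ : χ ≠ 1) (t : ℝ) {N : ℕ}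
    (hN : 1 ≤ N) :
    ‖Ps χ t N - χ.LFunction (1 / 2 + (t : ℂ) * Complex.I)‖ ≤
      ‖(1 / 2 + (t : ℂ) * Complex.I)‖ * (q * ((N : ℝ) ^ (-(1 / 2) : ℝ) / (1 / 2))) := by
  have hre : (1 / 2 + (t : ℂ) * Complex.I).re = 1 / 2 := by simp
  have hs : 0 < (1 / 2 + (t : ℂ) * Complex.I).re := by rw [hre]; norm_num
  have h1 := H307R2.LFunction_eq hχ hN hs
  have h2 := H307R2.TM_norm_le hN (H307R2.Ech_norm_le hχ N) hs
  rw [hre] at h2
  unfold Ps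
  rw [h1, sub_add_cancel_left, norm_neg, norm_mul]
  gcongr

lemma abel (w : ℕ → ℂ) (D : ℕ → ℂ) (N : ℕ) :
    ∑ n ∈ range N, w (n + 1) * (D (n + 1) - D n) =
      w N * D N - w 0 * D 0 + ∑ n ∈ range N, (w n - w (n + 1)) * D n := by
  induction N with
  | zero => simp
  | succ N ih =>
    rw [sum_range_succ, ih, sum_range_succ]
    ring

lemma lim {q : ℕ} [NeZero q] {χ : DirichletCharacter ℂ q} (hχ : χ ≠ 1) (t : ℝ) :
    ∃ K : ℝ, 0 ≤ K ∧ ∀ Y : ℝ, 2 ≤ Y →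
      ‖Sm χ t Y - χ.LFunction (1 / 2 + (t : ℂ) * Complex.I)‖ ≤ K * (Y / 2) ^ (-(1 / 2) : ℝ) := by
  set L := χ.LFunction (1 / 2 + (t : ℂ) * Complex.I) with hL
  set K : ℝ := ‖(1 / 2 + (t : ℂ) * Complex.I)‖ * (q * 2) with hK
  have hK0 : 0 ≤ K := by positivity
  refine ⟨K, hK0, fun Y hY => ?_⟩
  have hY0 : 0 < Y := by linarith
  set w : ℕ → ℝ := fun n => Cu ((n : ℝ) / Y) with hw
  set D : ℕ → ℂ := fun n => Ps χ t n - L with hD
  set N := ⌊2 * Y⌋₊ with hN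
  have hNle : Y / 2 ≤ (N : ℝ) := by
    have := Nat.lt_floor_add_one (2 * Y)
    rw [← hN] at this
    linarith
  have hbound : ∀ n : ℕ, Y / 2 ≤ n → ‖D n‖ ≤ K * (Y / 2) ^ (-(1 / 2) : ℝ) := by
    intro n hn
    have hn0 : (0 : ℝ) < n := by linarith
    have hn1 : 1 ≤ n := by exact_mod_cast hn0
    refine (Ps_bound hχ t hn1).trans ?_
    have h1 : (n : ℝ) ^ (-(1 / 2) : ℝ) ≤ (Y / 2) ^ (-(1 / 2) : ℝ) :=
      Real.rpow_le_rpow_of_nonpos (by linarith) hn (by norm_num)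
    calc _ = K * (n : ℝ) ^ (-(1 / 2) : ℝ) := by rw [hK]; ring
      _ ≤ _ := by gcongr
  have hanti : ∀ n : ℕ, w (n + 1) ≤ w n := by
    intro n
    simp only [hw, Cu]
    apply Real.smoothTransition.monotone
    have : (n : ℝ) / Y ≤ ((n + 1 : ℕ) : ℝ) / Y := by
      gcongr
      simp
    linarith
  have e1 : Sm χ t Y = ∑ n ∈ range N, (w (n + 1) : ℂ) * (D (n + 1) - D n) := by
    unfold Sm
    have hI : Icc 1 N = Ico 1 (N + 1) := by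
      ext k
      simp only [mem_Icc, mem_Ico]
      omega
    rw [← hN, hI, sum_Ico_eq_sum_range, Nat.add_sub_cancel]
    refine sum_congr rfl fun n _ => ?_
    have e2 : D (n + 1) - D n = χ ((n + 1 : ℕ) : ZMod q) *
        ((n + 1 : ℕ) : ℂ) ^ (-(1 / 2 + (t : ℂ) * Complex.I)) := by
      simp only [hD, Ps]
      rw [sum_Icc_succ_top (by omega)]
      ring
    rw [e2]
    simp only [hw]
    rw [add_comm 1 n, mul_assoc]
  have hw0 : w 0 = 1 := by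
    simp only [hw]
    rw [Nat.cast_zero, zero_div]
    exact cu_facts.2.2.1 0 (by norm_num)
  have hD0 : D 0 = -L := by simp [hD, Ps]
  have e3 : Sm χ t Y - L = (w N : ℂ) * D N + ∑ n ∈ range N, ((w n - w (n + 1) : ℝ) : ℂ) * D n := by
    rw [e1, abel (fun n => (w n : ℂ)) D N, hD0, hw0]
    push_cast
    ring
  have hwN : 0 ≤ w N := (cu_facts.2.1 _).1
  have h6 : ∀ n : ℕ, ‖((w n - w (n + 1) : ℝ) : ℂ) * D n‖ ≤
      (w n - w (n + 1)) * (K * (Y / 2) ^ (-(1 / 2) : ℝ)) := by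
    intro n
    rw [norm_mul, Complex.norm_real, Real.norm_eq_abs, abs_of_nonneg (by linarith [hanti n])]
    by_cases hn : Y / 2 ≤ n
    · have := hbound n hn
      have h7 := hanti n
      exact mul_le_mul_of_nonneg_left this (by linarith)
    · push Not at hn
      have h8 : w n = 1 := by
        apply cu_facts.2.2.1
        rw [div_le_iff₀ hY0]
        linarith
      have h9 : w (n + 1) = 1 := by
        apply cu_facts.2.2.1
        rw [div_le_iff₀ hY0]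
        push_cast
        linarith
      rw [h8, h9]
      simp
  rw [e3]
  calc _ ≤ ‖(w N : ℂ) * D N‖ + ∑ n ∈ range N, ‖((w n - w (n + 1) : ℝ) : ℂ) * D n‖ :=
        (norm_add_le _ _).trans (add_le_add le_rfl (norm_sum_le _ _))
    _ ≤ w N * (K * (Y / 2) ^ (-(1 / 2) : ℝ)) + ∑ n ∈ range N,
        (w n - w (n + 1)) * (K * (Y / 2) ^ (-(1 / 2) : ℝ)) := by
        refine add_le_add ?_ (sum_le_sum fun n _ => h6 n)
        rw [norm_mul, Complex.norm_real, Real.norm_eq_abs, abs_of_nonneg hwN]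
        exact mul_le_mul_of_nonneg_left (hbound N hNle) hwN
    _ = K * (Y / 2) ^ (-(1 / 2) : ℝ) := by
        rw [← sum_mul, sum_range_sub', hw0]
        ring

lemma iter {q : ℕ} [NeZero q] (χ : DirichletCharacter ℂ q) (t C : ℝ) (Y : ℝ)
    (hY0 : 0 < Y) (hY : (q : ℝ) ^ (4 / 3 : ℝ) ≤ Y)
    (h : ∀ Z : ℝ, (q : ℝ) ^ (4 / 3 : ℝ) ≤ Z → ‖Sm χ t (2 * Z) - Sm χ t Z‖ ≤ C / Z) (n : ℕ) :
    ‖Sm χ t (2 ^ n * Y) - Sm χ t Y‖ ≤ (2 - 2 / 2 ^ n) * (C / Y) := by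
  induction n with
  | zero => simp
  | succ n ih =>
    have h2 : (1 : ℝ) ≤ 2 ^ n := one_le_pow₀ (by norm_num)
    have hZ : (q : ℝ) ^ (4 / 3 : ℝ) ≤ 2 ^ n * Y :=
      hY.trans (le_mul_of_one_le_left hY0.le h2)
    have h3 := h _ hZ
    have e1 : Sm χ t (2 ^ (n + 1) * Y) - Sm χ t Y =
        (Sm χ t (2 * (2 ^ n * Y)) - Sm χ t (2 ^ n * Y)) + (Sm χ t (2 ^ n * Y) - Sm χ t Y) := by
      rw [show (2 : ℝ) ^ (n + 1) * Y = 2 * (2 ^ n * Y) by ring]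
      ring
    rw [e1]
    refine (norm_add_le _ _).trans ((add_le_add h3 ih).trans (le_of_eq ?_))
    field_simp
    ring

end TaskQI

open TaskQI in
theorem apxq (t : ℝ) : ∃ C : ℝ, 0 < C ∧ ∀ (q : ℕ) [NeZero q], ∀ χ : DirichletCharacter ℂ q,
    χ ≠ 1 → ∀ Y : ℝ, (q : ℝ) ^ (4 / 3 : ℝ) ≤ Y → Y ≤ 2 * (q : ℝ) ^ 2 →
    ‖χ.LFunction (1 / 2 + (t : ℂ) * Complex.I) - ∑ n ∈ Icc 1 ⌊2 * Y⌋₊,
      ((Cu ((n : ℝ) / Y) : ℝ) : ℂ) * χ (n : ZMod q) *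
        (n : ℂ) ^ (-(1 / 2 + (t : ℂ) * Complex.I))‖ ≤ C / q := by
  obtain ⟨C, hC, h⟩ := step t
  refine ⟨2 * C, by positivity, ?_⟩
  intro q _ χ hχ Y hY _
  have hq1 : (1 : ℝ) ≤ q := by exact_mod_cast Nat.one_le_iff_ne_zero.2 (NeZero.ne q)
  have hY1 : 1 ≤ Y := (Real.one_le_rpow hq1 (by norm_num)).trans hY
  have hY0 : 0 < Y := by linarith
  have hqY : (q : ℝ) ≤ Y := by
    refine le_trans ?_ hY
    calc (q : ℝ) = (q : ℝ) ^ (1 : ℝ) := (Real.rpow_one _).symm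
      _ ≤ _ := Real.rpow_le_rpow_of_exponent_le hq1 (by norm_num)
  obtain ⟨K, hK, hlim⟩ := lim hχ t
  change ‖_ - Sm χ t Y‖ ≤ _
  set L := χ.LFunction (1 / 2 + (t : ℂ) * Complex.I) with hL
  have hmain : ∀ n : ℕ, 1 ≤ n →
      ‖L - Sm χ t Y‖ ≤ K * ((2 ^ n * Y) / 2) ^ (-(1 / 2) : ℝ) + 2 * (C / Y) := by
    intro n hn
    have h1 := iter χ t C Y hY0 hY (h q χ hχ) n
    have h2n : (2 : ℝ) ≤ 2 ^ n := by
      calc (2 : ℝ) = 2 ^ 1 := (pow_one _).symm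
        _ ≤ _ := pow_le_pow_right₀ (by norm_num) hn
    have h2 := hlim (2 ^ n * Y) (by nlinarith)
    have e : L - Sm χ t Y = -(Sm χ t (2 ^ n * Y) - L) + (Sm χ t (2 ^ n * Y) - Sm χ t Y) := by ring
    rw [e]
    refine (norm_add_le _ _).trans ?_
    rw [norm_neg]
    refine add_le_add h2 (h1.trans ?_)
    have h3 : (0 : ℝ) ≤ 2 / 2 ^ n := by positivity
    have h4 : 0 ≤ C / Y := by positivity
    nlinarith
  have htend : Filter.Tendsto (fun n : ℕ => K * ((2 ^ n * Y) / 2) ^ (-(1 / 2) : ℝ) + 2 * (C / Y))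
      Filter.atTop (nhds (K * 0 + 2 * (C / Y))) := by
    refine Filter.Tendsto.add_const _ (Filter.Tendsto.const_mul _ ?_)
    refine (tendsto_rpow_neg_atTop (y := 1 / 2) (by norm_num)).comp ?_
    refine Filter.Tendsto.atTop_div_const (by norm_num) ?_
    exact Filter.Tendsto.atTop_mul_const hY0 (tendsto_pow_atTop_atTop_of_one_lt (by norm_num))
  have hfin : ‖L - Sm χ t Y‖ ≤ K * 0 + 2 * (C / Y) :=
    ge_of_tendsto htend (Filter.eventually_atTop.2 ⟨1, hmain⟩)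
  refine hfin.trans ?_
  rw [mul_zero, zero_add]
  calc 2 * (C / Y) ≤ 2 * (C / q) := by gcongr
    _ = 2 * C / q := by ring

end Pool.Agent.H442R2.TSM
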