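import Pool.Agent.H442R2.TSM.QDefs
import Pool.Agent.H442R2.TSM.BlkPre

set_option autoImplicit false

/-! QK: one dyadic block of the Dirichlet polynomial, Dirichlet L-functions. -/

namespace Pool.Agent.H442R2.TSM

open Finset MeasureTheory

namespace TaskQK

open TaskTN

/-- coefficients with the twist `n^{-it}` -/
noncomputable def tw (t : ℝ) (c : ℕ → ℂ) (n : ℕ) : ℂ :=
  c n * Complex.exp (-((t * Real.log n : ℝ) : ℂ) * Complex.I)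

theorem tw_norm (t : ℝ) (c : ℕ → ℂ) (n : ℕ) : ‖tw t c n‖ = ‖c n‖ := by
  unfold tw
  rw [norm_mul]
  have h1 : ‖Complex.exp (-((t * Real.log n : ℝ) : ℂ) * Complex.I)‖ = 1 := by
    rw [← Complex.ofReal_neg]
    exact Complex.norm_exp_ofReal_mul_I _
  rw [h1, mul_one]

/-- the decomposition -/
theorem decompq {q : ℕ} (χ : DirichletCharacter ℂ q) (a : ℕ → ℂ) (M : ℕ) (T t : ℝ) (hT : 0 < T)
    (I : ℕ) :
    ∑ m ∈ Ioc M (2 * M), a m * χ (m : ZMod q) * (m : ℂ) ^ (-(1 / 2 + (t : ℂ) * Complex.I)) *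
      ∑ n ∈ Icc 1 ⌊2 * ((2 ^ I * T) / (m : ℝ))⌋₊,
        ((Cu ((n : ℝ) / ((2 ^ I * T) / (m : ℝ))) : ℝ) : ℂ) * χ (n : ZMod q) *
        (n : ℂ) ^ (-(1 / 2 + (t : ℂ) * Complex.I)) =
    Xs χ (tw t (c0 a M T)) ⌊2 * T⌋₊ +
      ∑ i ∈ range I, Xs χ (tw t (cQ a M (2 ^ i * T))) ⌊4 * (2 ^ i * T)⌋₊ := by
  set Z : ℝ := 2 ^ I * T with hZ
  have hZ0 : 0 < Z := by positivity
  have h1 : ∑ m ∈ Ioc M (2 * M), a m * χ (m : ZMod q) *
      (m : ℂ) ^ (-(1 / 2 + (t : ℂ) * Complex.I)) *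
      ∑ n ∈ Icc 1 ⌊2 * (Z / (m : ℝ))⌋₊, ((Cu ((n : ℝ) / (Z / (m : ℝ))) : ℝ) : ℂ) *
        χ (n : ZMod q) * (n : ℂ) ^ (-(1 / 2 + (t : ℂ) * Complex.I)) =
      ∑ m ∈ Ioc M (2 * M), ∑ n ∈ Icc 1 (⌊2 * Z⌋₊ / m), a m *
        (fun k : ℕ => ((Cu ((k : ℝ) / Z) : ℝ) : ℂ) * χ (k : ZMod q) *
          (k : ℂ) ^ (-(1 / 2 + (t : ℂ) * Complex.I))) (m * n) := by
    apply Finset.sum_congr rfl
    intro m hm
    have hm0 : 0 < m := by
      have := (Finset.mem_Ioc.1 hm).1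
      omega
    have hmr : (0 : ℝ) < m := by exact_mod_cast hm0
    have e1 : ⌊2 * (Z / (m : ℝ))⌋₊ = ⌊2 * Z⌋₊ / m := by
      rw [← mul_div_assoc, Nat.floor_div_natCast]
    rw [e1, Finset.mul_sum]
    apply Finset.sum_congr rfl
    intro n _
    have e2 : ((m * n : ℕ) : ℝ) / Z = (n : ℝ) / (Z / (m : ℝ)) := by
      push_cast
      field_simp
    have e3 : ((m * n : ℕ) : ℂ) ^ (-(1 / 2 + (t : ℂ) * Complex.I)) =
        (m : ℂ) ^ (-(1 / 2 + (t : ℂ) * Complex.I)) * (n : ℂ) ^ (-(1 / 2 + (t : ℂ) * Complex.I)) := by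
      rw [Nat.cast_mul, Complex.natCast_mul_natCast_cpow]
    have e4 : χ ((m * n : ℕ) : ZMod q) = χ (m : ZMod q) * χ (n : ZMod q) := by
      rw [Nat.cast_mul, map_mul]
    simp only [e2, e3, e4]
    ring
  rw [h1, regroup a M ⌊2 * Z⌋₊ (fun k : ℕ => ((Cu ((k : ℝ) / Z) : ℝ) : ℂ) * χ (k : ZMod q) *
          (k : ℂ) ^ (-(1 / 2 + (t : ℂ) * Complex.I)))]
  have hcu := cu_facts.2.2.2
  have hbu := bu_facts.2.2.2.1
  -- expand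
  have h2 : ∀ k ∈ Icc 1 ⌊2 * Z⌋₊, bq a M k * (fun k : ℕ => ((Cu ((k : ℝ) / Z) : ℝ) : ℂ) *
      χ (k : ZMod q) * (k : ℂ) ^ (-(1 / 2 + (t : ℂ) * Complex.I))) k =
      tw t (c0 a M T) k * χ (k : ZMod q) +
      ∑ i ∈ range I, tw t (cQ a M (2 ^ i * T)) k * χ (k : ZMod q) := by
    intro k hk
    have hk1 := (Finset.mem_Icc.1 hk).1
    simp only
    rw [npow t k hk1, hZ, telesc T (k : ℝ) I]
    unfold tw c0 cQ
    rw [Complex.ofReal_add, Complex.ofReal_sum, ← Finset.sum_mul, ← Finset.sum_mul]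
    have : ∑ i ∈ range I, bq a M k *
        (((k : ℝ) ^ (-(1 / 2) : ℝ) * Bu ((k : ℝ) / (2 ^ i * T)) : ℝ) : ℂ) =
        bq a M k * (((k : ℝ) ^ (-(1 / 2) : ℝ) : ℝ) : ℂ) *
          ∑ i ∈ range I, ((Bu ((k : ℝ) / (2 ^ i * T)) : ℝ) : ℂ) := by
      rw [Finset.mul_sum]
      apply Finset.sum_congr rfl
      intro i _
      rw [Complex.ofReal_mul]
      ring
    rw [this, Complex.ofReal_mul, Complex.ofReal_mul]
    ring
  rw [Finset.sum_congr rfl h2, Finset.sum_add_distrib, Finset.sum_comm]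
  unfold Xs
  congr 1
  · symm
    apply Finset.sum_subset
    · apply Finset.Icc_subset_Icc_right
      apply Nat.floor_le_floor
      have : (1 : ℝ) ≤ 2 ^ I := one_le_pow₀ (by norm_num)
      rw [hZ]
      nlinarith
    · intro k hk1 hk2
      have hk3 : 2 ≤ (k : ℝ) / T := by
        rw [le_div_iff₀ hT]
        rw [Finset.mem_Icc] at hk2
        by_contra hcon
        apply hk2
        exact ⟨(Finset.mem_Icc.1 hk1).1, Nat.le_floor (not_le.1 hcon).le⟩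
      unfold tw c0
      rw [hcu _ hk3]
      simp
  · apply Finset.sum_congr rfl
    intro i hi
    have hi' := Finset.mem_range.1 hi
    have hQ : (0 : ℝ) < 2 ^ i * T := by positivity
    symm
    apply Finset.sum_subset
    · apply Finset.Icc_subset_Icc_right
      apply Nat.floor_le_floor
      have : (2 : ℝ) * 2 ^ i ≤ 2 ^ I := by
        rw [← pow_succ']
        exact pow_le_pow_right₀ (by norm_num) hi'
      rw [hZ]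
      nlinarith
    · intro k hk1 hk2
      have hk3 : 4 ≤ (k : ℝ) / (2 ^ i * T) := by
        rw [le_div_iff₀ hQ]
        rw [Finset.mem_Icc] at hk2
        by_contra hcon
        apply hk2
        exact ⟨(Finset.mem_Icc.1 hk1).1, Nat.le_floor (not_le.1 hcon).le⟩
      unfold tw cQ
      rw [hbu _ hk3]
      simp

/-- pointwise approximation of the product -/
theorem approxq {q : ℕ} (χ : DirichletCharacter ℂ q) (Lv : ℂ) (t : ℝ) (C : ℝ) (hC : 0 < C)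
    (T : ℝ) (hT : 1 ≤ T)
    (hap : ∀ Y : ℝ, T ^ (4 / 3 : ℝ) ≤ Y → Y ≤ 2 * T ^ 2 →
      ‖Lv - ∑ n ∈ Icc 1 ⌊2 * Y⌋₊,
        ((Cu ((n : ℝ) / Y) : ℝ) : ℂ) * χ (n : ZMod q) *
          (n : ℂ) ^ (-(1 / 2 + (t : ℂ) * Complex.I))‖ ≤ C / T)
    (M : ℕ) (hMT : (M : ℝ) ≤ T) (hM : 2 * M * T ^ (4 / 3 : ℝ) ≤ T ^ 2)
    (a : ℕ → ℂ) (ha : ∀ m, ‖a m‖ ≤ 1) (I : ℕ) (hI1 : T ≤ 2 ^ I) (hI2 : (2 : ℝ) ^ I ≤ 2 * T) :
    ‖Lv * (∑ m ∈ Ioc M (2 * M), a m * χ (m : ZMod q) *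
        (m : ℂ) ^ (-(1 / 2 + (t : ℂ) * Complex.I))) -
      (Xs χ (tw t (c0 a M T)) ⌊2 * T⌋₊ +
        ∑ i ∈ range I, Xs χ (tw t (cQ a M (2 ^ i * T))) ⌊4 * (2 ^ i * T)⌋₊)‖ ≤ C := by
  have hT0 : 0 < T := by linarith
  rw [← decompq χ a M T t hT0 I, Finset.mul_sum, ← Finset.sum_sub_distrib]
  have hterm : ∀ m ∈ Ioc M (2 * M), ‖Lv *
      (a m * χ (m : ZMod q) * (m : ℂ) ^ (-(1 / 2 + (t : ℂ) * Complex.I))) -
      a m * χ (m : ZMod q) * (m : ℂ) ^ (-(1 / 2 + (t : ℂ) * Complex.I)) *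
      ∑ n ∈ Icc 1 ⌊2 * ((2 ^ I * T) / (m : ℝ))⌋₊, ((Cu ((n : ℝ) / ((2 ^ I * T) / (m : ℝ))) : ℝ) : ℂ) *
        χ (n : ZMod q) * (n : ℂ) ^ (-(1 / 2 + (t : ℂ) * Complex.I))‖ ≤ C / T := by
    intro m hm
    rw [Finset.mem_Ioc] at hm
    have hm0 : 1 ≤ m := by omega
    have hmr : (1 : ℝ) ≤ m := by exact_mod_cast hm0
    have hm2 : (m : ℝ) ≤ 2 * M := by exact_mod_cast hm.2
    have hTT : T ^ 2 ≤ 2 ^ I * T := by
      rw [sq]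
      exact mul_le_mul_of_nonneg_right hI1 hT0.le
    have hTT2 : 2 ^ I * T ≤ 2 * T ^ 2 := by
      have := mul_le_mul_of_nonneg_right hI2 hT0.le
      rw [sq]; linarith
    have hp : (0 : ℝ) ≤ T ^ (4 / 3 : ℝ) := by positivity
    have hY1 : T ^ (4 / 3 : ℝ) ≤ (2 ^ I * T) / (m : ℝ) := by
      rw [le_div_iff₀ (by linarith)]
      calc T ^ (4 / 3 : ℝ) * m ≤ T ^ (4 / 3 : ℝ) * (2 * M) := mul_le_mul_of_nonneg_left hm2 hp
        _ = 2 * M * T ^ (4 / 3 : ℝ) := by ring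
        _ ≤ T ^ 2 := hM
        _ ≤ _ := hTT
    have hY2 : (2 ^ I * T) / (m : ℝ) ≤ 2 * T ^ 2 := by
      rw [div_le_iff₀ (by linarith)]
      have : 2 * T ^ 2 * 1 ≤ 2 * T ^ 2 * (m : ℝ) := mul_le_mul_of_nonneg_left hmr (by positivity)
      linarith
    have h := hap _ hY1 hY2
    set P := (m : ℂ) ^ (-(1 / 2 + (t : ℂ) * Complex.I)) with hP
    set S := ∑ n ∈ Icc 1 ⌊2 * ((2 ^ I * T) / (m : ℝ))⌋₊,
      ((Cu ((n : ℝ) / ((2 ^ I * T) / (m : ℝ))) : ℝ) : ℂ) * χ (n : ZMod q) *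
        (n : ℂ) ^ (-(1 / 2 + (t : ℂ) * Complex.I))
    have e : Lv * (a m * χ (m : ZMod q) * P) - a m * χ (m : ZMod q) * P * S =
        a m * χ (m : ZMod q) * P * (Lv - S) := by ring
    rw [e, norm_mul, norm_mul, norm_mul]
    have hPn : ‖P‖ ≤ 1 := npow_norm_le t m hm0
    have hχ : ‖χ (m : ZMod q)‖ ≤ 1 := DirichletCharacter.norm_le_one χ _
    calc ‖a m‖ * ‖χ (m : ZMod q)‖ * ‖P‖ * ‖Lv - S‖ ≤ 1 * 1 * 1 * (C / T) := by
          apply mul_le_mul _ h (norm_nonneg _) (by norm_num)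
          apply mul_le_mul _ hPn (norm_nonneg _) (by norm_num)
          exact mul_le_mul (ha m) hχ (norm_nonneg _) (by norm_num)
      _ = C / T := by ring
  refine (norm_sum_le_of_le _ hterm).trans ?_
  rw [Finset.sum_const, Nat.card_Ioc, nsmul_eq_mul]
  have : ((2 * M - M : ℕ) : ℝ) = M := by
    congr 1; omega
  rw [this, mul_div_assoc', div_le_iff₀ hT0, mul_comm]
  exact mul_le_mul_of_nonneg_left hMT hC.le

/-- the test function of the long pieces -/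
noncomputable def ph (t : ℝ) (u : ℝ) : ℂ := ((u ^ (-(1 / 2) : ℝ) * Bu u : ℝ) : ℂ) * EE t 0 0 u

theorem ph_tst (t : ℝ) : Tst (ph t) := osc_tst _ tst_half t 0 0

/-- the long piece is `Q^{-s}` times the standard one -/
theorem Xs_long {q : ℕ} (χ : DirichletCharacter ℂ q) (a : ℕ → ℂ) (M : ℕ) (Q t : ℝ) (hQ : 0 < Q)
    (K : ℕ) : ‖Xs χ (tw t (cQ a M Q)) K‖ ^ 2 = Q⁻¹ * ‖Xs χ (cq (ph t) a M Q) K‖ ^ 2 := by
  have h : Xs χ (tw t (cQ a M Q)) K = ((Q ^ (-(1 / 2) : ℝ) : ℝ) : ℂ) *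
      Complex.exp (-((t * Real.log Q : ℝ) : ℂ) * Complex.I) * Xs χ (cq (ph t) a M Q) K := by
    unfold Xs
    rw [Finset.mul_sum]
    apply Finset.sum_congr rfl
    intro n hn
    have hn1 : 1 ≤ n := (Finset.mem_Icc.1 hn).1
    have hn0 : (0 : ℝ) < n := by exact_mod_cast hn1
    have e1 : (n : ℝ) ^ (-(1 / 2) : ℝ) = Q ^ (-(1 / 2) : ℝ) * ((n : ℝ) / Q) ^ (-(1 / 2) : ℝ) := by
      rw [← Real.mul_rpow hQ.le (by positivity)]
      congr 1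
      field_simp
    have e2 : Real.log n = Real.log Q + Real.log ((n : ℝ) / Q) := by
      rw [Real.log_div hn0.ne' hQ.ne']; ring
    have e3 : Complex.exp (-((t * Real.log n : ℝ) : ℂ) * Complex.I) =
        Complex.exp (-((t * Real.log Q : ℝ) : ℂ) * Complex.I) * EE t 0 0 ((n : ℝ) / Q) := by
      unfold EE
      rw [← Complex.exp_add, e2]
      congr 1
      push_cast
      ring
    unfold tw cQ cq ph
    rw [e3, e1]
    push_cast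
    ring
  rw [h, norm_mul, norm_mul, Complex.norm_real]
  have h1 : ‖Complex.exp (-((t * Real.log Q : ℝ) : ℂ) * Complex.I)‖ = 1 := by
    rw [← Complex.ofReal_neg]
    exact Complex.norm_exp_ofReal_mul_I _
  rw [h1, mul_one, mul_pow, Real.norm_of_nonneg (by positivity)]
  congr 1
  rw [← Real.rpow_natCast, ← Real.rpow_mul hQ.le,
    show (-(1 / 2) : ℝ) * ((2 : ℕ) : ℝ) = -1 by norm_num, Real.rpow_neg_one]

end TaskQK

open TaskTN TaskQK in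
theorem blockq_pre
    (longq : ∀ (φ : ℝ → ℂ) (_hφ : Tst φ) (θ : ℝ) (_hθ0 : 0 < θ) (_hθ : θ < 14 / 27) (ε : ℝ)
      (_hε : 0 < ε), ∃ (C : ℝ) (q₁ : ℕ), 0 < C ∧
      ∀ (q : ℕ) [NeZero q], q₁ ≤ q → q.Prime → ∀ Q ∈ Set.Icc (q : ℝ) (2 * (q : ℝ) ^ 2),
      ∀ M : ℕ, 1 ≤ M → (M : ℝ) ≤ (q : ℝ) ^ θ → ∀ a : ℕ → ℂ, (∀ m, ‖a m‖ ≤ 1) →
      ∑ χ ∈ NP q, ‖Xs χ (cq φ a M Q) ⌊4 * Q⌋₊‖ ^ 2 ≤ C * Q * (q : ℝ) ^ (1 + ε))
    (apxq : ∀ (t : ℝ), ∃ C : ℝ, 0 < C ∧ ∀ (q : ℕ) [NeZero q], ∀ χ : DirichletCharacter ℂ q,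
      χ ≠ 1 → ∀ Y : ℝ, (q : ℝ) ^ (4 / 3 : ℝ) ≤ Y → Y ≤ 2 * (q : ℝ) ^ 2 →
      ‖χ.LFunction (1 / 2 + (t : ℂ) * Complex.I) - ∑ n ∈ Icc 1 ⌊2 * Y⌋₊,
        ((Cu ((n : ℝ) / Y) : ℝ) : ℂ) * χ (n : ZMod q) *
          (n : ℂ) ^ (-(1 / 2 + (t : ℂ) * Complex.I))‖ ≤ C / q)
    (shortq : ∀ (q : ℕ) [NeZero q] (c : ℕ → ℂ) (K : ℕ),
      ∑ χ ∈ NP q, ‖Xs χ c K‖ ^ 2 ≤ ((q : ℝ) + K) * ∑ n ∈ Icc 1 K, ‖c n‖ ^ 2)
    (t : ℝ) (θ : ℝ) (hθ0 : 0 < θ) (hθ : θ < 14 / 27) (ε : ℝ) (hε : 0 < ε) :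
    ∃ (C : ℝ) (q₁ : ℕ), 0 < C ∧ ∀ (q : ℕ) [NeZero q], q₁ ≤ q → q.Prime → ∀ M : ℕ, 1 ≤ M →
    (M : ℝ) ≤ (q : ℝ) ^ θ → ∀ a : ℕ → ℂ, (∀ m, ‖a m‖ ≤ 1) →
    ∑ χ ∈ NP q, ‖χ.LFunction (1 / 2 + (t : ℂ) * Complex.I)‖ ^ 2 *
      ‖∑ m ∈ Ioc M (2 * M), a m * χ (m : ZMod q) *
        (m : ℂ) ^ (-(1 / 2 + (t : ℂ) * Complex.I))‖ ^ 2 ≤ C * (q : ℝ) ^ (1 + ε) := by
  set d := min (ε / 3) 1 with hd_def
  have hd : 0 < d := lt_min (by positivity) one_pos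
  have hdε : d ≤ ε / 3 := min_le_left _ _
  have hd1 : d ≤ 1 := min_le_right _ _
  obtain ⟨CL, qL, hCL, HL⟩ := longq (ph t) (ph_tst t) θ hθ0 hθ d hd
  obtain ⟨CS, hCS, HS⟩ := c0_sum d hd hd1
  obtain ⟨CA, hCA, HA⟩ := apxq t
  set CI : ℝ := 1 / (d * Real.log 2) + 1 with hCI
  have hl2 : 0 < Real.log 2 := Real.log_pos (by norm_num)
  have hCI0 : 0 < CI := by positivity
  refine ⟨9 * CS + 3 * CI ^ 2 * CL + 6 * CA ^ 2,
    max qL ⌈(2 : ℝ) ^ (1 / (2 / 3 - θ))⌉₊, by positivity, ?_⟩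
  intro q _ hqq hqp M hM1 hMθ a ha
  have hqL : qL ≤ q := (le_max_left _ _).trans hqq
  set T : ℝ := (q : ℝ) with hTq
  have hT1 : 1 ≤ T := by
    rw [hTq]
    exact_mod_cast hqp.one_lt.le
  have hT0 : 0 < T := by linarith
  have hT2 : (2 : ℝ) ^ (1 / (2 / 3 - θ)) ≤ T := by
    refine (Nat.le_ceil _).trans ?_
    rw [hTq]
    exact_mod_cast (le_max_right _ _).trans hqq
  have hθ3 : 0 < 2 / 3 - θ := by linarith
  have hpow : (2 : ℝ) ≤ T ^ (2 / 3 - θ) := by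
    have := Real.rpow_le_rpow (by positivity) hT2 hθ3.le
    rwa [← Real.rpow_mul (by norm_num), one_div_mul_cancel hθ3.ne', Real.rpow_one] at this
  have hMT : (M : ℝ) ≤ T := by
    refine hMθ.trans ?_
    calc T ^ θ ≤ T ^ (1 : ℝ) := Real.rpow_le_rpow_of_exponent_le hT1 (by linarith)
      _ = T := Real.rpow_one T
  have hM2 : 2 * M * T ^ (4 / 3 : ℝ) ≤ T ^ 2 := by
    calc 2 * M * T ^ (4 / 3 : ℝ) ≤ T ^ (2 / 3 - θ) * T ^ θ * T ^ (4 / 3 : ℝ) := by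
          apply mul_le_mul_of_nonneg_right _ (by positivity)
          exact mul_le_mul hpow hMθ (by positivity) (by positivity)
      _ = T ^ (2 : ℝ) := by
          rw [← Real.rpow_add hT0, ← Real.rpow_add hT0]; congr 1; ring
      _ = T ^ 2 := by norm_num
  set X := T ^ d with hX
  have hX1 : 1 ≤ X := Real.one_le_rpow hT1 hd.le
  have hX0 : 0 < X := by linarith
  obtain ⟨n, hn1, hn2⟩ := exists_nat_pow_near hT1 (one_lt_two : (1 : ℝ) < 2)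
  have hI1 : T ≤ 2 ^ (n + 1) := hn2.le
  have hI2 : (2 : ℝ) ^ (n + 1) ≤ 2 * T := by rw [pow_succ]; linarith
  have hIb : ((n + 1 : ℕ) : ℝ) ≤ CI * X := by
    have h1 : (n : ℝ) * Real.log 2 ≤ Real.log T := by
      rw [← Real.log_pow]
      exact Real.log_le_log (by positivity) hn1
    have h2 : Real.log T ≤ X / d := Real.log_le_rpow_div hT0.le hd
    have h3 : (n : ℝ) ≤ 1 / (d * Real.log 2) * X := by
      have : (n : ℝ) * Real.log 2 ≤ X / d := h1.trans h2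
      rw [← le_div_iff₀ hl2] at this
      calc (n : ℝ) ≤ X / d / Real.log 2 := this
        _ = _ := by field_simp
    push_cast
    rw [hCI]
    linarith
  -- short piece
  have hshort : ∑ χ ∈ NP q, ‖Xs χ (tw t (c0 a M T)) ⌊2 * T⌋₊‖ ^ 2 ≤ 3 * CS * (T * X) := by
    have hKT : (⌊2 * T⌋₊ : ℝ) ≤ 2 * T := Nat.floor_le (by linarith)
    refine (shortq q (tw t (c0 a M T)) ⌊2 * T⌋₊).trans ?_
    have h1 := HS a M T ha hT1
    have h2 : (q : ℝ) + (⌊2 * T⌋₊ : ℝ) ≤ 3 * T := by linarith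
    have h3 : ∑ n ∈ Icc 1 ⌊2 * T⌋₊, ‖tw t (c0 a M T) n‖ ^ 2 =
        ∑ n ∈ Icc 1 ⌊2 * T⌋₊, ‖c0 a M T n‖ ^ 2 :=
      Finset.sum_congr rfl fun n _ => by rw [tw_norm]
    rw [h3]
    calc ((q : ℝ) + (⌊2 * T⌋₊ : ℝ)) * ∑ n ∈ Icc 1 ⌊2 * T⌋₊, ‖c0 a M T n‖ ^ 2 ≤
        3 * T * (CS * X) := by
          apply mul_le_mul h2 h1 (Finset.sum_nonneg fun i _ => by positivity) (by positivity)
      _ = _ := by ring
  have hlong : ∀ i ∈ range (n + 1),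
      ∑ χ ∈ NP q, ‖Xs χ (tw t (cQ a M (2 ^ i * T))) ⌊4 * (2 ^ i * T)⌋₊‖ ^ 2 ≤ CL * (T * X) := by
    intro i hi
    have hin : i ≤ n := by
      have := Finset.mem_range.1 hi
      omega
    have h2i : (2 : ℝ) ^ i ≤ T := (pow_le_pow_right₀ (by norm_num) hin).trans hn1
    have h2i1 : (1 : ℝ) ≤ 2 ^ i := one_le_pow₀ (by norm_num)
    have hQ0 : 0 < 2 ^ i * T := by positivity
    have hQ : 2 ^ i * T ∈ Set.Icc T (2 * T ^ 2) := by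
      constructor
      · nlinarith
      · have := mul_le_mul_of_nonneg_right h2i hT0.le
        rw [sq]
        nlinarith
    have h := HL q hqL hqp (2 ^ i * T) hQ M hM1 hMθ a ha
    have h1 : ∀ χ ∈ NP q, ‖Xs χ (tw t (cQ a M (2 ^ i * T))) ⌊4 * (2 ^ i * T)⌋₊‖ ^ 2 =
        (2 ^ i * T)⁻¹ * ‖Xs χ (cq (ph t) a M (2 ^ i * T)) ⌊4 * (2 ^ i * T)⌋₊‖ ^ 2 :=
      fun χ _ => Xs_long χ a M (2 ^ i * T) t hQ0 _
    rw [Finset.sum_congr rfl h1, ← Finset.mul_sum, inv_mul_le_iff₀ hQ0]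
    refine h.trans (le_of_eq ?_)
    rw [Real.rpow_add hT0, Real.rpow_one]
    ring
  -- number of characters
  have hcard : ((NP q).card : ℝ) ≤ 2 * T := by
    have h := shortq q (fun _ => 1) 1
    simp only [Xs, Finset.Icc_self, Finset.sum_singleton, Nat.cast_one, map_one, mul_one,
      norm_one, one_pow, Finset.sum_const, nsmul_eq_mul, Finset.card_singleton] at h
    linarith
  -- pointwise bound
  have hpt : ∀ χ ∈ NP q, ‖χ.LFunction (1 / 2 + (t : ℂ) * Complex.I)‖ ^ 2 *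
      ‖∑ m ∈ Ioc M (2 * M), a m * χ (m : ZMod q) *
        (m : ℂ) ^ (-(1 / 2 + (t : ℂ) * Complex.I))‖ ^ 2 ≤
      3 * ‖Xs χ (tw t (c0 a M T)) ⌊2 * T⌋₊‖ ^ 2 + 3 * ((n + 1 : ℕ) : ℝ) * ∑ i ∈ range (n + 1),
        ‖Xs χ (tw t (cQ a M (2 ^ i * T))) ⌊4 * (2 ^ i * T)⌋₊‖ ^ 2 + 3 * CA ^ 2 := by
    intro χ hχ
    have hχ1 : χ ≠ 1 := by
      exact ((@Finset.mem_erase _ (Classical.decEq _) _ _ _).1 hχ).1
    rw [← mul_pow, ← norm_mul]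
    exact cs _ (n + 1) _ _ CA (approxq χ _ t CA hCA T hT1 (HA q χ hχ1) M hMT hM2 a ha (n + 1)
      hI1 hI2)
  refine (Finset.sum_le_sum hpt).trans ?_
  rw [Finset.sum_add_distrib, Finset.sum_add_distrib, ← Finset.mul_sum, ← Finset.mul_sum,
    Finset.sum_comm, Finset.sum_const, nsmul_eq_mul]
  have hN0 : (0 : ℝ) ≤ ((n + 1 : ℕ) : ℝ) := by positivity
  have hsum : ∑ i ∈ range (n + 1), ∑ χ ∈ NP q,
      ‖Xs χ (tw t (cQ a M (2 ^ i * T))) ⌊4 * (2 ^ i * T)⌋₊‖ ^ 2 ≤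
      ((n + 1 : ℕ) : ℝ) * (CL * (T * X)) := by
    refine (Finset.sum_le_sum hlong).trans ?_
    rw [Finset.sum_const, Finset.card_range, nsmul_eq_mul]
  have h3 : T * X ^ 3 ≤ T ^ (1 + ε) := by
    have : T * X ^ 3 = T ^ (1 + 3 * d) := by
      rw [Real.rpow_add hT0, Real.rpow_one, hX, ← Real.rpow_natCast, ← Real.rpow_mul hT0.le]
      congr 2; push_cast; ring
    rw [this]
    exact Real.rpow_le_rpow_of_exponent_le hT1 (by linarith)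
  have hX13 : X ≤ X ^ 3 := by
    calc X = X ^ 1 := (pow_one X).symm
      _ ≤ X ^ 3 := pow_le_pow_right₀ hX1 (by norm_num)
  have hX3 : 1 ≤ X ^ 3 := one_le_pow₀ hX1
  have hp1 : 3 * ∑ χ ∈ NP q, ‖Xs χ (tw t (c0 a M T)) ⌊2 * T⌋₊‖ ^ 2 ≤
      9 * CS * (T * X ^ 3) := by
    calc 3 * ∑ χ ∈ NP q, ‖Xs χ (tw t (c0 a M T)) ⌊2 * T⌋₊‖ ^ 2 ≤ 3 * (3 * CS * (T * X)) :=
          mul_le_mul_of_nonneg_left hshort (by norm_num)
      _ = 9 * CS * (T * X) := by ring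
      _ ≤ 9 * CS * (T * X ^ 3) := by
          apply mul_le_mul_of_nonneg_left _ (by positivity)
          exact mul_le_mul_of_nonneg_left hX13 hT0.le
  have hp2 : 3 * ((n + 1 : ℕ) : ℝ) * ∑ i ∈ range (n + 1), ∑ χ ∈ NP q,
      ‖Xs χ (tw t (cQ a M (2 ^ i * T))) ⌊4 * (2 ^ i * T)⌋₊‖ ^ 2 ≤
      3 * CI ^ 2 * CL * (T * X ^ 3) := by
    have hsq : ((n + 1 : ℕ) : ℝ) ^ 2 ≤ (CI * X) ^ 2 := pow_le_pow_left₀ hN0 hIb 2
    calc 3 * ((n + 1 : ℕ) : ℝ) * ∑ i ∈ range (n + 1), ∑ χ ∈ NP q,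
      ‖Xs χ (tw t (cQ a M (2 ^ i * T))) ⌊4 * (2 ^ i * T)⌋₊‖ ^ 2 ≤
        3 * ((n + 1 : ℕ) : ℝ) * (((n + 1 : ℕ) : ℝ) * (CL * (T * X))) :=
          mul_le_mul_of_nonneg_left hsum (by positivity)
      _ = ((n + 1 : ℕ) : ℝ) ^ 2 * (3 * CL * (T * X)) := by ring
      _ ≤ (CI * X) ^ 2 * (3 * CL * (T * X)) := mul_le_mul_of_nonneg_right hsq (by positivity)
      _ = _ := by ring
  have hp3 : ((NP q).card : ℝ) * (3 * CA ^ 2) ≤ 6 * CA ^ 2 * (T * X ^ 3) := by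
    calc ((NP q).card : ℝ) * (3 * CA ^ 2) ≤ 2 * T * (3 * CA ^ 2) :=
          mul_le_mul_of_nonneg_right hcard (by positivity)
      _ = 6 * CA ^ 2 * T := by ring
      _ ≤ 6 * CA ^ 2 * (T * X ^ 3) :=
          mul_le_mul_of_nonneg_left (le_mul_of_one_le_right hT0.le hX3) (by positivity)
  refine (add_le_add (add_le_add hp1 hp2) hp3).trans ?_
  have hCC : 0 ≤ 9 * CS + 3 * CI ^ 2 * CL + 6 * CA ^ 2 := by positivity
  have hfin := mul_le_mul_of_nonneg_left h3 hCC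
  refine le_trans (le_of_eq ?_) hfin
  ring

end Pool.Agent.H442R2.TSM
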