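import Pool.Agent.H442R2.TSM.QDefs
import Pool.Agent.H442R2.TSM.FinPre

/-!
TSQ project, task QL: the theorem from the estimate of one dyadic block.
-/

namespace Pool.Agent.H442R2.TSM

open Finset

namespace TaskQL

/-- the statement of `blockq` -/
def BlockQS (t : ℝ) : Prop := ∀ (θ : ℝ) (_ : 0 < θ) (_ : θ < 14 / 27) (ε : ℝ) (_ : 0 < ε),
    ∃ (C : ℝ) (q₁ : ℕ), 0 < C ∧ ∀ (q : ℕ) [NeZero q], q₁ ≤ q → q.Prime → ∀ M : ℕ, 1 ≤ M →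
    (M : ℝ) ≤ (q : ℝ) ^ θ → ∀ a : ℕ → ℂ, (∀ m, ‖a m‖ ≤ 1) →
    ∑ χ ∈ NP q, ‖χ.LFunction (1 / 2 + (t : ℂ) * Complex.I)‖ ^ 2 *
      ‖∑ m ∈ Ioc M (2 * M), a m * χ (m : ZMod q) *
        (m : ℂ) ^ (-(1 / 2 + (t : ℂ) * Complex.I))‖ ^ 2 ≤ C * (q : ℝ) ^ (1 + ε)

/-- square of the absolute value of L -/
noncomputable def LL (t : ℝ) {q : ℕ} [NeZero q] (χ : DirichletCharacter ℂ q) : ℝ :=
  ‖χ.LFunction (1 / 2 + (t : ℂ) * Complex.I)‖ ^ 2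

/-- square of the absolute value of a twisted Dirichlet polynomial -/
noncomputable def GX (t : ℝ) {q : ℕ} (χ : DirichletCharacter ℂ q) (a : ℕ → ℂ) (S : Finset ℕ) : ℝ :=
  ‖∑ n ∈ S, a n * χ (n : ZMod q) * (n : ℂ) ^ (-(1 / 2 + (t : ℂ) * Complex.I))‖ ^ 2

lemma LL_nonneg (t : ℝ) {q : ℕ} [NeZero q] (χ : DirichletCharacter ℂ q) : 0 ≤ LL t χ := by
  unfold LL; positivity

lemma GX_nonneg (t : ℝ) {q : ℕ} (χ : DirichletCharacter ℂ q) (a : ℕ → ℂ) (S : Finset ℕ) :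
    0 ≤ GX t χ a S := by
  unfold GX; positivity

lemma G2 (t : ℝ) {q : ℕ} (hq : q.Prime) (hq2 : 2 < q) (χ : DirichletCharacter ℂ q) :
    GX t χ TaskTO.e2 (Ioc 1 (2 * 1)) = 1 / 2 := by
  unfold GX
  have h1 : Ioc 1 (2 * 1) = ({2} : Finset ℕ) := by decide
  rw [h1, sum_singleton]
  have h2 : TaskTO.e2 2 = 1 := by unfold TaskTO.e2; simp
  have hu : IsUnit ((2 : ℕ) : ZMod q) := by
    rw [ZMod.isUnit_iff_coprime]
    rw [Nat.coprime_comm, Nat.Prime.coprime_iff_not_dvd hq]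
    intro h
    have := Nat.le_of_dvd (by norm_num) h
    omega
  have h5 : ‖χ ((2 : ℕ) : ZMod q)‖ = 1 := by
    obtain ⟨u, hu'⟩ := hu
    rw [← hu']
    exact DirichletCharacter.unit_norm_eq_one χ u
  rw [h2, one_mul, norm_mul, h5, one_mul]
  have h3 : ‖((2 : ℕ) : ℂ) ^ (-(1 / 2 + (t : ℂ) * Complex.I))‖ = (2 : ℝ) ^ (-(1 / 2) : ℝ) := by
    have := Complex.norm_natCast_cpow_of_pos (n := 2) (by norm_num)
      (-(1 / 2 + (t : ℂ) * Complex.I))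
    rw [this]
    have h4 : (-(1 / 2 + (t : ℂ) * Complex.I)).re = -(1 / 2) := by
      simp
    rw [h4]
    norm_num
  rw [h3, ← Real.rpow_natCast, ← Real.rpow_mul (by norm_num)]
  norm_num

/-- the pointwise inequality -/
lemma pointwise (t : ℝ) {q : ℕ} (hq : q.Prime) (hq2 : 2 < q) (χ : DirichletCharacter ℂ q) (N : ℕ)
    (a : ℕ → ℂ) (ha : ∀ n, ‖a n‖ ≤ 1) :
    GX t χ a (Icc 1 N) ≤ ((Nat.clog 2 N : ℝ) + 1) * (2 * GX t χ TaskTO.e2 (Ioc 1 (2 * 1)) +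
      ∑ i ∈ range (Nat.clog 2 N),
        GX t χ (fun n => if n ≤ N then a n else 0) (Ioc (2 ^ i) (2 * 2 ^ i))) := by
  have hN : N ≤ 2 ^ Nat.clog 2 N := Nat.le_pow_clog (by norm_num) N
  have h1 : ∑ n ∈ Icc 1 N, a n * χ (n : ZMod q) * (n : ℂ) ^ (-(1 / 2 + (t : ℂ) * Complex.I)) =
      ∑ n ∈ Icc 1 (2 ^ Nat.clog 2 N), (if n ≤ N then a n else 0) * χ (n : ZMod q) *
        (n : ℂ) ^ (-(1 / 2 + (t : ℂ) * Complex.I)) := by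
    have h2 : ∑ n ∈ Icc 1 N, a n * χ (n : ZMod q) * (n : ℂ) ^ (-(1 / 2 + (t : ℂ) * Complex.I)) =
        ∑ n ∈ Icc 1 N, (if n ≤ N then a n else 0) * χ (n : ZMod q) *
        (n : ℂ) ^ (-(1 / 2 + (t : ℂ) * Complex.I)) := by
      refine sum_congr rfl fun n hn => ?_
      rw [if_pos (mem_Icc.1 hn).2]
    rw [h2]
    refine sum_subset (Icc_subset_Icc le_rfl hN) fun n hn0 hn' => ?_
    rw [if_neg, zero_mul, zero_mul]
    intro h3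
    exact hn' (mem_Icc.2 ⟨(mem_Icc.1 hn0).1, h3⟩)
  have h5 : ‖(if 1 ≤ N then a 1 else 0) * χ ((1 : ℕ) : ZMod q) *
      ((1 : ℕ) : ℂ) ^ (-(1 / 2 + (t : ℂ) * Complex.I))‖ ^ 2 ≤
        2 * GX t χ TaskTO.e2 (Ioc 1 (2 * 1)) := by
    rw [G2 t hq hq2]
    have h6 : ‖(if 1 ≤ N then a 1 else 0) * χ ((1 : ℕ) : ZMod q) *
        ((1 : ℕ) : ℂ) ^ (-(1 / 2 + (t : ℂ) * Complex.I))‖ ≤ 1 := by
      rw [Nat.cast_one, Nat.cast_one, Complex.one_cpow, mul_one, map_one, mul_one]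
      split_ifs
      · exact ha 1
      · simp
    have h7 : ‖(if 1 ≤ N then a 1 else 0) * χ ((1 : ℕ) : ZMod q) *
        ((1 : ℕ) : ℂ) ^ (-(1 / 2 + (t : ℂ) * Complex.I))‖ ^ 2 ≤ 1 ^ 2 :=
      pow_le_pow_left₀ (norm_nonneg _) h6 2
    linarith
  have h8 : GX t χ a (Icc 1 N) = ‖∑ n ∈ Icc 1 (2 ^ Nat.clog 2 N), (if n ≤ N then a n else 0) *
        χ (n : ZMod q) * (n : ℂ) ^ (-(1 / 2 + (t : ℂ) * Complex.I))‖ ^ 2 := by
    unfold GX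
    rw [h1]
  rw [h8, TaskTO.dyad (fun n => (if n ≤ N then a n else 0) * χ (n : ZMod q) *
        (n : ℂ) ^ (-(1 / 2 + (t : ℂ) * Complex.I))) (Nat.clog 2 N)]
  refine (TaskTO.cs (Nat.clog 2 N) _ _).trans ?_
  refine mul_le_mul_of_nonneg_left ?_ (by positivity)
  exact add_le_add h5 le_rfl

/-- large `q` -/
lemma large (t : ℝ) (hb : BlockQS t) (θ : ℝ) (hθ0 : 0 < θ) (hθ : θ < 14 / 27) (ε : ℝ)
    (hε : 0 < ε) :
    ∃ (C : ℝ) (q₁ : ℕ), 0 < C ∧ ∀ (q : ℕ) [NeZero q], q₁ ≤ q → q.Prime → ∀ N : ℕ,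
    (N : ℝ) ≤ (q : ℝ) ^ θ → ∀ a : ℕ → ℂ, (∀ n, ‖a n‖ ≤ 1) →
    ∑ χ ∈ NP q, LL t χ * GX t χ a (Icc 1 N) ≤ C * (q : ℝ) ^ (1 + ε) := by
  obtain ⟨C, q₁, hC, H⟩ := hb θ hθ0 hθ (ε / 2) (by positivity)
  refine ⟨C * (3 + 8 / ε) ^ 2, max q₁ 3, by positivity, fun q _ hq hqp N hN a ha => ?_⟩
  have hq1 : q₁ ≤ q := (le_max_left _ _).trans hq
  have hq3 : 3 ≤ q := (le_max_right _ _).trans hq
  have hT1 : (1 : ℝ) ≤ q := by
    have : 1 ≤ q := by omega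
    exact_mod_cast this
  have hT0 : (0 : ℝ) < q := by linarith
  obtain ⟨J, hJ⟩ : ∃ J, J = Nat.clog 2 N := ⟨_, rfl⟩
  obtain ⟨a', ha'⟩ : ∃ a' : ℕ → ℂ, a' = fun n => if n ≤ N then a n else 0 := ⟨_, rfl⟩
  have ha'1 : ∀ n, ‖a' n‖ ≤ 1 := by
    intro n
    rw [ha']
    dsimp only
    split_ifs
    · exact ha n
    · simp
  have B0 : ∑ χ ∈ NP q, LL t χ * GX t χ TaskTO.e2 (Ioc 1 (2 * 1)) ≤
      C * (q : ℝ) ^ (1 + ε / 2) := by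
    have hM : ((1 : ℕ) : ℝ) ≤ (q : ℝ) ^ θ := by
      rw [Nat.cast_one]; exact Real.one_le_rpow hT1 hθ0.le
    exact H q hq1 hqp 1 le_rfl hM TaskTO.e2 TaskTO.e2_bd
  have Bi : ∀ i ∈ range J, ∑ χ ∈ NP q, LL t χ * GX t χ a' (Ioc (2 ^ i) (2 * 2 ^ i)) ≤
      C * (q : ℝ) ^ (1 + ε / 2) := by
    intro i hi
    rw [mem_range] at hi
    have h1 : 2 ^ i < N := (Nat.lt_clog_iff_pow_lt (by norm_num)).1 (hJ ▸ hi)
    have h2 : ((2 ^ i : ℕ) : ℝ) ≤ (q : ℝ) ^ θ := by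
      have : ((2 ^ i : ℕ) : ℝ) ≤ N := by exact_mod_cast h1.le
      linarith
    exact H q hq1 hqp (2 ^ i) Nat.one_le_two_pow h2 a' ha'1
  have step1 : ∑ χ ∈ NP q, LL t χ * GX t χ a (Icc 1 N) ≤
      ((J : ℝ) + 1) * (2 * (∑ χ ∈ NP q, LL t χ * GX t χ TaskTO.e2 (Ioc 1 (2 * 1))) +
        ∑ i ∈ range J, ∑ χ ∈ NP q, LL t χ * GX t χ a' (Ioc (2 ^ i) (2 * 2 ^ i))) := by
    rw [sum_comm, mul_sum, ← sum_add_distrib, mul_sum]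
    refine sum_le_sum fun χ _ => ?_
    have h1 := mul_le_mul_of_nonneg_left (pointwise t hqp (by omega) χ N a ha) (LL_nonneg t χ)
    rw [← ha', ← hJ] at h1
    refine h1.trans (le_of_eq ?_)
    rw [← mul_sum]
    ring
  have step3 : ∑ i ∈ range J, ∑ χ ∈ NP q, LL t χ * GX t χ a' (Ioc (2 ^ i) (2 * 2 ^ i)) ≤
      J * (C * (q : ℝ) ^ (1 + ε / 2)) := by
    calc _ ≤ ∑ _i ∈ range J, C * (q : ℝ) ^ (1 + ε / 2) := sum_le_sum Bi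
      _ = J * (C * (q : ℝ) ^ (1 + ε / 2)) := by rw [sum_const, card_range, nsmul_eq_mul]
  have hcl := TaskTO.clog_bd q θ ε hT1 (by linarith) hε N hN
  rw [← hJ] at hcl
  have hJ0 : (0 : ℝ) ≤ J := Nat.cast_nonneg _
  have hX : 0 < C * (q : ℝ) ^ (1 + ε / 2) := by positivity
  calc ∑ χ ∈ NP q, LL t χ * GX t χ a (Icc 1 N)
      ≤ ((J : ℝ) + 1) * (2 * (C * (q : ℝ) ^ (1 + ε / 2)) + J * (C * (q : ℝ) ^ (1 + ε / 2))) := by
        refine step1.trans ?_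
        refine mul_le_mul_of_nonneg_left ?_ (by positivity)
        linarith
    _ = (((J : ℝ) + 1) * ((J : ℝ) + 2)) * (C * (q : ℝ) ^ (1 + ε / 2)) := by ring
    _ ≤ (((J : ℝ) + 2) * ((J : ℝ) + 2)) * (C * (q : ℝ) ^ (1 + ε / 2)) := by
        refine mul_le_mul_of_nonneg_right ?_ hX.le
        nlinarith
    _ ≤ (((3 + 8 / ε) * (q : ℝ) ^ (ε / 4)) * ((3 + 8 / ε) * (q : ℝ) ^ (ε / 4))) *
          (C * (q : ℝ) ^ (1 + ε / 2)) := by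
        refine mul_le_mul_of_nonneg_right ?_ hX.le
        exact mul_le_mul hcl hcl (by positivity) (by positivity)
    _ = C * (3 + 8 / ε) ^ 2 * (((q : ℝ) ^ (ε / 4) * (q : ℝ) ^ (ε / 4)) *
          (q : ℝ) ^ (1 + ε / 2)) := by ring
    _ = C * (3 + 8 / ε) ^ 2 * (q : ℝ) ^ (1 + ε) := by
        rw [← Real.rpow_add hT0, ← Real.rpow_add hT0]
        congr 2
        ring

/-- the sum of all `|L|²` for one modulus -/
noncomputable def B0 (t : ℝ) (q : ℕ) [NeZero q] : ℝ := ∑ χ ∈ NP q, LL t χ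

open Classical in
/-- the sum of all `|L|²` for one modulus -/
noncomputable def BB (t : ℝ) (q : ℕ) : ℝ :=
  if h : NeZero q then @B0 t q h else 0

lemma BB_nonneg (t : ℝ) (q : ℕ) : 0 ≤ BB t q := by
  unfold BB
  split_ifs with h
  · unfold B0
    exact sum_nonneg fun χ _ => LL_nonneg t χ
  · exact le_rfl

lemma BB_eq (t : ℝ) (q : ℕ) [h : NeZero q] : BB t q = ∑ χ ∈ NP q, LL t χ := by
  unfold BB
  rw [dif_pos h]
  rfl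

/-- small `q` -/
lemma small (t : ℝ) (θ : ℝ) (hθ : θ < 14 / 27) (ε : ℝ) (hε : 0 < ε) (q₁ : ℕ) :
    ∃ C : ℝ, 0 < C ∧ ∀ (q : ℕ) [NeZero q], q ≤ q₁ → ∀ N : ℕ, (N : ℝ) ≤ (q : ℝ) ^ θ →
    ∀ a : ℕ → ℂ, (∀ n, ‖a n‖ ≤ 1) →
    ∑ χ ∈ NP q, LL t χ * GX t χ a (Icc 1 N) ≤ C * (q : ℝ) ^ (1 + ε) := by
  have hS : 0 ≤ ∑ q ∈ range (q₁ + 1), BB t q := sum_nonneg fun q _ => BB_nonneg t q
  refine ⟨(∑ q ∈ range (q₁ + 1), BB t q) * (q₁ : ℝ) ^ 2 + 1, by positivity,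
    fun q _ hq N hN a ha => ?_⟩
  have hq1 : (1 : ℝ) ≤ q := by
    have : 1 ≤ q := Nat.one_le_iff_ne_zero.mpr (NeZero.ne q)
    exact_mod_cast this
  have hNq : (N : ℝ) ≤ q₁ := by
    calc (N : ℝ) ≤ (q : ℝ) ^ θ := hN
      _ ≤ (q : ℝ) ^ (1 : ℝ) := Real.rpow_le_rpow_of_exponent_le hq1 (by linarith)
      _ = q := Real.rpow_one _
      _ ≤ q₁ := by exact_mod_cast hq
  have hG : ∀ χ : DirichletCharacter ℂ q, GX t χ a (Icc 1 N) ≤ (q₁ : ℝ) ^ 2 := by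
    intro χ
    unfold GX
    refine pow_le_pow_left₀ (norm_nonneg _) ?_ 2
    refine (norm_sum_le _ _).trans ?_
    calc ∑ n ∈ Icc 1 N, ‖a n * χ (n : ZMod q) * (n : ℂ) ^ (-(1 / 2 + (t : ℂ) * Complex.I))‖
        ≤ ∑ _n ∈ Icc 1 N, (1 : ℝ) := by
          refine sum_le_sum fun n hn => ?_
          rw [norm_mul, norm_mul]
          have h1 := ha n
          have h2 := TaskTO.term_le n (mem_Icc.1 hn).1 t
          have h3 := DirichletCharacter.norm_le_one χ (n : ZMod q)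
          calc _ ≤ (1 : ℝ) * 1 * 1 :=
                mul_le_mul (mul_le_mul h1 h3 (norm_nonneg _) zero_le_one) h2 (norm_nonneg _)
                  (by norm_num)
            _ = 1 := by norm_num
      _ = (N : ℝ) := by simp
      _ ≤ q₁ := hNq
  have h1 : ∑ χ ∈ NP q, LL t χ * GX t χ a (Icc 1 N) ≤ BB t q * (q₁ : ℝ) ^ 2 := by
    rw [BB_eq, sum_mul]
    exact sum_le_sum fun χ _ => mul_le_mul_of_nonneg_left (hG χ) (LL_nonneg t χ)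
  have h2 : BB t q ≤ ∑ q ∈ range (q₁ + 1), BB t q :=
    single_le_sum (f := BB t) (fun q _ => BB_nonneg t q) (mem_range.mpr (by omega))
  have h3 : (1 : ℝ) ≤ (q : ℝ) ^ (1 + ε) := Real.one_le_rpow hq1 (by linarith)
  calc ∑ χ ∈ NP q, LL t χ * GX t χ a (Icc 1 N) ≤ BB t q * (q₁ : ℝ) ^ 2 := h1
    _ ≤ (∑ q ∈ range (q₁ + 1), BB t q) * (q₁ : ℝ) ^ 2 :=
        mul_le_mul_of_nonneg_right h2 (by positivity)
    _ ≤ (∑ q ∈ range (q₁ + 1), BB t q) * (q₁ : ℝ) ^ 2 + 1 := by linarith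
    _ ≤ _ := le_mul_of_one_le_right (by positivity) h3

end TaskQL

theorem finalq_of (t : ℝ) (hb : TaskQL.BlockQS t) (θ : ℝ) (hθ0 : 0 < θ) (hθ : θ < 14 / 27)
    (ε : ℝ) (hε : 0 < ε) :
    ∃ C : ℝ, 0 < C ∧ ∀ (q : ℕ) [NeZero q], q.Prime → ∀ N : ℕ, (N : ℝ) ≤ (q : ℝ) ^ θ →
    ∀ a : ℕ → ℂ, (∀ n, ‖a n‖ ≤ 1) →
    ∑ χ ∈ NP q, ‖χ.LFunction (1 / 2 + (t : ℂ) * Complex.I)‖ ^ 2 *
      ‖∑ n ∈ Icc 1 N, a n * χ (n : ZMod q) *
        (n : ℂ) ^ (-(1 / 2 + (t : ℂ) * Complex.I))‖ ^ 2 ≤ C * (q : ℝ) ^ (1 + ε) := by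
  obtain ⟨C, q₁, hC, H⟩ := TaskQL.large t hb θ hθ0 hθ ε hε
  obtain ⟨C', hC', H'⟩ := TaskQL.small t θ hθ ε hε q₁
  refine ⟨C + C', by positivity, fun q _ hqp N hN a ha => ?_⟩
  have hX : 0 < (q : ℝ) ^ (1 + ε) := Real.rpow_pos_of_pos (by exact_mod_cast hqp.pos) _
  rcases le_total q₁ q with h | h
  · refine (H q h hqp N hN a ha).trans ?_
    refine mul_le_mul_of_nonneg_right ?_ hX.le
    linarith
  · refine (H' q h N hN a ha).trans ?_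
    refine mul_le_mul_of_nonneg_right ?_ hX.le
    linarith

end Pool.Agent.H442R2.TSM
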