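import Pool.Agent.H442R2.TSM.QDefs
import Pool.Agent.H442R2.TSM.Inn
import Pool.Agent.H442R2.TSM.Gcd

/-!
TSQ project, task QC: Poisson summation in the inner sum.
-/

namespace Pool.Agent.H442R2.TSM

open Finset MeasureTheory

theorem innq_zero (φ : ℝ → ℂ) (Q : ℝ) (m₁ m₂ : ℕ) (r : ℤ)
    (h : ¬ ((Nat.gcd m₁ m₂ : ℕ) : ℤ) ∣ r) : innq φ Q m₁ m₂ r = 0 := by
  unfold innq
  rw [Finset.filter_false_of_mem, Finset.sum_empty]
  rintro q - ⟨h1, h2⟩
  apply h
  have h3 : ((Nat.gcd m₁ m₂ : ℕ) : ℤ) ∣ (q : ℤ) :=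
    Int.natCast_dvd_natCast.2 ((Nat.gcd_dvd_left m₁ m₂).trans h1)
  have h4 : ((Nat.gcd m₁ m₂ : ℕ) : ℤ) ∣ (q : ℤ) - r :=
    (Int.natCast_dvd_natCast.2 (Nat.gcd_dvd_right m₁ m₂)).trans h2
  have h5 := dvd_sub h3 h4
  simpa using h5

namespace TaskQC

/-- the scaled kernel is a test function -/
lemma gq_tst (φ : ℝ → ℂ) (hφ : Tst φ) (Q r : ℝ) (hQ : 0 < Q) :
    Tst (fun u => gq φ Q r (Q * u)) := by
  have h0 : (fun u => gq φ Q r (Q * u)) =
      fun u => φ u * Complex.conjCLE (φ (u - r / Q)) := by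
    funext u
    unfold gq
    rw [mul_div_cancel_left₀ _ hQ.ne', sub_div, mul_div_cancel_left₀ _ hQ.ne']
    rfl
  constructor
  · rw [h0]
    apply hφ.smooth.mul
    exact Complex.conjCLE.contDiff.comp
      (hφ.smooth.comp (contDiff_id.sub contDiff_const))
  · intro u hu
    have h1 : gq φ Q r (Q * u) = φ u * Complex.conjCLE (φ (u - r / Q)) := congrFun h0 u
    rw [h1, hφ.supp u hu, zero_mul]

end TaskQC

open TaskF TaskQC in
theorem innq_pois (φ : ℝ → ℂ) (hφ : Tst φ) (Q : ℝ) (hQ : 1 ≤ Q) (g h k : ℕ) (hg : 1 ≤ g)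
    (hh : 1 ≤ h) (hk : 1 ≤ k) (hc : Nat.Coprime h k) (r : ℤ) :
    Summable (fun j : ℤ => Fh (gq φ Q ((g : ℝ) * r)) ((j : ℝ) / ((g : ℝ) * h * k)) *
      KF.kf (j * r) h k) ∧
    innq φ Q (g * h) (g * k) (g * r) = ((1 / ((g : ℝ) * h * k) : ℝ) : ℂ) *
      ∑' j : ℤ, Fh (gq φ Q ((g : ℝ) * r)) ((j : ℝ) / ((g : ℝ) * h * k)) *
        KF.kf (j * r) h k := by
  have hQ0 : 0 < Q := by linarith
  have hgR : (0 : ℝ) < g := by exact_mod_cast (by omega : 0 < g)
  have hhR : (0 : ℝ) < h := by exact_mod_cast (by omega : 0 < h)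
  have hkR : (0 : ℝ) < k := by exact_mod_cast (by omega : 0 < k)
  set b : ℤ := ((((h : ℤ) : ZMod k)⁻¹).val : ℤ) with hb
  set F : ℝ → ℂ := gq φ Q ((g : ℝ) * r) with hF
  set f : ℝ → ℂ := fun u => F (Q * u) with hf
  have hft : Tst f := gq_tst φ hφ Q _ hQ0
  set l : ℝ := (g : ℝ) * h * k / Q with hl
  have hl0 : 0 < l := by positivity
  set x : ℝ := (r * b : ℤ) / (k : ℝ) with hx
  obtain ⟨hp1, hp2⟩ := pois f hft l hl0 x
  have hFf : ∀ j : ℤ, Fh f ((j : ℝ) / l) =
      ((1 / Q : ℝ) : ℂ) * Fh F ((j : ℝ) / ((g : ℝ) * h * k)) := by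
    intro j
    rw [hf, Fh_scale F Q hQ0]
    congr 2
    rw [hl]
    field_simp
  have hkf : ∀ j : ℤ, KF.e ((j : ℝ) * x) = KF.kf (j * r) h k := by
    intro j
    unfold KF.kf
    congr 1
    rw [hx, hb]
    push_cast
    ring
  have hterm : ∀ j : ℤ, Fh f ((j : ℝ) / l) * KF.e ((j : ℝ) * x) = ((1 / Q : ℝ) : ℂ) *
      (Fh F ((j : ℝ) / ((g : ℝ) * h * k)) * KF.kf (j * r) h k) := by
    intro j
    rw [hFf, hkf, mul_assoc]
  have hQC : ((1 / Q : ℝ) : ℂ) ≠ 0 := by
    rw [Complex.ofReal_ne_zero]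
    positivity
  constructor
  · have h1 := hp1.mul_left (((1 / Q : ℝ) : ℂ)⁻¹)
    refine h1.congr (fun j => ?_)
    rw [hterm, inv_mul_cancel_left₀ hQC]
  · -- the inner sum
    have h2 : innq φ Q (g * h) (g * k) (g * r) = ∑' n : ℤ, f (l * ((n : ℝ) + x)) := by
      classical
      set ψ : ℤ → ℤ := fun n => (g : ℤ) * h * (k * n + r * b) with hψ
      have hψi : Function.Injective ψ := by
        intro n n' hn
        have h3 : (g : ℤ) * h ≠ 0 := by
          have : g * h ≠ 0 := Nat.mul_ne_zero (by omega) (by omega)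
          exact_mod_cast this
        have h4 := mul_left_cancel₀ h3 hn
        have h5 : (k : ℤ) * n = k * n' := by linarith
        exact mul_left_cancel₀ (by exact_mod_cast (by omega : k ≠ 0)) h5
      set G : ℤ → ℂ := fun q => if ((g * h : ℕ) : ℤ) ∣ q ∧ ((g * k : ℕ) : ℤ) ∣ q - (g : ℤ) * r
        then F (q : ℝ) else 0 with hG
      have h3 : ∀ n : ℤ, f (l * ((n : ℝ) + x)) = G (ψ n) := by
        intro n
        have hcond : ((g * h : ℕ) : ℤ) ∣ ψ n ∧ ((g * k : ℕ) : ℤ) ∣ ψ n - (g : ℤ) * r :=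
          (cond_iff g h k hg hh hk hc r (ψ n)).2 ⟨n, rfl⟩
        rw [hG]
        simp only
        rw [if_pos hcond, hf]
        simp only
        congr 1
        rw [hl, hx, hψ]
        push_cast
        field_simp
      simp_rw [h3]
      rw [hψi.tsum_eq (f := G) (by
        intro q hq
        rw [Function.mem_support] at hq
        have hcond : ((g * h : ℕ) : ℤ) ∣ q ∧ ((g * k : ℕ) : ℤ) ∣ q - (g : ℤ) * r := by
          by_contra hcon
          exact hq (if_neg hcon)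
        obtain ⟨n, hn⟩ := (cond_iff g h k hg hh hk hc r q).1 hcond
        exact ⟨n, hn.symm⟩)]
      rw [tsum_eq_sum (s := (Icc 1 ⌊4 * Q⌋₊).map Nat.castEmbedding) (by
        intro q hq
        rw [hG]
        simp only
        split_ifs with hcond
        · rw [hF]
          unfold gq
          rw [hφ.supp _ (by
            rintro ⟨h5, h6⟩
            apply hq
            rw [Finset.mem_map]
            have h7 : Q ≤ (q : ℝ) := by rwa [le_div_iff₀ hQ0, one_mul] at h5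
            have h8 : (q : ℝ) ≤ 4 * Q := by rwa [div_le_iff₀ hQ0] at h6
            have h9 : 0 < q := by
              have : (0 : ℝ) < q := by linarith
              exact_mod_cast this
            refine ⟨q.toNat, ?_, ?_⟩
            · rw [Finset.mem_Icc]
              refine ⟨by omega, ?_⟩
              apply Nat.le_floor
              have : ((q.toNat : ℕ) : ℝ) = (q : ℝ) := by
                have : ((q.toNat : ℕ) : ℤ) = q := Int.toNat_of_nonneg h9.le
                exact_mod_cast this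
              rw [this]
              exact h8
            · simp only [Nat.castEmbedding_apply]
              exact Int.toNat_of_nonneg h9.le)]
          simp
        · rfl)]
      rw [Finset.sum_map]
      unfold innq
      rw [Finset.sum_filter]
      apply Finset.sum_congr rfl
      intro q _
      rw [hG]
      simp only [Nat.castEmbedding_apply]
      have hcc : (g * h ∣ q ∧ ((g * k : ℕ) : ℤ) ∣ (q : ℤ) - (g : ℤ) * r) ↔
          (((g * h : ℕ) : ℤ) ∣ (q : ℤ) ∧ ((g * k : ℕ) : ℤ) ∣ (q : ℤ) - (g : ℤ) * r) := by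
        rw [Int.natCast_dvd_natCast]
      by_cases h5 : (g * h ∣ q ∧ ((g * k : ℕ) : ℤ) ∣ (q : ℤ) - (g : ℤ) * r)
      · rw [if_pos h5, if_pos (hcc.1 h5), hF]
        push_cast
        rfl
      · rw [if_neg h5, if_neg (fun h6 => h5 (hcc.2 h6))]
    rw [h2, hp2]
    simp_rw [hterm]
    rw [tsum_mul_left, ← mul_assoc, ← Complex.ofReal_mul]
    congr 2
    rw [hl]
    field_simp

open TaskTL in
theorem SSq_split (φ : ℝ → ℂ) (a : ℕ → ℂ) (M : ℕ) (Q : ℝ) (q L : ℕ) (hq : q.Prime)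
    (hM : 2 * M < q) :
    SSq φ a M Q q L = ∑ g ∈ Icc 1 (2 * M), ∑ p ∈ CP (M / g),
      (if M < g * p.1 ∧ g * p.1 ≤ 2 * M then a (g * p.1) else 0) *
      (if M < g * p.2 ∧ g * p.2 ≤ 2 * M then (starRingEnd ℂ) (a (g * p.2)) else 0) *
      ∑ l ∈ nz (L / g), innq φ Q (g * p.1) (g * p.2) (g * (q * l)) := by
  unfold SSq
  rw [gcd_split (fun m₁ m₂ => a m₁ * (starRingEnd ℂ) (a m₂) *
    ∑ l ∈ nz L, innq φ Q m₁ m₂ (q * l))]
  refine Finset.sum_congr rfl fun g hg => Finset.sum_congr rfl fun p hp => ?_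
  rw [mem_Icc] at hg
  have hc : Nat.Coprime p.1 p.2 := by
    unfold CP at hp
    exact (Finset.mem_filter.mp hp).2
  have hgq : IsCoprime (g : ℤ) (q : ℤ) := by
    rw [Nat.isCoprime_iff_coprime]
    exact ((Nat.Prime.coprime_iff_not_dvd hq).2
      (fun hd => absurd (Nat.le_of_dvd hg.1 hd) (by omega))).symm
  have h1 : ∑ l ∈ nz L, innq φ Q (g * p.1) (g * p.2) (q * l) =
      ∑ l ∈ nz (L / g), innq φ Q (g * p.1) (g * p.2) (g * (q * l)) := by
    rw [sum_nz (fun l : ℤ => innq φ Q (g * p.1) (g * p.2) (q * l)) g L hg.1 ?_]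
    · refine Finset.sum_congr rfl fun l _ => ?_
      congr 1
      ring
    · intro l hl
      apply innq_zero
      rw [Nat.gcd_mul_left, hc.gcd_eq_one, mul_one]
      intro h
      exact hl (hgq.dvd_of_dvd_mul_left h)
  by_cases c1 : M < g * p.1 ∧ g * p.1 ≤ 2 * M
  · by_cases c2 : M < g * p.2 ∧ g * p.2 ≤ 2 * M
    · rw [if_pos ⟨c1, c2⟩, if_pos c1, if_pos c2, h1]
    · rw [if_neg (fun h => c2 h.2), if_neg c2]; ring
  · rw [if_neg (fun h => c1 h.1), if_neg c1]; ring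

end Pool.Agent.H442R2.TSM
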