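import Pool.Agent.H442R2.TSM.QDefs
import Pool.Agent.H442R2.TSM.Poi
import Pool.Agent.H442R2.TSM.Osc

/-!
TSQ project, task QB: the principal part (helper497)
-/

namespace Pool.Agent.H442R2.TSM

open Finset MeasureTheory

namespace TaskQB

lemma EE_one (u : ℝ) : EE 0 0 0 u = 1 := by
  unfold EE
  simp

lemma Fh_bd (φ : ℝ → ℂ) (hφ : Tst φ) : ∃ C : ℝ, 0 < C ∧ ∀ w : ℝ, w ≠ 0 → ‖Fh φ w‖ ≤ C / w ^ 2 := by
  obtain ⟨C, hC, h⟩ := osc_fourier φ hφ 2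
  refine ⟨C, hC, fun w hw => ?_⟩
  have h1 := h 0 0 0 le_rfl w hw
  have e : (fun u => φ u * EE 0 0 0 u) = φ := by
    funext u
    rw [EE_one, mul_one]
  rw [e] at h1
  refine h1.trans (le_of_eq ?_)
  rw [div_pow, sq_abs]
  simp
  ring

/-- the sum over the multiples of `m` -/
lemma mult_sum (φ : ℝ → ℂ) (hφ : Tst φ) (Q : ℝ) (hQ : 1 ≤ Q) (m : ℕ) (hm : 1 ≤ m) :
    ∑ n ∈ (Icc 1 ⌊4 * Q⌋₊).filter (fun n => m ∣ n), φ ((n : ℝ) / Q) =
      ∑' ν : ℤ, φ ((m : ℝ) / Q * ((ν : ℝ) + 0)) := by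
  have hQ0 : 0 < Q := by linarith
  have hm0 : (0 : ℝ) < m := by exact_mod_cast hm
  have h1 : ∑' ν : ℤ, φ ((m : ℝ) / Q * ((ν : ℝ) + 0)) =
      ∑ ν ∈ ((Icc 1 ⌊4 * Q⌋₊).filter (fun n => m ∣ n)).image (fun n : ℕ => ((n / m : ℕ) : ℤ)),
        φ ((m : ℝ) / Q * ((ν : ℝ) + 0)) := by
    refine tsum_eq_sum fun ν hν => ?_
    by_contra hne
    apply hν
    have hin : (m : ℝ) / Q * ((ν : ℝ) + 0) ∈ Set.Icc (1 : ℝ) 4 := by
      by_contra h
      exact hne (hφ.supp _ h)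
    rw [add_zero] at hin
    have a1 : Q ≤ (m : ℝ) * ν := by
      have := hin.1
      rw [div_mul_eq_mul_div, le_div_iff₀ hQ0] at this
      linarith
    have a2 : (m : ℝ) * ν ≤ 4 * Q := by
      have := hin.2
      rw [div_mul_eq_mul_div, div_le_iff₀ hQ0] at this
      linarith
    have hν0 : (0 : ℝ) < ν := by
      by_contra hcon
      have : (m : ℝ) * ν ≤ 0 := mul_nonpos_of_nonneg_of_nonpos hm0.le (not_lt.mp hcon)
      linarith
    have hν1 : 0 < ν := by exact_mod_cast hν0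
    obtain ⟨k, rfl⟩ := Int.eq_ofNat_of_zero_le hν1.le
    have hk : 0 < k := by exact_mod_cast hν1
    rw [Finset.mem_image]
    refine ⟨m * k, ?_, ?_⟩
    · rw [Finset.mem_filter, Finset.mem_Icc]
      refine ⟨⟨Nat.mul_pos hm hk, ?_⟩, dvd_mul_right _ _⟩
      apply Nat.le_floor
      push_cast at a2 ⊢
      exact a2
    · rw [Nat.mul_div_cancel_left _ hm]
  rw [h1, Finset.sum_image]
  · refine Finset.sum_congr rfl fun n hn => ?_
    have hd := (Finset.mem_filter.mp hn).2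
    congr 1
    have e : (m : ℝ) * ((n / m : ℕ) : ℝ) = n := by
      rw [← Nat.cast_mul, Nat.mul_div_cancel' hd]
    rw [Int.cast_natCast, add_zero, div_mul_eq_mul_div, e]
  · intro n hn n' hn' h
    simp only at h
    have hd := (Finset.mem_filter.mp hn).2
    have hd' := (Finset.mem_filter.mp hn').2
    have h2 : n / m = n' / m := by exact_mod_cast h
    rw [← Nat.mul_div_cancel' hd, ← Nat.mul_div_cancel' hd', h2]

end TaskQB

open TaskQB in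
theorem prin (φ : ℝ → ℂ) (hφ : Tst φ) : ∃ C : ℝ, 0 < C ∧ ∀ Q : ℝ, 1 ≤ Q → ∀ M : ℕ,
    ∀ a : ℕ → ℂ, (∀ m, ‖a m‖ ≤ 1) →
    ‖∑ n ∈ Icc 1 ⌊4 * Q⌋₊, cq φ a M Q n -
      (Q : ℂ) * Fh φ 0 * ∑ m ∈ Ioc M (2 * M), a m / m‖ ≤ C * (M : ℝ) ^ 2 / Q := by
  obtain ⟨C, hC, hF⟩ := Fh_bd φ hφ
  have hS : Summable (fun j : ℤ => 1 / (j : ℝ) ^ 2) := Real.summable_one_div_int_pow.mpr (by norm_num)
  set S := ∑' j : ℤ, 1 / (j : ℝ) ^ 2 with hSdef
  have S0 : 0 ≤ S := tsum_nonneg fun j => by positivity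
  refine ⟨2 * C * (S + 1), by positivity, fun Q hQ M a ha => ?_⟩
  have hQ0 : 0 < Q := by linarith
  -- exchange
  have e1 : ∑ n ∈ Icc 1 ⌊4 * Q⌋₊, cq φ a M Q n =
      ∑ m ∈ Ioc M (2 * M), a m * ∑ n ∈ (Icc 1 ⌊4 * Q⌋₊).filter (fun n => m ∣ n), φ ((n : ℝ) / Q) := by
    unfold cq bq
    simp only [Finset.sum_mul, Finset.mul_sum, Finset.sum_filter]
    rw [Finset.sum_comm]
    refine Finset.sum_congr rfl fun m _ => Finset.sum_congr rfl fun n _ => ?_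
    split_ifs <;> simp
  rw [e1, Finset.mul_sum, ← Finset.sum_sub_distrib]
  -- one term
  have term : ∀ m ∈ Ioc M (2 * M), ‖a m * ∑ n ∈ (Icc 1 ⌊4 * Q⌋₊).filter (fun n => m ∣ n), φ ((n : ℝ) / Q) -
      (Q : ℂ) * Fh φ 0 * (a m / m)‖ ≤ C * S * (2 * M) / Q := by
    intro m hm
    rw [Finset.mem_Ioc] at hm
    have hm1 : 1 ≤ m := by omega
    have hm0 : (0 : ℝ) < m := by exact_mod_cast hm1
    have hl : 0 < (m : ℝ) / Q := by positivity
    obtain ⟨hs, hp⟩ := pois φ hφ ((m : ℝ) / Q) hl 0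
    rw [mult_sum φ hφ Q hQ m hm1, hp, hs.tsum_eq_add_tsum_ite 0]
    have g0 : Fh φ (((0 : ℤ) : ℝ) / ((m : ℝ) / Q)) * KF.e (((0 : ℤ) : ℝ) * 0) = Fh φ 0 := by
      simp [KF.e]
    rw [g0]
    have e2 : ((1 / ((m : ℝ) / Q) : ℝ) : ℂ) = (Q : ℂ) / m := by
      push_cast
      rw [one_div, inv_div]
    rw [e2]
    set T := ∑' j : ℤ, (if j = 0 then 0 else Fh φ ((j : ℝ) / ((m : ℝ) / Q)) * KF.e ((j : ℝ) * 0)) with hT
    have e3 : a m * ((Q : ℂ) / m * (Fh φ 0 + T)) - (Q : ℂ) * Fh φ 0 * (a m / m) = a m * ((Q : ℂ) / m * T) := by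
      ring
    rw [e3]
    have hTb : ‖T‖ ≤ C * ((m : ℝ) / Q) ^ 2 * S := by
      refine tsum_of_norm_bounded (hS.hasSum.mul_left (C * ((m : ℝ) / Q) ^ 2)) fun j => ?_
      split_ifs with hj
      · rw [norm_zero]
        positivity
      · have hj' : (j : ℝ) ≠ 0 := by exact_mod_cast hj
        have hw : (j : ℝ) / ((m : ℝ) / Q) ≠ 0 := div_ne_zero hj' hl.ne'
        rw [mul_zero]
        have e4 : KF.e 0 = 1 := by simp [KF.e]
        rw [e4, mul_one]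
        refine (hF _ hw).trans (le_of_eq ?_)
        field_simp
    rw [norm_mul, norm_mul]
    have n1 : ‖(Q : ℂ) / m‖ = Q / m := by
      rw [norm_div, Complex.norm_real, Real.norm_of_nonneg hQ0.le, Complex.norm_natCast]
    rw [n1]
    have m2 : (m : ℝ) ≤ 2 * M := by exact_mod_cast hm.2
    calc ‖a m‖ * (Q / m * ‖T‖) ≤ 1 * (Q / m * (C * ((m : ℝ) / Q) ^ 2 * S)) := by
          gcongr
          exact ha m
      _ = C * S * m / Q := by
          field_simp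
      _ ≤ C * S * (2 * M) / Q := by gcongr
  refine (norm_sum_le _ _).trans ?_
  refine (Finset.sum_le_sum term).trans ?_
  rw [Finset.sum_const, nsmul_eq_mul, Nat.card_Ioc]
  have e5 : ((2 * M - M : ℕ) : ℝ) = M := by
    have : 2 * M - M = M := by omega
    rw [this]
  rw [e5]
  have e6 : (M : ℝ) * (C * S * (2 * M) / Q) = 2 * C * S * (M : ℝ) ^ 2 / Q := by ring
  rw [e6]
  gcongr
  linarith

end Pool.Agent.H442R2.TSM
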