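import Pool.Agent.H442R2.TSM.QBnd
import Pool.Agent.H442R2.TSM.Tail

/-! QG: high frequencies of the kernel of the TSQ project. -/

namespace Pool.Agent.H442R2.TSM

open Finset MeasureTheory

namespace TaskQG

theorem bd_pow (φ : ℝ → ℂ) (A : ℕ) (C : ℝ) (Q : ℝ) (hQ : 0 < Q) (r D : ℝ) (hD : 0 < D)
    (hb : ∀ w : ℝ, w ≠ 0 → ‖Fh (gq φ Q r) w‖ ≤ C * Q / (Q * |w|) ^ A) (j : ℤ) (hj : j ≠ 0) :
    ‖Fh (gq φ Q r) ((j : ℝ) / D)‖ ≤ C * Q * (D / Q / |(j : ℝ)|) ^ A := by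
  have hj0 : (j : ℝ) ≠ 0 := by exact_mod_cast hj
  have hj1 : (0 : ℝ) < |(j : ℝ)| := abs_pos.2 hj0
  refine (hb _ (div_ne_zero hj0 hD.ne')).trans (le_of_eq ?_)
  rw [abs_div, abs_of_pos hD]
  have h1 : D / Q / |(j : ℝ)| = (Q * (|(j : ℝ)| / D))⁻¹ := by
    field_simp
  rw [h1, inv_pow]
  rfl

end TaskQG

open TaskK TaskQG

theorem tailq_high (φ : ℝ → ℂ) (hφ : Tst φ) (e : ℝ) (he : 0 < e) (he1 : e ≤ 1) : ∃ C : ℝ, 0 < C ∧
    ∀ q : ℕ, 1 ≤ q → ∀ Q ∈ Set.Icc (q : ℝ) (2 * (q : ℝ) ^ 2),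
    ∀ m g : ℕ, 1 ≤ m → 1 ≤ g → g ≤ 2 * q → m ≤ q →
    ∀ h ∈ Ioc m (2 * m + 1), ∀ k ∈ Ioc m (2 * m + 1), ∀ r : ℝ,
    Summable (fun j : ℤ => ‖Fh (gq φ Q r) ((j : ℝ) / ((g : ℝ) * h * k))‖) ∧
    ∑' j : ℤ, (if j ∈ Icc (-(⌊(g : ℝ) * m ^ 2 * (q : ℝ) ^ e / Q⌋₊ : ℤ))
        ⌊(g : ℝ) * m ^ 2 * (q : ℝ) ^ e / Q⌋₊ then 0 else
      ‖Fh (gq φ Q r) ((j : ℝ) / ((g : ℝ) * h * k))‖) ≤ C / (q : ℝ) ^ 10 := by
  obtain ⟨C2, hC2, hb2⟩ := gq_bd φ hφ 2
  set A : ℕ := ⌈20 / e⌉₊ + 2 with hA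
  obtain ⟨CA, hCA, hbA⟩ := gq_bd φ hφ A
  have heA : 20 ≤ e * A := by
    have h1 : 20 / e ≤ (A : ℝ) := by
      rw [hA]
      push_cast
      have := Nat.le_ceil (20 / e)
      linarith
    rw [div_le_iff₀ he] at h1
    linarith
  refine ⟨CA * 9 ^ A * 8 * (S0 + 1), by have := S0_nonneg; positivity, ?_⟩
  intro q hq Q hQ m g hm hg hgT hmT h hh k hk r
  set T : ℝ := (q : ℝ) with hTdef
  have hT : 1 ≤ T := by rw [hTdef]; exact_mod_cast hq
  have hgT' : (g : ℝ) ≤ 2 * T := by rw [hTdef]; exact_mod_cast hgT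
  have hmT' : (m : ℝ) ≤ T := by rw [hTdef]; exact_mod_cast hmT
  have hT0 : 0 < T := by linarith
  have hQ1 : 1 ≤ Q := hT.trans hQ.1
  have hQ0 : 0 < Q := by linarith
  have hg0 : (0 : ℝ) < g := by exact_mod_cast hg
  have hm1 : (1 : ℝ) ≤ m := by exact_mod_cast hm
  have hh' := Finset.mem_Ioc.1 hh
  have hk' := Finset.mem_Ioc.1 hk
  have hh1 : (1 : ℝ) ≤ h := by exact_mod_cast (by omega : 1 ≤ h)
  have hk1 : (1 : ℝ) ≤ k := by exact_mod_cast (by omega : 1 ≤ k)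
  have hh3 : (h : ℝ) ≤ 3 * m := by exact_mod_cast (by omega : h ≤ 3 * m)
  have hk3 : (k : ℝ) ≤ 3 * m := by exact_mod_cast (by omega : k ≤ 3 * m)
  have hD : (0 : ℝ) < (g : ℝ) * h * k := by positivity
  constructor
  · refine summ_of _ (C2 * Q * ((g * h * k) / Q) ^ 2)
      (fun j => norm_nonneg _) fun j hj => ?_
    refine (bd_pow φ 2 C2 Q hQ0 r _ hD (fun w hw => hb2 Q hQ0 r w hw) j hj).trans (le_of_eq ?_)
    rw [div_pow _ |(j : ℝ)|, sq_abs]
    ring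
  · set x : ℝ := (g : ℝ) * m ^ 2 * T ^ e / Q with hx
    have hx0 : 0 < x := by positivity
    have hxle : x ≤ 2 * T ^ 3 := by
      rw [hx, div_le_iff₀ hQ0]
      have h1 : T ^ e ≤ T := by
        calc T ^ e ≤ T ^ (1 : ℝ) := Real.rpow_le_rpow_of_exponent_le hT he1
          _ = T := Real.rpow_one T
      have h2 : (m : ℝ) ^ 2 ≤ T ^ 2 := pow_le_pow_left₀ (by positivity) hmT' 2
      calc (g : ℝ) * m ^ 2 * T ^ e ≤ (2 * T) * T ^ 2 * T := by gcongr
        _ = 2 * T ^ 3 * T := by ring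
        _ ≤ 2 * T ^ 3 * Q := by gcongr; exact hQ.1
    have hmain := (sum_bd (fun j : ℤ => if j ∈ Icc (-(⌊x⌋₊ : ℤ)) ⌊x⌋₊ then 0 else
        ‖Fh (gq φ Q r) ((j : ℝ) / ((g : ℝ) * h * k))‖)
        (CA * Q * (9 ^ A * (T ^ 20)⁻¹ * x ^ 2)) (by simp)
        (fun j => by split_ifs; exacts [le_rfl, norm_nonneg _]) (fun j hj => by
          have hj0 : (0 : ℝ) < |(j : ℝ)| := abs_pos.2 (by exact_mod_cast hj)
          split_ifs with hmem
          · positivity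
          · have hxj : x ≤ |(j : ℝ)| := by
              rw [Finset.mem_Icc, not_and_or] at hmem
              have h1 : (⌊x⌋₊ : ℤ) + 1 ≤ |j| := by
                rcases hmem with h2 | h2
                · rw [le_abs]; right; omega
                · rw [le_abs]; left; omega
              have h2 : ((⌊x⌋₊ : ℝ) + 1) ≤ |(j : ℝ)| := by exact_mod_cast h1
              exact (Nat.lt_floor_add_one x).le.trans h2
            refine (bd_pow φ A CA Q hQ0 r _ hD (fun w hw => hbA Q hQ0 r w hw) j hj).trans ?_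
            rw [mul_assoc (CA * Q)]
            refine mul_le_mul_of_nonneg_left ?_ (by positivity)
            have h3 : (g * h * k) / Q / |(j : ℝ)| ≤
                9 * T ^ (-e) * (x / |(j : ℝ)|) := by
              have h4 : (1 : ℝ) = T ^ (-e) * T ^ e := by
                rw [← Real.rpow_add hT0]
                simp
              have h5 : (h : ℝ) * k ≤ 9 * m ^ 2 := by nlinarith
              calc (g * h * k) / Q / |(j : ℝ)|
                  = 1 * g * (h * k) / Q / |(j : ℝ)| := by ring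
                _ ≤ 1 * g * (9 * m ^ 2) / Q / |(j : ℝ)| := by gcongr
                _ = T ^ (-e) * T ^ e * g * (9 * m ^ 2) / Q / |(j : ℝ)| := by rw [← h4]
                _ = 9 * T ^ (-e) * (x / |(j : ℝ)|) := by rw [hx]; ring
            have h6 : (x / |(j : ℝ)|) ^ A ≤ (x / |(j : ℝ)|) ^ 2 :=
              pow_le_pow_of_le_one (by positivity) ((div_le_one hj0).2 hxj) (by omega)
            have h7 : (T ^ (-e)) ^ A ≤ (T ^ 20)⁻¹ := by
              rw [← Real.rpow_natCast, ← Real.rpow_mul hT0.le, ← Real.rpow_natCast T 20,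
                ← Real.rpow_neg hT0.le]
              apply Real.rpow_le_rpow_of_exponent_le hT
              push_cast
              linarith
            calc ((g * h * k) / Q / |(j : ℝ)|) ^ A
                ≤ (9 * T ^ (-e) * (x / |(j : ℝ)|)) ^ A :=
                  pow_le_pow_left₀ (by positivity) h3 A
              _ = 9 ^ A * (T ^ (-e)) ^ A * (x / |(j : ℝ)|) ^ A := by
                  rw [mul_pow, mul_pow]
              _ ≤ 9 ^ A * (T ^ 20)⁻¹ * (x / |(j : ℝ)|) ^ 2 := by gcongr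
              _ = 9 ^ A * (T ^ 20)⁻¹ * x ^ 2 * (1 / (j : ℝ) ^ 2) := by
                  rw [div_pow, sq_abs]
                  ring)).2
    refine hmain.trans ?_
    have hS := S0_nonneg
    have hx2 : x ^ 2 ≤ 4 * T ^ 6 := by
      calc x ^ 2 ≤ (2 * T ^ 3) ^ 2 := pow_le_pow_left₀ hx0.le hxle 2
        _ = 4 * T ^ 6 := by ring
    calc CA * Q * (9 ^ A * (T ^ 20)⁻¹ * x ^ 2) * S0
        ≤ CA * (2 * T ^ 2) * (9 ^ A * (T ^ 20)⁻¹ * (4 * T ^ 6)) * (S0 + 1) := by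
          gcongr
          · exact hQ.2
          · linarith
      _ = CA * 9 ^ A * 8 * (S0 + 1) / T ^ 12 := by
          field_simp
          ring
      _ ≤ CA * 9 ^ A * 8 * (S0 + 1) / T ^ 10 := by
          apply div_le_div_of_nonneg_left (by positivity) (by positivity)
          exact pow_le_pow_right₀ hT (by norm_num)

theorem tailq_one (φ : ℝ → ℂ) (hφ : Tst φ) : ∃ C : ℝ, 0 < C ∧ ∀ Q : ℝ, 0 < Q → ∀ g : ℕ, 1 ≤ g →
    ∀ r : ℝ, Summable (fun j : ℤ => ‖Fh (gq φ Q r) ((j : ℝ) / (g : ℝ))‖) ∧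
    ∑' j : ℤ, (if j = 0 then 0 else ‖Fh (gq φ Q r) ((j : ℝ) / (g : ℝ))‖) ≤
      C * Q * ((g : ℝ) / Q) ^ 2 := by
  obtain ⟨C2, hC2, hb2⟩ := gq_bd φ hφ 2
  have hS := S0_nonneg
  refine ⟨C2 * (S0 + 1), by positivity, ?_⟩
  intro Q hQ0 g hg r
  have hg0 : (0 : ℝ) < g := by exact_mod_cast hg
  constructor
  · refine summ_of _ (C2 * Q * (g / Q) ^ 2)
      (fun j => norm_nonneg _) fun j hj => ?_
    refine (bd_pow φ 2 C2 Q hQ0 r _ hg0 (fun w hw => hb2 Q hQ0 r w hw) j hj).trans (le_of_eq ?_)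
    rw [div_pow _ |(j : ℝ)|, sq_abs]
    ring
  · have hmain := (sum_bd (fun j : ℤ => if j = 0 then 0 else
        ‖Fh (gq φ Q r) ((j : ℝ) / (g : ℝ))‖)
        (C2 * Q * (g / Q) ^ 2) (by simp)
        (fun j => by split_ifs; exacts [le_rfl, norm_nonneg _]) (fun j hj => by
          simp only [if_neg hj]
          refine (bd_pow φ 2 C2 Q hQ0 r _ hg0 (fun w hw => hb2 Q hQ0 r w hw) j hj).trans
            (le_of_eq ?_)
          rw [div_pow _ |(j : ℝ)|, sq_abs]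
          ring)).2
    refine hmain.trans ?_
    calc C2 * Q * ((g : ℝ) / Q) ^ 2 * S0
        ≤ C2 * Q * ((g : ℝ) / Q) ^ 2 * (S0 + 1) := by
          gcongr
          linarith
      _ = C2 * (S0 + 1) * Q * ((g : ℝ) / Q) ^ 2 := by ring

end Pool.Agent.H442R2.TSM
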