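import Pool.Agent.H442R2.TSM.QDefs
import Pool.Agent.H442R2.TSM.Poi
import Pool.Agent.H442R2.TSM.Osc

/-!
TSQ project, task QE: the zero frequency.
-/

namespace Pool.Agent.H442R2.TSM

open Finset MeasureTheory

namespace TaskQE

open TaskTA

variable {φ : ℝ → ℂ}

theorem int_div (hφ : Tst φ) {Q : ℝ} (hQ : 0 < Q) : Integrable (fun u : ℝ => φ (u / Q)) :=
  (tst_int hφ).comp_div hQ.ne'

theorem Fh_zero (f : ℝ → ℂ) : Fh f 0 = ∫ u, f u := by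
  unfold Fh
  congr 1
  funext u
  rw [zero_mul, neg_zero, KF.e_zero, mul_one]

theorem intg_div {Q : ℝ} (hQ : 0 < Q) : ∫ u, φ (u / Q) = (Q : ℂ) * Fh φ 0 := by
  rw [Fh_zero, Measure.integral_comp_div φ Q, abs_of_pos hQ, Complex.real_smul]

theorem nrm_div {Q : ℝ} (hQ : 0 < Q) : ∫ u, ‖φ (u / Q)‖ = Q * ∫ u, ‖φ u‖ := by
  rw [Measure.integral_comp_div (fun u => ‖φ u‖) Q, abs_of_pos hQ, smul_eq_mul]

theorem nb (hφ : Tst φ) {Q : ℝ} (hQ : 0 < Q) (G : ℝ → ℂ) (c : ℝ)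
    (h : ∀ u, u / Q ∈ Set.Icc (1 : ℝ) 4 → ‖G u‖ ≤ c) :
    ‖∫ u, φ (u / Q) * G u‖ ≤ Q * (∫ u, ‖φ u‖) * c := by
  have h1 : Integrable (fun u : ℝ => ‖φ (u / Q)‖ * c) := (int_div hφ hQ).norm.mul_const c
  have h2 : ‖∫ u, φ (u / Q) * G u‖ ≤ ∫ u, ‖φ (u / Q)‖ * c := by
    refine norm_integral_le_of_norm_le h1 (Filter.Eventually.of_forall ?_)
    intro u
    rw [norm_mul]
    by_cases hu : u / Q ∈ Set.Icc (1 : ℝ) 4
    · exact mul_le_mul_of_nonneg_left (h u hu) (norm_nonneg _)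
    · rw [hφ.supp _ hu, norm_zero, zero_mul, zero_mul]
  rw [integral_mul_const, nrm_div hQ] at h2
  exact h2

theorem F_eq (Q r : ℝ) : Fh (gq φ Q r) 0 =
    ∫ u, φ (u / Q) * (starRingEnd ℂ) (φ ((u - r) / Q)) := by
  rw [Fh_zero]
  rfl

theorem Fh_bd (hφ : Tst φ) : ∃ C : ℝ, 0 < C ∧ ∀ w : ℝ, w ≠ 0 → ‖Fh φ w‖ ≤ C / w ^ 2 := by
  refine ⟨(∫ u, ‖deriv (deriv φ) u‖) + 1, ?_, ?_⟩
  · have : 0 ≤ ∫ u, ‖deriv (deriv φ) u‖ := by positivity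
    linarith
  · intro w hw
    have h1 := Fh_deriv (tst_deriv hφ) w
    rw [Fh_deriv hφ w] at h1
    have h2 : ‖Fh (deriv (deriv φ)) w‖ ≤ ∫ u, ‖deriv (deriv φ) u‖ := by
      unfold Fh
      refine (norm_integral_le_integral_norm _).trans (le_of_eq ?_)
      congr 1
      funext u
      rw [norm_mul, KF.norm_e, mul_one]
    have h3 : ‖(2 * (Real.pi : ℂ) * Complex.I * (w : ℂ))‖ = 2 * Real.pi * |w| := by
      simp [abs_of_pos Real.pi_pos]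
    have h7 : ∀ z x : ℂ, ‖z * (z * x)‖ = ‖z‖ * (‖z‖ * ‖x‖) := by
      intro z x
      rw [norm_mul, norm_mul]
    rw [h1, h7, h3] at h2
    have hw2 : 0 < w ^ 2 := by positivity
    rw [le_div_iff₀ hw2]
    have h4 : ‖Fh φ w‖ * w ^ 2 ≤ 2 * Real.pi * |w| * (2 * Real.pi * |w| * ‖Fh φ w‖) := by
      have e1 : 2 * Real.pi * |w| * (2 * Real.pi * |w| * ‖Fh φ w‖) =
          (2 * Real.pi) ^ 2 * (‖Fh φ w‖ * w ^ 2) := by
        rw [← sq_abs w]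
        ring
      rw [e1]
      have h5 : 1 ≤ (2 * Real.pi) ^ 2 := by
        have := Real.pi_gt_three
        nlinarith
      exact le_mul_of_one_le_left (by positivity) h5
    linarith

theorem zero_mem_sym (n : ℕ) : (0 : ℤ) ∈ Icc (-(n : ℤ)) (n : ℤ) := by
  rw [mem_Icc]
  omega

/-- far shifts have disjoint supports -/
theorem far (hφ : Tst φ) {Q : ℝ} (hQ : 1 ≤ Q) {q g : ℕ} (hq : 1 ≤ q) (hg : 1 ≤ g) (l : ℤ)
    (hl : l ∉ Icc (-((⌊4 * Q / q⌋₊ / g : ℕ) : ℤ)) ((⌊4 * Q / q⌋₊ / g : ℕ) : ℤ)) (u : ℝ)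
    (hu : u / Q ∈ Set.Icc (1 : ℝ) 4) : φ ((u - (g : ℝ) * ((q : ℝ) * l)) / Q) = 0 := by
  apply hφ.supp
  intro hv
  have hQ0 : 0 < Q := by linarith
  have hq0 : (0 : ℝ) < q := by exact_mod_cast hq
  have hg0 : (0 : ℝ) < g := by exact_mod_cast hg
  have h1 : ⌊4 * Q / q⌋₊ / g < l.natAbs := by
    rw [mem_Icc] at hl
    omega
  have h2 : ⌊4 * Q / q⌋₊ < l.natAbs * g := (Nat.div_lt_iff_lt_mul hg).1 h1
  have h3 : 4 * Q / q < ((l.natAbs * g : ℕ) : ℝ) := Nat.lt_of_floor_lt h2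
  rw [div_lt_iff₀ hq0] at h3
  have h4 : ((l.natAbs : ℕ) : ℝ) = |(l : ℝ)| := by
    rw [Nat.cast_natAbs, Int.cast_abs]
  push_cast at h3
  rw [h4] at h3
  have h5 : |(g : ℝ) * ((q : ℝ) * l)| ≤ 3 * Q := by
    have e1 : (g : ℝ) * ((q : ℝ) * l) = Q * (u / Q - (u - (g : ℝ) * ((q : ℝ) * l)) / Q) := by
      field_simp
      ring
    rw [e1, abs_mul, abs_of_pos hQ0, mul_comm 3 Q]
    refine mul_le_mul_of_nonneg_left ?_ hQ0.le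
    rw [abs_le]
    exact ⟨by linarith [hu.1, hv.2], by linarith [hu.2, hv.1]⟩
  rw [abs_mul, abs_mul, abs_of_pos hg0, abs_of_pos hq0] at h5
  nlinarith

theorem tail_bd {C2 lam : ℝ} (hlam : 0 < lam)
    (hC2 : ∀ w : ℝ, w ≠ 0 → ‖Fh φ w‖ ≤ C2 / w ^ 2) (x : ℝ)
    (hs : Summable (fun j : ℤ => Fh φ ((j : ℝ) / lam) * KF.e ((j : ℝ) * x))) :
    ‖∑' j : ℤ, Fh φ ((j : ℝ) / lam) * KF.e ((j : ℝ) * x) - Fh φ 0‖ ≤
      C2 * lam ^ 2 * ∑' j : ℤ, 1 / (j : ℝ) ^ 2 := by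
  classical
  have h1 := hs.tsum_eq_add_tsum_ite (0 : ℤ)
  have h0 : Fh φ (((0 : ℤ) : ℝ) / lam) * KF.e (((0 : ℤ) : ℝ) * x) = Fh φ 0 := by
    rw [Int.cast_zero, zero_div, zero_mul, KF.e_zero, mul_one]
  rw [h0] at h1
  rw [h1, add_sub_cancel_left]
  have hsum : Summable (fun j : ℤ => 1 / (j : ℝ) ^ 2) :=
    Real.summable_one_div_int_pow.mpr one_lt_two
  have h2 := (hsum.mul_left (C2 * lam ^ 2)).hasSum
  rw [tsum_mul_left] at h2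
  refine tsum_of_norm_bounded h2 ?_
  intro j
  by_cases hj : j = 0
  · rw [if_pos hj, norm_zero, hj]
    simp
  · rw [if_neg hj, norm_mul, KF.norm_e, mul_one]
    have hj' : (j : ℝ) ≠ 0 := by exact_mod_cast hj
    refine (hC2 _ (div_ne_zero hj' hlam.ne')).trans (le_of_eq ?_)
    rw [div_pow]
    field_simp

end TaskQE

open TaskTA TaskQE in
theorem zeroq (φ : ℝ → ℂ) (hφ : Tst φ) : ∃ C : ℝ, 0 < C ∧ ∀ (q g : ℕ), 1 ≤ q → 1 ≤ g →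
    ∀ Q : ℝ, 1 ≤ Q →
    ‖∑ l ∈ nz (⌊4 * Q / q⌋₊ / g), Fh (gq φ Q ((g : ℝ) * ((q : ℝ) * l))) 0 -
      ((Q ^ 2 / ((q : ℝ) * g) * ‖Fh φ 0‖ ^ 2 : ℝ) : ℂ)‖ ≤ C * Q := by
  obtain ⟨C2, hC2, hFh⟩ := Fh_bd hφ
  obtain ⟨B, hB⟩ := (tst_cont hφ).bounded_above_of_compact_support (tst_cs hφ)
  have hB0 : 0 ≤ B := (norm_nonneg _).trans (hB 0)
  have hN0 : 0 ≤ ∫ u, ‖φ u‖ := by positivity
  have hK0 : 0 ≤ ∑' j : ℤ, 1 / (j : ℝ) ^ 2 := tsum_nonneg (fun j => by positivity)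
  refine ⟨(∫ u, ‖φ u‖) * (C2 * ∑' j : ℤ, 1 / (j : ℝ) ^ 2) + 8 * ((∫ u, ‖φ u‖) * B) +
    ‖Fh φ 0‖ ^ 2 + 1, by positivity, ?_⟩
  intro q g hq hg Q hQ
  have hQ0 : 0 < Q := by linarith
  have hq0 : (0 : ℝ) < q := by exact_mod_cast hq
  have hg0 : (0 : ℝ) < g := by exact_mod_cast hg
  have hd0 : (0 : ℝ) < (q : ℝ) * g := by positivity
  have hF : ∀ r : ℝ, ‖Fh (gq φ Q r) 0‖ ≤ Q * (∫ u, ‖φ u‖) * B := by
    intro r
    rw [F_eq]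
    refine nb hφ hQ0 _ B ?_
    intro u _
    rw [RCLike.norm_conj]
    exact hB _
  by_cases hcase : (q : ℝ) * g ≤ Q
  · -- Poisson
    have hlam : 0 < (q : ℝ) * g / Q := div_pos hd0 hQ0
    have hlam1 : (q : ℝ) * g / Q ≤ 1 := (div_le_one hQ0).2 hcase
    have hP : ∀ u : ℝ, u / Q ∈ Set.Icc (1 : ℝ) 4 →
        ‖∑ l ∈ Icc (-((⌊4 * Q / q⌋₊ / g : ℕ) : ℤ)) ((⌊4 * Q / q⌋₊ / g : ℕ) : ℤ),
          φ ((u - (g : ℝ) * ((q : ℝ) * l)) / Q) -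
          ((1 / ((q : ℝ) * g / Q) : ℝ) : ℂ) * Fh φ 0‖ ≤
          C2 * ∑' j : ℤ, 1 / (j : ℝ) ^ 2 := by
      intro u hu
      have h1 : ∑' l : ℤ, φ ((u - (g : ℝ) * ((q : ℝ) * l)) / Q) =
          ∑ l ∈ Icc (-((⌊4 * Q / q⌋₊ / g : ℕ) : ℤ)) ((⌊4 * Q / q⌋₊ / g : ℕ) : ℤ),
          φ ((u - (g : ℝ) * ((q : ℝ) * l)) / Q) :=
        tsum_eq_sum (fun l hl => far hφ hQ hq hg l hl u hu)
      rw [← h1, ← (Equiv.neg ℤ).tsum_eq]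
      obtain ⟨hs, hp⟩ := pois φ hφ ((q : ℝ) * g / Q) hlam (u / ((q : ℝ) * g))
      have h2 : ∑' l : ℤ, φ ((u - (g : ℝ) * ((q : ℝ) * ((Equiv.neg ℤ l : ℤ) : ℝ))) / Q) =
          ∑' n : ℤ, φ ((q : ℝ) * g / Q * ((n : ℝ) + u / ((q : ℝ) * g))) := by
        congr 1
        funext l
        congr 1
        rw [Equiv.neg_apply]
        push_cast
        field_simp
        ring
      rw [h2, hp, ← mul_sub, norm_mul, Complex.norm_real, Real.norm_eq_abs,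
        abs_of_pos (one_div_pos.2 hlam)]
      have h3 := tail_bd hlam hFh _ hs
      have h4 := mul_le_mul_of_nonneg_left h3 (one_div_pos.2 hlam).le
      refine h4.trans ?_
      have e1 : 1 / ((q : ℝ) * g / Q) * (C2 * ((q : ℝ) * g / Q) ^ 2 * ∑' j : ℤ, 1 / (j : ℝ) ^ 2) =
          ((q : ℝ) * g / Q) * (C2 * ∑' j : ℤ, 1 / (j : ℝ) ^ 2) := by
        generalize (q : ℝ) * g / Q = t at hlam
        field_simp
      rw [e1]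
      exact mul_le_of_le_one_left (by positivity) hlam1
    have hsumF : ∑ l ∈ Icc (-((⌊4 * Q / q⌋₊ / g : ℕ) : ℤ)) ((⌊4 * Q / q⌋₊ / g : ℕ) : ℤ),
        Fh (gq φ Q ((g : ℝ) * ((q : ℝ) * l))) 0 -
        ((Q ^ 2 / ((q : ℝ) * g) * ‖Fh φ 0‖ ^ 2 : ℝ) : ℂ) =
        ∫ u, φ (u / Q) * (starRingEnd ℂ)
          (∑ l ∈ Icc (-((⌊4 * Q / q⌋₊ / g : ℕ) : ℤ)) ((⌊4 * Q / q⌋₊ / g : ℕ) : ℤ),
            φ ((u - (g : ℝ) * ((q : ℝ) * l)) / Q) -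
            ((1 / ((q : ℝ) * g / Q) : ℝ) : ℂ) * Fh φ 0) := by
      have hi : ∀ r : ℝ, Integrable
          (fun u : ℝ => φ (u / Q) * (starRingEnd ℂ) (φ ((u - r) / Q))) := by
        intro r
        refine (int_div hφ hQ0).mul_bdd (c := B) ?_ (Filter.Eventually.of_forall ?_)
        · refine Continuous.aestronglyMeasurable ?_
          exact RCLike.continuous_conj.comp ((tst_cont hφ).comp (by fun_prop))
        · intro u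
          rw [RCLike.norm_conj]
          exact hB _
      have hi2 : Integrable (fun u : ℝ => φ (u / Q) * (starRingEnd ℂ)
          (((1 / ((q : ℝ) * g / Q) : ℝ) : ℂ) * Fh φ 0)) := (int_div hφ hQ0).mul_const _
      have e1 : ∀ u : ℝ, φ (u / Q) * (starRingEnd ℂ)
          (∑ l ∈ Icc (-((⌊4 * Q / q⌋₊ / g : ℕ) : ℤ)) ((⌊4 * Q / q⌋₊ / g : ℕ) : ℤ),
            φ ((u - (g : ℝ) * ((q : ℝ) * l)) / Q) -
            ((1 / ((q : ℝ) * g / Q) : ℝ) : ℂ) * Fh φ 0) =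
          ∑ l ∈ Icc (-((⌊4 * Q / q⌋₊ / g : ℕ) : ℤ)) ((⌊4 * Q / q⌋₊ / g : ℕ) : ℤ),
            φ (u / Q) * (starRingEnd ℂ) (φ ((u - (g : ℝ) * ((q : ℝ) * l)) / Q)) -
          φ (u / Q) * (starRingEnd ℂ) (((1 / ((q : ℝ) * g / Q) : ℝ) : ℂ) * Fh φ 0) := by
        intro u
        rw [map_sub, map_sum, mul_sub, Finset.mul_sum]
      simp_rw [e1]
      rw [integral_sub (integrable_finsetSum _ (fun l _ => hi _)) hi2,
        integral_finsetSum _ (fun l _ => hi _)]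
      congr 1
      · refine Finset.sum_congr rfl ?_
        intro l _
        exact F_eq Q _
      · rw [integral_mul_const, intg_div hQ0, map_mul, Complex.conj_ofReal]
        have e2 : ((‖Fh φ 0‖ ^ 2 : ℝ) : ℂ) = Fh φ 0 * (starRingEnd ℂ) (Fh φ 0) := by
          rw [Complex.mul_conj, Complex.normSq_eq_norm_sq]
        have e3 : ((Q ^ 2 / ((q : ℝ) * g) * ‖Fh φ 0‖ ^ 2 : ℝ) : ℂ) =
            ((Q ^ 2 / ((q : ℝ) * g) : ℝ) : ℂ) * ((‖Fh φ 0‖ ^ 2 : ℝ) : ℂ) := by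
          rw [← Complex.ofReal_mul]
        have e4 : (Q ^ 2 / ((q : ℝ) * g) : ℝ) = Q * (1 / ((q : ℝ) * g / Q)) := by
          field_simp
        rw [e3, e2, e4, Complex.ofReal_mul]
        ring
    have hmain := nb hφ hQ0 (fun u => (starRingEnd ℂ)
          (∑ l ∈ Icc (-((⌊4 * Q / q⌋₊ / g : ℕ) : ℤ)) ((⌊4 * Q / q⌋₊ / g : ℕ) : ℤ),
            φ ((u - (g : ℝ) * ((q : ℝ) * l)) / Q) -
            ((1 / ((q : ℝ) * g / Q) : ℝ) : ℂ) * Fh φ 0)) (C2 * ∑' j : ℤ, 1 / (j : ℝ) ^ 2)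
      (fun u hu => by
        rw [RCLike.norm_conj]
        exact hP u hu)
    rw [← hsumF] at hmain
    have h0 : (0 : ℤ) ∈ Icc (-((⌊4 * Q / q⌋₊ / g : ℕ) : ℤ)) ((⌊4 * Q / q⌋₊ / g : ℕ) : ℤ) :=
      zero_mem_sym _
    have h1 : ∑ l ∈ nz (⌊4 * Q / q⌋₊ / g), Fh (gq φ Q ((g : ℝ) * ((q : ℝ) * l))) 0 =
        ∑ l ∈ Icc (-((⌊4 * Q / q⌋₊ / g : ℕ) : ℤ)) ((⌊4 * Q / q⌋₊ / g : ℕ) : ℤ),
          Fh (gq φ Q ((g : ℝ) * ((q : ℝ) * l))) 0 -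
        Fh (gq φ Q ((g : ℝ) * ((q : ℝ) * ((0 : ℤ) : ℝ)))) 0 := by
      unfold nz
      exact Finset.sum_erase_eq_sub h0
    rw [h1]
    have h2 := hF ((g : ℝ) * ((q : ℝ) * ((0 : ℤ) : ℝ)))
    have h3 : ∀ a b c : ℂ, ‖a - b - c‖ ≤ ‖a - c‖ + ‖b‖ := by
      intro a b c
      have : a - b - c = (a - c) - b := by ring
      rw [this]
      exact norm_sub_le _ _
    refine (h3 _ _ _).trans ?_
    have h4 : 0 ≤ (∫ u, ‖φ u‖) * B * Q := by positivity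
    have h5 : 0 ≤ ‖Fh φ 0‖ ^ 2 * Q := by positivity
    refine (add_le_add hmain h2).trans ?_
    have h6 : Q * (∫ u, ‖φ u‖) * (C2 * ∑' j : ℤ, 1 / (j : ℝ) ^ 2) + Q * (∫ u, ‖φ u‖) * B +
        (7 * ((∫ u, ‖φ u‖) * B * Q) + ‖Fh φ 0‖ ^ 2 * Q + Q) =
        ((∫ u, ‖φ u‖) * (C2 * ∑' j : ℤ, 1 / (j : ℝ) ^ 2) + 8 * ((∫ u, ‖φ u‖) * B) +
    ‖Fh φ 0‖ ^ 2 + 1) * Q := by ring
    rw [← h6]
    refine le_add_of_nonneg_right ?_
    positivity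
  · -- few terms
    push Not at hcase
    have hL : ((⌊4 * Q / q⌋₊ / g : ℕ) : ℝ) ≤ 4 := by
      have h1 : ((⌊4 * Q / q⌋₊ / g : ℕ) : ℝ) ≤ (⌊4 * Q / q⌋₊ : ℝ) / g := Nat.cast_div_le
      have h2 : (⌊4 * Q / q⌋₊ : ℝ) ≤ 4 * Q / q := Nat.floor_le (by positivity)
      have h3 : (⌊4 * Q / q⌋₊ : ℝ) / g ≤ 4 * Q / q / g := div_le_div_of_nonneg_right h2 hg0.le
      have h4 : 4 * Q / q / g ≤ 4 := by
        rw [div_div, div_le_iff₀ hd0]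
        linarith
      linarith
    have hL' : ⌊4 * Q / q⌋₊ / g ≤ 4 := by exact_mod_cast hL
    have hcard : ((nz (⌊4 * Q / q⌋₊ / g)).card : ℝ) ≤ 8 := by
      have h1 : (nz (⌊4 * Q / q⌋₊ / g)).card ≤ 8 := by
        unfold nz
        rw [Finset.card_erase_of_mem (zero_mem_sym _), Int.card_Icc]
        omega
      exact_mod_cast h1
    have h1 : ‖∑ l ∈ nz (⌊4 * Q / q⌋₊ / g), Fh (gq φ Q ((g : ℝ) * ((q : ℝ) * l))) 0‖ ≤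
        8 * (Q * (∫ u, ‖φ u‖) * B) := by
      refine (norm_sum_le_of_le _ (fun l _ => hF _)).trans ?_
      rw [Finset.sum_const, nsmul_eq_mul]
      exact mul_le_mul_of_nonneg_right hcard (by positivity)
    have h2 : ‖((Q ^ 2 / ((q : ℝ) * g) * ‖Fh φ 0‖ ^ 2 : ℝ) : ℂ)‖ ≤ Q * ‖Fh φ 0‖ ^ 2 := by
      rw [Complex.norm_real, Real.norm_eq_abs, abs_of_nonneg (by positivity)]
      refine mul_le_mul_of_nonneg_right ?_ (by positivity)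
      rw [div_le_iff₀ hd0]
      nlinarith
    refine (norm_sub_le _ _).trans ?_
    have h3 : 0 ≤ Q * ((∫ u, ‖φ u‖) * (C2 * ∑' j : ℤ, 1 / (j : ℝ) ^ 2)) := by positivity
    refine (add_le_add h1 h2).trans ?_
    have h6 : 8 * (Q * (∫ u, ‖φ u‖) * B) + Q * ‖Fh φ 0‖ ^ 2 +
        (Q * ((∫ u, ‖φ u‖) * (C2 * ∑' j : ℤ, 1 / (j : ℝ) ^ 2)) + Q) =
        ((∫ u, ‖φ u‖) * (C2 * ∑' j : ℤ, 1 / (j : ℝ) ^ 2) + 8 * ((∫ u, ‖φ u‖) * B) +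
    ‖Fh φ 0‖ ^ 2 + 1) * Q := by ring
    rw [← h6]
    refine le_add_of_nonneg_right ?_
    positivity

end Pool.Agent.H442R2.TSM
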