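import Pool.Agent.H442R2.TSM.QOrt
import Pool.Agent.H442R2.TSM.QPri
import Pool.Agent.H442R2.TSM.QInn
import Pool.Agent.H442R2.TSM.QZero
import Pool.Agent.H442R2.TSM.QTail
import Pool.Agent.H442R2.TSM.Gcd

/-!
TSQ project, task QH: assembly of the long pieces (with `midq` as a hypothesis).
-/

namespace Pool.Agent.H442R2.TSM

open Finset MeasureTheory

namespace TaskQH

/-- the statement of `midq` -/
def P_midq : Prop := ∀ (φ : ℝ → ℂ) (_ : Tst φ) (θ : ℝ) (_ : 0 < θ) (_ : θ < 14 / 27),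
    ∃ e0 : ℝ, 0 < e0 ∧ ∀ e : ℝ, 0 < e → e ≤ e0 → ∃ (C : ℝ) (q₁ : ℕ), 0 < C ∧
    ∀ q : ℕ, q₁ ≤ q → 1 ≤ q → ∀ Q ∈ Set.Icc (q : ℝ) (2 * (q : ℝ) ^ 2),
    ∀ m g : ℕ, 1 ≤ m → 1 ≤ g → (m : ℝ) ≤ (q : ℝ) ^ θ →
    ∀ α β : ℕ → ℂ, (∀ n, ‖α n‖ ≤ 1) → (∀ n, ‖β n‖ ≤ 1) →
    ‖∑ p ∈ CP m, α p.1 * β p.2 * ∑ l ∈ nz (⌊4 * Q / q⌋₊ / g),
      ((1 / ((g : ℝ) * p.1 * p.2) : ℝ) : ℂ) * ∑ j ∈ nz ⌊(g : ℝ) * m ^ 2 * (q : ℝ) ^ e / Q⌋₊,
        Fh (gq φ Q ((g : ℝ) * ((q : ℝ) * l))) ((j : ℝ) / ((g : ℝ) * p.1 * p.2)) *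
          KF.kf (j * ((q : ℤ) * l)) p.1 p.2‖ ≤ C * Q * (q : ℝ) ^ (3 * e) / g

/-- cutting a series to a finite set -/
private lemma split_tsum (F : ℤ → ℂ) (G : ℤ → ℝ) (S : Finset ℤ) (hF : Summable F)
    (hG : Summable G) (h : ∀ j, ‖F j‖ ≤ G j) :
    ‖∑' j, F j - ∑ j ∈ S, F j‖ ≤ ∑' j, if j ∈ S then 0 else G j := by
  have h1 : Summable (fun j => if j ∈ S then F j else 0) :=
    summable_of_hasFiniteSupport ((S.finite_toSet).subset (by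
      intro j hj
      by_contra hc
      apply hj
      simp only
      rw [if_neg (by simpa using hc)]))
  have h2 : ∑ j ∈ S, F j = ∑' j, (if j ∈ S then F j else 0) := by
    rw [tsum_eq_sum (s := S)]
    · exact Finset.sum_congr rfl fun j hj => by rw [if_pos hj]
    · intro j hj; rw [if_neg hj]
  rw [h2, ← hF.tsum_sub h1]
  have h3 : ∀ j, ‖F j - (if j ∈ S then F j else 0)‖ ≤ (if j ∈ S then 0 else G j) := by
    intro j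
    split_ifs
    · simp
    · simpa using h j
  have h4 : Summable (fun j => if j ∈ S then 0 else G j) := by
    refine Summable.of_nonneg_of_le (fun j => ?_) (fun j => ?_) hG
    · split_ifs
      · exact le_rfl
      · exact (norm_nonneg _).trans (h j)
    · split_ifs
      · exact (norm_nonneg _).trans (h j)
      · exact le_rfl
  exact tsum_of_norm_bounded h4.hasSum h3

private lemma kf_zero (m : ℤ) (n : ℕ) : KF.kf 0 m n = 1 := by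
  unfold KF.kf
  simp [KF.e_zero]

private lemma norm_kf' (b m : ℤ) (n : ℕ) : ‖KF.kf b m n‖ = 1 := KF.norm_kf b m n

private lemma card_nz (R : ℕ) : ((nz R).card : ℝ) = 2 * R := by
  unfold nz
  rw [Finset.card_erase_of_mem (by simp)]
  have h : (Icc (-(R : ℤ)) R).card = 2 * R + 1 := by
    rw [Int.card_Icc]; omega
  rw [h]; simp

private lemma sum_CP_le (m : ℕ) : ∑ p ∈ CP m, (1 : ℝ) / ((p.1 : ℝ) * p.2) ≤ 1 := by
  have h1 : ∑ p ∈ CP m, (1 : ℝ) / ((p.1 : ℝ) * p.2) ≤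
      ∑ p ∈ CP m, (1 : ℝ) / ((m + 1) * (m + 1)) := by
    refine Finset.sum_le_sum fun p hp => ?_
    unfold CP at hp
    rw [Finset.mem_filter, Finset.mem_product, mem_Ioc, mem_Ioc] at hp
    obtain ⟨⟨⟨h1, _⟩, ⟨h2, _⟩⟩, _⟩ := hp
    have h3 : (m : ℝ) + 1 ≤ p.1 := by exact_mod_cast h1
    have h4 : (m : ℝ) + 1 ≤ p.2 := by exact_mod_cast h2
    exact one_div_le_one_div_of_le (by positivity) (mul_le_mul h3 h4 (by positivity) (by linarith [(Nat.cast_nonneg m : (0:ℝ) ≤ m)]))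
  refine h1.trans ?_
  rw [Finset.sum_const, nsmul_eq_mul]
  have h2 : ((CP m).card : ℝ) ≤ (m + 1) * (m + 1) := by
    have : (CP m).card ≤ (m + 1) * (m + 1) := by
      unfold CP
      refine (Finset.card_filter_le _ _).trans ?_
      rw [Finset.card_product, Nat.card_Ioc]
      have : 2 * m + 1 - m = m + 1 := by omega
      rw [this]
    exact_mod_cast this
  rw [mul_one_div, div_le_one (by positivity)]
  exact h2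

/-- sum over `1/g` -/
private lemma sum_inv_le (N : ℕ) : ∑ g ∈ Icc 1 N, (1 : ℝ) / g ≤ 1 + Real.log N := by
  have h := harmonic_le_one_add_log N
  rw [harmonic_eq_sum_Icc] at h
  push_cast at h
  simpa [one_div] using h

private lemma inner (φ : ℝ → ℂ) (hφ : Tst φ) (Q : ℝ) (hQ : 1 ≤ Q) (q g h k R J : ℕ)
    (hg : 1 ≤ g) (hh : 1 ≤ h) (hk : 1 ≤ k) (hc : Nat.Coprime h k) (T : ℝ)
    (hT : ∀ r : ℝ, Summable (fun j : ℤ => ‖Fh (gq φ Q r) ((j : ℝ) / ((g : ℝ) * h * k))‖) ∧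
      ∑' j : ℤ, (if j ∈ Icc (-(J : ℤ)) J then 0 else
        ‖Fh (gq φ Q r) ((j : ℝ) / ((g : ℝ) * h * k))‖) ≤ T) :
    ‖∑ l ∈ nz R, innq φ Q (g * h) (g * k) (g * (q * l)) -
      ((1 / ((g : ℝ) * h * k) : ℝ) : ℂ) * ∑ l ∈ nz R,
        (Fh (gq φ Q ((g : ℝ) * ((q : ℝ) * l))) 0 + ∑ j ∈ nz J,
          Fh (gq φ Q ((g : ℝ) * ((q : ℝ) * l))) ((j : ℝ) / ((g : ℝ) * h * k)) *
            KF.kf (j * ((q : ℤ) * l)) h k)‖ ≤ (1 / ((g : ℝ) * h * k)) * (2 * R * T) := by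
  have hpos : (0 : ℝ) < 1 / ((g : ℝ) * h * k) := by
    have h1 : (0 : ℝ) < g := by exact_mod_cast hg
    have h2 : (0 : ℝ) < h := by exact_mod_cast hh
    have h3 : (0 : ℝ) < k := by exact_mod_cast hk
    positivity
  rw [Finset.mul_sum, ← Finset.sum_sub_distrib]
  have key : ∀ l ∈ nz R, ‖innq φ Q (g * h) (g * k) (g * (q * l)) -
      ((1 / ((g : ℝ) * h * k) : ℝ) : ℂ) *
        (Fh (gq φ Q ((g : ℝ) * ((q : ℝ) * l))) 0 + ∑ j ∈ nz J,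
          Fh (gq φ Q ((g : ℝ) * ((q : ℝ) * l))) ((j : ℝ) / ((g : ℝ) * h * k)) *
            KF.kf (j * ((q : ℤ) * l)) h k)‖ ≤ (1 / ((g : ℝ) * h * k)) * T := by
    intro l _
    obtain ⟨hs, he⟩ := innq_pois φ hφ Q hQ g h k hg hh hk hc (q * l)
    have hql : (((q : ℤ) * l : ℤ) : ℝ) = (q : ℝ) * l := by push_cast; rfl
    simp only [hql] at hs he
    rw [he, ← mul_sub, norm_mul, Complex.norm_real, Real.norm_of_nonneg hpos.le]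
    refine mul_le_mul_of_nonneg_left ?_ hpos.le
    obtain ⟨ht1, ht2⟩ := hT ((g : ℝ) * ((q : ℝ) * l))
    have h1 := split_tsum (fun j : ℤ => Fh (gq φ Q ((g : ℝ) * ((q : ℝ) * l)))
      ((j : ℝ) / ((g : ℝ) * h * k)) * KF.kf (j * ((q : ℤ) * l)) h k)
      (fun j : ℤ => ‖Fh (gq φ Q ((g : ℝ) * ((q : ℝ) * l))) ((j : ℝ) / ((g : ℝ) * h * k))‖)
      (Icc (-(J : ℤ)) J) hs ht1 (fun j => by rw [norm_mul, norm_kf', mul_one])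
    have h2 : ∑ j ∈ Icc (-(J : ℤ)) J, (fun j : ℤ => Fh (gq φ Q ((g : ℝ) * ((q : ℝ) * l)))
        ((j : ℝ) / ((g : ℝ) * h * k)) * KF.kf (j * ((q : ℤ) * l)) h k) j =
        Fh (gq φ Q ((g : ℝ) * ((q : ℝ) * l))) 0 + ∑ j ∈ nz J,
          Fh (gq φ Q ((g : ℝ) * ((q : ℝ) * l))) ((j : ℝ) / ((g : ℝ) * h * k)) *
            KF.kf (j * ((q : ℤ) * l)) h k := by
      unfold nz
      rw [← Finset.add_sum_erase (Icc (-(J : ℤ)) J) _ (show (0 : ℤ) ∈ Icc (-(J : ℤ)) J by simp)]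
      congr 1
      simp [kf_zero]
    rw [h2] at h1
    exact h1.trans ht2
  refine (norm_sum_le_of_le _ key).trans (le_of_eq ?_)
  rw [Finset.sum_const, nsmul_eq_mul, card_nz]
  ring

private lemma per_g (φ : ℝ → ℂ) (hφ : Tst φ) (Q : ℝ) (hQ : 1 ≤ Q) (q g m R J : ℕ)
    (hg : 1 ≤ g) (α β : ℕ → ℂ) (hα : ∀ n, ‖α n‖ ≤ 1) (hβ : ∀ n, ‖β n‖ ≤ 1) (T Z0 E : ℝ) (K : ℂ)
    (hT0 : 0 ≤ T)
    (hT : ∀ p ∈ CP m, ∀ r : ℝ,
      Summable (fun j : ℤ => ‖Fh (gq φ Q r) ((j : ℝ) / ((g : ℝ) * p.1 * p.2))‖) ∧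
      ∑' j : ℤ, (if j ∈ Icc (-(J : ℤ)) J then 0 else
        ‖Fh (gq φ Q r) ((j : ℝ) / ((g : ℝ) * p.1 * p.2))‖) ≤ T)
    (hZ : ‖∑ l ∈ nz R, Fh (gq φ Q ((g : ℝ) * ((q : ℝ) * l))) 0 - K‖ ≤ Z0)
    (hE : ‖∑ p ∈ CP m, α p.1 * β p.2 * ∑ l ∈ nz R,
      ((1 / ((g : ℝ) * p.1 * p.2) : ℝ) : ℂ) * ∑ j ∈ nz J,
        Fh (gq φ Q ((g : ℝ) * ((q : ℝ) * l))) ((j : ℝ) / ((g : ℝ) * p.1 * p.2)) *
          KF.kf (j * ((q : ℤ) * l)) p.1 p.2‖ ≤ E) :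
    ‖∑ p ∈ CP m, α p.1 * β p.2 * ∑ l ∈ nz R, innq φ Q (g * p.1) (g * p.2) (g * (q * l)) -
      ∑ p ∈ CP m, α p.1 * β p.2 * (((1 / ((g : ℝ) * p.1 * p.2) : ℝ) : ℂ) * K)‖ ≤
      (1 / (g : ℝ)) * (2 * R * T) + (1 / (g : ℝ)) * Z0 + E := by
  have hg0 : (0 : ℝ) < g := by exact_mod_cast hg
  have hp : ∀ p ∈ CP m, 1 ≤ p.1 ∧ 1 ≤ p.2 ∧ Nat.Coprime p.1 p.2 := by
    intro p hp
    unfold CP at hp
    rw [Finset.mem_filter, Finset.mem_product, mem_Ioc, mem_Ioc] at hp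
    obtain ⟨⟨⟨h1, _⟩, ⟨h2, _⟩⟩, h3⟩ := hp
    exact ⟨by omega, by omega, h3⟩
  have hZ0 : 0 ≤ Z0 := (norm_nonneg _).trans hZ
  have hαβ : ∀ p : ℕ × ℕ, ‖α p.1 * β p.2‖ ≤ 1 := by
    intro p
    rw [norm_mul]
    exact mul_le_one₀ (hα _) (norm_nonneg _) (hβ _)
  have hsum : ∀ W : ℝ, 0 ≤ W → ∑ p ∈ CP m, (1 / ((g : ℝ) * p.1 * p.2)) * W ≤ (1 / (g : ℝ)) * W := by
    intro W hW
    rw [← Finset.sum_mul]
    refine mul_le_mul_of_nonneg_right ?_ hW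
    have h1 : ∑ p ∈ CP m, (1 / ((g : ℝ) * p.1 * p.2)) =
        (1 / (g : ℝ)) * ∑ p ∈ CP m, (1 : ℝ) / ((p.1 : ℝ) * p.2) := by
      rw [Finset.mul_sum]
      refine Finset.sum_congr rfl fun p _ => ?_
      rw [one_div_mul_one_div, mul_assoc]
    rw [h1]
    exact mul_le_of_le_one_right (by positivity) (sum_CP_le m)
  -- decomposition
  have hdec : ∑ p ∈ CP m, α p.1 * β p.2 * ∑ l ∈ nz R, innq φ Q (g * p.1) (g * p.2) (g * (q * l)) -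
      ∑ p ∈ CP m, α p.1 * β p.2 * (((1 / ((g : ℝ) * p.1 * p.2) : ℝ) : ℂ) * K) =
      ∑ p ∈ CP m, α p.1 * β p.2 * (∑ l ∈ nz R, innq φ Q (g * p.1) (g * p.2) (g * (q * l)) -
        ((1 / ((g : ℝ) * p.1 * p.2) : ℝ) : ℂ) * ∑ l ∈ nz R,
        (Fh (gq φ Q ((g : ℝ) * ((q : ℝ) * l))) 0 + ∑ j ∈ nz J,
          Fh (gq φ Q ((g : ℝ) * ((q : ℝ) * l))) ((j : ℝ) / ((g : ℝ) * p.1 * p.2)) *
            KF.kf (j * ((q : ℤ) * l)) p.1 p.2)) +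
      ∑ p ∈ CP m, α p.1 * β p.2 * (((1 / ((g : ℝ) * p.1 * p.2) : ℝ) : ℂ) *
        (∑ l ∈ nz R, Fh (gq φ Q ((g : ℝ) * ((q : ℝ) * l))) 0 - K)) +
      ∑ p ∈ CP m, α p.1 * β p.2 * ∑ l ∈ nz R,
      ((1 / ((g : ℝ) * p.1 * p.2) : ℝ) : ℂ) * ∑ j ∈ nz J,
        Fh (gq φ Q ((g : ℝ) * ((q : ℝ) * l))) ((j : ℝ) / ((g : ℝ) * p.1 * p.2)) *
          KF.kf (j * ((q : ℤ) * l)) p.1 p.2 := by
    rw [← Finset.sum_sub_distrib, ← Finset.sum_add_distrib, ← Finset.sum_add_distrib]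
    refine Finset.sum_congr rfl fun p _ => ?_
    rw [← Finset.mul_sum, Finset.sum_add_distrib]
    ring
  rw [hdec]
  refine (norm_add₃_le).trans (add_le_add (add_le_add ?_ ?_) hE)
  · refine (norm_sum_le_of_le _ (fun p hpm => ?_)).trans (hsum (2 * R * T) (by positivity))
    rw [norm_mul]
    obtain ⟨h1, h2, h3⟩ := hp p hpm
    calc _ ≤ 1 * ((1 / ((g : ℝ) * p.1 * p.2)) * (2 * R * T)) :=
          mul_le_mul (hαβ p) (inner φ hφ Q hQ q g p.1 p.2 R J hg h1 h2 h3 T (hT p hpm))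
            (norm_nonneg _) zero_le_one
      _ = _ := one_mul _
  · refine (norm_sum_le_of_le _ (fun p hpm => ?_)).trans (hsum Z0 hZ0)
    have h5 : ‖((1 / ((g : ℝ) * p.1 * p.2) : ℝ) : ℂ) *
        (∑ l ∈ nz R, Fh (gq φ Q ((g : ℝ) * ((q : ℝ) * l))) 0 - K)‖ ≤
        (1 / ((g : ℝ) * p.1 * p.2)) * Z0 := by
      rw [norm_mul, Complex.norm_real, Real.norm_of_nonneg (by positivity)]
      exact mul_le_mul_of_nonneg_left hZ (by positivity)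
    rw [norm_mul]
    calc _ ≤ 1 * ((1 / ((g : ℝ) * p.1 * p.2)) * Z0) :=
          mul_le_mul (hαβ p) h5 (norm_nonneg _) zero_le_one
      _ = _ := one_mul _

private lemma main_eq (a : ℕ → ℂ) (M : ℕ) (Q q F : ℝ) (hq : 0 < q) :
    ∑ g ∈ Icc 1 (2 * M), ∑ p ∈ CP (M / g),
      (if M < g * p.1 ∧ g * p.1 ≤ 2 * M then a (g * p.1) else 0) *
      (if M < g * p.2 ∧ g * p.2 ≤ 2 * M then (starRingEnd ℂ) (a (g * p.2)) else 0) *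
      (((1 / ((g : ℝ) * p.1 * p.2) : ℝ) : ℂ) * ((Q ^ 2 / (q * g) * F ^ 2 : ℝ) : ℂ)) =
    ((Q ^ 2 / q * F ^ 2 * ‖∑ m ∈ Ioc M (2 * M), a m / m‖ ^ 2 : ℝ) : ℂ) := by
  have h1 := gcd_split (fun m₁ m₂ => a m₁ / m₁ * (starRingEnd ℂ) (a m₂ / m₂)) M
  have h2 : ∑ m₁ ∈ Ioc M (2 * M), ∑ m₂ ∈ Ioc M (2 * M),
      (fun m₁ m₂ : ℕ => a m₁ / m₁ * (starRingEnd ℂ) (a m₂ / m₂)) m₁ m₂ =
      ((‖∑ m ∈ Ioc M (2 * M), a m / m‖ ^ 2 : ℝ) : ℂ) := by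
    have h4 : (∑ m ∈ Ioc M (2 * M), a m / m) * (starRingEnd ℂ) (∑ m ∈ Ioc M (2 * M), a m / m) =
        ((‖∑ m ∈ Ioc M (2 * M), a m / m‖ ^ 2 : ℝ) : ℂ) := by
      rw [Complex.mul_conj, Complex.normSq_eq_norm_sq]
    rw [← h4, map_sum, Finset.sum_mul_sum]
  rw [h2] at h1
  have h3 : ((Q ^ 2 / q * F ^ 2 * ‖∑ m ∈ Ioc M (2 * M), a m / m‖ ^ 2 : ℝ) : ℂ) =
      ((Q ^ 2 / q * F ^ 2 : ℝ) : ℂ) * ((‖∑ m ∈ Ioc M (2 * M), a m / m‖ ^ 2 : ℝ) : ℂ) := by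
    push_cast; ring
  rw [h3, h1, Finset.mul_sum]
  refine Finset.sum_congr rfl fun g hg => ?_
  rw [mem_Icc] at hg
  rw [Finset.mul_sum]
  refine Finset.sum_congr rfl fun p hp => ?_
  have hg0 : (g : ℂ) ≠ 0 := by
    have : g ≠ 0 := by omega
    exact_mod_cast this
  unfold CP at hp
  rw [Finset.mem_filter, Finset.mem_product, mem_Ioc, mem_Ioc] at hp
  obtain ⟨⟨⟨hp1, _⟩, ⟨hp2, _⟩⟩, _⟩ := hp
  have h1' : (p.1 : ℂ) ≠ 0 := by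
    have : p.1 ≠ 0 := by omega
    exact_mod_cast this
  have h2' : (p.2 : ℂ) ≠ 0 := by
    have : p.2 ≠ 0 := by omega
    exact_mod_cast this
  have hq0 : (q : ℂ) ≠ 0 := by exact_mod_cast hq.ne'
  by_cases c1 : M < g * p.1 ∧ g * p.1 ≤ 2 * M
  · by_cases c2 : M < g * p.2 ∧ g * p.2 ≤ 2 * M
    · rw [if_pos c1, if_pos c2, if_pos ⟨c1, c2⟩]
      simp only [map_div₀, map_natCast]
      push_cast
      field_simp
    · rw [if_neg c2, if_neg (fun h : (M < g * p.1 ∧ g * p.1 ≤ 2 * M) ∧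
        (M < g * p.2 ∧ g * p.2 ≤ 2 * M) => c2 h.2)]
      ring
  · rw [if_neg c1, if_neg (fun h : (M < g * p.1 ∧ g * p.1 ≤ 2 * M) ∧
        (M < g * p.2 ∧ g * p.2 ≤ 2 * M) => c1 h.1)]
    ring

private lemma two_M_lt (θ : ℝ) (hθ : θ < 14 / 27) (q M : ℕ) (hq : 16 ≤ q)
    (hM : (M : ℝ) ≤ (q : ℝ) ^ θ) : 2 * M < q := by
  have hq0 : (0 : ℝ) < q := by
    have : 0 < q := by omega
    exact_mod_cast this
  have hq16 : (16 : ℝ) ≤ q := by exact_mod_cast hq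
  have h1 : (2 : ℝ) < (q : ℝ) ^ (1 - θ) := by
    have h2 : (16 : ℝ) ^ (1 / 4 : ℝ) = 2 := by
      rw [show (16 : ℝ) = 2 ^ (4 : ℝ) by norm_num, ← Real.rpow_mul (by norm_num)]
      norm_num
    calc (2 : ℝ) = (16 : ℝ) ^ (1 / 4 : ℝ) := h2.symm
      _ < (16 : ℝ) ^ (1 - θ) := Real.rpow_lt_rpow_of_exponent_lt (by norm_num) (by linarith)
      _ ≤ (q : ℝ) ^ (1 - θ) := Real.rpow_le_rpow (by norm_num) hq16 (by linarith)
  have h3 : (2 : ℝ) * M < q := by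
    have h4 : (0 : ℝ) < (q : ℝ) ^ θ := Real.rpow_pos_of_pos hq0 _
    calc (2 : ℝ) * M ≤ 2 * (q : ℝ) ^ θ := by linarith
      _ < (q : ℝ) ^ (1 - θ) * (q : ℝ) ^ θ := mul_lt_mul_of_pos_right h1 h4
      _ = q := by rw [← Real.rpow_add hq0]; norm_num
  exact_mod_cast h3

private lemma ssq_main (midq : P_midq) (φ : ℝ → ℂ) (hφ : Tst φ) (θ : ℝ) (hθ0 : 0 < θ) (hθ : θ < 14 / 27) :
    ∃ e0 : ℝ, 0 < e0 ∧ ∀ e : ℝ, 0 < e → e ≤ e0 → ∃ (C : ℝ) (q₁ : ℕ), 0 < C ∧ 16 ≤ q₁ ∧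
    ∀ q : ℕ, q₁ ≤ q → q.Prime → ∀ Q ∈ Set.Icc (q : ℝ) (2 * (q : ℝ) ^ 2),
    ∀ M : ℕ, 1 ≤ M → (M : ℝ) ≤ (q : ℝ) ^ θ → ∀ a : ℕ → ℂ, (∀ m, ‖a m‖ ≤ 1) →
    ‖SSq φ a M Q q ⌊4 * Q / q⌋₊ -
      ((Q ^ 2 / q * ‖Fh φ 0‖ ^ 2 * ‖∑ m ∈ Ioc M (2 * M), a m / m‖ ^ 2 : ℝ) : ℂ)‖ ≤
      C * Q * (q : ℝ) ^ (4 * e) := by
  obtain ⟨e0', he0', H⟩ := midq φ hφ θ hθ0 hθ
  refine ⟨min e0' 1, lt_min he0' one_pos, fun e he hee => ?_⟩
  obtain ⟨Cm, q₁', hCm, Hm⟩ := H e he (hee.trans (min_le_left _ _))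
  obtain ⟨Cz, hCz, Hz⟩ := zeroq φ hφ
  obtain ⟨Ct, hCt, Ht⟩ := tailq_high φ hφ e he (hee.trans (min_le_right _ _))
  obtain ⟨C1, hC1, H1⟩ := tailq_one φ hφ
  refine ⟨(8 * Ct + Cz + Cm + 8 * C1) * (1 + 1 / e), max q₁' 16, by positivity,
    le_max_right _ _, ?_⟩
  intro q hq hqp Q hQ M hM1 hMq a ha
  have hq16 : 16 ≤ q := (le_max_right _ _).trans hq
  have hqq : q₁' ≤ q := (le_max_left _ _).trans hq
  have h2M : 2 * M < q := two_M_lt θ hθ q M hq16 hMq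
  have hq0 : (0 : ℝ) < q := by
    have : 0 < q := by omega
    exact_mod_cast this
  have hq1 : (1 : ℝ) ≤ q := by
    have : 1 ≤ q := by omega
    exact_mod_cast this
  obtain ⟨hQ1, hQ2⟩ := hQ
  have hQ0 : 0 < Q := lt_of_lt_of_le hq0 hQ1
  have hQ1' : 1 ≤ Q := hq1.trans hQ1
  rw [SSq_split φ a M Q q _ hqp h2M, ← main_eq a M Q q ‖Fh φ 0‖ hq0, ← Finset.sum_sub_distrib]
  have hqe : (1 : ℝ) ≤ (q : ℝ) ^ (3 * e) := Real.one_le_rpow hq1 (by linarith)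
  have key : ∀ g ∈ Icc 1 (2 * M), ‖∑ p ∈ CP (M / g),
      (if M < g * p.1 ∧ g * p.1 ≤ 2 * M then a (g * p.1) else 0) *
      (if M < g * p.2 ∧ g * p.2 ≤ 2 * M then (starRingEnd ℂ) (a (g * p.2)) else 0) *
      ∑ l ∈ nz (⌊4 * Q / q⌋₊ / g), innq φ Q (g * p.1) (g * p.2) (g * (q * l)) -
      ∑ p ∈ CP (M / g),
      (if M < g * p.1 ∧ g * p.1 ≤ 2 * M then a (g * p.1) else 0) *
      (if M < g * p.2 ∧ g * p.2 ≤ 2 * M then (starRingEnd ℂ) (a (g * p.2)) else 0) *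
      (((1 / ((g : ℝ) * p.1 * p.2) : ℝ) : ℂ) * ((Q ^ 2 / ((q : ℝ) * g) * ‖Fh φ 0‖ ^ 2 : ℝ) : ℂ))‖ ≤
      (8 * Ct + Cz + Cm + 8 * C1) * Q * (q : ℝ) ^ (3 * e) * (1 / (g : ℝ)) := by
    intro g hg
    rw [mem_Icc] at hg
    obtain ⟨hg1, hg2⟩ := hg
    have hg0 : (0 : ℝ) < g := by exact_mod_cast hg1
    have hR : ((⌊4 * Q / q⌋₊ / g : ℕ) : ℝ) ≤ 4 * Q / q := by
      have h1 : ((⌊4 * Q / q⌋₊ / g : ℕ) : ℝ) ≤ ((⌊4 * Q / q⌋₊ : ℕ) : ℝ) := by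
        exact_mod_cast Nat.div_le_self _ _
      exact h1.trans (Nat.floor_le (by positivity))
    have hα : ∀ n, ‖(fun n => if M < g * n ∧ g * n ≤ 2 * M then a (g * n) else 0) n‖ ≤ 1 := by
      intro n
      simp only
      split_ifs
      · exact ha _
      · simp
    have hβ : ∀ n, ‖(fun n => if M < g * n ∧ g * n ≤ 2 * M then
        (starRingEnd ℂ) (a (g * n)) else 0) n‖ ≤ 1 := by
      intro n
      simp only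
      split_ifs
      · rw [RCLike.norm_conj]; exact ha _
      · simp
    have hzg := Hz q g (by omega) hg1 Q hQ1'
    rcases le_or_gt g M with hgM | hgM
    · -- `g ≤ M`
      have hm1 : 1 ≤ M / g := Nat.div_pos hgM hg1
      have hmM : ((M / g : ℕ) : ℝ) ≤ (q : ℝ) ^ θ := by
        refine le_trans ?_ hMq
        exact_mod_cast Nat.div_le_self _ _
      have hmq : M / g ≤ q := by
        have := Nat.div_le_self M g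
        omega
      have hmid := Hm q hqq (by omega) Q ⟨hQ1, hQ2⟩ (M / g) g hm1 hg1 hmM _ _ hα hβ
      have hpg := per_g φ hφ Q hQ1' q g (M / g) (⌊4 * Q / q⌋₊ / g)
        ⌊(g : ℝ) * ((M / g : ℕ) : ℝ) ^ 2 * (q : ℝ) ^ e / Q⌋₊ hg1 _ _ hα hβ (Ct / (q : ℝ) ^ 10)
        (Cz * Q) (Cm * Q * (q : ℝ) ^ (3 * e) / g) _ (by positivity) (fun p hp r => by
          unfold CP at hp
          rw [Finset.mem_filter, Finset.mem_product] at hp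
          exact Ht q (by omega) Q ⟨hQ1, hQ2⟩ (M / g) g hm1 hg1 (by omega) hmq p.1 hp.1.1 p.2
            hp.1.2 r) hzg hmid
      refine hpg.trans ?_
      have h1 : 2 * ((⌊4 * Q / q⌋₊ / g : ℕ) : ℝ) * (Ct / (q : ℝ) ^ 10) ≤ 8 * Ct * Q := by
        have h3 : Ct / (q : ℝ) ^ 10 ≤ Ct := div_le_self hCt.le (one_le_pow₀ hq1)
        have h4 : 4 * Q / q ≤ 4 * Q := div_le_self (by positivity) hq1
        calc 2 * ((⌊4 * Q / q⌋₊ / g : ℕ) : ℝ) * (Ct / (q : ℝ) ^ 10) ≤ 2 * (4 * Q) * Ct := by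
              gcongr
              exact hR.trans h4
          _ = 8 * Ct * Q := by ring
      calc (1 / (g : ℝ)) * (2 * ((⌊4 * Q / q⌋₊ / g : ℕ) : ℝ) * (Ct / (q : ℝ) ^ 10)) +
            (1 / (g : ℝ)) * (Cz * Q) + Cm * Q * (q : ℝ) ^ (3 * e) / g
          ≤ (1 / (g : ℝ)) * (8 * Ct * Q * (q : ℝ) ^ (3 * e)) +
            (1 / (g : ℝ)) * (Cz * Q * (q : ℝ) ^ (3 * e)) +
            Cm * Q * (q : ℝ) ^ (3 * e) / g +
            (1 / (g : ℝ)) * (8 * C1 * Q * (q : ℝ) ^ (3 * e)) := by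
            have h5 : 0 ≤ (1 / (g : ℝ)) * (8 * C1 * Q * (q : ℝ) ^ (3 * e)) := by positivity
            have h6 : 8 * Ct * Q ≤ 8 * Ct * Q * (q : ℝ) ^ (3 * e) :=
              le_mul_of_one_le_right (by positivity) hqe
            have h7 : Cz * Q ≤ Cz * Q * (q : ℝ) ^ (3 * e) :=
              le_mul_of_one_le_right (by positivity) hqe
            have h8 : (1 / (g : ℝ)) * (2 * ((⌊4 * Q / q⌋₊ / g : ℕ) : ℝ) * (Ct / (q : ℝ) ^ 10)) ≤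
              (1 / (g : ℝ)) * (8 * Ct * Q * (q : ℝ) ^ (3 * e)) :=
              mul_le_mul_of_nonneg_left (h1.trans h6) (by positivity)
            have h9 : (1 / (g : ℝ)) * (Cz * Q) ≤ (1 / (g : ℝ)) * (Cz * Q * (q : ℝ) ^ (3 * e)) :=
              mul_le_mul_of_nonneg_left h7 (by positivity)
            linarith
        _ = (8 * Ct + Cz + Cm + 8 * C1) * Q * (q : ℝ) ^ (3 * e) * (1 / (g : ℝ)) := by ring
    · -- `M < g`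
      have hm0 : M / g = 0 := Nat.div_eq_of_lt hgM
      rw [hm0]
      have hE0 : ‖∑ p ∈ CP 0, (fun n => if M < g * n ∧ g * n ≤ 2 * M then a (g * n) else 0) p.1 *
          (fun n => if M < g * n ∧ g * n ≤ 2 * M then (starRingEnd ℂ) (a (g * n)) else 0) p.2 *
          ∑ l ∈ nz (⌊4 * Q / q⌋₊ / g),
          ((1 / ((g : ℝ) * p.1 * p.2) : ℝ) : ℂ) * ∑ j ∈ nz 0,
          Fh (gq φ Q ((g : ℝ) * ((q : ℝ) * l))) ((j : ℝ) / ((g : ℝ) * p.1 * p.2)) *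
          KF.kf (j * ((q : ℤ) * l)) p.1 p.2‖ ≤ 0 := by
        simp [nz]
      have hpg := per_g φ hφ Q hQ1' q g 0 (⌊4 * Q / q⌋₊ / g) 0 hg1 _ _ hα hβ
        (C1 * Q * ((g : ℝ) / Q) ^ 2) (Cz * Q) 0 _ (by positivity) (fun p hp r => by
          unfold CP at hp
          rw [Finset.mem_filter, Finset.mem_product, mem_Ioc, mem_Ioc] at hp
          have hp1 : p.1 = 1 := by omega
          have hp2 : p.2 = 1 := by omega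
          have h1 := H1 Q hQ0 g hg1 r
          rw [hp1, hp2]
          simpa using h1) hzg hE0
      refine hpg.trans ?_
      have hgQ : (g : ℝ) ^ 2 ≤ q * Q := by
        have h1 : (g : ℝ) ≤ q := by
          have : g ≤ q := by omega
          exact_mod_cast this
        calc (g : ℝ) ^ 2 = g * g := sq _
          _ ≤ q * Q := mul_le_mul h1 (h1.trans hQ1) hg0.le hq0.le
      have h1 : 2 * ((⌊4 * Q / q⌋₊ / g : ℕ) : ℝ) * (C1 * Q * ((g : ℝ) / Q) ^ 2) ≤ 8 * C1 * Q := by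
        calc 2 * ((⌊4 * Q / q⌋₊ / g : ℕ) : ℝ) * (C1 * Q * ((g : ℝ) / Q) ^ 2)
            ≤ 2 * (4 * Q / q) * (C1 * Q * ((g : ℝ) / Q) ^ 2) := by gcongr
          _ = 8 * C1 * ((g : ℝ) ^ 2 / q) := by field_simp; ring
          _ ≤ 8 * C1 * Q := by
            gcongr
            rw [div_le_iff₀ hq0]
            linarith
      calc (1 / (g : ℝ)) * (2 * ((⌊4 * Q / q⌋₊ / g : ℕ) : ℝ) * (C1 * Q * ((g : ℝ) / Q) ^ 2)) +
            (1 / (g : ℝ)) * (Cz * Q) + 0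
          ≤ (1 / (g : ℝ)) * (8 * Ct * Q * (q : ℝ) ^ (3 * e)) +
            (1 / (g : ℝ)) * (Cz * Q * (q : ℝ) ^ (3 * e)) +
            Cm * Q * (q : ℝ) ^ (3 * e) / g +
            (1 / (g : ℝ)) * (8 * C1 * Q * (q : ℝ) ^ (3 * e)) := by
            have h5 : 0 ≤ (1 / (g : ℝ)) * (8 * Ct * Q * (q : ℝ) ^ (3 * e)) := by positivity
            have h5' : 0 ≤ Cm * Q * (q : ℝ) ^ (3 * e) / g := by positivity
            have h6 : 8 * C1 * Q ≤ 8 * C1 * Q * (q : ℝ) ^ (3 * e) :=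
              le_mul_of_one_le_right (by positivity) hqe
            have h7 : Cz * Q ≤ Cz * Q * (q : ℝ) ^ (3 * e) :=
              le_mul_of_one_le_right (by positivity) hqe
            have h8 : (1 / (g : ℝ)) * (2 * ((⌊4 * Q / q⌋₊ / g : ℕ) : ℝ) *
              (C1 * Q * ((g : ℝ) / Q) ^ 2)) ≤
              (1 / (g : ℝ)) * (8 * C1 * Q * (q : ℝ) ^ (3 * e)) :=
              mul_le_mul_of_nonneg_left (h1.trans h6) (by positivity)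
            have h9 : (1 / (g : ℝ)) * (Cz * Q) ≤ (1 / (g : ℝ)) * (Cz * Q * (q : ℝ) ^ (3 * e)) :=
              mul_le_mul_of_nonneg_left h7 (by positivity)
            linarith
        _ = (8 * Ct + Cz + Cm + 8 * C1) * Q * (q : ℝ) ^ (3 * e) * (1 / (g : ℝ)) := by ring
  refine (norm_sum_le_of_le _ key).trans ?_
  rw [← Finset.mul_sum]
  have hlog : ∑ g ∈ Icc 1 (2 * M), (1 : ℝ) / g ≤ (1 + 1 / e) * (q : ℝ) ^ e := by
    refine (sum_inv_le (2 * M)).trans ?_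
    have h1 : Real.log ((2 * M : ℕ) : ℝ) ≤ Real.log q := by
      apply Real.log_le_log
      · have : 0 < 2 * M := by omega
        exact_mod_cast this
      · exact_mod_cast h2M.le
    have h2 : Real.log q ≤ (q : ℝ) ^ e / e := Real.log_le_rpow_div hq0.le he
    have h3 : (1 : ℝ) ≤ (q : ℝ) ^ e := Real.one_le_rpow hq1 he.le
    calc 1 + Real.log ((2 * M : ℕ) : ℝ) ≤ (q : ℝ) ^ e + (q : ℝ) ^ e / e := by linarith
      _ = (1 + 1 / e) * (q : ℝ) ^ e := by ring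
  have hCC : (0 : ℝ) ≤ (8 * Ct + Cz + Cm + 8 * C1) * Q * (q : ℝ) ^ (3 * e) := by positivity
  calc (8 * Ct + Cz + Cm + 8 * C1) * Q * (q : ℝ) ^ (3 * e) * ∑ g ∈ Icc 1 (2 * M), (1 : ℝ) / g
      ≤ (8 * Ct + Cz + Cm + 8 * C1) * Q * (q : ℝ) ^ (3 * e) * ((1 + 1 / e) * (q : ℝ) ^ e) :=
        mul_le_mul_of_nonneg_left hlog hCC
    _ = (8 * Ct + Cz + Cm + 8 * C1) * (1 + 1 / e) * Q * ((q : ℝ) ^ (3 * e) * (q : ℝ) ^ e) := by
        ring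
    _ = (8 * Ct + Cz + Cm + 8 * C1) * (1 + 1 / e) * Q * (q : ℝ) ^ (4 * e) := by
        rw [← Real.rpow_add hq0]
        congr 2
        ring

private lemma S_le_one (a : ℕ → ℂ) (ha : ∀ m, ‖a m‖ ≤ 1) (M : ℕ) (hM : 1 ≤ M) :
    ‖∑ m ∈ Ioc M (2 * M), a m / m‖ ≤ 1 := by
  have hM0 : (0 : ℝ) < M := by exact_mod_cast hM
  have key : ∀ m ∈ Ioc M (2 * M), ‖a m / (m : ℂ)‖ ≤ 1 / (M : ℝ) := by
    intro m hm
    rw [mem_Ioc] at hm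
    have h1 : (M : ℝ) ≤ m := by exact_mod_cast hm.1.le
    rw [norm_div, Complex.norm_natCast]
    exact div_le_div₀ zero_le_one (ha m) hM0 h1
  refine (norm_sum_le_of_le _ key).trans ?_
  rw [Finset.sum_const, nsmul_eq_mul, Nat.card_Ioc]
  have : 2 * M - M = M := by omega
  rw [this]
  exact (mul_one_div_cancel hM0.ne').le

private lemma real_part (q Q F S x C2 M : ℝ) (hq : 1 ≤ q) (hQ1 : q ≤ Q) (hQ2 : Q ≤ 2 * q ^ 2)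
    (hF : 0 ≤ F) (hS0 : 0 ≤ S) (hS : S ≤ 1) (hC2 : 0 < C2) (hM0 : 0 ≤ M) (hM : M ≤ q)
    (hx : |x - Q * F * S| ≤ C2 * M ^ 2 / Q) :
    |(q - 1) * (Q ^ 2 / q * F ^ 2 * S ^ 2) - x ^ 2| ≤ (2 * C2 * F + C2 ^ 2 + 2 * F ^ 2) * (Q * q) := by
  have hq0 : 0 < q := by linarith
  have hQ0 : 0 < Q := by linarith
  set y := Q * F * S with hy
  have hy0 : 0 ≤ y := by positivity
  have hyQ : y ≤ Q * F := mul_le_of_le_one_right (by positivity) hS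
  have h1 : (q - 1) * (Q ^ 2 / q * F ^ 2 * S ^ 2) = y ^ 2 - y ^ 2 / q := by
    rw [hy]; field_simp
  have hδ : C2 * M ^ 2 / Q ≤ C2 * q := by
    rw [div_le_iff₀ hQ0]
    have : M ^ 2 ≤ q * Q := by nlinarith
    nlinarith
  have hδ0 : 0 ≤ C2 * M ^ 2 / Q := by positivity
  have hab := abs_le.mp (hx.trans hδ)
  have h2 : |y ^ 2 - x ^ 2| ≤ (2 * C2 * F + C2 ^ 2) * (Q * q) := by
    have h3 : y ^ 2 - x ^ 2 = (x - y) * (-(2 * y) - (x - y)) := by ring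
    rw [h3, abs_mul]
    have h4 : |-(2 * y) - (x - y)| ≤ 2 * (Q * F) + C2 * q := by
      rw [abs_le]; constructor <;> linarith [hab.1, hab.2]
    calc |x - y| * |-(2 * y) - (x - y)| ≤ (C2 * q) * (2 * (Q * F) + C2 * q) :=
          mul_le_mul (hx.trans hδ) h4 (abs_nonneg _) (by positivity)
      _ = 2 * C2 * F * (Q * q) + C2 ^ 2 * (q * q) := by ring
      _ ≤ 2 * C2 * F * (Q * q) + C2 ^ 2 * (Q * q) := by gcongr
      _ = (2 * C2 * F + C2 ^ 2) * (Q * q) := by ring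
  have h5 : y ^ 2 / q ≤ 2 * F ^ 2 * (Q * q) := by
    rw [div_le_iff₀ hq0]
    calc y ^ 2 ≤ (Q * F) ^ 2 := by gcongr
      _ = Q * (F ^ 2 * Q) := by ring
      _ ≤ Q * (F ^ 2 * (2 * q ^ 2)) := by gcongr
      _ = 2 * F ^ 2 * (Q * q) * q := by ring
  have h6 : 0 ≤ y ^ 2 / q := by positivity
  rw [h1]
  have h7 := abs_le.mp h2
  rw [abs_le]
  constructor <;> nlinarith [h7.1, h7.2]

end TaskQH

open TaskQH in
theorem longq_pre (hmid : P_midq) (φ : ℝ → ℂ) (hφ : Tst φ) (θ : ℝ) (hθ0 : 0 < θ) (hθ : θ < 14 / 27) (ε : ℝ)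
    (hε : 0 < ε) : ∃ (C : ℝ) (q₁ : ℕ), 0 < C ∧
    ∀ (q : ℕ) [NeZero q], q₁ ≤ q → q.Prime → ∀ Q ∈ Set.Icc (q : ℝ) (2 * (q : ℝ) ^ 2),
    ∀ M : ℕ, 1 ≤ M → (M : ℝ) ≤ (q : ℝ) ^ θ → ∀ a : ℕ → ℂ, (∀ m, ‖a m‖ ≤ 1) →
    ∑ χ ∈ NP q, ‖Xs χ (cq φ a M Q) ⌊4 * Q⌋₊‖ ^ 2 ≤ C * Q * (q : ℝ) ^ (1 + ε) := by
  obtain ⟨e0, he0, H⟩ := ssq_main hmid φ hφ θ hθ0 hθ
  obtain ⟨Cs, q₁, hCs, hq₁, Hs⟩ := H (min e0 (ε / 4)) (lt_min he0 (by linarith)) (min_le_left _ _)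
  obtain ⟨C1, hC1, H1⟩ := redq φ hφ ε hε
  obtain ⟨C2, hC2, H2⟩ := prin φ hφ
  refine ⟨Cs + (2 * C2 * ‖Fh φ 0‖ + C2 ^ 2 + 2 * ‖Fh φ 0‖ ^ 2) + C1, q₁, by positivity, ?_⟩
  intro q _ hq hqp Q hQ M hM1 hMq a ha
  have hq16 : 16 ≤ q := hq₁.trans hq
  have h2M : 2 * M < q := two_M_lt θ hθ q M hq16 hMq
  have hq1 : (1 : ℝ) ≤ q := by
    have : 1 ≤ q := by omega
    exact_mod_cast this
  have hq0 : (0 : ℝ) < q := by linarith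
  have hQ0 : 0 < Q := lt_of_lt_of_le hq0 hQ.1
  have hs := Hs q hq hqp Q hQ M hM1 hMq a ha
  have h1 := H1 q hqp Q hQ M a ha
  have h2 := H2 Q (hq1.trans hQ.1) M a ha
  set S : ℂ := ∑ m ∈ Ioc M (2 * M), a m / m with hS
  set A : ℂ := ∑ n ∈ Icc 1 ⌊4 * Q⌋₊, cq φ a M Q n with hA
  have hB : ‖(Q : ℂ) * Fh φ 0 * S‖ = Q * ‖Fh φ 0‖ * ‖S‖ := by
    rw [norm_mul, norm_mul, Complex.norm_real, Real.norm_of_nonneg hQ0.le]
  have hx : |‖A‖ - Q * ‖Fh φ 0‖ * ‖S‖| ≤ C2 * (M : ℝ) ^ 2 / Q := by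
    rw [← hB]
    exact (abs_norm_sub_norm_le _ _).trans h2
  have hMq' : (M : ℝ) ≤ q := by
    have : M ≤ q := by omega
    exact_mod_cast this
  have h3 := real_part q Q ‖Fh φ 0‖ ‖S‖ ‖A‖ C2 M hq1 hQ.1 hQ.2 (norm_nonneg _) (norm_nonneg _)
    (S_le_one a ha M hM1) hC2 (Nat.cast_nonneg _) hMq' hx
  have h4 : ‖((q : ℂ) - 1) * SSq φ a M Q q ⌊4 * Q / q⌋₊ - ((‖A‖ ^ 2 : ℝ) : ℂ)‖ ≤
      q * (Cs * Q * (q : ℝ) ^ (4 * min e0 (ε / 4))) +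
      (2 * C2 * ‖Fh φ 0‖ + C2 ^ 2 + 2 * ‖Fh φ 0‖ ^ 2) * (Q * q) := by
    have h5 : ((q : ℂ) - 1) * SSq φ a M Q q ⌊4 * Q / q⌋₊ - ((‖A‖ ^ 2 : ℝ) : ℂ) =
        (((q : ℝ) - 1 : ℝ) : ℂ) * (SSq φ a M Q q ⌊4 * Q / q⌋₊ -
          ((Q ^ 2 / q * ‖Fh φ 0‖ ^ 2 * ‖S‖ ^ 2 : ℝ) : ℂ)) +
        (((q - 1) * (Q ^ 2 / q * ‖Fh φ 0‖ ^ 2 * ‖S‖ ^ 2) - ‖A‖ ^ 2 : ℝ) : ℂ) := by
      push_cast; ring
    rw [h5]
    refine (norm_add_le _ _).trans (add_le_add ?_ ?_)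
    · rw [norm_mul, Complex.norm_real, Real.norm_of_nonneg (by linarith)]
      exact mul_le_mul (by linarith) hs (norm_nonneg _) hq0.le
    · rw [Complex.norm_real, Real.norm_eq_abs]
      exact h3
  refine h1.trans ?_
  have h6 : (q : ℝ) * (Cs * Q * (q : ℝ) ^ (4 * min e0 (ε / 4))) ≤ Cs * Q * (q : ℝ) ^ (1 + ε) := by
    have h7 : (q : ℝ) * (q : ℝ) ^ (4 * min e0 (ε / 4)) ≤ (q : ℝ) ^ (1 + ε) := by
      nth_rewrite 1 [← Real.rpow_one (q : ℝ)]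
      rw [← Real.rpow_add hq0]
      apply Real.rpow_le_rpow_of_exponent_le hq1
      have := min_le_right e0 (ε / 4)
      linarith
    calc (q : ℝ) * (Cs * Q * (q : ℝ) ^ (4 * min e0 (ε / 4)))
        = Cs * Q * ((q : ℝ) * (q : ℝ) ^ (4 * min e0 (ε / 4))) := by ring
      _ ≤ Cs * Q * (q : ℝ) ^ (1 + ε) := by gcongr
  have h8 : Q * (q : ℝ) ≤ Q * (q : ℝ) ^ (1 + ε) := by
    refine mul_le_mul_of_nonneg_left ?_ hQ0.le
    nth_rewrite 1 [← Real.rpow_one (q : ℝ)]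
    exact Real.rpow_le_rpow_of_exponent_le hq1 (by linarith)
  have h9 : (2 * C2 * ‖Fh φ 0‖ + C2 ^ 2 + 2 * ‖Fh φ 0‖ ^ 2) * (Q * q) ≤
      (2 * C2 * ‖Fh φ 0‖ + C2 ^ 2 + 2 * ‖Fh φ 0‖ ^ 2) * (Q * (q : ℝ) ^ (1 + ε)) :=
    mul_le_mul_of_nonneg_left h8 (by positivity)
  calc ‖((q : ℂ) - 1) * SSq φ a M Q q ⌊4 * Q / q⌋₊ - ((‖A‖ ^ 2 : ℝ) : ℂ)‖ +
        C1 * Q * (q : ℝ) ^ (1 + ε)
      ≤ Cs * Q * (q : ℝ) ^ (1 + ε) +
        (2 * C2 * ‖Fh φ 0‖ + C2 ^ 2 + 2 * ‖Fh φ 0‖ ^ 2) * (Q * (q : ℝ) ^ (1 + ε)) +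
        C1 * Q * (q : ℝ) ^ (1 + ε) := by linarith
    _ = (Cs + (2 * C2 * ‖Fh φ 0‖ + C2 ^ 2 + 2 * ‖Fh φ 0‖ ^ 2) + C1) * Q *
        (q : ℝ) ^ (1 + ε) := by ring

end Pool.Agent.H442R2.TSM
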