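import Pool.Agent.H442R2.TSM.Defs

/-!
TSQ project (helper442): the second moment of Dirichlet L-functions to a prime modulus `q` times
an arbitrary Dirichlet polynomial of length `q^θ`, `θ < 14/27`. Definitions.
-/

namespace Pool.Agent.H442R2.TSM

open Finset

/-- coefficients `b_n φ(n/Q)` of the twisted dyadic piece -/
noncomputable def cq (φ : ℝ → ℂ) (a : ℕ → ℂ) (M : ℕ) (Q : ℝ) (n : ℕ) : ℂ :=
  bq a M n * φ ((n : ℝ) / Q)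

/-- the kernel `φ(x/Q) conj φ((x-r)/Q)` -/
noncomputable def gq (φ : ℝ → ℂ) (Q r x : ℝ) : ℂ :=
  φ (x / Q) * (starRingEnd ℂ) (φ ((x - r) / Q))

/-- the sum over `n ≡ 0 mod m₁`, `n ≡ r mod m₂` of the kernel -/
noncomputable def innq (φ : ℝ → ℂ) (Q : ℝ) (m₁ m₂ : ℕ) (r : ℤ) : ℂ :=
  ∑ n ∈ (Icc 1 ⌊4 * Q⌋₊).filter (fun n : ℕ => m₁ ∣ n ∧ (m₂ : ℤ) ∣ (n : ℤ) - r),
    gq φ Q (r : ℝ) (n : ℝ)

/-- the main sum, `n₁ - n₂ = q l` -/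
noncomputable def SSq (φ : ℝ → ℂ) (a : ℕ → ℂ) (M : ℕ) (Q : ℝ) (q L : ℕ) : ℂ :=
  ∑ m₁ ∈ Ioc M (2 * M), ∑ m₂ ∈ Ioc M (2 * M), a m₁ * (starRingEnd ℂ) (a m₂) *
    ∑ l ∈ nz L, innq φ Q m₁ m₂ (q * l)

/-- the character sum `∑_{n ≤ K} c_n χ(n)` -/
noncomputable def Xs {q : ℕ} (χ : DirichletCharacter ℂ q) (c : ℕ → ℂ) (K : ℕ) : ℂ :=
  ∑ n ∈ Icc 1 K, c n * χ (n : ZMod q)

/-- the nonprincipal characters modulo `q` -/
noncomputable def NP (q : ℕ) [NeZero q] : Finset (DirichletCharacter ℂ q) :=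
  letI := Classical.decEq (DirichletCharacter ℂ q)
  (Finset.univ : Finset (DirichletCharacter ℂ q)).erase 1

end Pool.Agent.H442R2.TSM
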