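import Mathlib
import Pool.Agent.H442R2.TSM.QDefs

/-!
TSQ project, task QJ: the large sieve for one modulus.
-/

namespace Pool.Agent.H442R2.TSM

open Finset

namespace TaskQJ

theorem orth (q : ℕ) [NeZero q] (a b : ZMod q) :
    ∑ χ : DirichletCharacter ℂ q, χ a * (starRingEnd ℂ) (χ b) =
      if a = b ∧ IsUnit b then (q.totient : ℂ) else 0 := by
  by_cases hb : IsUnit b
  · have h1 : ∀ χ : DirichletCharacter ℂ q, (starRingEnd ℂ) (χ b) = χ b⁻¹ := by
      intro χ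
      have h2 : star (χ b) = χ⁻¹ b := MulChar.star_apply' χ b
      have h3 : (starRingEnd ℂ) (χ b) = star (χ b) := rfl
      obtain ⟨u, rfl⟩ := hb
      rw [h3, h2, MulChar.inv_apply, Ring.inverse_unit, ZMod.inv_coe_unit]
    have h4 := DirichletCharacter.sum_char_inv_mul_char_eq ℂ hb a
    calc ∑ χ : DirichletCharacter ℂ q, χ a * (starRingEnd ℂ) (χ b)
        = ∑ χ : DirichletCharacter ℂ q, χ b⁻¹ * χ a :=
          Finset.sum_congr rfl fun χ _ => by rw [h1, mul_comm]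
      _ = if b = a then (q.totient : ℂ) else 0 := h4
      _ = _ := by
        by_cases hab : a = b
        · rw [if_pos hab.symm, if_pos ⟨hab, hb⟩]
        · rw [if_neg (Ne.symm hab), if_neg (fun h => hab h.1)]
  · have h1 : ∀ χ : DirichletCharacter ℂ q, χ b = 0 := fun χ => MulChar.map_nonunit χ hb
    rw [if_neg (fun h => hb h.2)]
    exact Finset.sum_eq_zero fun χ _ => by rw [h1, map_zero, mul_zero]

theorem planch (q : ℕ) [NeZero q] (C : ZMod q → ℂ) :
    ∑ χ : DirichletCharacter ℂ q, ‖∑ a, χ a * C a‖ ^ 2 ≤ (q.totient : ℝ) * ∑ a, ‖C a‖ ^ 2 := by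
  classical
  have h1 : ((∑ χ : DirichletCharacter ℂ q, ‖∑ a, χ a * C a‖ ^ 2 : ℝ) : ℂ) =
      ((∑ a, (if IsUnit a then (q.totient : ℝ) * ‖C a‖ ^ 2 else 0) : ℝ) : ℂ) := by
    have h2 : ∀ χ : DirichletCharacter ℂ q, ((‖∑ a, χ a * C a‖ ^ 2 : ℝ) : ℂ) =
        ∑ a, ∑ b, C a * (starRingEnd ℂ) (C b) * (χ a * (starRingEnd ℂ) (χ b)) := by
      intro χ
      rw [Complex.ofReal_pow, ← Complex.mul_conj', map_sum, Finset.sum_mul_sum]
      refine Finset.sum_congr rfl fun a _ => Finset.sum_congr rfl fun b _ => ?_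
      rw [map_mul]
      ring
    rw [Complex.ofReal_sum]
    simp_rw [h2]
    rw [Finset.sum_comm]
    rw [Complex.ofReal_sum]
    refine Finset.sum_congr rfl fun a _ => ?_
    rw [Finset.sum_comm]
    have h3 : ∀ b, ∑ χ : DirichletCharacter ℂ q, C a * (starRingEnd ℂ) (C b) *
        (χ a * (starRingEnd ℂ) (χ b)) = C a * (starRingEnd ℂ) (C b) *
          (if a = b ∧ IsUnit b then (q.totient : ℂ) else 0) := by
      intro b
      rw [← Finset.mul_sum, orth]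
    rw [Finset.sum_congr rfl fun b _ => h3 b, Finset.sum_eq_single a]
    · by_cases ha : IsUnit a
      · rw [if_pos ⟨rfl, ha⟩, if_pos ha, Complex.mul_conj']
        push_cast
        ring
      · rw [if_neg (fun h => ha h.2), if_neg ha]
        simp
    · intro b _ hb
      rw [if_neg (fun h => hb h.1.symm), mul_zero]
    · intro h
      exact absurd (Finset.mem_univ a) h
  have h2 := Complex.ofReal_injective h1
  rw [h2, Finset.mul_sum]
  refine Finset.sum_le_sum fun a _ => ?_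
  split_ifs
  · exact le_rfl
  · positivity

theorem count (q : ℕ) [NeZero q] (K : ℕ) (a : ZMod q) :
    q * ((Icc 1 K).filter fun n : ℕ => (n : ZMod q) = a).card ≤ q + K := by
  have hq : 0 < q := Nat.pos_of_ne_zero (NeZero.ne q)
  have h1 : ((Icc 1 K).filter fun n : ℕ => (n : ZMod q) = a).card ≤ (range (K / q + 1)).card := by
    refine Finset.card_le_card_of_injOn (fun n => n / q) ?_ ?_
    · intro n hn
      have hn' := (Finset.mem_filter.1 hn).1
      rw [Finset.mem_Icc] at hn'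
      rw [Finset.mem_coe, Finset.mem_range]
      exact Nat.lt_succ_of_le (Nat.div_le_div_right hn'.2)
    · intro n hn m hm hnm
      have h2 := (Finset.mem_filter.1 hn).2
      have h3 := (Finset.mem_filter.1 hm).2
      have h4 : (n : ZMod q) = (m : ZMod q) := h2.trans h3.symm
      rw [ZMod.natCast_eq_natCast_iff] at h4
      have h5 : n % q = m % q := h4
      have h6 : n / q = m / q := hnm
      rw [← Nat.div_add_mod n q, ← Nat.div_add_mod m q, h5, h6]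
  rw [Finset.card_range] at h1
  calc q * _ ≤ q * (K / q + 1) := Nat.mul_le_mul_left _ h1
    _ = q + q * (K / q) := by ring
    _ ≤ q + K := Nat.add_le_add_left (Nat.mul_div_le K q) _

end TaskQJ

theorem shortq (q : ℕ) [NeZero q] (c : ℕ → ℂ) (K : ℕ) :
    ∑ χ ∈ NP q, ‖Xs χ c K‖ ^ 2 ≤ ((q : ℝ) + K) * ∑ n ∈ Icc 1 K, ‖c n‖ ^ 2 := by
  classical
  let C : ZMod q → ℂ := fun a => ∑ n ∈ (Icc 1 K).filter (fun n : ℕ => (n : ZMod q) = a), c n
  have h1 : ∀ χ : DirichletCharacter ℂ q, Xs χ c K = ∑ a, χ a * C a := by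
    intro χ
    rw [Xs, ← Finset.sum_fiberwise_of_maps_to (g := fun n : ℕ => (n : ZMod q))
      (t := (Finset.univ : Finset (ZMod q))) (fun _ _ => Finset.mem_univ _)]
    refine Finset.sum_congr rfl fun a _ => ?_
    rw [Finset.mul_sum]
    refine Finset.sum_congr rfl fun n hn => ?_
    rw [(Finset.mem_filter.1 hn).2, mul_comm]
  have h2 : ∀ a, (q.totient : ℝ) * ‖C a‖ ^ 2 ≤
      ((q : ℝ) + K) * ∑ n ∈ (Icc 1 K).filter (fun n : ℕ => (n : ZMod q) = a), ‖c n‖ ^ 2 := by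
    intro a
    have h3 : ‖C a‖ ≤ ∑ n ∈ (Icc 1 K).filter (fun n : ℕ => (n : ZMod q) = a), ‖c n‖ :=
      norm_sum_le _ _
    have h4 : ‖C a‖ ^ 2 ≤ (((Icc 1 K).filter fun n : ℕ => (n : ZMod q) = a).card : ℝ) *
        ∑ n ∈ (Icc 1 K).filter (fun n : ℕ => (n : ZMod q) = a), ‖c n‖ ^ 2 :=
      (pow_le_pow_left₀ (norm_nonneg _) h3 2).trans sq_sum_le_card_mul_sum_sq
    have h5 : (q.totient : ℝ) ≤ q := by exact_mod_cast Nat.totient_le q
    have h6 : (q : ℝ) * (((Icc 1 K).filter fun n : ℕ => (n : ZMod q) = a).card : ℝ) ≤ q + K := by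
      exact_mod_cast TaskQJ.count q K a
    have h7 : 0 ≤ ∑ n ∈ (Icc 1 K).filter (fun n : ℕ => (n : ZMod q) = a), ‖c n‖ ^ 2 :=
      Finset.sum_nonneg fun _ _ => by positivity
    calc (q.totient : ℝ) * ‖C a‖ ^ 2 ≤ (q : ℝ) * ‖C a‖ ^ 2 :=
          mul_le_mul_of_nonneg_right h5 (by positivity)
      _ ≤ (q : ℝ) * ((((Icc 1 K).filter fun n : ℕ => (n : ZMod q) = a).card : ℝ) *
          ∑ n ∈ (Icc 1 K).filter (fun n : ℕ => (n : ZMod q) = a), ‖c n‖ ^ 2) :=
          mul_le_mul_of_nonneg_left h4 (Nat.cast_nonneg q)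
      _ = ((q : ℝ) * (((Icc 1 K).filter fun n : ℕ => (n : ZMod q) = a).card : ℝ)) *
          ∑ n ∈ (Icc 1 K).filter (fun n : ℕ => (n : ZMod q) = a), ‖c n‖ ^ 2 := by ring
      _ ≤ _ := mul_le_mul_of_nonneg_right h6 h7
  calc ∑ χ ∈ NP q, ‖Xs χ c K‖ ^ 2 ≤ ∑ χ : DirichletCharacter ℂ q, ‖Xs χ c K‖ ^ 2 :=
        Finset.sum_le_sum_of_subset_of_nonneg (Finset.subset_univ _) fun _ _ _ => by positivity
    _ = ∑ χ : DirichletCharacter ℂ q, ‖∑ a, χ a * C a‖ ^ 2 :=
        Finset.sum_congr rfl fun χ _ => by rw [h1]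
    _ ≤ (q.totient : ℝ) * ∑ a, ‖C a‖ ^ 2 := TaskQJ.planch q C
    _ = ∑ a, (q.totient : ℝ) * ‖C a‖ ^ 2 := Finset.mul_sum _ _ _
    _ ≤ ∑ a, ((q : ℝ) + K) *
        ∑ n ∈ (Icc 1 K).filter (fun n : ℕ => (n : ZMod q) = a), ‖c n‖ ^ 2 :=
        Finset.sum_le_sum fun a _ => h2 a
    _ = ((q : ℝ) + K) * ∑ n ∈ Icc 1 K, ‖c n‖ ^ 2 := by
        rw [← Finset.mul_sum, Finset.sum_fiberwise_of_maps_to (fun _ _ => Finset.mem_univ _)]

end Pool.Agent.H442R2.TSM
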