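import Pool.Agent.H442R2.TSM.QMid
import Pool.Agent.H442R2.TSM.QLongPre
import Pool.Agent.H442R2.TSM.QBlkPre
import Pool.Agent.H442R2.TSM.QFinPre
import Pool.Agent.H442R2.TSM.QApx
import Pool.Agent.H442R2.TSM.QShort

/-! TSQ project: final assembly. -/

namespace Pool.Agent.H442R2.TSM

open Finset

theorem blockq_thm (t : ℝ) : TaskQL.BlockQS t :=
  fun θ hθ0 hθ ε hε => blockq_pre
    (fun φ hφ θ hθ0 hθ ε hε => longq_pre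
      (fun φ hφ θ hθ0 hθ => midq φ hφ θ hθ0 hθ) φ hφ θ hθ0 hθ ε hε)
    apxq (fun q _ c K => shortq q c K) t θ hθ0 hθ ε hε

theorem finalq_thm (t : ℝ) (θ : ℝ) (hθ0 : 0 < θ) (hθ : θ < 14 / 27) (ε : ℝ) (hε : 0 < ε) :
    ∃ C : ℝ, 0 < C ∧ ∀ (q : ℕ) [NeZero q], q.Prime → ∀ N : ℕ, (N : ℝ) ≤ (q : ℝ) ^ θ →
    ∀ a : ℕ → ℂ, (∀ n, ‖a n‖ ≤ 1) →
    ∑ χ ∈ NP q, ‖χ.LFunction (1 / 2 + (t : ℂ) * Complex.I)‖ ^ 2 *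
      ‖∑ n ∈ Icc 1 N, a n * χ (n : ZMod q) *
        (n : ℂ) ^ (-(1 / 2 + (t : ℂ) * Complex.I))‖ ^ 2 ≤ C * (q : ℝ) ^ (1 + ε) :=
  finalq_of t (blockq_thm t) θ hθ0 hθ ε hε

end Pool.Agent.H442R2.TSM
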