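import Pool.Agent.H442R2.TSM.QDefs
import Pool.Agent.H442R2.TSM.Osc

/-!
QD (QBnd.lean): bounds for the Fourier transform of the kernel `gq` (helper384)
-/

namespace Pool.Agent.H442R2.TSM

open Finset MeasureTheory

namespace TaskQD

open TaskTA

/-- the kernel in the normalised variable -/
noncomputable def KK (φ₁ φ₂ : ℝ → ℂ) (ρ u : ℝ) : ℂ := φ₁ u * (starRingEnd ℂ) (φ₂ (u - ρ))

theorem norm_e (x : ℝ) : ‖KF.e x‖ = 1 := by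
  unfold KF.e
  exact Complex.norm_exp_ofReal_mul_I _

theorem tst_KK {φ₁ φ₂ : ℝ → ℂ} (h1 : Tst φ₁) (h2 : Tst φ₂) (ρ : ℝ) : Tst (KK φ₁ φ₂ ρ) := by
  refine ⟨?_, fun u hu => by unfold KK; rw [h1.supp u hu, zero_mul]⟩
  unfold KK
  refine h1.smooth.mul ?_
  have h3 : ContDiff ℝ ((⊤ : ℕ∞) : WithTop ℕ∞) (fun u : ℝ => φ₂ (u - ρ)) :=
    h2.smooth.comp (contDiff_id.sub contDiff_const)
  exact Complex.conjCLE.contDiff.comp h3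

theorem deriv_KK {φ₁ φ₂ : ℝ → ℂ} (h1 : Tst φ₁) (h2 : Tst φ₂) (ρ : ℝ) :
    deriv (KK φ₁ φ₂ ρ) = fun u => KK (deriv φ₁) φ₂ ρ u + KK φ₁ (deriv φ₂) ρ u := by
  funext u
  unfold KK
  have a1 := tst_hasDeriv h1 u
  have a2 : HasDerivAt (fun u => φ₂ (u - ρ)) (deriv φ₂ (u - ρ)) u :=
    HasDerivAt.comp_sub_const u ρ (tst_hasDeriv h2 (u - ρ))
  have a3 : HasDerivAt (fun u => (starRingEnd ℂ) (φ₂ (u - ρ)))
      ((starRingEnd ℂ) (deriv φ₂ (u - ρ))) u := a2.star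
  exact (a1.mul a3).deriv

theorem bdd {φ : ℝ → ℂ} (h : Tst φ) : ∃ B : ℝ, 0 < B ∧ ∀ u, ‖φ u‖ ≤ B := by
  obtain ⟨C, hC⟩ := (tst_cont h).bounded_above_of_compact_support (tst_cs h)
  exact ⟨max C 1, by positivity, fun u => (hC u).trans (le_max_left _ _)⟩

theorem int_KK {φ₁ φ₂ : ℝ → ℂ} (h1 : Tst φ₁) (h2 : Tst φ₂) : ∃ C : ℝ, 0 < C ∧ ∀ ρ : ℝ,
    ∫ u, ‖KK φ₁ φ₂ ρ u‖ ≤ C := by
  obtain ⟨B, hB, hb⟩ := bdd h2
  have h0 : 0 ≤ ∫ u, ‖φ₁ u‖ := by positivity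
  refine ⟨B * (∫ u, ‖φ₁ u‖) + 1, by positivity, fun ρ => ?_⟩
  have : ∫ u, ‖KK φ₁ φ₂ ρ u‖ ≤ ∫ u, B * ‖φ₁ u‖ := by
    refine integral_mono (tst_int (tst_KK h1 h2 ρ)).norm ((tst_int h1).norm.const_mul B) ?_
    intro u
    show ‖KK φ₁ φ₂ ρ u‖ ≤ B * ‖φ₁ u‖
    unfold KK
    rw [norm_mul, RCLike.norm_conj, mul_comm]
    exact mul_le_mul_of_nonneg_right (hb _) (norm_nonneg _)
  rw [integral_const_mul] at this
  linarith

theorem Fh_le (f : ℝ → ℂ) (w : ℝ) : ‖Fh f w‖ ≤ ∫ u, ‖f u‖ := by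
  unfold Fh
  refine (norm_integral_le_integral_norm _).trans (le_of_eq ?_)
  congr 1
  funext u
  rw [norm_mul, norm_e, mul_one]

theorem KK_bd (A : ℕ) : ∀ φ₁ φ₂ : ℝ → ℂ, Tst φ₁ → Tst φ₂ → ∃ C : ℝ, 0 < C ∧ ∀ ρ w : ℝ, w ≠ 0 →
    ‖Fh (KK φ₁ φ₂ ρ) w‖ ≤ C / |w| ^ A := by
  induction A with
  | zero =>
    intro φ₁ φ₂ h1 h2
    obtain ⟨C, hC, h⟩ := int_KK h1 h2
    refine ⟨C, hC, fun ρ w _ => ?_⟩
    rw [pow_zero, div_one]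
    exact (Fh_le _ _).trans (h ρ)
  | succ A ih =>
    intro φ₁ φ₂ h1 h2
    obtain ⟨C1, hC1, b1⟩ := ih _ _ (tst_deriv h1) h2
    obtain ⟨C2, hC2, b2⟩ := ih _ _ h1 (tst_deriv h2)
    refine ⟨C1 + C2, by positivity, fun ρ w hw => ?_⟩
    have e1 := Fh_deriv (tst_KK h1 h2 ρ) w
    have e2 : Fh (deriv (KK φ₁ φ₂ ρ)) w = Fh (KK (deriv φ₁) φ₂ ρ) w +
        Fh (KK φ₁ (deriv φ₂) ρ) w := by
      rw [deriv_KK h1 h2 ρ]
      unfold Fh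
      rw [← integral_add (tst_int' (tst_KK (tst_deriv h1) h2 ρ) w)
        (tst_int' (tst_KK h1 (tst_deriv h2) ρ) w)]
      congr 1
      funext u
      ring
    have hw' : 0 < |w| := abs_pos.2 hw
    have e3 : ‖Fh (deriv (KK φ₁ φ₂ ρ)) w‖ = 2 * Real.pi * |w| * ‖Fh (KK φ₁ φ₂ ρ) w‖ := by
      rw [e1, norm_mul, norm_mul, norm_mul, norm_mul, Complex.norm_I, Complex.norm_real,
        Complex.norm_real, Real.norm_eq_abs, Real.norm_eq_abs, abs_of_pos Real.pi_pos]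
      norm_num
    have e4 : ‖Fh (deriv (KK φ₁ φ₂ ρ)) w‖ ≤ (C1 + C2) / |w| ^ A := by
      rw [e2]
      refine (norm_add_le _ _).trans ?_
      rw [add_div]
      exact add_le_add (b1 ρ w hw) (b2 ρ w hw)
    rw [e3] at e4
    have hpi : 1 ≤ 2 * Real.pi := by linarith [Real.pi_gt_three]
    rw [le_div_iff₀ (pow_pos hw' _)]
    rw [le_div_iff₀ (pow_pos hw' _)] at e4
    have h5 : 0 ≤ ‖Fh (KK φ₁ φ₂ ρ) w‖ * |w| ^ (A + 1) := by positivity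
    calc ‖Fh (KK φ₁ φ₂ ρ) w‖ * |w| ^ (A + 1)
        ≤ 2 * Real.pi * (‖Fh (KK φ₁ φ₂ ρ) w‖ * |w| ^ (A + 1)) := by nlinarith
      _ = 2 * Real.pi * |w| * ‖Fh (KK φ₁ φ₂ ρ) w‖ * |w| ^ A := by rw [pow_succ]; ring
      _ ≤ C1 + C2 := e4

/-- change of variables -/
theorem Fh_gq (φ : ℝ → ℂ) (Q : ℝ) (hQ : 0 < Q) (r w : ℝ) :
    Fh (gq φ Q r) w = (Q : ℂ) * Fh (KK φ φ (r / Q)) (w * Q) := by
  unfold Fh
  have h1 := Measure.integral_comp_mul_left (fun x => gq φ Q r x * KF.e (-(w * x))) Q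
  rw [abs_of_pos (inv_pos.2 hQ)] at h1
  have h2 : ∫ x, gq φ Q r x * KF.e (-(w * x)) =
      (Q : ℂ) * ∫ x, gq φ Q r (Q * x) * KF.e (-(w * (Q * x))) := by
    rw [h1, Complex.real_smul, ← mul_assoc, ← Complex.ofReal_mul, mul_inv_cancel₀ hQ.ne',
      Complex.ofReal_one, one_mul]
  rw [h2]
  congr 2
  funext u
  unfold gq KK
  have e1 : Q * u / Q = u := by field_simp
  have e2 : (Q * u - r) / Q = u - r / Q := by field_simp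
  have e3 : -(w * (Q * u)) = -(w * Q * u) := by ring
  rw [e1, e2, e3]

theorem e_sub (a b : ℝ) : ‖KF.e a - KF.e b‖ ≤ 2 * Real.pi * |a - b| := by
  unfold KF.e
  have h1 : Complex.exp (((2 * Real.pi * a : ℝ) : ℂ) * Complex.I) -
      Complex.exp (((2 * Real.pi * b : ℝ) : ℂ) * Complex.I) =
      Complex.exp (((2 * Real.pi * b : ℝ) : ℂ) * Complex.I) *
        (Complex.exp (Complex.I * ((2 * Real.pi * (a - b) : ℝ) : ℂ)) - 1) := by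
    rw [mul_sub, mul_one, ← Complex.exp_add]
    congr 2
    push_cast
    ring
  rw [h1, norm_mul, Complex.norm_exp_ofReal_mul_I, one_mul]
  refine (Real.norm_exp_I_mul_ofReal_sub_one_le (x := 2 * Real.pi * (a - b))).trans ?_
  rw [Real.norm_eq_abs, abs_mul, abs_of_pos (by positivity : (0:ℝ) < 2 * Real.pi)]

theorem Fh_lip {f : ℝ → ℂ} (hf : Tst f) (a b : ℝ) :
    ‖Fh f a - Fh f b‖ ≤ 8 * Real.pi * |a - b| * ∫ u, ‖f u‖ := by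
  unfold Fh
  rw [← integral_sub (tst_int' hf a) (tst_int' hf b), ← integral_const_mul]
  refine norm_integral_le_of_norm_le ((tst_int hf).norm.const_mul _)
    (Filter.Eventually.of_forall fun u => ?_)
  rw [← mul_sub, norm_mul]
  by_cases hu : u ∈ Set.Icc (1 : ℝ) 4
  · have h1 := e_sub (-(a * u)) (-(b * u))
    have h2 : |-(a * u) - -(b * u)| = |a - b| * u := by
      rw [show -(a * u) - -(b * u) = -((a - b) * u) by ring, abs_neg, abs_mul,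
        abs_of_pos (by linarith [hu.1] : 0 < u)]
    rw [h2] at h1
    have h3 : 2 * Real.pi * (|a - b| * u) ≤ 8 * Real.pi * |a - b| := by
      have h4 : 0 ≤ Real.pi * |a - b| := by positivity
      nlinarith [hu.2]
    calc ‖f u‖ * ‖KF.e (-(a * u)) - KF.e (-(b * u))‖
        ≤ ‖f u‖ * (8 * Real.pi * |a - b|) :=
          mul_le_mul_of_nonneg_left (h1.trans h3) (norm_nonneg _)
      _ = 8 * Real.pi * |a - b| * ‖f u‖ := mul_comm _ _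
  · rw [hf.supp u hu, norm_zero, zero_mul, mul_zero]

end TaskQD

open TaskQD

theorem gq_bd (φ : ℝ → ℂ) (hφ : Tst φ) (A : ℕ) : ∃ C : ℝ, 0 < C ∧ ∀ Q : ℝ, 0 < Q → ∀ r : ℝ,
    ∀ w : ℝ, w ≠ 0 → ‖Fh (gq φ Q r) w‖ ≤ C * Q / (Q * |w|) ^ A := by
  obtain ⟨C, hC, h⟩ := KK_bd A φ φ hφ hφ
  refine ⟨C, hC, fun Q hQ r w hw => ?_⟩
  have h1 := h (r / Q) (w * Q) (mul_ne_zero hw hQ.ne')
  rw [Fh_gq φ Q hQ, norm_mul, Complex.norm_real, Real.norm_eq_abs, abs_of_pos hQ]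
  rw [abs_mul, abs_of_pos hQ, mul_comm |w| Q] at h1
  calc Q * ‖Fh (KK φ φ (r / Q)) (w * Q)‖ ≤ Q * (C / (Q * |w|) ^ A) :=
        mul_le_mul_of_nonneg_left h1 hQ.le
    _ = C * Q / (Q * |w|) ^ A := by ring

theorem gq_bd0 (φ : ℝ → ℂ) (hφ : Tst φ) : ∃ C : ℝ, 0 < C ∧ ∀ Q : ℝ, 0 < Q → ∀ r w : ℝ,
    ‖Fh (gq φ Q r) w‖ ≤ C * Q := by
  obtain ⟨C, hC, h⟩ := int_KK hφ hφ
  refine ⟨C, hC, fun Q hQ r w => ?_⟩
  rw [Fh_gq φ Q hQ, norm_mul, Complex.norm_real, Real.norm_eq_abs, abs_of_pos hQ, mul_comm C Q]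
  exact mul_le_mul_of_nonneg_left ((Fh_le _ _).trans (h _)) hQ.le

theorem gq_lip (φ : ℝ → ℂ) (hφ : Tst φ) : ∃ C : ℝ, 0 < C ∧ ∀ Q : ℝ, 0 < Q → ∀ r w w' : ℝ,
    ‖Fh (gq φ Q r) w - Fh (gq φ Q r) w'‖ ≤ C * Q ^ 2 * |w - w'| := by
  obtain ⟨C, hC, h⟩ := int_KK hφ hφ
  refine ⟨8 * Real.pi * C, by positivity, fun Q hQ r w w' => ?_⟩
  rw [Fh_gq φ Q hQ, Fh_gq φ Q hQ, ← mul_sub, norm_mul, Complex.norm_real, Real.norm_eq_abs,
    abs_of_pos hQ]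
  have h1 := Fh_lip (tst_KK hφ hφ (r / Q)) (w * Q) (w' * Q)
  have h2 : |w * Q - w' * Q| = |w - w'| * Q := by
    rw [← sub_mul, abs_mul, abs_of_pos hQ]
  rw [h2] at h1
  have h3 : 8 * Real.pi * (|w - w'| * Q) * ∫ u, ‖KK φ φ (r / Q) u‖ ≤
      8 * Real.pi * (|w - w'| * Q) * C := mul_le_mul_of_nonneg_left (h _) (by positivity)
  calc Q * ‖Fh (KK φ φ (r / Q)) (w * Q) - Fh (KK φ φ (r / Q)) (w' * Q)‖
      ≤ Q * (8 * Real.pi * (|w - w'| * Q) * C) :=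
        mul_le_mul_of_nonneg_left (h1.trans h3) hQ.le
    _ = 8 * Real.pi * C * Q ^ 2 * |w - w'| := by ring

end Pool.Agent.H442R2.TSM
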