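import Pool.Agent.H442R2.TSM.QBnd
import Pool.Agent.H442R2.TSM.TriApp

/-! Task QF: low frequencies. -/

namespace Pool.Agent.H442R2.TSM

open Finset MeasureTheory

namespace TaskQF

open TaskTI in
theorem tri_app_gen (δ : ℝ) (hδ : 0 < δ) : ∃ C : ℝ, 0 < C ∧ ∀ (M J R : ℕ), 1 ≤ M →
    ((J * R : ℕ) : ℝ) ≤ (M : ℝ) ^ (1 / 14 - δ) → ∀ V : ℝ, 1 ≤ V →
    ∀ w : ℕ → ℕ → ℝ → ℂ, (∀ j r, KF.Wei M V (w j r)) → ∀ k : ℤ, k ≠ 0 →
    |(k : ℝ)| * ((J * R : ℕ) : ℝ) ≤ V * (M : ℝ) ^ 2 →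
    ∀ α β : ℕ → ℂ, (∀ m, ‖α m‖ ≤ 1) → (∀ n, ‖β n‖ ≤ 1) →
    ‖∑ p ∈ CP M, α p.1 * β p.2 * ∑ j ∈ Icc 1 J, ∑ r ∈ Icc 1 R,
      w j r ((p.1 : ℝ) * p.2) * KF.kf (k * ((j : ℤ) * r)) p.1 p.2‖ ≤ C * V ^ 2 * (M : ℝ) ^ 2 := by
  obtain ⟨η, C1, hη, hC1, htri⟩ := KF.tri δ hδ
  obtain ⟨C2, hC2, hdiv⟩ := H353.divisor_bound_real η hη
  refine ⟨C2 * C1, by positivity, ?_⟩
  intro M J R hM hJR V hV w hw s hs hk α β hα hβ
  have hM1 : (1 : ℝ) ≤ M := by exact_mod_cast hM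
  have hM0 : (0 : ℝ) < M := by linarith
  rcases Nat.eq_zero_or_pos (J * R) with h0 | hpos
  · have hz : ∀ p : ℕ × ℕ, ∑ j ∈ Icc 1 J, ∑ r ∈ Icc 1 R,
        w j r ((p.1 : ℝ) * p.2) * KF.kf (s * ((j : ℤ) * r)) p.1 p.2 = 0 := by
      intro p
      rcases Nat.mul_eq_zero.mp h0 with h | h
      · subst h; simp
      · subst h; simp
    simp only [hz, mul_zero, sum_const_zero, norm_zero]
    positivity
  · have hJR1 : ((J * R : ℕ) : ℝ) ≤ M := by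
      refine hJR.trans ?_
      calc (M : ℝ) ^ (1 / 14 - δ) ≤ (M : ℝ) ^ (1 : ℝ) :=
            Real.rpow_le_rpow_of_exponent_le hM1 (by linarith)
        _ = M := Real.rpow_one _
    set B : ℝ := C2 * (M : ℝ) ^ η with hB
    have hB0 : 0 < B := by positivity
    have hcard : ∀ l, ((PP J R l).card : ℝ) ≤ B := by
      intro l
      rcases Nat.eq_zero_or_pos (PP J R l).card with h | h
      · rw [h]; simpa using hB0.le
      · obtain ⟨p, hp⟩ := card_pos.mp h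
        have hp' := mem_filter.mp hp
        rw [mem_product, mem_Icc, mem_Icc] at hp'
        have hl0 : l ≠ 0 := by
          rw [← hp'.2]; exact Nat.mul_ne_zero (by omega) (by omega)
        have hl : (l : ℝ) ≤ M := by
          refine le_trans ?_ hJR1
          have : l ≤ J * R := by
            rw [← hp'.2]; exact Nat.mul_le_mul hp'.1.1.2 hp'.1.2.2
          exact_mod_cast this
        calc ((PP J R l).card : ℝ) ≤ (l.divisors.card : ℝ) := by exact_mod_cast card_PP J R l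
          _ ≤ C2 * (l : ℝ) ^ η := hdiv l hl0
          _ ≤ B := by
            apply mul_le_mul_of_nonneg_left _ hC2.le
            exact Real.rpow_le_rpow (Nat.cast_nonneg _) hl hη.le
    have hmain := htri M (J * R) hM hpos hJR V hV (psi w J R B)
      (fun l => wei_psi hV hw hB0 (hcard l)) s hs hk α β hα hβ
    have hB' : (B : ℂ) ≠ 0 := by exact_mod_cast hB0.ne'
    have hident : ∑ p ∈ CP M, α p.1 * β p.2 * ∑ j ∈ Icc 1 J, ∑ r ∈ Icc 1 R,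
        w j r ((p.1 : ℝ) * p.2) * KF.kf (s * ((j : ℤ) * r)) p.1 p.2 =
        (B : ℂ) * ∑ m ∈ Ioc M (2 * M + 1),
          ∑ n ∈ (Ioc M (2 * M + 1)).filter (fun n => Nat.Coprime m n),
            α m * β n * KF.FF (psi w J R B) s (J * R) n m := by
      rw [sum_CP M (fun m n => α m * β n * ∑ j ∈ Icc 1 J, ∑ r ∈ Icc 1 R,
        w j r ((m : ℝ) * n) * KF.kf (s * ((j : ℤ) * r)) m n), mul_sum]
      apply sum_congr rfl
      intro m _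
      rw [mul_sum]
      apply sum_congr rfl
      intro n _
      rw [FF_psi]
      push_cast
      field_simp
    rw [hident, norm_mul, Complex.norm_real, Real.norm_of_nonneg hB0.le]
    calc B * _ ≤ B * (C1 * V ^ 2 * (M : ℝ) ^ (2 - η)) := mul_le_mul_of_nonneg_left hmain hB0.le
      _ = C2 * C1 * V ^ 2 * ((M : ℝ) ^ η * (M : ℝ) ^ (2 - η)) := by rw [hB]; ring
      _ = C2 * C1 * V ^ 2 * (M : ℝ) ^ 2 := by
        rw [← Real.rpow_add hM0]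
        congr 1
        rw [show η + (2 - η) = ((2 : ℕ) : ℝ) by push_cast; ring, Real.rpow_natCast]

/-- a sum over `nz N` split by signs -/
theorem sum_nz (N : ℕ) (f : ℤ → ℂ) :
    ∑ j ∈ nz N, f j = ∑ j ∈ Icc 1 N, f (1 * (j : ℤ)) + ∑ j ∈ Icc 1 N, f ((-1) * (j : ℤ)) := by
  have h1 : nz N = (Icc 1 N).image (fun j : ℕ => (1 * (j : ℤ) : ℤ)) ∪
      (Icc 1 N).image (fun j : ℕ => ((-1) * (j : ℤ) : ℤ)) := by
    ext x
    simp only [nz, mem_erase, mem_Icc, mem_union, mem_image]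
    constructor
    · rintro ⟨hx0, hx1, hx2⟩
      rcases lt_or_gt_of_ne hx0 with h | h
      · right; exact ⟨x.natAbs, by omega, by omega⟩
      · left; exact ⟨x.natAbs, by omega, by omega⟩
    · rintro (⟨a, ha, rfl⟩ | ⟨a, ha, rfl⟩) <;> omega
  rw [h1, sum_union, sum_image, sum_image]
  · intro a _ b _ hab; simpa using hab
  · intro a _ b _ hab; simpa using hab
  · rw [disjoint_left]
    intro x hx hy
    simp only [mem_image, mem_Icc] at hx hy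
    obtain ⟨a, ha, rfl⟩ := hx
    obtain ⟨b, hb, hab⟩ := hy
    omega

theorem sum_nz2 (L J : ℕ) (c : ℂ) (F : ℤ → ℤ → ℂ) :
    ∑ l ∈ nz L, c * ∑ j ∈ nz J, F l j =
      ((∑ j ∈ Icc 1 J, ∑ l ∈ Icc 1 L, c * F (1 * (l : ℤ)) (1 * (j : ℤ))) +
        (∑ j ∈ Icc 1 J, ∑ l ∈ Icc 1 L, c * F (1 * (l : ℤ)) ((-1) * (j : ℤ)))) +
      ((∑ j ∈ Icc 1 J, ∑ l ∈ Icc 1 L, c * F ((-1) * (l : ℤ)) (1 * (j : ℤ))) +
        (∑ j ∈ Icc 1 J, ∑ l ∈ Icc 1 L, c * F ((-1) * (l : ℤ)) ((-1) * (j : ℤ)))) := by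
  rw [sum_nz]
  congr 1
  · rw [sum_comm (s := Icc 1 J), sum_comm (s := Icc 1 J), ← sum_add_distrib]
    apply sum_congr rfl
    intro l _
    rw [sum_nz, mul_add, mul_sum, mul_sum]
  · rw [sum_comm (s := Icc 1 J), sum_comm (s := Icc 1 J), ← sum_add_distrib]
    apply sum_congr rfl
    intro l _
    rw [sum_nz, mul_add, mul_sum, mul_sum]

/-- the weights -/
noncomputable def wt (φ : ℝ → ℂ) (Q C : ℝ) (m g J : ℕ) (k σ : ℤ) (j l : ℕ) (s : ℝ) : ℂ :=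
  if j ≤ J then ((((m : ℝ) ^ 2 / s) * (C * Q)⁻¹ : ℝ) : ℂ) *
    Fh (gq φ Q ((g : ℝ) * ((k : ℝ) * l))) (((σ : ℝ) * j) / ((g : ℝ) * s)) else 0

theorem wei_wt (φ : ℝ → ℂ) (Q C V : ℝ) (m g J : ℕ) (k σ : ℤ) (hσ : |(σ : ℝ)| = 1) (hQ : 0 < Q)
    (hC : 0 < C) (hm : 1 ≤ m) (hg : 1 ≤ g) (h0 : ∀ r w : ℝ, ‖Fh (gq φ Q r) w‖ ≤ C * Q)
    (h1 : ∀ r w w' : ℝ, ‖Fh (gq φ Q r) w - Fh (gq φ Q r) w'‖ ≤ C * Q ^ 2 * |w - w'|)
    (hV : 1 + Q * J / (g * (m : ℝ) ^ 2) ≤ V) (j l : ℕ) :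
    KF.Wei m V (wt φ Q C m g J k σ j l) := by
  have hm0 : (0 : ℝ) < m := by exact_mod_cast hm
  have hg0 : (0 : ℝ) < g := by exact_mod_cast hg
  have hV0 : 0 ≤ V := le_trans (by positivity) hV
  have hm2 : (0 : ℝ) < (m : ℝ) ^ 2 := by positivity
  constructor
  · intro s hs
    have hs0 : 0 < s := lt_of_lt_of_le hm2 hs
    unfold wt
    split_ifs
    · rw [norm_mul, Complex.norm_real, Real.norm_of_nonneg (by positivity)]
      calc (m : ℝ) ^ 2 / s * (C * Q)⁻¹ * _ ≤ (m : ℝ) ^ 2 / s * (C * Q)⁻¹ * (C * Q) :=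
            mul_le_mul_of_nonneg_left (h0 _ _) (by positivity)
        _ = (m : ℝ) ^ 2 / s := by field_simp
        _ ≤ 1 := by rw [div_le_one hs0]; exact hs
    · simp
  · intro s s' hs hs'
    have hs0 : 0 < s := lt_of_lt_of_le hm2 hs
    have hs0' : 0 < s' := lt_of_lt_of_le hm2 hs'
    unfold wt
    split_ifs with hj
    · set r : ℝ := (g : ℝ) * ((k : ℝ) * l)
      set F : ℂ := Fh (gq φ Q r) (((σ : ℝ) * j) / ((g : ℝ) * s))
      set F' : ℂ := Fh (gq φ Q r) (((σ : ℝ) * j) / ((g : ℝ) * s'))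
      have e1 : ((((m : ℝ) ^ 2 / s) * (C * Q)⁻¹ : ℝ) : ℂ) * F -
          ((((m : ℝ) ^ 2 / s') * (C * Q)⁻¹ : ℝ) : ℂ) * F' =
          ((((m : ℝ) ^ 2 / s) * (C * Q)⁻¹ : ℝ) : ℂ) * (F - F') +
          ((((m : ℝ) ^ 2 / s - (m : ℝ) ^ 2 / s') * (C * Q)⁻¹ : ℝ) : ℂ) * F' := by
        push_cast; ring
      have hss : |1 / s - 1 / s'| = |s - s'| / (s * s') := by
        have : 1 / s - 1 / s' = -(s - s') / (s * s') := by field_simp; ring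
        rw [this, abs_div, abs_neg, abs_of_pos (by positivity : 0 < s * s')]
      have hjJ : (j : ℝ) ≤ J := by exact_mod_cast hj
      have b1 : ‖F - F'‖ ≤ C * Q ^ 2 * ((J : ℝ) / g * (|s - s'| / (s * s'))) := by
        refine (h1 _ _ _).trans ?_
        apply mul_le_mul_of_nonneg_left _ (by positivity)
        have : ((σ : ℝ) * j) / ((g : ℝ) * s) - ((σ : ℝ) * j) / ((g : ℝ) * s') =
            (σ : ℝ) * ((j : ℝ) / g * (1 / s - 1 / s')) := by field_simp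
        rw [this, abs_mul, hσ, one_mul, abs_mul, hss, abs_of_nonneg (by positivity : 0 ≤ (j : ℝ) / g)]
        gcongr
      have b2 : ‖F'‖ ≤ C * Q := h0 _ _
      rw [e1]
      refine (norm_add_le _ _).trans ?_
      rw [norm_mul, norm_mul, Complex.norm_real, Complex.norm_real,
        Real.norm_of_nonneg (by positivity : 0 ≤ (m : ℝ) ^ 2 / s * (C * Q)⁻¹), Real.norm_eq_abs,
        abs_mul, abs_of_pos (by positivity : 0 < (C * Q)⁻¹)]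
      have e2 : |(m : ℝ) ^ 2 / s - (m : ℝ) ^ 2 / s'| = (m : ℝ) ^ 2 * (|s - s'| / (s * s')) := by
        rw [← hss, ← abs_of_pos hm2, ← abs_mul, abs_of_pos hm2]
        congr 1
        field_simp
      rw [e2]
      have hD : |s - s'| / (s * s') ≤ |s - s'| / ((m : ℝ) ^ 2 * (m : ℝ) ^ 2) := by
        gcongr
      have hD0 : 0 ≤ |s - s'| / (s * s') := by positivity
      have hms : (m : ℝ) ^ 2 / s ≤ 1 := by rw [div_le_one hs0]; exact hs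
      calc (m : ℝ) ^ 2 / s * (C * Q)⁻¹ * ‖F - F'‖ +
            (m : ℝ) ^ 2 * (|s - s'| / (s * s')) * (C * Q)⁻¹ * ‖F'‖
          ≤ 1 * (C * Q)⁻¹ * (C * Q ^ 2 * ((J : ℝ) / g * (|s - s'| / (s * s')))) +
            (m : ℝ) ^ 2 * (|s - s'| / (s * s')) * (C * Q)⁻¹ * (C * Q) := by gcongr
        _ = (Q * J / g + (m : ℝ) ^ 2) * (|s - s'| / (s * s')) := by field_simp
        _ ≤ (Q * J / g + (m : ℝ) ^ 2) * (|s - s'| / ((m : ℝ) ^ 2 * (m : ℝ) ^ 2)) := by gcongr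
        _ = (1 + Q * J / (g * (m : ℝ) ^ 2)) * |s - s'| / (m : ℝ) ^ 2 := by field_simp; ring
        _ ≤ V * |s - s'| / (m : ℝ) ^ 2 := by gcongr
    · simp only [sub_self, norm_zero]; positivity

end TaskQF

open TaskQF in
theorem midq (φ : ℝ → ℂ) (hφ : Tst φ) (θ : ℝ) (hθ0 : 0 < θ) (hθ : θ < 14 / 27) :
    ∃ e0 : ℝ, 0 < e0 ∧ ∀ e : ℝ, 0 < e → e ≤ e0 → ∃ (C : ℝ) (q₁ : ℕ), 0 < C ∧
    ∀ q : ℕ, q₁ ≤ q → 1 ≤ q → ∀ Q ∈ Set.Icc (q : ℝ) (2 * (q : ℝ) ^ 2),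
    ∀ m g : ℕ, 1 ≤ m → 1 ≤ g → (m : ℝ) ≤ (q : ℝ) ^ θ →
    ∀ α β : ℕ → ℂ, (∀ n, ‖α n‖ ≤ 1) → (∀ n, ‖β n‖ ≤ 1) →
    ‖∑ p ∈ CP m, α p.1 * β p.2 * ∑ l ∈ nz (⌊4 * Q / q⌋₊ / g),
      ((1 / ((g : ℝ) * p.1 * p.2) : ℝ) : ℂ) * ∑ j ∈ nz ⌊(g : ℝ) * m ^ 2 * (q : ℝ) ^ e / Q⌋₊,
        Fh (gq φ Q ((g : ℝ) * ((q : ℝ) * l))) ((j : ℝ) / ((g : ℝ) * p.1 * p.2)) *
          KF.kf (j * ((q : ℤ) * l)) p.1 p.2‖ ≤ C * Q * (q : ℝ) ^ (3 * e) / g := by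
  obtain ⟨C1, hC1, hb0⟩ := gq_bd0 φ hφ
  obtain ⟨C2, hC2, hlip⟩ := gq_lip φ hφ
  have hx : 0 < 1 - 27 * θ / 14 := by linarith
  set x : ℝ := 1 - 27 * θ / 14 with hxdef
  set δ : ℝ := x / (2 * θ) with hδdef
  have hδ : 0 < δ := by positivity
  obtain ⟨C3, hC3, htri⟩ := tri_app_gen δ hδ
  set Cm : ℝ := C1 + C2 with hCm
  have hCm0 : 0 < Cm := by positivity
  refine ⟨x / 4, by positivity, ?_⟩
  intro e he hee
  obtain ⟨q₁, hq₁⟩ : ∃ q₁ : ℕ, ∀ q : ℕ, q₁ ≤ q → (4 : ℝ) ≤ (q : ℝ) ^ (x / 4) := by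
    have := (tendsto_rpow_atTop (by positivity : 0 < x / 4)).comp tendsto_natCast_atTop_atTop
    obtain ⟨q₁, h⟩ := Filter.eventually_atTop.mp (this.eventually_ge_atTop 4)
    exact ⟨q₁, fun q hq => h q hq⟩
  refine ⟨64 * Cm * C3, q₁, by positivity, ?_⟩
  intro q hqq hq1 Q hQ m g hm hg hmq α β hα hβ
  have hq1' : (1 : ℝ) ≤ q := by exact_mod_cast hq1
  have hq0 : (0 : ℝ) < q := by linarith
  have hQ0 : 0 < Q := lt_of_lt_of_le hq0 hQ.1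
  have hm1 : (1 : ℝ) ≤ m := by exact_mod_cast hm
  have hm0 : (0 : ℝ) < m := by linarith
  have hg0 : (0 : ℝ) < g := by exact_mod_cast hg
  set J : ℕ := ⌊(g : ℝ) * m ^ 2 * (q : ℝ) ^ e / Q⌋₊ with hJ
  set L : ℕ := ⌊4 * Q / q⌋₊ / g with hL
  have hqe1 : 1 ≤ (q : ℝ) ^ e := Real.one_le_rpow hq1' he.le
  have hqe0 : 0 < (q : ℝ) ^ e := by positivity
  have hJle : (J : ℝ) ≤ (g : ℝ) * m ^ 2 * (q : ℝ) ^ e / Q := Nat.floor_le (by positivity)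
  have hLle : (g : ℝ) * L ≤ 4 * Q / q := by
    have h1 : g * L ≤ ⌊4 * Q / q⌋₊ := Nat.mul_div_le _ _
    have h2 : ((g * L : ℕ) : ℝ) ≤ (⌊4 * Q / q⌋₊ : ℝ) := by exact_mod_cast h1
    rw [Nat.cast_mul] at h2
    exact h2.trans (Nat.floor_le (by positivity))
  have hJL : ((J * L : ℕ) : ℝ) * q ≤ 4 * (m : ℝ) ^ 2 * (q : ℝ) ^ e := by
    rw [Nat.cast_mul]
    have h1 : (J : ℝ) * L * q * (g * Q) ≤ ((g : ℝ) * m ^ 2 * (q : ℝ) ^ e / Q) * (4 * Q / q) * (q * Q) := by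
      calc (J : ℝ) * L * q * (g * Q) = J * (g * L) * (q * Q) := by ring
        _ ≤ ((g : ℝ) * m ^ 2 * (q : ℝ) ^ e / Q) * (4 * Q / q) * (q * Q) := by gcongr
    have h2 : ((g : ℝ) * m ^ 2 * (q : ℝ) ^ e / Q) * (4 * Q / q) * (q * Q) =
        4 * (m : ℝ) ^ 2 * (q : ℝ) ^ e * (g * Q) := by field_simp
    rw [h2] at h1
    exact le_of_mul_le_mul_right h1 (by positivity)
  set V : ℝ := 4 * (q : ℝ) ^ e with hV
  have hV1 : 1 ≤ V := by rw [hV]; linarith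
  -- range condition
  have hrange : ((J * L : ℕ) : ℝ) ≤ (m : ℝ) ^ (1 / 14 - δ) := by
    have h4 := hq₁ q hqq
    have hmm : (m : ℝ) ^ 2 = (m : ℝ) ^ (1 / 14 - δ) * (m : ℝ) ^ (27 / 14 + δ) := by
      rw [← Real.rpow_add hm0, ← Real.rpow_natCast]
      congr 1
      push_cast; ring
    have hmq2 : (m : ℝ) ^ (27 / 14 + δ) ≤ (q : ℝ) ^ (1 - x / 2) := by
      calc (m : ℝ) ^ (27 / 14 + δ) ≤ ((q : ℝ) ^ θ) ^ (27 / 14 + δ) :=
            Real.rpow_le_rpow hm0.le hmq (by positivity)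
        _ = (q : ℝ) ^ (1 - x / 2) := by
            rw [← Real.rpow_mul hq0.le]
            congr 1
            rw [hδdef, hxdef]; field_simp; ring
    have h5 : 4 * (m : ℝ) ^ (27 / 14 + δ) * (q : ℝ) ^ e ≤ q := by
      calc 4 * (m : ℝ) ^ (27 / 14 + δ) * (q : ℝ) ^ e
          ≤ (q : ℝ) ^ (x / 4) * (q : ℝ) ^ (1 - x / 2) * (q : ℝ) ^ (x / 4) := by
            gcongr
        _ = q := by
            rw [← Real.rpow_add hq0, ← Real.rpow_add hq0]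
            rw [show x / 4 + (1 - x / 2) + x / 4 = 1 by ring, Real.rpow_one]
    have h6 : ((J * L : ℕ) : ℝ) * q ≤ (m : ℝ) ^ (1 / 14 - δ) * q := by
      calc ((J * L : ℕ) : ℝ) * q ≤ 4 * (m : ℝ) ^ 2 * (q : ℝ) ^ e := hJL
        _ = (m : ℝ) ^ (1 / 14 - δ) * (4 * (m : ℝ) ^ (27 / 14 + δ) * (q : ℝ) ^ e) := by
            rw [hmm]; ring
        _ ≤ (m : ℝ) ^ (1 / 14 - δ) * q := by gcongr
    exact le_of_mul_le_mul_right h6 hq0
  have hVw : 1 + Q * J / (g * (m : ℝ) ^ 2) ≤ V := by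
    have h1 : Q * J / (g * (m : ℝ) ^ 2) ≤ (q : ℝ) ^ e := by
      rw [div_le_iff₀ (by positivity)]
      calc Q * J ≤ Q * ((g : ℝ) * m ^ 2 * (q : ℝ) ^ e / Q) := by gcongr
        _ = (q : ℝ) ^ e * (g * (m : ℝ) ^ 2) := by field_simp
    rw [hV]; linarith
  have hb0' : ∀ r w : ℝ, ‖Fh (gq φ Q r) w‖ ≤ Cm * Q := fun r w =>
    (hb0 Q hQ0 r w).trans (by rw [hCm]; nlinarith)
  have hlip' : ∀ r w w' : ℝ, ‖Fh (gq φ Q r) w - Fh (gq φ Q r) w'‖ ≤ Cm * Q ^ 2 * |w - w'| :=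
    fun r w w' => (hlip Q hQ0 r w w').trans (by rw [hCm]; gcongr; linarith)
  -- one sign class
  have key : ∀ k σ : ℤ, (k = q ∨ k = -q) → (σ = 1 ∨ σ = -1) →
      ‖∑ p ∈ CP m, α p.1 * β p.2 * ∑ j ∈ Icc 1 J, ∑ l ∈ Icc 1 L,
        wt φ Q Cm m g J k σ j l ((p.1 : ℝ) * p.2) * KF.kf ((k * σ) * ((j : ℤ) * l)) p.1 p.2‖ ≤
        C3 * V ^ 2 * (m : ℝ) ^ 2 := by
    intro k σ hk hσ
    have hσ1 : |(σ : ℝ)| = 1 := by rcases hσ with h | h <;> rw [h] <;> norm_num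
    have hk1 : |(k : ℝ)| = q := by
      rcases hk with h | h <;> rw [h] <;> simp
    have hkσ : |((k * σ : ℤ) : ℝ)| = q := by push_cast; rw [abs_mul, hσ1, hk1, mul_one]
    apply htri m J L hm hrange V hV1 _ (fun j l => wei_wt φ Q Cm V m g J k σ hσ1 hQ0 hCm0 hm hg
      hb0' hlip' hVw j l) (k * σ) _ _ α β hα hβ
    · intro h0
      rw [h0] at hkσ
      simp at hkσ
      linarith
    · rw [hkσ]
      calc (q : ℝ) * ((J * L : ℕ) : ℝ) = ((J * L : ℕ) : ℝ) * q := by ring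
        _ ≤ 4 * (m : ℝ) ^ 2 * (q : ℝ) ^ e := hJL
        _ = V * (m : ℝ) ^ 2 := by rw [hV]; ring
  -- decomposition
  have hdec : ∑ p ∈ CP m, α p.1 * β p.2 * ∑ l ∈ nz L,
      ((1 / ((g : ℝ) * p.1 * p.2) : ℝ) : ℂ) * ∑ j ∈ nz J,
        Fh (gq φ Q ((g : ℝ) * ((q : ℝ) * l))) ((j : ℝ) / ((g : ℝ) * p.1 * p.2)) *
          KF.kf (j * ((q : ℤ) * l)) p.1 p.2 =
      ((Cm * Q / (g * (m : ℝ) ^ 2) : ℝ) : ℂ) *
      (((∑ p ∈ CP m, α p.1 * β p.2 * ∑ j ∈ Icc 1 J, ∑ l ∈ Icc 1 L,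
        wt φ Q Cm m g J q 1 j l ((p.1 : ℝ) * p.2) * KF.kf (((q : ℤ) * 1) * ((j : ℤ) * l)) p.1 p.2) +
       (∑ p ∈ CP m, α p.1 * β p.2 * ∑ j ∈ Icc 1 J, ∑ l ∈ Icc 1 L,
        wt φ Q Cm m g J q (-1) j l ((p.1 : ℝ) * p.2) *
          KF.kf (((q : ℤ) * (-1)) * ((j : ℤ) * l)) p.1 p.2)) +
      ((∑ p ∈ CP m, α p.1 * β p.2 * ∑ j ∈ Icc 1 J, ∑ l ∈ Icc 1 L,
        wt φ Q Cm m g J (-q) 1 j l ((p.1 : ℝ) * p.2) *
          KF.kf ((-(q : ℤ) * 1) * ((j : ℤ) * l)) p.1 p.2) +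
       (∑ p ∈ CP m, α p.1 * β p.2 * ∑ j ∈ Icc 1 J, ∑ l ∈ Icc 1 L,
        wt φ Q Cm m g J (-q) (-1) j l ((p.1 : ℝ) * p.2) *
          KF.kf ((-(q : ℤ) * (-1)) * ((j : ℤ) * l)) p.1 p.2))) := by
    rw [← sum_add_distrib, ← sum_add_distrib, ← sum_add_distrib, mul_sum]
    apply sum_congr rfl
    intro p hp
    have hp1 : (0 : ℝ) < p.1 := by
      simp only [CP, mem_filter, mem_product, mem_Ioc] at hp
      exact_mod_cast (by omega : 0 < p.1)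
    have hp2 : (0 : ℝ) < p.2 := by
      simp only [CP, mem_filter, mem_product, mem_Ioc] at hp
      exact_mod_cast (by omega : 0 < p.2)
    rw [← mul_add, ← mul_add, ← mul_add, mul_left_comm]
    congr 1
    -- unified term identity
    have hterm : ∀ (k τ : ℤ) (c : ℤ), (k : ℝ) = (q : ℝ) * (c : ℝ) → k = q * c → ∀ j ∈ Icc 1 J,
        ∀ l : ℕ, ((1 / ((g : ℝ) * p.1 * p.2) : ℝ) : ℂ) *
        (Fh (gq φ Q ((g : ℝ) * ((q : ℝ) * ((c * (l : ℤ) : ℤ) : ℝ))))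
          (((τ * (j : ℤ) : ℤ) : ℝ) / ((g : ℝ) * p.1 * p.2)) *
          KF.kf ((τ * (j : ℤ)) * ((q : ℤ) * (c * (l : ℤ)))) p.1 p.2) =
        ((Cm * Q / (g * (m : ℝ) ^ 2) : ℝ) : ℂ) *
          (wt φ Q Cm m g J k τ j l ((p.1 : ℝ) * p.2) * KF.kf ((k * τ) * ((j : ℤ) * l)) p.1 p.2) := by
      intro k τ c hk hk' j hj l
      have hjJ : j ≤ J := (mem_Icc.mp hj).2
      unfold wt
      rw [if_pos hjJ]
      have e1 : (g : ℝ) * ((q : ℝ) * ((c * (l : ℤ) : ℤ) : ℝ)) = (g : ℝ) * ((k : ℝ) * l) := by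
        rw [hk]; push_cast; ring
      have e2 : ((τ * (j : ℤ) : ℤ) : ℝ) / ((g : ℝ) * p.1 * p.2) =
          ((τ : ℝ) * j) / ((g : ℝ) * ((p.1 : ℝ) * p.2)) := by push_cast; ring
      have e3 : (τ * (j : ℤ)) * ((q : ℤ) * (c * (l : ℤ))) = (k * τ) * ((j : ℤ) * l) := by
        rw [hk']; ring
      rw [e1, e2, e3]
      have e4 : (1 / ((g : ℝ) * p.1 * p.2) : ℝ) = (Cm * Q / (g * (m : ℝ) ^ 2)) *
          (((m : ℝ) ^ 2 / ((p.1 : ℝ) * p.2)) * (Cm * Q)⁻¹) := by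
        field_simp
      rw [e4]
      push_cast
      ring
    rw [sum_nz2 L J _ (fun l j => Fh (gq φ Q ((g : ℝ) * ((q : ℝ) * l)))
      ((j : ℝ) / ((g : ℝ) * p.1 * p.2)) * KF.kf (j * ((q : ℤ) * l)) p.1 p.2)]
    rw [mul_add, mul_add, mul_add]
    congr 1
    · congr 1
      · simp only [mul_sum]
        apply sum_congr rfl; intro j hj
        apply sum_congr rfl; intro l _
        exact hterm q 1 1 (by push_cast; ring) (by ring) j hj l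
      · simp only [mul_sum]
        apply sum_congr rfl; intro j hj
        apply sum_congr rfl; intro l _
        exact hterm q (-1) 1 (by push_cast; ring) (by ring) j hj l
    · congr 1
      · simp only [mul_sum]
        apply sum_congr rfl; intro j hj
        apply sum_congr rfl; intro l _
        exact hterm (-q) 1 (-1) (by push_cast; ring) (by ring) j hj l
      · simp only [mul_sum]
        apply sum_congr rfl; intro j hj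
        apply sum_congr rfl; intro l _
        exact hterm (-q) (-1) (-1) (by push_cast; ring) (by ring) j hj l
  rw [hdec, norm_mul, Complex.norm_real, Real.norm_of_nonneg (by positivity)]
  have k1 := key q 1 (Or.inl rfl) (Or.inl rfl)
  have k2 := key q (-1) (Or.inl rfl) (Or.inr rfl)
  have k3 := key (-q) 1 (Or.inr rfl) (Or.inl rfl)
  have k4 := key (-q) (-1) (Or.inr rfl) (Or.inr rfl)
  have hV2 : V ^ 2 ≤ 16 * (q : ℝ) ^ (3 * e) := by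
    rw [hV, mul_pow, ← Real.rpow_natCast ((q : ℝ) ^ e) 2, ← Real.rpow_mul hq0.le]
    have : (q : ℝ) ^ (e * (2 : ℕ)) ≤ (q : ℝ) ^ (3 * e) :=
      Real.rpow_le_rpow_of_exponent_le hq1' (by push_cast; linarith)
    norm_num at this ⊢
    linarith
  calc Cm * Q / (g * (m : ℝ) ^ 2) * _ ≤ Cm * Q / (g * (m : ℝ) ^ 2) *
        (C3 * V ^ 2 * (m : ℝ) ^ 2 + C3 * V ^ 2 * (m : ℝ) ^ 2 +
          (C3 * V ^ 2 * (m : ℝ) ^ 2 + C3 * V ^ 2 * (m : ℝ) ^ 2)) := by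
        gcongr
        refine (norm_add_le _ _).trans (add_le_add ((norm_add_le _ _).trans (add_le_add k1 k2))
          ((norm_add_le _ _).trans (add_le_add k3 k4)))
    _ = 4 * Cm * C3 * Q * V ^ 2 / g := by field_simp; ring
    _ ≤ 4 * Cm * C3 * Q * (16 * (q : ℝ) ^ (3 * e)) / g := by gcongr
    _ = 64 * Cm * C3 * Q * (q : ℝ) ^ (3 * e) / g := by ring

end Pool.Agent.H442R2.TSM
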