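import Pool.Agent.H442R2.TSM.QDefs
import Pool.Agent.H353R2.Z2

namespace Pool.Agent.H442R2.TSM

open Finset

namespace TaskQA

theorem sum_chi (q : ℕ) [NeZero q] (hq : q.Prime) (a b : ZMod q) :
    ∑ χ : DirichletCharacter ℂ q, χ a * (starRingEnd ℂ) (χ b) =
      if a = b ∧ a ≠ 0 then (q : ℂ) - 1 else 0 := by
  have : Fact q.Prime := ⟨hq⟩
  have h1 : ∀ χ : DirichletCharacter ℂ q, χ a * (starRingEnd ℂ) (χ b) = χ b⁻¹ * χ a := by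
    intro χ
    have h2 : (starRingEnd ℂ) (χ b) = χ b⁻¹ := by
      rw [← MulChar.inv_apply' χ b, ← MulChar.star_apply' χ b]
      rfl
    rw [h2, mul_comm]
  simp_rw [h1]
  by_cases hb : b = 0
  · subst hb
    rw [if_neg (by rintro ⟨h2, h3⟩; exact h3 h2)]
    refine Finset.sum_eq_zero fun χ _ => ?_
    rw [inv_zero, MulChar.map_zero, zero_mul]
  · have hu : IsUnit b := isUnit_iff_ne_zero.mpr hb
    have h3 := DirichletCharacter.sum_char_inv_mul_char_eq (R := ℂ) hu a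
    rw [h3, Nat.totient_prime hq]
    by_cases hab : a = b
    · subst hab
      rw [if_pos rfl, if_pos ⟨rfl, hb⟩, Nat.cast_sub hq.one_le, Nat.cast_one]
    · rw [if_neg (fun h => hab h.symm), if_neg (fun h => hab h.1)]

theorem sq_Xs {q : ℕ} (χ : DirichletCharacter ℂ q) (c : ℕ → ℂ) (K : ℕ) :
    ((‖Xs χ c K‖ ^ 2 : ℝ) : ℂ) = ∑ n₁ ∈ Icc 1 K, ∑ n₂ ∈ Icc 1 K,
      c n₁ * (starRingEnd ℂ) (c n₂) *
        (χ (n₁ : ZMod q) * (starRingEnd ℂ) (χ (n₂ : ZMod q))) := by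
  have h1 : ((‖Xs χ c K‖ ^ 2 : ℝ) : ℂ) = Xs χ c K * (starRingEnd ℂ) (Xs χ c K) := by
    rw [Complex.mul_conj, Complex.normSq_eq_norm_sq]
  rw [h1, Xs, map_sum, Finset.sum_mul_sum]
  refine Finset.sum_congr rfl fun n₁ _ => Finset.sum_congr rfl fun n₂ _ => ?_
  rw [map_mul]
  ring

theorem Xs_one (q : ℕ) (hq : q.Prime) (c : ℕ → ℂ) (K : ℕ) :
    Xs (1 : DirichletCharacter ℂ q) c K =
      ∑ n ∈ (Icc 1 K).filter (fun n : ℕ => (n : ZMod q) ≠ 0), c n := by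
  have : Fact q.Prime := ⟨hq⟩
  rw [Xs, Finset.sum_filter]
  refine Finset.sum_congr rfl fun n _ => ?_
  by_cases hn : (n : ZMod q) = 0
  · rw [if_neg (by simpa using hn), hn, MulChar.map_zero, mul_zero]
  · rw [if_pos hn, MulChar.one_apply (isUnit_iff_ne_zero.mpr hn), mul_one]

theorem sum_NP (q : ℕ) [NeZero q] (f : DirichletCharacter ℂ q → ℝ) :
    ∑ χ ∈ NP q, f χ = ∑ χ, f χ - f 1 := by
  unfold NP
  exact @Finset.sum_erase_eq_sub _ _ _ _ (Classical.decEq (DirichletCharacter ℂ q)) _ _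
    (Finset.mem_univ _)

end TaskQA

open TaskQA in
theorem ort (q : ℕ) [NeZero q] (hq : q.Prime) (c : ℕ → ℂ) (K : ℕ) :
    ((∑ χ ∈ NP q, ‖Xs χ c K‖ ^ 2 : ℝ) : ℂ) =
      ((q : ℂ) - 1) * ∑ n₁ ∈ Icc 1 K, ∑ n₂ ∈ Icc 1 K,
        (if (n₁ : ZMod q) = (n₂ : ZMod q) ∧ (n₁ : ZMod q) ≠ 0 then
          c n₁ * (starRingEnd ℂ) (c n₂) else 0) -
      ((‖∑ n ∈ (Icc 1 K).filter (fun n : ℕ => (n : ZMod q) ≠ 0), c n‖ ^ 2 : ℝ) : ℂ) := by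
  rw [sum_NP, Xs_one q hq, Complex.ofReal_sub, Complex.ofReal_sum]
  congr 1
  simp_rw [sq_Xs]
  rw [Finset.sum_comm, Finset.mul_sum]
  refine Finset.sum_congr rfl fun n₁ _ => ?_
  rw [Finset.sum_comm, Finset.mul_sum]
  refine Finset.sum_congr rfl fun n₂ _ => ?_
  rw [← Finset.mul_sum, sum_chi q hq]
  split_ifs <;> ring


namespace TaskQA

/-- the coefficients extended to the integers -/
noncomputable def cZ (φ : ℝ → ℂ) (a : ℕ → ℂ) (M : ℕ) (Q : ℝ) (r : ℤ) : ℂ :=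
  (∑ m ∈ Ioc M (2 * M), if (m : ℤ) ∣ r then a m else 0) * φ ((r : ℝ) / Q)

theorem cZ_nat (φ : ℝ → ℂ) (a : ℕ → ℂ) (M : ℕ) (Q : ℝ) (n : ℕ) :
    cZ φ a M Q n = cq φ a M Q n := by
  unfold cZ cq bq
  rw [Finset.sum_filter]
  simp only [Int.natCast_dvd_natCast, Int.cast_natCast]

theorem innq_sum (φ : ℝ → ℂ) (a : ℕ → ℂ) (M : ℕ) (Q : ℝ) (r : ℤ) :
    ∑ m₁ ∈ Ioc M (2 * M), ∑ m₂ ∈ Ioc M (2 * M), a m₁ * (starRingEnd ℂ) (a m₂) *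
      innq φ Q m₁ m₂ r =
    ∑ n ∈ Icc 1 ⌊4 * Q⌋₊, cq φ a M Q n * (starRingEnd ℂ) (cZ φ a M Q ((n : ℤ) - r)) := by
  unfold innq
  simp_rw [Finset.sum_filter, Finset.mul_sum]
  have h1 : ∀ m₁ : ℕ, (∑ m₂ ∈ Ioc M (2 * M), ∑ n ∈ Icc 1 ⌊4 * Q⌋₊,
      a m₁ * (starRingEnd ℂ) (a m₂) * (if m₁ ∣ n ∧ (m₂ : ℤ) ∣ (n : ℤ) - r then
        gq φ Q (r : ℝ) (n : ℝ) else 0)) = ∑ n ∈ Icc 1 ⌊4 * Q⌋₊, ∑ m₂ ∈ Ioc M (2 * M),
      a m₁ * (starRingEnd ℂ) (a m₂) * (if m₁ ∣ n ∧ (m₂ : ℤ) ∣ (n : ℤ) - r then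
        gq φ Q (r : ℝ) (n : ℝ) else 0) := fun m₁ => Finset.sum_comm
  simp_rw [h1]
  rw [Finset.sum_comm]
  refine Finset.sum_congr rfl fun n _ => ?_
  unfold cq bq cZ
  rw [Finset.sum_filter, map_mul, map_sum]
  have h2 : ∀ (x y u v : ℂ), x * u * (y * v) = (x * y) * (u * v) := fun x y u v => by ring
  rw [h2, Finset.sum_mul_sum, Finset.sum_mul]
  refine Finset.sum_congr rfl fun m₁ _ => ?_
  rw [Finset.sum_mul]
  refine Finset.sum_congr rfl fun m₂ _ => ?_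
  have h3 : gq φ Q (r : ℝ) (n : ℝ) = φ ((n : ℝ) / Q) *
      (starRingEnd ℂ) (φ ((((n : ℤ) - r : ℤ) : ℝ) / Q)) := by
    unfold gq
    push_cast
    rfl
  rw [← h3]
  by_cases h4 : m₁ ∣ n
  · by_cases h5 : (m₂ : ℤ) ∣ (n : ℤ) - r
    · rw [if_pos ⟨h4, h5⟩, if_pos h4, if_pos h5]
    · rw [if_neg (fun h => h5 h.2), if_neg h5, map_zero]
      ring
  · rw [if_neg (fun h => h4 h.1), if_neg h4]
    ring

theorem SSq_eq (φ : ℝ → ℂ) (a : ℕ → ℂ) (M : ℕ) (Q : ℝ) (q L : ℕ) :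
    SSq φ a M Q q L = ∑ n ∈ Icc 1 ⌊4 * Q⌋₊, cq φ a M Q n *
      (starRingEnd ℂ) (∑ l ∈ nz L, cZ φ a M Q ((n : ℤ) - q * l)) := by
  have h1 : SSq φ a M Q q L = ∑ l ∈ nz L, ∑ m₁ ∈ Ioc M (2 * M), ∑ m₂ ∈ Ioc M (2 * M),
      a m₁ * (starRingEnd ℂ) (a m₂) * innq φ Q m₁ m₂ (q * l) := by
    unfold SSq
    simp_rw [Finset.mul_sum]
    have h1 : ∀ m₁ : ℕ, (∑ m₂ ∈ Ioc M (2 * M), ∑ l ∈ nz L,
        a m₁ * (starRingEnd ℂ) (a m₂) * innq φ Q m₁ m₂ (q * l)) = ∑ l ∈ nz L,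
        ∑ m₂ ∈ Ioc M (2 * M), a m₁ * (starRingEnd ℂ) (a m₂) * innq φ Q m₁ m₂ (q * l) :=
      fun m₁ => Finset.sum_comm
    simp_rw [h1]
    rw [Finset.sum_comm]
  rw [h1]
  simp_rw [innq_sum]
  rw [Finset.sum_comm]
  refine Finset.sum_congr rfl fun n _ => ?_
  rw [map_sum, Finset.mul_sum]

theorem shift (F : ℤ → ℂ) (K q L : ℕ) (hq : 0 < q) (hK : K < q * (L + 1))
    (hF : ∀ r, F r ≠ 0 → 1 ≤ r ∧ r ≤ K) (n : ℕ) (hn : n ∈ Icc 1 K) :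
    ∑ l ∈ nz L, F ((n : ℤ) - q * l) =
      ∑ n₂ ∈ Icc 1 K, if (n : ZMod q) = (n₂ : ZMod q) ∧ n ≠ n₂ then F n₂ else 0 := by
  rw [mem_Icc] at hn
  have h1 : ∑ l ∈ nz L, F ((n : ℤ) - q * l) =
      ∑ l ∈ (nz L).filter (fun l => 1 ≤ (n : ℤ) - q * l ∧ (n : ℤ) - q * l ≤ K),
        F ((n : ℤ) - q * l) := by
    rw [Finset.sum_filter_of_ne]
    intro l _ hl
    exact hF _ hl
  rw [h1, ← Finset.sum_filter]
  have hq0 : (0 : ℤ) < q := by exact_mod_cast hq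
  refine Finset.sum_nbij' (fun l => ((n : ℤ) - q * l).toNat) (fun n₂ => ((n : ℤ) - n₂) / q)
    ?_ ?_ ?_ ?_ ?_
  · intro l hl
    rw [mem_filter, nz, mem_erase, mem_Icc] at hl
    obtain ⟨⟨hl0, hl1⟩, hl2, hl3⟩ := hl
    rw [mem_filter, mem_Icc]
    refine ⟨⟨by omega, by omega⟩, ?_, ?_⟩
    · have e1 : ((((n : ℤ) - q * l).toNat : ℕ) : ZMod q) = ((((n : ℤ) - q * l) : ℤ) : ZMod q) := by
        have e2 : (((((n : ℤ) - q * l).toNat : ℕ) : ℤ) : ZMod q) =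
            ((((n : ℤ) - q * l) : ℤ) : ZMod q) := by
          rw [Int.toNat_of_nonneg (by omega)]
        rw [← e2]
        push_cast
        rfl
      rw [e1]
      push_cast
      simp
    · intro h
      have e1 : (n : ℤ) = (n : ℤ) - q * l := by
        conv_lhs => rw [h]
        rw [Int.toNat_of_nonneg (by omega)]
      have e2 : (q : ℤ) * l = 0 := by linarith
      rcases mul_eq_zero.mp e2 with e3 | e3
      · omega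
      · exact hl0 e3
  · intro n₂ hn₂
    rw [mem_filter, mem_Icc] at hn₂
    obtain ⟨⟨h2, h3⟩, h4, h5⟩ := hn₂
    have hd : (q : ℤ) ∣ (n : ℤ) - n₂ := by
      rw [← ZMod.intCast_zmod_eq_zero_iff_dvd]
      push_cast
      rw [h4, sub_self]
    obtain ⟨t, ht⟩ := hd
    have ht2 : ((n : ℤ) - n₂) / q = t := by
      rw [ht]
      exact Int.mul_ediv_cancel_left _ hq0.ne'
    rw [mem_filter, nz, mem_erase, mem_Icc, ht2]
    have hKZ : (K : ℤ) < q * (L + 1) := by exact_mod_cast hK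
    refine ⟨⟨?_, ?_, ?_⟩, ?_, ?_⟩
    · rintro rfl
      apply h5
      omega
    · by_contra hlt
      push Not at hlt
      have : t ≤ -(L + 1 : ℤ) := by omega
      nlinarith
    · by_contra hlt
      push Not at hlt
      have : (L + 1 : ℤ) ≤ t := by omega
      nlinarith
    · rw [← ht]; omega
    · rw [← ht]; omega
  · intro l hl
    rw [mem_filter, nz, mem_erase, mem_Icc] at hl
    obtain ⟨⟨hl0, hl1⟩, hl2, hl3⟩ := hl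
    show ((n : ℤ) - (((n : ℤ) - q * l).toNat : ℤ)) / q = l
    rw [Int.toNat_of_nonneg (by omega)]
    have : (n : ℤ) - (n - q * l) = q * l := by ring
    rw [this]
    exact Int.mul_ediv_cancel_left _ hq0.ne'
  · intro n₂ hn₂
    rw [mem_filter, mem_Icc] at hn₂
    obtain ⟨⟨h2, h3⟩, h4, h5⟩ := hn₂
    have hd : (q : ℤ) ∣ (n : ℤ) - n₂ := by
      rw [← ZMod.intCast_zmod_eq_zero_iff_dvd]
      push_cast
      rw [h4, sub_self]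
    show ((n : ℤ) - q * (((n : ℤ) - n₂) / q)).toNat = n₂
    rw [Int.mul_ediv_cancel' hd]
    omega
  · intro l hl
    rw [mem_filter, nz, mem_erase, mem_Icc] at hl
    obtain ⟨⟨hl0, hl1⟩, hl2, hl3⟩ := hl
    show F ((n : ℤ) - q * l) = F ((((n : ℤ) - q * l).toNat : ℕ) : ℤ)
    rw [Int.toNat_of_nonneg (by omega)]

end TaskQA

namespace TaskQA

theorem tst_bd (φ : ℝ → ℂ) (hφ : Tst φ) : ∃ C : ℝ, 0 < C ∧ ∀ u, ‖φ u‖ ≤ C := by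
  have hc : Continuous φ := hφ.smooth.continuous
  obtain ⟨C, hC⟩ := (isCompact_Icc (a := (1 : ℝ)) (b := 4)).exists_bound_of_continuousOn
    hc.continuousOn
  refine ⟨max C 1, lt_of_lt_of_le one_pos (le_max_right _ _), fun u => ?_⟩
  by_cases hu : u ∈ Set.Icc (1 : ℝ) 4
  · exact (hC u hu).trans (le_max_left _ _)
  · rw [hφ.supp u hu, norm_zero]
    exact (zero_le_one).trans (le_max_right _ _)

theorem bq_le (a : ℕ → ℂ) (ha : ∀ m, ‖a m‖ ≤ 1) (M n : ℕ) (hn : 1 ≤ n) :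
    ‖bq a M n‖ ≤ n.divisors.card := by
  unfold bq
  calc ‖∑ m ∈ (Ioc M (2 * M)).filter (fun m => m ∣ n), a m‖
      ≤ ∑ m ∈ (Ioc M (2 * M)).filter (fun m => m ∣ n), ‖a m‖ := norm_sum_le _ _
    _ ≤ ∑ m ∈ (Ioc M (2 * M)).filter (fun m => m ∣ n), (1 : ℝ) :=
        Finset.sum_le_sum fun m _ => ha m
    _ = ((Ioc M (2 * M)).filter (fun m => m ∣ n)).card := by simp
    _ ≤ n.divisors.card := by
        have : ((Ioc M (2 * M)).filter (fun m => m ∣ n)) ⊆ n.divisors := by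
          intro m hm
          rw [Nat.mem_divisors]
          exact ⟨(Finset.mem_filter.1 hm).2, by omega⟩
        exact_mod_cast Finset.card_le_card this

/-- pointwise bound -/
theorem cq_le (φ : ℝ → ℂ) (hφ : Tst φ) (e : ℝ) (he : 0 < e) : ∃ C : ℝ, 0 < C ∧
    ∀ (q : ℕ), 1 ≤ q → ∀ Q ∈ Set.Icc (q : ℝ) (2 * (q : ℝ) ^ 2), ∀ M : ℕ,
    ∀ a : ℕ → ℂ, (∀ m, ‖a m‖ ≤ 1) → ∀ n ∈ Icc 1 ⌊4 * Q⌋₊,
    ‖cq φ a M Q n‖ ≤ C * (q : ℝ) ^ (e / 8) := by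
  obtain ⟨Cf, hCf, hf⟩ := tst_bd φ hφ
  obtain ⟨Ct, hCt, ht⟩ := H353.divisor_bound_real (e / 16) (by positivity)
  refine ⟨Ct * (8 : ℝ) ^ (e / 16) * Cf, by positivity, ?_⟩
  intro q hq Q hQ M a ha n hn
  rw [mem_Icc] at hn
  have hq1 : (1 : ℝ) ≤ q := by exact_mod_cast hq
  have hq0 : (0 : ℝ) < q := by linarith
  have hQ0 : 0 < Q := lt_of_lt_of_le hq0 hQ.1
  have hn8 : (n : ℝ) ≤ 8 * (q : ℝ) ^ 2 := by
    have h1 : (n : ℝ) ≤ 4 * Q := (Nat.le_floor_iff (by positivity)).mp hn.2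
    have h2 := hQ.2
    linarith
  have h1 : ‖bq a M n‖ ≤ Ct * (8 : ℝ) ^ (e / 16) * (q : ℝ) ^ (e / 8) := by
    calc ‖bq a M n‖ ≤ n.divisors.card := bq_le a ha M n hn.1
      _ ≤ Ct * (n : ℝ) ^ (e / 16) := ht n (by omega)
      _ ≤ Ct * (8 * (q : ℝ) ^ 2) ^ (e / 16) := by
          apply mul_le_mul_of_nonneg_left _ hCt.le
          exact Real.rpow_le_rpow (by positivity) hn8 (by positivity)
      _ = Ct * (8 : ℝ) ^ (e / 16) * (q : ℝ) ^ (e / 8) := by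
          rw [Real.mul_rpow (by positivity) (by positivity), ← Real.rpow_natCast,
            ← Real.rpow_mul hq0.le]
          have : ((2 : ℕ) : ℝ) * (e / 16) = e / 8 := by push_cast; ring
          rw [this]
          ring
  unfold cq
  rw [norm_mul]
  calc ‖bq a M n‖ * ‖φ ((n : ℝ) / Q)‖ ≤ (Ct * (8 : ℝ) ^ (e / 16) * (q : ℝ) ^ (e / 8)) * Cf :=
        mul_le_mul h1 (hf _) (norm_nonneg _) (by positivity)
    _ = _ := by ring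

theorem cZ_supp (φ : ℝ → ℂ) (hφ : Tst φ) (a : ℕ → ℂ) (M : ℕ) (Q : ℝ) (hQ : 0 < Q) (r : ℤ)
    (h : cZ φ a M Q r ≠ 0) : 1 ≤ r ∧ r ≤ (⌊4 * Q⌋₊ : ℕ) := by
  have h1 : ((r : ℝ) / Q) ∈ Set.Icc (1 : ℝ) 4 := by
    by_contra h2
    apply h
    unfold cZ
    rw [hφ.supp _ h2, mul_zero]
  have h2 : Q ≤ r := by
    have := h1.1
    rwa [le_div_iff₀ hQ, one_mul] at this
  have h3 : (r : ℝ) ≤ 4 * Q := by
    have := h1.2
    rwa [div_le_iff₀ hQ] at this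
  have h4 : 0 < r := by
    have : (0 : ℝ) < r := by linarith
    exact_mod_cast this
  refine ⟨h4, ?_⟩
  have h5 : r.toNat ≤ ⌊4 * Q⌋₊ := by
    rw [Nat.le_floor_iff (by positivity)]
    have h6 : ((r.toNat : ℕ) : ℝ) = (r : ℝ) := by
      have : ((r.toNat : ℕ) : ℤ) = r := Int.toNat_of_nonneg h4.le
      exact_mod_cast this
    rw [h6]
    exact h3
  omega

theorem card_mul (q K : ℕ) :
    ((Icc 1 K).filter (fun n : ℕ => (n : ZMod q) = 0)).card = K / q := by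
  rw [← Nat.Ioc_filter_dvd_card_eq_div K q]
  congr 1
  ext n
  rw [mem_filter, mem_filter, mem_Icc, mem_Ioc, ZMod.natCast_eq_zero_iff]
  rfl

/-- the algebraic identity -/
theorem key (φ : ℝ → ℂ) (hφ : Tst φ) (q : ℕ) [NeZero q] (hq : q.Prime) (Q : ℝ)
    (hQ : (q : ℝ) ≤ Q) (M : ℕ) (a : ℕ → ℂ) :
    ∑ n₁ ∈ Icc 1 ⌊4 * Q⌋₊, ∑ n₂ ∈ Icc 1 ⌊4 * Q⌋₊,
        (if (n₁ : ZMod q) = (n₂ : ZMod q) ∧ (n₁ : ZMod q) ≠ 0 then
          cq φ a M Q n₁ * (starRingEnd ℂ) (cq φ a M Q n₂) else 0) =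
      ((∑ n ∈ Icc 1 ⌊4 * Q⌋₊, ‖cq φ a M Q n‖ ^ 2 : ℝ) : ℂ) + SSq φ a M Q q ⌊4 * Q / q⌋₊ -
      ((‖∑ n ∈ (Icc 1 ⌊4 * Q⌋₊).filter (fun n : ℕ => (n : ZMod q) = 0),
        cq φ a M Q n‖ ^ 2 : ℝ) : ℂ) := by
  have hq0 : (0 : ℝ) < q := by exact_mod_cast hq.pos
  have hQ0 : 0 < Q := lt_of_lt_of_le hq0 hQ
  set K := ⌊4 * Q⌋₊ with hK
  set c : ℕ → ℂ := cq φ a M Q with hc
  have hKq : K < q * (⌊4 * Q / q⌋₊ + 1) := by
    have h1 : (K : ℝ) ≤ 4 * Q := Nat.floor_le (by positivity)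
    have h2 : 4 * Q / q < ⌊4 * Q / q⌋₊ + 1 := Nat.lt_floor_add_one _
    rw [div_lt_iff₀ hq0] at h2
    have h3 : (K : ℝ) < ((q * (⌊4 * Q / q⌋₊ + 1) : ℕ) : ℝ) := by
      push_cast
      linarith
    exact_mod_cast h3
  have hS : SSq φ a M Q q ⌊4 * Q / q⌋₊ = ∑ n₁ ∈ Icc 1 K, ∑ n₂ ∈ Icc 1 K,
      (if (n₁ : ZMod q) = (n₂ : ZMod q) ∧ n₁ ≠ n₂ then c n₁ * (starRingEnd ℂ) (c n₂) else 0) := by
    rw [SSq_eq]
    refine Finset.sum_congr rfl fun n hn => ?_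
    rw [shift (cZ φ a M Q) K q ⌊4 * Q / q⌋₊ hq.pos hKq
      (fun r hr => cZ_supp φ hφ a M Q hQ0 r hr) n hn, map_sum, Finset.mul_sum]
    refine Finset.sum_congr rfl fun n₂ _ => ?_
    split_ifs
    · rw [cZ_nat]
    · rw [map_zero, mul_zero]
  have hD : ((∑ n ∈ Icc 1 K, ‖c n‖ ^ 2 : ℝ) : ℂ) = ∑ n₁ ∈ Icc 1 K, ∑ n₂ ∈ Icc 1 K,
      (if n₁ = n₂ then c n₁ * (starRingEnd ℂ) (c n₂) else 0) := by
    rw [Complex.ofReal_sum]
    refine Finset.sum_congr rfl fun n hn => ?_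
    rw [Finset.sum_ite_eq, if_pos hn, Complex.mul_conj, Complex.normSq_eq_norm_sq]
  have hB : ((‖∑ n ∈ (Icc 1 K).filter (fun n : ℕ => (n : ZMod q) = 0), c n‖ ^ 2 : ℝ) : ℂ) =
      ∑ n₁ ∈ Icc 1 K, ∑ n₂ ∈ Icc 1 K,
      (if (n₁ : ZMod q) = 0 ∧ (n₂ : ZMod q) = 0 then c n₁ * (starRingEnd ℂ) (c n₂) else 0) := by
    rw [← Complex.normSq_eq_norm_sq, ← Complex.mul_conj, map_sum, Finset.sum_mul_sum,
      Finset.sum_filter]
    refine Finset.sum_congr rfl fun n₁ _ => ?_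
    by_cases h1 : (n₁ : ZMod q) = 0
    · rw [if_pos h1, Finset.sum_filter]
      refine Finset.sum_congr rfl fun n₂ _ => ?_
      by_cases h2 : (n₂ : ZMod q) = 0
      · rw [if_pos h2, if_pos ⟨h1, h2⟩]
      · rw [if_neg h2, if_neg (fun h => h2 h.2)]
    · rw [if_neg h1]
      refine (Finset.sum_eq_zero fun n₂ _ => ?_).symm
      rw [if_neg (fun h => h1 h.1)]
  rw [hS, hD, hB, ← Finset.sum_add_distrib, ← Finset.sum_sub_distrib]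
  refine Finset.sum_congr rfl fun n₁ _ => ?_
  rw [← Finset.sum_add_distrib, ← Finset.sum_sub_distrib]
  refine Finset.sum_congr rfl fun n₂ _ => ?_
  by_cases h1 : n₁ = n₂
  · subst h1
    by_cases h2 : (n₁ : ZMod q) = 0
    · simp [h2]
    · simp [h2]
  · by_cases h2 : (n₁ : ZMod q) = (n₂ : ZMod q)
    · by_cases h3 : (n₁ : ZMod q) = 0
      · have h4 : (n₂ : ZMod q) = 0 := by rw [← h2, h3]
        rw [if_neg (fun h => h.2 h3), if_neg h1, if_pos ⟨h2, h1⟩, if_pos ⟨h3, h4⟩]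
        ring
      · rw [if_pos ⟨h2, h3⟩, if_neg h1, if_pos ⟨h2, h1⟩, if_neg (fun h => h3 h.1)]
        ring
    · rw [if_neg (fun h => h2 h.1), if_neg h1, if_neg (fun h => h2 h.1),
        if_neg (fun h => h2 (by rw [h.1, h.2]))]
      ring

end TaskQA

open TaskQA in
theorem redq (φ : ℝ → ℂ) (hφ : Tst φ) (e : ℝ) (he : 0 < e) : ∃ C : ℝ, 0 < C ∧
    ∀ (q : ℕ) [NeZero q], q.Prime → ∀ Q ∈ Set.Icc (q : ℝ) (2 * (q : ℝ) ^ 2), ∀ M : ℕ,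
    ∀ a : ℕ → ℂ, (∀ m, ‖a m‖ ≤ 1) →
    ∑ χ ∈ NP q, ‖Xs χ (cq φ a M Q) ⌊4 * Q⌋₊‖ ^ 2 ≤
      ‖((q : ℂ) - 1) * SSq φ a M Q q ⌊4 * Q / q⌋₊ -
        ((‖∑ n ∈ Icc 1 ⌊4 * Q⌋₊, cq φ a M Q n‖ ^ 2 : ℝ) : ℂ)‖ + C * Q * (q : ℝ) ^ (1 + e) := by
  obtain ⟨C1, hC1, hcb⟩ := cq_le φ hφ e he
  refine ⟨68 * C1 ^ 2, by positivity, ?_⟩
  intro q _ hq Q hQ M a ha
  have hq1 : (1 : ℝ) ≤ q := by exact_mod_cast hq.one_le
  have hq0 : (0 : ℝ) < q := by linarith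
  have hQ0 : 0 < Q := lt_of_lt_of_le hq0 hQ.1
  have hb := hcb q hq.one_le Q hQ M a ha
  have hort := ort q hq (cq φ a M Q) ⌊4 * Q⌋₊
  rw [key φ hφ q hq Q hQ.1 M a] at hort
  set P : ℝ := C1 * (q : ℝ) ^ (e / 8) with hP
  have hP0 : 0 < P := by positivity
  set K := ⌊4 * Q⌋₊ with hK
  set c : ℕ → ℂ := cq φ a M Q with hc
  set S : ℂ := SSq φ a M Q q ⌊4 * Q / q⌋₊ with hS
  set B : ℂ := ∑ n ∈ Icc 1 K, c n with hB
  set B0 : ℂ := ∑ n ∈ (Icc 1 K).filter (fun n : ℕ => (n : ZMod q) = 0), c n with hB0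
  set B1 : ℂ := ∑ n ∈ (Icc 1 K).filter (fun n : ℕ => (n : ZMod q) ≠ 0), c n with hB1
  set D : ℝ := ∑ n ∈ Icc 1 K, ‖c n‖ ^ 2 with hD
  have hBB : B0 + B1 = B := Finset.sum_filter_add_sum_filter_not _ _ _
  have hK4 : (K : ℝ) ≤ 4 * Q := Nat.floor_le (by positivity)
  have hDb : D ≤ K * P ^ 2 := by
    calc D ≤ ∑ n ∈ Icc 1 K, P ^ 2 := Finset.sum_le_sum fun n hn =>
          pow_le_pow_left₀ (norm_nonneg _) (hb n hn) 2
      _ = K * P ^ 2 := by simp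
  have hBb : ‖B‖ ≤ K * P := by
    calc ‖B‖ ≤ ∑ n ∈ Icc 1 K, ‖c n‖ := norm_sum_le _ _
      _ ≤ ∑ n ∈ Icc 1 K, P := Finset.sum_le_sum fun n hn => hb n hn
      _ = K * P := by simp
  have hB1b : ‖B1‖ ≤ K * P := by
    calc ‖B1‖ ≤ ∑ n ∈ (Icc 1 K).filter (fun n : ℕ => (n : ZMod q) ≠ 0), ‖c n‖ :=
          norm_sum_le _ _
      _ ≤ ∑ n ∈ Icc 1 K, ‖c n‖ := Finset.sum_le_sum_of_subset_of_nonneg
          (Finset.filter_subset _ _) fun _ _ _ => norm_nonneg _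
      _ ≤ ∑ n ∈ Icc 1 K, P := Finset.sum_le_sum fun n hn => hb n hn
      _ = K * P := by simp
  have hB0b : ‖B0‖ ≤ 4 * Q / q * P := by
    calc ‖B0‖ ≤ ∑ n ∈ (Icc 1 K).filter (fun n : ℕ => (n : ZMod q) = 0), ‖c n‖ :=
          norm_sum_le _ _
      _ ≤ ∑ n ∈ (Icc 1 K).filter (fun n : ℕ => (n : ZMod q) = 0), P :=
          Finset.sum_le_sum fun n hn => hb n (Finset.mem_filter.1 hn).1
      _ = ((K / q : ℕ) : ℝ) * P := by rw [Finset.sum_const, card_mul, nsmul_eq_mul]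
      _ ≤ 4 * Q / q * P := by
          apply mul_le_mul_of_nonneg_right _ hP0.le
          calc ((K / q : ℕ) : ℝ) ≤ (K : ℝ) / q := Nat.cast_div_le
            _ ≤ 4 * Q / q := by gcongr
  have hreal : ∑ χ ∈ NP q, ‖Xs χ c K‖ ^ 2 =
      (((q : ℂ) - 1) * S - ((‖B‖ ^ 2 : ℝ) : ℂ)).re +
        (((q : ℝ) - 1) * D - ((q : ℝ) - 1) * ‖B0‖ ^ 2 + ‖B‖ ^ 2 - ‖B1‖ ^ 2) := by
    have h1 := congrArg Complex.re hort
    rw [Complex.ofReal_re] at h1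
    rw [h1]
    have h2 : ((q : ℂ) - 1) * (((D : ℝ) : ℂ) + S - ((‖B0‖ ^ 2 : ℝ) : ℂ)) -
        ((‖B1‖ ^ 2 : ℝ) : ℂ) = (((q : ℂ) - 1) * S - ((‖B‖ ^ 2 : ℝ) : ℂ)) +
        ((((q : ℝ) - 1) * D - ((q : ℝ) - 1) * ‖B0‖ ^ 2 + ‖B‖ ^ 2 - ‖B1‖ ^ 2 : ℝ) : ℂ) := by
      push_cast
      ring
    rw [h2, Complex.add_re, Complex.ofReal_re]
  rw [hreal]
  refine add_le_add (Complex.re_le_norm _) ?_
  have h3 : ‖B‖ - ‖B1‖ ≤ ‖B0‖ := by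
    have : B0 = B - B1 := by rw [← hBB]; ring
    rw [this]
    exact norm_sub_norm_le _ _
  have h4 : ‖B‖ ^ 2 - ‖B1‖ ^ 2 ≤ (4 * Q / q * P) * (2 * (4 * Q * P)) := by
    have e1 : ‖B‖ ^ 2 - ‖B1‖ ^ 2 = (‖B‖ - ‖B1‖) * (‖B‖ + ‖B1‖) := by ring
    rw [e1]
    have e2 : ‖B‖ + ‖B1‖ ≤ 2 * (4 * Q * P) := by
      have e3 : (K : ℝ) * P ≤ 4 * Q * P := mul_le_mul_of_nonneg_right hK4 hP0.le
      linarith
    calc (‖B‖ - ‖B1‖) * (‖B‖ + ‖B1‖) ≤ (4 * Q / q * P) * (‖B‖ + ‖B1‖) :=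
          mul_le_mul_of_nonneg_right (h3.trans hB0b) (by positivity)
      _ ≤ _ := mul_le_mul_of_nonneg_left e2 (by positivity)
  have h5 : (4 * Q / q * P) * (2 * (4 * Q * P)) ≤ 64 * Q * q * P ^ 2 := by
    have e1 : (4 * Q / q * P) * (2 * (4 * Q * P)) = 32 * Q * P ^ 2 * (Q / q) := by ring
    have e2 : Q / q ≤ 2 * q := by
      rw [div_le_iff₀ hq0]
      have := hQ.2
      nlinarith
    rw [e1]
    calc 32 * Q * P ^ 2 * (Q / q) ≤ 32 * Q * P ^ 2 * (2 * q) :=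
          mul_le_mul_of_nonneg_left e2 (by positivity)
      _ = _ := by ring
  have hD0 : 0 ≤ D := Finset.sum_nonneg fun n _ => by positivity
  have h6 : ((q : ℝ) - 1) * D ≤ 4 * Q * q * P ^ 2 := by
    calc ((q : ℝ) - 1) * D ≤ q * D := by nlinarith
      _ ≤ q * (K * P ^ 2) := mul_le_mul_of_nonneg_left hDb hq0.le
      _ ≤ q * (4 * Q * P ^ 2) := by gcongr
      _ = _ := by ring
  have h7 : 0 ≤ ((q : ℝ) - 1) * ‖B0‖ ^ 2 := mul_nonneg (by linarith) (by positivity)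
  have h8 : P ^ 2 ≤ C1 ^ 2 * (q : ℝ) ^ e := by
    rw [hP, mul_pow, ← Real.rpow_natCast ((q : ℝ) ^ (e / 8)), ← Real.rpow_mul hq0.le]
    apply mul_le_mul_of_nonneg_left _ (by positivity)
    apply Real.rpow_le_rpow_of_exponent_le hq1
    push_cast
    linarith
  have h9 : (q : ℝ) ^ (1 + e) = q * (q : ℝ) ^ e := by
    rw [Real.rpow_add hq0, Real.rpow_one]
  calc ((q : ℝ) - 1) * D - ((q : ℝ) - 1) * ‖B0‖ ^ 2 + ‖B‖ ^ 2 - ‖B1‖ ^ 2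
      ≤ 68 * Q * q * P ^ 2 := by linarith
    _ ≤ 68 * Q * q * (C1 ^ 2 * (q : ℝ) ^ e) := mul_le_mul_of_nonneg_left h8 (by positivity)
    _ = 68 * C1 ^ 2 * Q * (q : ℝ) ^ (1 + e) := by rw [h9]; ring

end Pool.Agent.H442R2.TSM
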