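import Pool.Agent.H442R2.TSM.QDefs

/-!
TSQ project (helper442). GOAL: for every θ < 14/27, ε > 0 and real t, for all primes q, N ≤ q^θ,
|a_n| ≤ 1: ∑_{χ mod q, χ ≠ χ₀} |L(1/2+it,χ)|² |∑_{n≤N} a_n χ(n) n^{-1/2-it}|² ≤ C q^{1+ε}
(record for arbitrary a_n: θ < 51/101, Bui–Pratt–Robles–Zaharescu 2020).

Same rules as TSM. `pois`, `osc_*`, `gcd_split`, `tri_app_k` are theorems of the TSM project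
(files Poi, Osc, Gcd, TriApp). φ is a fixed test function (`Tst φ`), `φ̂ = Fh φ`.
-/

namespace Pool.Agent.H442R2.TSM

open Finset MeasureTheory

/-! ### QA (QOrt.lean): orthogonality

`ort`: ∑_χ |∑ c_n χ(n)|² = φ(q) ∑_{a mod q, (a,q)=1} |∑_{n≡a} c_n|² (Mathlib:
`DirichletCharacter.sum_char_inv_mul_char_eq` …), and the principal character is ∑_{q∤n} c_n.
`redq`: c_n = b_n φ(n/Q), |b_n| ≤ τ(n) ≤ C n^{e/16}, c_n = 0 unless Q ≤ n ≤ 4Q. Dropping the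
condition q ∤ n costs ≤ q |∑_{q|n} |c_n||² ≤ C q ((Q/q+1) Q^{e/16})² ≤ C Q q^{1+e} (Q ≤ 2q²); in the
principal part it costs ≤ (∑_{q|n}|c_n|)(2∑|c_n|) ≤ C (Q/q) Q q^{e/2} ≤ C Q q^{1+e}. Diagonal n₁ = n₂:
≤ q ∑|c_n|² ≤ C Q q^{1+e}. The pairs n₁ - n₂ = q l, l ≠ 0, |l| ≤ 4Q/q give (q-1) SSq
(b_{n₁} conj b_{n₂} = ∑_{m₁|n₁, m₂|n₂} a conj a; φ((n-ql)/Q) = 0 unless n - ql ≥ Q). -/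

theorem ort (q : ℕ) [NeZero q] (hq : q.Prime) (c : ℕ → ℂ) (K : ℕ) :
    ((∑ χ ∈ NP q, ‖Xs χ c K‖ ^ 2 : ℝ) : ℂ) =
      ((q : ℂ) - 1) * ∑ n₁ ∈ Icc 1 K, ∑ n₂ ∈ Icc 1 K,
        (if (n₁ : ZMod q) = (n₂ : ZMod q) ∧ (n₁ : ZMod q) ≠ 0 then
          c n₁ * (starRingEnd ℂ) (c n₂) else 0) -
      ((‖∑ n ∈ (Icc 1 K).filter (fun n : ℕ => (n : ZMod q) ≠ 0), c n‖ ^ 2 : ℝ) : ℂ) := by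
  sorry

theorem redq (φ : ℝ → ℂ) (hφ : Tst φ) (e : ℝ) (he : 0 < e) : ∃ C : ℝ, 0 < C ∧
    ∀ (q : ℕ) [NeZero q], q.Prime → ∀ Q ∈ Set.Icc (q : ℝ) (2 * (q : ℝ) ^ 2), ∀ M : ℕ,
    ∀ a : ℕ → ℂ, (∀ m, ‖a m‖ ≤ 1) →
    ∑ χ ∈ NP q, ‖Xs χ (cq φ a M Q) ⌊4 * Q⌋₊‖ ^ 2 ≤
      ‖((q : ℂ) - 1) * SSq φ a M Q q ⌊4 * Q / q⌋₊ -
        ((‖∑ n ∈ Icc 1 ⌊4 * Q⌋₊, cq φ a M Q n‖ ^ 2 : ℝ) : ℂ)‖ + C * Q * (q : ℝ) ^ (1 + e) := by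
  sorry

/-! ### QB (QPri.lean): the principal part

∑_n c_n = ∑_m a_m ∑_ν φ(mν/Q) = ∑_m a_m (Q/m) ∑_j φ̂(jQ/m) (pois with l = m/Q, x = 0),
|φ̂(w)| ≤ C/|w|² (osc_fourier with τ=ρ=σ=0): error ≤ ∑_m C (Q/m)(m/Q)² ≤ 2C M²/Q. -/

theorem prin (φ : ℝ → ℂ) (hφ : Tst φ) : ∃ C : ℝ, 0 < C ∧ ∀ Q : ℝ, 1 ≤ Q → ∀ M : ℕ,
    ∀ a : ℕ → ℂ, (∀ m, ‖a m‖ ≤ 1) →
    ‖∑ n ∈ Icc 1 ⌊4 * Q⌋₊, cq φ a M Q n -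
      (Q : ℂ) * Fh φ 0 * ∑ m ∈ Ioc M (2 * M), a m / m‖ ≤ C * (M : ℝ) ^ 2 / Q := by
  sorry

/-! ### QC (QInn.lean): Poisson in the inner sum (same proof as inn_zero, inn_pois of TF)

`gq φ Q r ·` is smooth and zero outside [Q,4Q]: f(u) = gq φ Q r (Q u) is a test function;
`pois` with l = ghk/Q, x = a/k, a = r h̄. -/

theorem innq_zero (φ : ℝ → ℂ) (Q : ℝ) (m₁ m₂ : ℕ) (r : ℤ)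
    (h : ¬ ((Nat.gcd m₁ m₂ : ℕ) : ℤ) ∣ r) : innq φ Q m₁ m₂ r = 0 := by
  sorry

theorem innq_pois (φ : ℝ → ℂ) (hφ : Tst φ) (Q : ℝ) (hQ : 1 ≤ Q) (g h k : ℕ) (hg : 1 ≤ g)
    (hh : 1 ≤ h) (hk : 1 ≤ k) (hc : Nat.Coprime h k) (r : ℤ) :
    Summable (fun j : ℤ => Fh (gq φ Q ((g : ℝ) * r)) ((j : ℝ) / ((g : ℝ) * h * k)) *
      KF.kf (j * r) h k) ∧
    innq φ Q (g * h) (g * k) (g * r) = ((1 / ((g : ℝ) * h * k) : ℝ) : ℂ) *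
      ∑' j : ℤ, Fh (gq φ Q ((g : ℝ) * r)) ((j : ℝ) / ((g : ℝ) * h * k)) *
        KF.kf (j * r) h k := by
  sorry

theorem SSq_split (φ : ℝ → ℂ) (a : ℕ → ℂ) (M : ℕ) (Q : ℝ) (q L : ℕ) (hq : q.Prime)
    (hM : 2 * M < q) :
    SSq φ a M Q q L = ∑ g ∈ Icc 1 (2 * M), ∑ p ∈ CP (M / g),
      (if M < g * p.1 ∧ g * p.1 ≤ 2 * M then a (g * p.1) else 0) *
      (if M < g * p.2 ∧ g * p.2 ≤ 2 * M then (starRingEnd ℂ) (a (g * p.2)) else 0) *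
      ∑ l ∈ nz (L / g), innq φ Q (g * p.1) (g * p.2) (g * (q * l)) := by
  sorry

/-! ### QD (QBnd.lean): bounds for the Fourier transform of the kernel

x = Qu, ρ = r/Q: Fh(gq φ Q r)(w) = Q ∫ φ(u) conj φ(u-ρ) e(-wQu) du. By induction on A, for all test
functions φ₁, φ₂: |∫ φ₁(u) conj φ₂(u-ρ) e(-wu) du| ≤ C |w|^{-A} uniformly in ρ (one integration by
parts: (φ₁ φ̄₂)' = φ₁' φ̄₂ + φ₁ φ̄₂'). Also |φ̂(w)| ≤ C/(1+w²). -/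

theorem gq_bd (φ : ℝ → ℂ) (hφ : Tst φ) (A : ℕ) : ∃ C : ℝ, 0 < C ∧ ∀ Q : ℝ, 0 < Q → ∀ r : ℝ,
    ∀ w : ℝ, w ≠ 0 → ‖Fh (gq φ Q r) w‖ ≤ C * Q / (Q * |w|) ^ A := by
  sorry

theorem gq_bd0 (φ : ℝ → ℂ) (hφ : Tst φ) : ∃ C : ℝ, 0 < C ∧ ∀ Q : ℝ, 0 < Q → ∀ r w : ℝ,
    ‖Fh (gq φ Q r) w‖ ≤ C * Q := by
  sorry

theorem gq_lip (φ : ℝ → ℂ) (hφ : Tst φ) : ∃ C : ℝ, 0 < C ∧ ∀ Q : ℝ, 0 < Q → ∀ r w w' : ℝ,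
    ‖Fh (gq φ Q r) w - Fh (gq φ Q r) w'‖ ≤ C * Q ^ 2 * |w - w'| := by
  sorry

/-! ### QE (QZero.lean): the zero frequency

L = ⌊4Q/q⌋; for |l| > L/g (nat division) g q |l| > 4Q and Fh(gq ..)(0) = 0 (disjoint supports), so
the sum over nz (L/g) is the sum over all l ≠ 0. With λ = qg/Q: for each x,
∑_{l ∈ ℤ} conj φ((x - qgl)/Q) = conj ∑_l φ(λ(l + x/(λQ))) = conj (1/λ) ∑_j φ̂(j/λ) e(jx/(λQ)) (pois);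
multiply by φ(x/Q) and integrate over x: j = 0 gives (Q/λ)|φ̂(0)|² = (Q²/(qg)) |φ̂(0)|², j ≠ 0 gives
≤ Q ∫|φ| (1/λ) ∑_{j≠0} C/(1+(j/λ)²) ≤ C Q; the term l = 0 is Q ∫|φ|². -/

theorem zeroq (φ : ℝ → ℂ) (hφ : Tst φ) : ∃ C : ℝ, 0 < C ∧ ∀ (q g : ℕ), 1 ≤ q → 1 ≤ g →
    ∀ Q : ℝ, 1 ≤ Q →
    ‖∑ l ∈ nz (⌊4 * Q / q⌋₊ / g), Fh (gq φ Q ((g : ℝ) * ((q : ℝ) * l))) 0 -
      ((Q ^ 2 / ((q : ℝ) * g) * ‖Fh φ 0‖ ^ 2 : ℝ) : ℂ)‖ ≤ C * Q := by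
  sorry

/-! ### QF (QMid.lean): low frequencies

J₀ = ⌊g m² q^e/Q⌋, L' = ⌊4Q/q⌋/g, J₀ L' ≤ 4 m² q^{e-1} ≤ m^{1/14-δ} for q ≥ q₁ (m ≤ q^θ, θ·27/14 < 1).
`tri_app_k` (TriApp.lean of TSM: tri_app with an arbitrary integer k ≠ 0,
|k| J R ≤ V M²) with k = ±q: |k| J₀ L' ≤ 4 m² q^e ≤ V m². Weights
w j l s = (m²/s) (C Q)⁻¹ Fh(gq(± g q l))(± j/(g s)) (cut to j ≤ J₀), KF.Wei m V with V = C q^e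
(gq_bd0, gq_lip). 4 sign classes. -/

/-- statement proved in TriApp.lean (TSM, task TI) -/
theorem tri_app_k (δ : ℝ) (hδ : 0 < δ) : ∃ C : ℝ, 0 < C ∧ ∀ (M J R : ℕ), 1 ≤ M →
    ((J * R : ℕ) : ℝ) ≤ (M : ℝ) ^ (1 / 14 - δ) → ∀ V : ℝ, 1 ≤ V →
    ∀ w : ℕ → ℕ → ℝ → ℂ, (∀ j r, KF.Wei M V (w j r)) → ∀ k : ℤ, k ≠ 0 →
    |(k : ℝ)| * ((J * R : ℕ) : ℝ) ≤ V * (M : ℝ) ^ 2 →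
    ∀ α β : ℕ → ℂ, (∀ m, ‖α m‖ ≤ 1) → (∀ n, ‖β n‖ ≤ 1) →
    ‖∑ p ∈ CP M, α p.1 * β p.2 * ∑ j ∈ Icc 1 J, ∑ r ∈ Icc 1 R,
      w j r ((p.1 : ℝ) * p.2) * KF.kf (k * ((j : ℤ) * r)) p.1 p.2‖ ≤ C * V ^ 2 * (M : ℝ) ^ 2 := by
  sorry

theorem midq (φ : ℝ → ℂ) (hφ : Tst φ) (θ : ℝ) (hθ0 : 0 < θ) (hθ : θ < 14 / 27) :
    ∃ e0 : ℝ, 0 < e0 ∧ ∀ e : ℝ, 0 < e → e ≤ e0 → ∃ (C : ℝ) (q₁ : ℕ), 0 < C ∧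
    ∀ q : ℕ, q₁ ≤ q → 1 ≤ q → ∀ Q ∈ Set.Icc (q : ℝ) (2 * (q : ℝ) ^ 2),
    ∀ m g : ℕ, 1 ≤ m → 1 ≤ g → (m : ℝ) ≤ (q : ℝ) ^ θ →
    ∀ α β : ℕ → ℂ, (∀ n, ‖α n‖ ≤ 1) → (∀ n, ‖β n‖ ≤ 1) →
    ‖∑ p ∈ CP m, α p.1 * β p.2 * ∑ l ∈ nz (⌊4 * Q / q⌋₊ / g),
      ((1 / ((g : ℝ) * p.1 * p.2) : ℝ) : ℂ) * ∑ j ∈ nz ⌊(g : ℝ) * m ^ 2 * (q : ℝ) ^ e / Q⌋₊,
        Fh (gq φ Q ((g : ℝ) * ((q : ℝ) * l))) ((j : ℝ) / ((g : ℝ) * p.1 * p.2)) *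
          KF.kf (j * ((q : ℤ) * l)) p.1 p.2‖ ≤ C * Q * (q : ℝ) ^ (3 * e) / g := by
  sorry

/-! ### QG (QTail.lean): high frequencies (same as tail_high, tail_one of TK, with gq_bd)

x = g m² q^e/Q; for |j| > J₀, |j| > x: ‖Fh‖ ≤ C Q (9 g m²/(Q|j|))^A ≤ C Q (9 q^{-e})^A (x/|j|)²,
∑_{|j|>J₀} (x/|j|)² ≤ 4(x+1), A = ⌈20/e⌉. -/

theorem tailq_high (φ : ℝ → ℂ) (hφ : Tst φ) (e : ℝ) (he : 0 < e) (he1 : e ≤ 1) : ∃ C : ℝ, 0 < C ∧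
    ∀ q : ℕ, 1 ≤ q → ∀ Q ∈ Set.Icc (q : ℝ) (2 * (q : ℝ) ^ 2),
    ∀ m g : ℕ, 1 ≤ m → 1 ≤ g → g ≤ 2 * q → m ≤ q →
    ∀ h ∈ Ioc m (2 * m + 1), ∀ k ∈ Ioc m (2 * m + 1), ∀ r : ℝ,
    Summable (fun j : ℤ => ‖Fh (gq φ Q r) ((j : ℝ) / ((g : ℝ) * h * k))‖) ∧
    ∑' j : ℤ, (if j ∈ Icc (-(⌊(g : ℝ) * m ^ 2 * (q : ℝ) ^ e / Q⌋₊ : ℤ))
        ⌊(g : ℝ) * m ^ 2 * (q : ℝ) ^ e / Q⌋₊ then 0 else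
      ‖Fh (gq φ Q r) ((j : ℝ) / ((g : ℝ) * h * k))‖) ≤ C / (q : ℝ) ^ 10 := by
  sorry

theorem tailq_one (φ : ℝ → ℂ) (hφ : Tst φ) : ∃ C : ℝ, 0 < C ∧ ∀ Q : ℝ, 0 < Q → ∀ g : ℕ, 1 ≤ g →
    ∀ r : ℝ, Summable (fun j : ℤ => ‖Fh (gq φ Q r) ((j : ℝ) / (g : ℝ))‖) ∧
    ∑' j : ℤ, (if j = 0 then 0 else ‖Fh (gq φ Q r) ((j : ℝ) / (g : ℝ))‖) ≤
      C * Q * ((g : ℝ) / Q) ^ 2 := by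
  sorry

/-! ### QH (QLong.lean): assembly of the long pieces

redq, prin, SSq_split, innq_pois, zeroq, midq, tailq_high, tailq_one, gcd_split (Gcd.lean of TSM).
inn = (1/(ghk)) (∑_l Fh(..)(0) + low + tail). The main term of zeroq sums to
(q-1) ∑_g ∑_p α β (1/(ghk)) (Q²/(qg)) |φ̂(0)|² = (1-1/q) Q² |φ̂(0)|² |∑_m a_m/m|² (gcd_split with
X m₁ m₂ = a_{m₁} conj a_{m₂}/(m₁ m₂)) and cancels |∑ c_n|² up to Q²/q·C ≤ 2C Q q (prin: |A²-B²| ≤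
|A-B|(|A|+|B|), M² ≤ q²). Errors: zeroq (q-1) ∑_g ∑_p (1/(ghk)) C Q ≤ C Q q log q; midq
q ∑_g C Q q^{3e}/g; tails trivial. (q₁ so large that 2 q^θ < q.) -/

theorem longq (φ : ℝ → ℂ) (hφ : Tst φ) (θ : ℝ) (hθ0 : 0 < θ) (hθ : θ < 14 / 27) (ε : ℝ)
    (hε : 0 < ε) : ∃ (C : ℝ) (q₁ : ℕ), 0 < C ∧
    ∀ (q : ℕ) [NeZero q], q₁ ≤ q → q.Prime → ∀ Q ∈ Set.Icc (q : ℝ) (2 * (q : ℝ) ^ 2),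
    ∀ M : ℕ, 1 ≤ M → (M : ℝ) ≤ (q : ℝ) ^ θ → ∀ a : ℕ → ℂ, (∀ m, ‖a m‖ ≤ 1) →
    ∑ χ ∈ NP q, ‖Xs χ (cq φ a M Q) ⌊4 * Q⌋₊‖ ^ 2 ≤ C * Q * (q : ℝ) ^ (1 + ε) := by
  sorry

/-! ### QI (QApx.lean): smooth approximation of L(1/2+it, χ)

s = 1/2+it fixed, S(Y) = ∑ χ(n) n^{-s} Cu(n/Y). S(2Y) - S(Y) = Y^{-s} ∑ χ(n) f(n/Y),
f(u) = u^{-1/2} Bu(u) EE t 0 0 u (Tst: tst_half, osc_tst). Classes n ≡ a mod q: pois with l = q/Y,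
x = a/q; the j = 0 terms cancel (∑ χ(a) = 0), so ‖S(2Y)-S(Y)‖ ≤ Y^{-1/2}·q·(Y/q)∑_{j≠0}|f̂(jY/q)| ≤
C Y^{1/2} (q/Y)^6. Sum over 2^i Y. S(2^i Y) → L(s,χ) (H307R2.LU.LFunction_eq: the partial sums
converge to L(s,χ); S(Y) = -∫ Cu'(u) P(uY) du). Y ≥ q^{4/3}, Y ≤ 2q²: total ≤ C/q. -/

theorem apxq (t : ℝ) : ∃ C : ℝ, 0 < C ∧ ∀ (q : ℕ) [NeZero q], ∀ χ : DirichletCharacter ℂ q,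
    χ ≠ 1 → ∀ Y : ℝ, (q : ℝ) ^ (4 / 3 : ℝ) ≤ Y → Y ≤ 2 * (q : ℝ) ^ 2 →
    ‖χ.LFunction (1 / 2 + (t : ℂ) * Complex.I) - ∑ n ∈ Icc 1 ⌊2 * Y⌋₊,
      ((Cu ((n : ℝ) / Y) : ℝ) : ℂ) * χ (n : ZMod q) *
        (n : ℂ) ^ (-(1 / 2 + (t : ℂ) * Complex.I))‖ ≤ C / q := by
  sorry

/-! ### QJ (QShort.lean): the large sieve for one modulus

∑_χ |∑ c_n χ(n)|² = φ(q) ∑_{(a,q)=1} |∑_{n≡a} c_n|² ≤ φ(q)(K/q+1) ∑|c_n|². -/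

theorem shortq (q : ℕ) [NeZero q] (c : ℕ → ℂ) (K : ℕ) :
    ∑ χ ∈ NP q, ‖Xs χ c K‖ ^ 2 ≤ ((q : ℝ) + K) * ∑ n ∈ Icc 1 K, ‖c n‖ ^ 2 := by
  sorry

/-! ### QK (QBlk.lean): one dyadic block of A

Z = 2^I q with q² ≤ Z < 2q². L(s,χ) ∑_{M<m≤2M} a_m χ(m) m^{-s} = ∑_n b_n χ(n) n^{-s} Cu(n/Z) +
O(∑_m m^{-1/2} C/q) (apxq with Y = Z/m ≥ q²/(2q^θ) ≥ q^{4/3} for q ≥ q₁), and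
Cu(n/Z) = Cu(n/q) + ∑_{i<I} Bu(n/(2^i q)). ‖L A‖² ≤ (I+2)(short + ∑_i ‖Xs χ (...)‖² + C). Long piece
i: n^{-s} Bu(n/Q) = Q^{-s} φ(n/Q), φ(u) = u^{-1/2} Bu(u) EE t 0 0 u: longq gives
Q^{-1}·C Q q^{1+ε}. Short piece: shortq with K = ⌊2q⌋, ∑ τ(n)²/n ≤ C q^ε. -/

theorem blockq (t : ℝ) (θ : ℝ) (hθ0 : 0 < θ) (hθ : θ < 14 / 27) (ε : ℝ) (hε : 0 < ε) :
    ∃ (C : ℝ) (q₁ : ℕ), 0 < C ∧ ∀ (q : ℕ) [NeZero q], q₁ ≤ q → q.Prime → ∀ M : ℕ, 1 ≤ M →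
    (M : ℝ) ≤ (q : ℝ) ^ θ → ∀ a : ℕ → ℂ, (∀ m, ‖a m‖ ≤ 1) →
    ∑ χ ∈ NP q, ‖χ.LFunction (1 / 2 + (t : ℂ) * Complex.I)‖ ^ 2 *
      ‖∑ m ∈ Ioc M (2 * M), a m * χ (m : ZMod q) *
        (m : ℂ) ^ (-(1 / 2 + (t : ℂ) * Complex.I))‖ ^ 2 ≤ C * (q : ℝ) ^ (1 + ε) := by
  sorry

/-! ### QL (QFin.lean): the theorem

Dyadic blocks + the term n = 1 (|L|²|a₁|² ≤ 2 |L|² |χ(2) 2^{-s}|² for q > 2: block M = 1),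
Cauchy–Schwarz over ≤ C log q blocks; the finitely many q < q₁ by a maximum (for each q there are
finitely many χ, and the inner sum has ≤ q terms of norm ≤ 1). -/

theorem finalq (t : ℝ) (θ : ℝ) (hθ0 : 0 < θ) (hθ : θ < 14 / 27) (ε : ℝ) (hε : 0 < ε) :
    ∃ C : ℝ, 0 < C ∧ ∀ (q : ℕ) [NeZero q], q.Prime → ∀ N : ℕ, (N : ℝ) ≤ (q : ℝ) ^ θ →
    ∀ a : ℕ → ℂ, (∀ n, ‖a n‖ ≤ 1) →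
    ∑ χ ∈ NP q, ‖χ.LFunction (1 / 2 + (t : ℂ) * Complex.I)‖ ^ 2 *
      ‖∑ n ∈ Icc 1 N, a n * χ (n : ZMod q) *
        (n : ℂ) ^ (-(1 / 2 + (t : ℂ) * Complex.I))‖ ^ 2 ≤ C * (q : ℝ) ^ (1 + ε) := by
  sorry

end Pool.Agent.H442R2.TSM
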