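import Pool.Agent.H442R2.TSM.Defs
import Pool.Agent.H442R2.KF.Defs

/-!
TSM project (helper442). GOAL: for every θ < 14/27 and ε > 0, for all T ≥ 1, N ≤ T^θ, |a_n| ≤ 1:
∫_T^{2T} |ζ(1/2+it)|² |∑_{n≤N} a_n n^{-1/2-it}|² dt ≤ C T^{1+ε}   (record: θ < 17/33).

Each task: write the file named in the task, with the theorem(s) of the stub under the SAME name
and statement (namespace Pool.Agent.H442R2.TSM; own lemmas in `namespace TaskX`), no sorry.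
If you need the theorem of another task: develop with `import Pool.Agent.H442R2.TSM.Stubs`, and
replace that import by the real files when they are landed (same names, same namespace).
-/

namespace Pool.Agent.H442R2.TSM

open Finset MeasureTheory

/-! ### TA (Osc.lean): oscillatory integrals and the bumps

`EE τ ρ σ u = exp(-i(τ log u + ρ/u) - σ/u²)`. On `(0,∞)`, `EE' = EE·(-iτ/u + iρ/u² + 2σ/u³)`, so for a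
test function ψ: `(ψ EE)' = (ψ') EE - iτ (ψ/u) EE + iρ (ψ/u²) EE + 2σ (ψ/u³) EE` and
`ψ', ψ/u, ψ/u², ψ/u³` are again test functions. Induction on A gives
`‖iteratedDeriv A (ψ EE)‖ ≤ C (1+|τ|+|ρ|+σ)^A` uniformly (`‖EE‖ ≤ 1` for σ ≥ 0), and then
`‖Fh f w‖ ≤ (2π|w|)^{-A} ∫ ‖f^{(A)}‖`.  (Either one integration by parts per step inside the
induction, which avoids iteratedDeriv: `Fh(f)(w) = (2πi w)^{-1} Fh(f')(w)`.)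
`osc_zero`: `∫ ψ(u) u^{-iτ} du = (iτ)^{-1} ∫ (uψ(u))' u^{-iτ} du` (by parts), induction on A. -/

theorem osc_tst (ψ : ℝ → ℂ) (hψ : Tst ψ) (τ ρ σ : ℝ) : Tst (fun u => ψ u * EE τ ρ σ u) := by
  sorry

theorem osc_fourier (ψ : ℝ → ℂ) (hψ : Tst ψ) (A : ℕ) : ∃ C : ℝ, 0 < C ∧ ∀ τ ρ σ : ℝ, 0 ≤ σ →
    ∀ w : ℝ, w ≠ 0 →
    ‖Fh (fun u => ψ u * EE τ ρ σ u) w‖ ≤ C * ((1 + |τ| + |ρ| + σ) / |w|) ^ A := by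
  sorry

theorem osc_zero (ψ : ℝ → ℂ) (hψ : Tst ψ) (A : ℕ) : ∃ C : ℝ, 0 < C ∧ ∀ τ : ℝ, τ ≠ 0 →
    ‖∫ u, ψ u * EE τ 0 0 u‖ ≤ C / |τ| ^ A := by
  sorry

/-- `Cu` is smooth, values in `[0,1]`, `1` for `x ≤ 1`, `0` for `x ≥ 2` -/
theorem cu_facts : ContDiff ℝ ((⊤ : ℕ∞) : WithTop ℕ∞) Cu ∧ (∀ x, 0 ≤ Cu x ∧ Cu x ≤ 1) ∧
    (∀ x, x ≤ 1 → Cu x = 1) ∧ (∀ x, 2 ≤ x → Cu x = 0) := by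
  sorry

/-- `Bu` is smooth, values in `[0,1]`, zero outside `(1,4)`, and Lipschitz (on `[1,2]` it is
`1 - Cu x`, on `[2,4]` it is `Cu (x/2)`) -/
theorem bu_facts : ContDiff ℝ ((⊤ : ℕ∞) : WithTop ℕ∞) Bu ∧ (∀ x, 0 ≤ Bu x ∧ Bu x ≤ 1) ∧
    (∀ x, x ≤ 1 → Bu x = 0) ∧ (∀ x, 4 ≤ x → Bu x = 0) ∧
    (∃ L : ℝ, 0 < L ∧ ∀ x y, |Bu x - Bu y| ≤ L * |x - y|) := by
  sorry

theorem tst_half : Tst (fun u => ((u ^ (-(1 / 2) : ℝ) * Bu u : ℝ) : ℂ)) := by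
  sorry

theorem tst_one : Tst (fun u => ((u⁻¹ * Bu u ^ 2 : ℝ) : ℂ)) := by
  sorry

/-! ### TB (Poi.lean): Poisson summation

`g(y) = f(l y)`, `∑_n g(n+x) = ∑_j ĝ(j) e(jx)`, `ĝ(j) = (1/l) f̂(j/l)`. Mathlib:
`HasCompactSupport.toSchwartzMap`, `SchwartzMap.tsum_eq_tsum_fourier`. -/

theorem pois (f : ℝ → ℂ) (hf : Tst f) (l : ℝ) (hl : 0 < l) (x : ℝ) :
    Summable (fun j : ℤ => Fh f ((j : ℝ) / l) * KF.e ((j : ℝ) * x)) ∧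
    ∑' n : ℤ, f (l * ((n : ℝ) + x)) =
      ((1 / l : ℝ) : ℂ) * ∑' j : ℤ, Fh f ((j : ℝ) / l) * KF.e ((j : ℝ) * x) := by
  sorry

/-! ### TC (Apx.lean): smooth approximation of zeta

s = 1/2+it. S(Y) = ∑_n Cu(n/Y) n^{-s}, c = ∫_0^∞ u^{-s} Cu(u) du.
f(u) = u^{-1/2} Bu(u) u^{-it} = ψ(u) EE t 0 0 u (tst_half). `pois` with l = 1/Y, x = 0:
S(2Y) - S(Y) = ∑ n^{-s} Bu(n/Y) = Y^{-s} ∑_n f(n/Y) = Y^{1-s} (f̂(0) + ∑_{j≠0} f̂(jY)),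
f̂(0) = ∫ u^{-s}(Cu(u/2) - Cu(u)) du = (2^{1-s} - 1) c. So R(Y) = S(Y) - c Y^{1-s} satisfies
‖R(2Y) - R(Y)‖ ≤ Y^{1/2} C ((1+t)/Y)^A ∑_{j≠0} |j|^{-A} (osc_fourier), A = 6; sum over 2^i Y, i ≥ 0.
Limit: R(2^i Y) → ζ(s): from `Pool.Agent.H307R2.LU` `zeta_eq` (ζ(s) = ∑_{n≤N} n^{-s} +
N^{1-s}/(s-1) + O(|s| N^{-1/2})) and S(Y) = ∫ (-Cu'(u)) ∑_{n ≤ uY} n^{-s} du (or partial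
summation), c = (1/(s-1)) ∫_1^2 u^{1-s} Cu'(u) du. And `|c| ≤ C t^{-6}` by `osc_zero` with
ψ(u) = u^{1/2} Cu'(u). Total error C Y^{1/2} t^{-6} + C Y^{1/2} (T/Y)^6 ≤ C/T for
T^{4/3} ≤ Y ≤ 2T². -/

theorem apx : ∃ C : ℝ, 0 < C ∧ ∀ T : ℝ, 1 ≤ T → ∀ t ∈ Set.Icc T (2 * T), ∀ Y : ℝ,
    T ^ (4 / 3 : ℝ) ≤ Y → Y ≤ 2 * T ^ 2 →
    ‖riemannZeta (1 / 2 + (t : ℂ) * Complex.I) - ∑ n ∈ Icc 1 ⌊2 * Y⌋₊,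
      ((Cu ((n : ℝ) / Y) : ℝ) : ℂ) * (n : ℂ) ^ (-(1 / 2 + (t : ℂ) * Complex.I))‖ ≤ C / T := by
  sorry

/-! ### TD (Kern.lean): the Gaussian mean square

|Dp|² = ∑∑ c_{q₁} conj(c_{q₂}) exp(-it (log q₁ - log q₂)), and ∫ Wg(t) exp(-itu) dt = Kh(u)
(Mathlib: `fourierIntegral_gaussian` ...). `short`: |Kh(u)| = D exp(-D²u²/(4π)),
|log q₁ - log q₂| ≥ |q₁-q₂|/K, ‖c_{q₁}‖‖c_{q₂}‖ ≤ (‖c_{q₁}‖²+‖c_{q₂}‖²)/2, and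
∑_{r ∈ ℤ} exp(-r² D²/(4πK²)) ≤ 1 + 2πK/D. -/

theorem kern (c : ℕ → ℂ) (K : ℕ) (t₀ D : ℝ) (hD : 0 < D) :
    Integrable (fun t => Wg t₀ D t * ‖Dp c K t‖ ^ 2) ∧
    ((∫ t, Wg t₀ D t * ‖Dp c K t‖ ^ 2 : ℝ) : ℂ) = ∑ q₁ ∈ Icc 1 K, ∑ q₂ ∈ Icc 1 K,
      c q₁ * (starRingEnd ℂ) (c q₂) * Kh t₀ D (Real.log q₁ - Real.log q₂) := by
  sorry

theorem short (c : ℕ → ℂ) (K : ℕ) (hK : 1 ≤ K) (t₀ D : ℝ) (hD : 1 ≤ D) :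
    ∫ t, Wg t₀ D t * ‖Dp c K t‖ ^ 2 ≤ 20 * (D + K) * ∑ q ∈ Icc 1 K, ‖c q‖ ^ 2 := by
  sorry

/-- `∫ Wg(t) |t| dt ≤ (|t₀| + D) D`, hence the Lipschitz bound for Kh -/
theorem Kh_facts (t₀ D : ℝ) (hD : 0 < D) :
    (∀ u, ‖Kh t₀ D u‖ = D * Real.exp (-(D ^ 2 * u ^ 2 / (4 * Real.pi)))) ∧
    (∀ u v, ‖Kh t₀ D u - Kh t₀ D v‖ ≤ (|t₀| + D) * D * |u - v|) := by
  sorry

/-! ### TE (Lin.lean): the dyadic piece, reduction to the linearised sum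

D = T^{1-d}, R = ⌊Q T^{2d-1}⌋, q₁ = x, q₂ = y = x - r. For T ≥ T₁(d). Expand by `kern`.
(i) diagonal: ∑ |c_q|² D ≤ C T^{1+d} (|b_q| ≤ τ(q) ≤ C q^{d/16}).
(ii) |r| > R (so |r| ≥ Q T^{2d-1}): |log q₁ - log q₂| ≥ |r|/(4Q), |Kh| ≤ D exp(-T^{2d}/(64π)) and
(∑|c_q|)² ≤ C Q^{2}·..., Q ≤ 2T²: negligible.
(iii) 0 < |r| ≤ R: replace (xy)^{-1/2} Bu(x/Q) Bu(y/Q) Kh(log x - log y) by g_r(x) =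
x^{-1} Bu(x/Q)² Kh(r/x) for x with Bu(x/Q) ≠ 0 (so Q ≤ x ≤ 4Q, y ≥ Q/2; when Bu(x/Q) = 0 both
vanish). Errors: |(xy)^{-1/2} - x^{-1}| ≤ 2|r|/Q², |Bu(y/Q) - Bu(x/Q)| ≤ L|r|/Q,
|Kh(log(x/y)) - Kh(r/x)| ≤ 3TD |log(x/y) - r/x| ≤ 3TD (r/x)² (Kh_facts). Each term errs by at most
C T^{3d}/Q; the number of pairs is ≤ 4Q·2R, |b_x b_y| ≤ C Q^{d/8}; total ≤ C R T^{4d} ≤ C T^{1+8d}.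
(iv) b_x conj(b_{x-r}) = ∑_{m₁ | x} ∑_{m₂ | x-r} a conj(a): exchange sums to get `SS`. (r ↦ x - r
positive because x ≥ Q > R.) -/

theorem lin (d : ℝ) (hd : 0 < d) (hd1 : d ≤ 1 / 100) : ∃ C T₁ : ℝ, 0 < C ∧ 1 ≤ T₁ ∧
    ∀ T : ℝ, T₁ ≤ T → ∀ t₀ ∈ Set.Icc T (2 * T), ∀ Q ∈ Set.Icc T (2 * T ^ 2), ∀ M : ℕ,
    ∀ a : ℕ → ℂ, (∀ m, ‖a m‖ ≤ 1) →
    ∫ t, Wg t₀ (T ^ (1 - d)) t * ‖Dp (cQ a M Q) ⌊4 * Q⌋₊ t‖ ^ 2 ≤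
      ‖SS a M t₀ (T ^ (1 - d)) Q ⌊Q * T ^ (2 * d - 1)⌋₊‖ + C * T ^ (1 + 8 * d) := by
  sorry

/-! ### TF (Inn.lean): Poisson in the inner sum

inn(gh, gk, gr) = ∑_{q: gh | q, gk | q - gr} g_{gr}(q); q = ghν, hν ≡ r mod k, ν = r h̄ + k n:
q = ghk (n + a/k), a = r h̄ with h̄ = ((h : ZMod k)⁻¹).val. `gr t₀ D Q r ·` is zero outside [Q,4Q];
f(u) = gr(Q u) = Q⁻¹ ψ(u) D EE 0 (t₀ r/Q) (D² r²/(4πQ²)) u with ψ(u) = u⁻¹ Bu(u)² (tst_one).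
`pois` with l = ghk/Q, x = a/k. (`KF.kf b m n = e(b * h̄ / n)`.) -/

theorem inn_zero (t₀ D Q : ℝ) (m₁ m₂ : ℕ) (r : ℤ) (h : ¬ ((Nat.gcd m₁ m₂ : ℕ) : ℤ) ∣ r) :
    inn t₀ D Q m₁ m₂ r = 0 := by
  sorry

theorem inn_pois (t₀ D Q : ℝ) (hD : 0 < D) (hQ : 1 ≤ Q) (g h k : ℕ) (hg : 1 ≤ g) (hh : 1 ≤ h)
    (hk : 1 ≤ k) (hc : Nat.Coprime h k) (r : ℤ) :
    Summable (fun j : ℤ => Fh (gr t₀ D Q ((g : ℝ) * r)) ((j : ℝ) / ((g : ℝ) * h * k)) *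
      KF.kf (j * r) h k) ∧
    inn t₀ D Q (g * h) (g * k) (g * r) = ((1 / ((g : ℝ) * h * k) : ℝ) : ℂ) *
      ∑' j : ℤ, Fh (gr t₀ D Q ((g : ℝ) * r)) ((j : ℝ) / ((g : ℝ) * h * k)) *
        KF.kf (j * r) h k := by
  sorry

/-! ### TG (Bnd.lean): bounds for the Fourier transforms of g_r

x = Qu: Fh(gr r)(w) = D ∫ u⁻¹ Bu(u)² EE 0 ρ σ u e(-wQu) du, ρ = t₀ r/Q, σ = D² r²/(4πQ²); for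
|r| ≤ Q T^{2d-1}: |ρ| ≤ 2T^{2d}, σ ≤ T^{2d}. `osc_fourier` with tst_one. The other two are trivial:
∫ x⁻¹ Bu(x/Q)² dx ≤ log 4, ∫ Bu(x/Q)² dx ≤ 3Q. -/

theorem gr_bd (A : ℕ) : ∃ C : ℝ, 0 < C ∧ ∀ d T : ℝ, 0 < d → d ≤ 1 / 100 → 1 ≤ T →
    ∀ t₀ ∈ Set.Icc T (2 * T), ∀ Q : ℝ, 1 ≤ Q → ∀ r : ℝ, |r| ≤ Q * T ^ (2 * d - 1) →
    ∀ w : ℝ, w ≠ 0 → ‖Fh (gr t₀ (T ^ (1 - d)) Q r) w‖ ≤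
      C * T ^ (1 - d) * (T ^ (2 * d) / (Q * |w|)) ^ A := by
  sorry

theorem gr_bd0 (t₀ D Q r w : ℝ) (hD : 0 < D) (hQ : 0 < Q) : ‖Fh (gr t₀ D Q r) w‖ ≤ 2 * D := by
  sorry

theorem gr_lip (t₀ D Q r w w' : ℝ) (hD : 0 < D) (hQ : 0 < Q) :
    ‖Fh (gr t₀ D Q r) w - Fh (gr t₀ D Q r) w'‖ ≤ 20 * D * Q * |w - w'| := by
  sorry

/-! ### TH (Zero.lean): the zero frequency

First, for x ∈ [Q, 4Q] (in fact x ∈ [T, 8T²]), λ = g/x: ∑_{r ∈ ℤ} Kh(λ r) = (2π/λ) ∑_n W(2πn/λ)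
(Mathlib `Complex.tsum_exp_neg_quadratic`), W = Wg t₀ D, so it is nonnegative and
 * if λ ≥ 1/T: ≤ 2πT·(number of n with ... ) : (2π/λ) ∑_n exp(-π((2πn/λ - t₀)/D)²) ≤ (2π/λ)(2 + CDλ)
   ≤ C T;
 * if λ < 1/T: all |2πn/λ - t₀| ≥ T (|n|+1)/2 (n = 0: t₀ ≥ T; n ≠ 0: 2π|n|T - 2T ≥ 4|n|T), so the
   sum is ≤ C x exp(-π T^{2d}/4) ≤ C (x ≤ 8T²).
Hence |∑_{r≠0} Kh(λ r)| ≤ C T. The terms with |r| > R/g, R = ⌊Q T^{2d-1}⌋ (nat division; then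
g|r| ≥ Q T^{2d-1}) contribute ≤ D ∑_{|r| > R/g} exp(-D² g² r²/(64πQ²)) ≤ C (T^{d}/4 ≤ D g|r|/(4Q)).
Then Fh(gr r)(0) = ∫ x⁻¹ Bu(x/Q)² Kh(r/x) dx; integrate. -/

theorem zero_freq (d : ℝ) (hd : 0 < d) (hd1 : d ≤ 1 / 100) : ∃ C T₁ : ℝ, 0 < C ∧ 1 ≤ T₁ ∧
    ∀ T : ℝ, T₁ ≤ T → ∀ t₀ ∈ Set.Icc T (2 * T), ∀ Q ∈ Set.Icc T (2 * T ^ 2), ∀ g : ℕ, 1 ≤ g →
    ‖∑ r ∈ nz (⌊Q * T ^ (2 * d - 1)⌋₊ / g), Fh (gr t₀ (T ^ (1 - d)) Q ((g : ℝ) * r)) 0‖ ≤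
      C * T := by
  sorry

/-! ### TI (TriApp.lean): two smooth variables from `KF.tri` (Pool.Agent.H442R2.KF.Tri)

ψ_l(s) = (1/B) ∑_{j r = l, j ≤ J, r ≤ R} w j r s, where B ≥ max τ(l), l ≤ JR ≤ M: B = C M^{η/4}
(divisor bound; `KF.tri` gives C V² M^{2-η}). Apply `KF.tri` with k = s = ±1, J := J*R (if J*R = 0
the sum is empty); |k| J R ≤ M ≤ V M². -/

theorem tri_app (δ : ℝ) (hδ : 0 < δ) : ∃ C : ℝ, 0 < C ∧ ∀ (M J R : ℕ), 1 ≤ M →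
    ((J * R : ℕ) : ℝ) ≤ (M : ℝ) ^ (1 / 14 - δ) → ∀ V : ℝ, 1 ≤ V →
    ∀ w : ℕ → ℕ → ℝ → ℂ, (∀ j r, KF.Wei M V (w j r)) → ∀ s : ℤ, (s = 1 ∨ s = -1) →
    ∀ α β : ℕ → ℂ, (∀ m, ‖α m‖ ≤ 1) → (∀ n, ‖β n‖ ≤ 1) →
    ‖∑ p ∈ CP M, α p.1 * β p.2 * ∑ j ∈ Icc 1 J, ∑ r ∈ Icc 1 R,
      w j r ((p.1 : ℝ) * p.2) * KF.kf (s * ((j : ℤ) * r)) p.1 p.2‖ ≤ C * V ^ 2 * (M : ℝ) ^ 2 := by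
  sorry

/-! ### TJ (Mid.lean): low frequencies

m = M/g (nat division) ≥ 1, J₀ = ⌊g m² T^{3d}/Q⌋, R' = ⌊Q T^{2d-1}⌋/g. J₀ R' ≤ m² T^{5d-1} ≤ m^{1/14-δ}
because m ≤ T^θ, θ·27/14 < 1, d, δ small (d ≤ d0(θ)). Split (j, r) into 4 sign classes; with
w j r s = (m²/s) (2D)⁻¹ Fh(gr(± g r))(± j/(g s)) (cut to j ≤ J₀): KF.Wei m V with
V = 1 + 20·Q J₀/(g m²) ≤ C T^{3d} (gr_bd0, gr_lip). Result ≤ (2D/(g m²))·4·C V² m² ≤ C T^{1+6d}/g. -/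

theorem mid_low (θ : ℝ) (hθ0 : 0 < θ) (hθ : θ < 14 / 27) : ∃ d0 : ℝ, 0 < d0 ∧ ∀ d : ℝ, 0 < d →
    d ≤ d0 → ∃ C T₁ : ℝ, 0 < C ∧ 1 ≤ T₁ ∧
    ∀ T : ℝ, T₁ ≤ T → ∀ t₀ ∈ Set.Icc T (2 * T), ∀ Q ∈ Set.Icc T (2 * T ^ 2),
    ∀ m g : ℕ, 1 ≤ m → 1 ≤ g → (m : ℝ) ≤ T ^ θ →
    ∀ α β : ℕ → ℂ, (∀ n, ‖α n‖ ≤ 1) → (∀ n, ‖β n‖ ≤ 1) →
    ‖∑ p ∈ CP m, α p.1 * β p.2 * ∑ r ∈ nz (⌊Q * T ^ (2 * d - 1)⌋₊ / g),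
      ((1 / ((g : ℝ) * p.1 * p.2) : ℝ) : ℂ) * ∑ j ∈ nz ⌊(g : ℝ) * m ^ 2 * T ^ (3 * d) / Q⌋₊,
        Fh (gr t₀ (T ^ (1 - d)) Q ((g : ℝ) * r)) ((j : ℝ) / ((g : ℝ) * p.1 * p.2)) *
          KF.kf (j * r) p.1 p.2‖ ≤ C * T ^ (1 + 6 * d) / g := by
  sorry

/-! ### TK (Tail.lean): high frequencies

`gr_bd` with A = ⌈20/d⌉ (≥ 2): for j ∉ {|j| ≤ J₀}, |j| ≥ J₀ + 1 > x := g m² T^{3d}/Q,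
‖Fh‖ ≤ C D (T^{2d} g h k/(Q |j|))^A, hk ≤ (2m+1)² ≤ 9m²: ≤ C D (9 T^{-d})^A (x/|j|)^A ≤
C D 9^A T^{-dA} (x/|j|)²; ∑_{|j| > J₀} (x/|j|)² ≤ 4(x+1) ≤ C T^5. Second theorem: the case m = 0
(h = k = 1), A = 2: ∑_{j≠0} ‖Fh(gr(gr))(j/g)‖ ≤ C D (T^{2d} g/Q)². -/

theorem tail_high (d : ℝ) (hd : 0 < d) (hd1 : d ≤ 1 / 100) : ∃ C : ℝ, 0 < C ∧
    ∀ T : ℝ, 1 ≤ T → ∀ t₀ ∈ Set.Icc T (2 * T), ∀ Q ∈ Set.Icc T (2 * T ^ 2),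
    ∀ m g : ℕ, 1 ≤ m → 1 ≤ g → (g : ℝ) ≤ 2 * T → (m : ℝ) ≤ T →
    ∀ h ∈ Ioc m (2 * m + 1), ∀ k ∈ Ioc m (2 * m + 1), ∀ r : ℤ,
    |(g : ℝ) * r| ≤ Q * T ^ (2 * d - 1) →
    Summable (fun j : ℤ => ‖Fh (gr t₀ (T ^ (1 - d)) Q ((g : ℝ) * r)) ((j : ℝ) / ((g : ℝ) * h * k))‖) ∧
    ∑' j : ℤ, (if j ∈ Icc (-(⌊(g : ℝ) * m ^ 2 * T ^ (3 * d) / Q⌋₊ : ℤ))
        ⌊(g : ℝ) * m ^ 2 * T ^ (3 * d) / Q⌋₊ then 0 else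
      ‖Fh (gr t₀ (T ^ (1 - d)) Q ((g : ℝ) * r)) ((j : ℝ) / ((g : ℝ) * h * k))‖) ≤ C / T ^ 10 := by
  sorry

theorem tail_one (d : ℝ) (hd : 0 < d) (hd1 : d ≤ 1 / 100) : ∃ C : ℝ, 0 < C ∧
    ∀ T : ℝ, 1 ≤ T → ∀ t₀ ∈ Set.Icc T (2 * T), ∀ Q ∈ Set.Icc T (2 * T ^ 2),
    ∀ g : ℕ, 1 ≤ g → ∀ r : ℤ, |(g : ℝ) * r| ≤ Q * T ^ (2 * d - 1) →
    ∑' j : ℤ, (if j = 0 then 0 else
      ‖Fh (gr t₀ (T ^ (1 - d)) Q ((g : ℝ) * r)) ((j : ℝ) / (g : ℝ))‖) ≤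
      C * T ^ (1 - d) * (T ^ (2 * d) * g / Q) ^ 2 := by
  sorry

/-! ### TL (Gcd.lean): sorting by the gcd

m₁ = g h, m₂ = g k with g = gcd, h, k coprime; M < gh ≤ 2M implies M/g < h ≤ 2(M/g)+1 (nat
division). `SS_split`: inn vanishes unless g | r (inn_zero, TF); r = g r', |r'| ≤ R/g. -/

theorem gcd_split (X : ℕ → ℕ → ℂ) (M : ℕ) :
    ∑ m₁ ∈ Ioc M (2 * M), ∑ m₂ ∈ Ioc M (2 * M), X m₁ m₂ =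
      ∑ g ∈ Icc 1 (2 * M), ∑ p ∈ CP (M / g),
        if (M < g * p.1 ∧ g * p.1 ≤ 2 * M) ∧ (M < g * p.2 ∧ g * p.2 ≤ 2 * M)
        then X (g * p.1) (g * p.2) else 0 := by
  sorry

theorem SS_split (a : ℕ → ℂ) (M : ℕ) (t₀ D Q : ℝ) (R : ℕ) :
    SS a M t₀ D Q R = ∑ g ∈ Icc 1 (2 * M), ∑ p ∈ CP (M / g),
      (if M < g * p.1 ∧ g * p.1 ≤ 2 * M then a (g * p.1) else 0) *
      (if M < g * p.2 ∧ g * p.2 ≤ 2 * M then (starRingEnd ℂ) (a (g * p.2)) else 0) *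
      ∑ r ∈ nz (R / g), inn t₀ D Q (g * p.1) (g * p.2) (g * r) := by
  sorry

/-! ### TM (Long.lean): assembly of the long pieces

From lin, SS_split, inn_pois, zero_freq, mid_low, tail_high, tail_one. For g ≤ M (so m = M/g ≥ 1,
m ≤ M ≤ T^θ): the inner sum over r is (1/(ghk)) ∑_r (Fh(..)(0) + ∑_{j ∈ nz J₀} + tail). Zero
frequency: |∑_{p ∈ CP m} (1/(ghk)) C T| ≤ C' T/g ((m+1)² pairs, hk ≥ (m+1)²... each 1/(hk) ≤ 1/m²).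
Tail: (#r ≤ 2R ≤ 4T^{1+2d}·...)·C/T^{10}. For M < g ≤ 2M: m = 0, CP 0 = {(1,1)}: zero frequency C T/g and
tail_one: (1/g) 2(R/g) C T^{1-d} (T^{2d} g/Q)² ≤ C T^{5d-... } g/.. ≤ C T^{1+6d}/g as g ≤ 2T^{θ} and
Q ≥ T. Sum over g ≤ 2M: log factor ≤ C T^{d}. -/

theorem long (θ : ℝ) (hθ0 : 0 < θ) (hθ : θ < 14 / 27) : ∃ d0 : ℝ, 0 < d0 ∧ ∀ d : ℝ, 0 < d →
    d ≤ d0 → ∃ C T₁ : ℝ, 0 < C ∧ 1 ≤ T₁ ∧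
    ∀ T : ℝ, T₁ ≤ T → ∀ t₀ ∈ Set.Icc T (2 * T), ∀ Q ∈ Set.Icc T (2 * T ^ 2),
    ∀ M : ℕ, 1 ≤ M → (M : ℝ) ≤ T ^ θ → ∀ a : ℕ → ℂ, (∀ m, ‖a m‖ ≤ 1) →
    ∫ t, Wg t₀ (T ^ (1 - d)) t * ‖Dp (cQ a M Q) ⌊4 * Q⌋₊ t‖ ^ 2 ≤ C * T ^ (1 + 9 * d) := by
  sorry

/-! ### TN (Blk.lean): one dyadic block of A

Uses `long`, `short`, `apx`. Let Z = 2^I T with T² ≤ Z < 2T². For t ∈ [T,2T], s = 1/2+it: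
ζ(s) ∑_{M<m≤2M} a_m m^{-s} = ∑_q b_q q^{-s} Cu(q/Z) + O(∑_m m^{-1/2} C/T) (apx with Y = Z/m, which is
≥ T²/(2T^θ) ≥ T^{4/3} for T ≥ T₁) and Cu(q/Z) = Cu(q/T) + ∑_{i<I} Bu(q/(2^i T)). So
‖ζA‖² ≤ (I+2)(‖Dp (c0 a M T) ⌊2T⌋ t‖² + ∑_{i<I} ‖Dp (cQ a M (2^i T)) ⌊4·2^i T⌋ t‖² + C). Cover [T,2T]
by ≤ T^d + 1 intervals |t - t₀| ≤ D, t₀ ∈ [T,2T], D = T^{1-d}; there Wg ≥ e^{-π}. Short piece: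
`short` with K = ⌊2T⌋, ∑ |c_q|² ≤ ∑ τ(q)²/q ≤ C T^d. -/

theorem block (θ : ℝ) (hθ0 : 0 < θ) (hθ : θ < 14 / 27) (ε : ℝ) (hε : 0 < ε) :
    ∃ C T₁ : ℝ, 0 < C ∧ 1 ≤ T₁ ∧ ∀ T : ℝ, T₁ ≤ T → ∀ M : ℕ, 1 ≤ M → (M : ℝ) ≤ T ^ θ →
    ∀ a : ℕ → ℂ, (∀ m, ‖a m‖ ≤ 1) →
    ∫ t in T..(2 * T), ‖riemannZeta (1 / 2 + (t : ℂ) * Complex.I)‖ ^ 2 *
      ‖∑ m ∈ Ioc M (2 * M), a m * (m : ℂ) ^ (-(1 / 2 + (t : ℂ) * Complex.I))‖ ^ 2 ≤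
      C * T ^ (1 + ε) := by
  sorry

/-! ### TO (Fin.lean): the theorem

Dyadic blocks (M = 2^i, M ≤ N, plus the term n = 1, for which |ζ|²|a₁|² ≤ 2|ζ|²|2^{-s}|², the block
M = 1), Cauchy–Schwarz over ≤ C log T blocks; T < T₁ by continuity of ζ on the segment
[1/2+i, 1/2+2T₁i] and |A| ≤ N ≤ T₁. -/

theorem final (θ : ℝ) (hθ0 : 0 < θ) (hθ : θ < 14 / 27) (ε : ℝ) (hε : 0 < ε) :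
    ∃ C : ℝ, 0 < C ∧ ∀ T : ℝ, 1 ≤ T → ∀ N : ℕ, (N : ℝ) ≤ T ^ θ →
    ∀ a : ℕ → ℂ, (∀ n, ‖a n‖ ≤ 1) →
    ∫ t in T..(2 * T), ‖riemannZeta (1 / 2 + (t : ℂ) * Complex.I)‖ ^ 2 *
      ‖∑ n ∈ Icc 1 N, a n * (n : ℂ) ^ (-(1 / 2 + (t : ℂ) * Complex.I))‖ ^ 2 ≤
      C * T ^ (1 + ε) := by
  sorry

end Pool.Agent.H442R2.TSM
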