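import Pool.Agent.H442R2.TSM.TriApp

/-! `tri_app` with an arbitrary nonzero integer in place of the sign. -/

namespace Pool.Agent.H442R2.TSM

open Finset

open TaskTI in
theorem tri_app_k (δ : ℝ) (hδ : 0 < δ) : ∃ C : ℝ, 0 < C ∧ ∀ (M J R : ℕ), 1 ≤ M →
    ((J * R : ℕ) : ℝ) ≤ (M : ℝ) ^ (1 / 14 - δ) → ∀ V : ℝ, 1 ≤ V →
    ∀ w : ℕ → ℕ → ℝ → ℂ, (∀ j r, KF.Wei M V (w j r)) → ∀ s : ℤ, s ≠ 0 →
    |(s : ℝ)| * ((J * R : ℕ) : ℝ) ≤ V * (M : ℝ) ^ 2 →
    ∀ α β : ℕ → ℂ, (∀ m, ‖α m‖ ≤ 1) → (∀ n, ‖β n‖ ≤ 1) →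
    ‖∑ p ∈ CP M, α p.1 * β p.2 * ∑ j ∈ Icc 1 J, ∑ r ∈ Icc 1 R,
      w j r ((p.1 : ℝ) * p.2) * KF.kf (s * ((j : ℤ) * r)) p.1 p.2‖ ≤ C * V ^ 2 * (M : ℝ) ^ 2 := by
  obtain ⟨η, C1, hη, hC1, htri⟩ := KF.tri δ hδ
  obtain ⟨C2, hC2, hdiv⟩ := H353.divisor_bound_real η hη
  refine ⟨C2 * C1, by positivity, ?_⟩
  intro M J R hM hJR V hV w hw s hs0 hk α β hα hβ
  have hM1 : (1 : ℝ) ≤ M := by exact_mod_cast hM
  have hM0 : (0 : ℝ) < M := by linarith
  rcases Nat.eq_zero_or_pos (J * R) with h0 | hpos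
  · have hz : ∀ p : ℕ × ℕ, ∑ j ∈ Icc 1 J, ∑ r ∈ Icc 1 R,
        w j r ((p.1 : ℝ) * p.2) * KF.kf (s * ((j : ℤ) * r)) p.1 p.2 = 0 := by
      intro p
      rcases Nat.mul_eq_zero.mp h0 with h | h
      · subst h; simp
      · subst h; simp
    simp only [hz, mul_zero, sum_const_zero, norm_zero]
    positivity
  · have hJR1 : ((J * R : ℕ) : ℝ) ≤ M := by
      refine hJR.trans ?_
      calc (M : ℝ) ^ (1 / 14 - δ) ≤ (M : ℝ) ^ (1 : ℝ) :=
            Real.rpow_le_rpow_of_exponent_le hM1 (by linarith)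
        _ = M := Real.rpow_one _
    set B : ℝ := C2 * (M : ℝ) ^ η with hB
    have hB0 : 0 < B := by positivity
    have hcard : ∀ l, ((PP J R l).card : ℝ) ≤ B := by
      intro l
      rcases Nat.eq_zero_or_pos (PP J R l).card with h | h
      · rw [h]; simpa using hB0.le
      · obtain ⟨p, hp⟩ := card_pos.mp h
        have hp' := mem_filter.mp hp
        rw [mem_product, mem_Icc, mem_Icc] at hp'
        have hl0 : l ≠ 0 := by
          rw [← hp'.2]; exact Nat.mul_ne_zero (by omega) (by omega)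
        have hl : (l : ℝ) ≤ M := by
          refine le_trans ?_ hJR1
          have : l ≤ J * R := by
            rw [← hp'.2]; exact Nat.mul_le_mul hp'.1.1.2 hp'.1.2.2
          exact_mod_cast this
        calc ((PP J R l).card : ℝ) ≤ (l.divisors.card : ℝ) := by exact_mod_cast card_PP J R l
          _ ≤ C2 * (l : ℝ) ^ η := hdiv l hl0
          _ ≤ B := by
            apply mul_le_mul_of_nonneg_left _ hC2.le
            exact Real.rpow_le_rpow (Nat.cast_nonneg _) hl hη.le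
    have hmain := htri M (J * R) hM hpos hJR V hV (psi w J R B)
      (fun l => wei_psi hV hw hB0 (hcard l)) s hs0 hk α β hα hβ
    have hB' : (B : ℂ) ≠ 0 := by exact_mod_cast hB0.ne'
    have hident : ∑ p ∈ CP M, α p.1 * β p.2 * ∑ j ∈ Icc 1 J, ∑ r ∈ Icc 1 R,
        w j r ((p.1 : ℝ) * p.2) * KF.kf (s * ((j : ℤ) * r)) p.1 p.2 =
        (B : ℂ) * ∑ m ∈ Ioc M (2 * M + 1),
          ∑ n ∈ (Ioc M (2 * M + 1)).filter (fun n => Nat.Coprime m n),
            α m * β n * KF.FF (psi w J R B) s (J * R) n m := by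
      rw [sum_CP M (fun m n => α m * β n * ∑ j ∈ Icc 1 J, ∑ r ∈ Icc 1 R,
        w j r ((m : ℝ) * n) * KF.kf (s * ((j : ℤ) * r)) m n), mul_sum]
      apply sum_congr rfl
      intro m _
      rw [mul_sum]
      apply sum_congr rfl
      intro n _
      rw [FF_psi]
      push_cast
      field_simp
    rw [hident, norm_mul, Complex.norm_real, Real.norm_of_nonneg hB0.le]
    calc B * _ ≤ B * (C1 * V ^ 2 * (M : ℝ) ^ (2 - η)) := mul_le_mul_of_nonneg_left hmain hB0.le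
      _ = C2 * C1 * V ^ 2 * ((M : ℝ) ^ η * (M : ℝ) ^ (2 - η)) := by rw [hB]; ring
      _ = C2 * C1 * V ^ 2 * (M : ℝ) ^ 2 := by
        rw [← Real.rpow_add hM0]
        congr 1
        rw [show η + (2 - η) = ((2 : ℕ) : ℝ) by push_cast; ring, Real.rpow_natCast]

end Pool.Agent.H442R2.TSM
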